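import Mathlib

/-! Counting multipliers `t` mod a prime `M` for which `t * x` (and `t * y`) is close to a multiple of `M`. -/

set_option autoImplicit false

namespace Pool.Agent.MP_741d1b.H87

open Finset Classical

/-- `t * x` is within `M / n` of a multiple of `M`. -/
def Near (M n t : ℕ) (x : ℤ) : Prop := ∃ k : ℤ, |(t : ℤ) * x - k * M| * n ≤ M

/-- Integers in `[-L, L]` with all differences divisible by `p`. -/
theorem card_le_of_dvd (R : Finset ℤ) (p : ℕ) (hp : 0 < p) (L : ℝ) (hL0 : 0 ≤ L)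
    (hL : ∀ r ∈ R, |(r : ℝ)| ≤ L) (hd : ∀ r ∈ R, ∀ r' ∈ R, (p : ℤ) ∣ r - r') :
    (R.card : ℝ) ≤ 2 * L / p + 1 := by
  have hp' : (0 : ℝ) < p := by exact_mod_cast hp
  rcases R.eq_empty_or_nonempty with rfl | hne
  · simp; positivity
  · set m := R.min' hne with hm
    have hmR : m ∈ R := R.min'_mem hne
    have h1 : R.card ≤ (Finset.Icc (0 : ℤ) ⌊2 * L / p⌋).card := by
      refine Finset.card_le_card_of_injOn (fun r => (r - m) / p) ?_ ?_
      · intro r hr
        have hr' : r ∈ R := by simpa using hr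
        obtain ⟨c, hc⟩ := hd r hr' m hmR
        have hp0 : (p : ℤ) ≠ 0 := by exact_mod_cast hp.ne'
        have hq : (r - m) / (p : ℤ) = c := by rw [hc]; exact Int.mul_ediv_cancel_left _ hp0
        have hle : m ≤ r := R.min'_le r hr'
        have hc0 : 0 ≤ c := by
          have h0 : 0 ≤ (p : ℤ) * c := by rw [← hc]; linarith
          have hpz : (0 : ℤ) < p := by exact_mod_cast hp
          nlinarith
        simp only [Finset.coe_Icc, Set.mem_Icc, hq]
        refine ⟨hc0, ?_⟩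
        rw [Int.le_floor, le_div_iff₀ hp']
        have h2 : ((r : ℝ) - m) = p * c := by exact_mod_cast hc
        have h3 := hL r hr'
        have h4 := hL m hmR
        rw [abs_le] at h3 h4
        linarith [h2]
      · intro r hr r' hr' h
        have hr1 : r ∈ R := by simpa using hr
        have hr2 : r' ∈ R := by simpa using hr'
        obtain ⟨c, hc⟩ := hd r hr1 m hmR
        obtain ⟨c', hc'⟩ := hd r' hr2 m hmR
        have hp0 : (p : ℤ) ≠ 0 := by exact_mod_cast hp.ne'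
        simp only [hc, hc', Int.mul_ediv_cancel_left _ hp0] at h
        have : r - m = r' - m := by rw [hc, hc', h]
        linarith
    have hfl : (0 : ℤ) ≤ ⌊2 * L / p⌋ := Int.floor_nonneg.mpr (by positivity)
    have h2 : ((Finset.Icc (0 : ℤ) ⌊2 * L / p⌋).card : ℝ) = (⌊2 * L / p⌋ : ℝ) + 1 := by
      rw [Int.card_Icc]
      have : ((⌊2 * L / (p : ℝ)⌋ + 1 - 0).toNat : ℤ) = ⌊2 * L / (p : ℝ)⌋ + 1 := by
        rw [Int.toNat_of_nonneg (by linarith)]; ring
      exact_mod_cast this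
    calc (R.card : ℝ) ≤ ((Finset.Icc (0 : ℤ) ⌊2 * L / p⌋).card : ℝ) := by exact_mod_cast h1
      _ = (⌊2 * L / p⌋ : ℝ) + 1 := h2
      _ ≤ 2 * L / p + 1 := by linarith [Int.floor_le (2 * L / (p : ℝ))]

theorem near_real {M n t : ℕ} (hn : 0 < n) {x k : ℤ} (h : |(t : ℤ) * x - k * M| * n ≤ M) :
    |(((t : ℤ) * x - k * M : ℤ) : ℝ)| ≤ (M : ℝ) / n := by
  have hn' : (0 : ℝ) < n := by exact_mod_cast hn
  rw [le_div_iff₀ hn']
  have : ((|(t : ℤ) * x - k * M| * n : ℤ) : ℝ) ≤ ((M : ℤ) : ℝ) := by exact_mod_cast h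
  push_cast at this ⊢
  exact this

theorem inj_aux {M : ℕ} (hM : M.Prime) {x : ℤ} (hx : ¬ (M : ℤ) ∣ x) {t t' : ℕ} (ht : t < M)
    (ht' : t' < M) {k k' : ℤ} (h : (t : ℤ) * x - k * M = (t' : ℤ) * x - k' * M) : t = t' := by
  have h1 : (M : ℤ) ∣ ((t : ℤ) - t') * x := ⟨k - k', by linarith⟩
  have hMp : Prime (M : ℤ) := Nat.prime_iff_prime_int.mp hM
  rcases hMp.dvd_or_dvd h1 with h2 | h2
  · have h3 : (t : ℤ) ≡ t' [ZMOD M] := (Int.modEq_iff_dvd.mpr (by
      have := (dvd_neg.mpr h2); simpa using this))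
    have h4 := (Int.natCast_modEq_iff.mp h3)
    have h5 : t % M = t' % M := h4
    rwa [Nat.mod_eq_of_lt ht, Nat.mod_eq_of_lt ht'] at h5
  · exact absurd h2 hx

/-- One multiple. -/
theorem card_near_le {M n : ℕ} (hM : M.Prime) (hn : 0 < n) (hnM : n ≤ M) {x : ℤ}
    (hx : ¬ (M : ℤ) ∣ x) :
    (((range M).filter (fun t => Near M n t x)).card : ℝ) ≤ 3 * M / n := by
  have hn' : (0 : ℝ) < n := by exact_mod_cast hn
  set S := (range M).filter (fun t => Near M n t x) with hS
  have hk : ∀ t : ℕ, ∃ k : ℤ, t ∈ S → |(t : ℤ) * x - k * M| * n ≤ M := by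
    intro t
    by_cases ht : t ∈ S
    · rw [hS, mem_filter] at ht
      obtain ⟨k, hk⟩ := ht.2
      exact ⟨k, fun _ => hk⟩
    · exact ⟨0, fun h => absurd h ht⟩
  choose k hk using hk
  have hinj : Set.InjOn (fun t : ℕ => (t : ℤ) * x - k t * M) S := by
    intro t ht t' ht' h
    have h1 : t ∈ S := by simpa using ht
    have h2 : t' ∈ S := by simpa using ht'
    rw [hS, mem_filter, mem_range] at h1 h2
    exact inj_aux hM hx h1.1 h2.1 h
  have hcard : (S.image (fun t : ℕ => (t : ℤ) * x - k t * M)).card = S.card :=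
    Finset.card_image_of_injOn hinj
  have h1 := card_le_of_dvd (S.image (fun t : ℕ => (t : ℤ) * x - k t * M)) 1 one_pos
    ((M : ℝ) / n) (by positivity) (by
      intro r hr
      rw [mem_image] at hr
      obtain ⟨t, ht, rfl⟩ := hr
      exact near_real hn (hk t ht)) (by intro r _ r' _; simp)
  rw [hcard] at h1
  have h2 : (1 : ℝ) ≤ M / n := by
    rw [le_div_iff₀ hn']; rw [one_mul]; exact_mod_cast hnM
  calc (S.card : ℝ) ≤ 2 * (M / n) / (1 : ℕ) + 1 := h1
    _ = 2 * (M / n) + 1 := by simp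
    _ ≤ 3 * (M / n) := by linarith
    _ = 3 * M / n := by ring

/-- Two multiples, of `g p` and `g q` with `p, q` coprime and `|q| ≤ |p|`. -/
theorem card_near_pair_aux {M n : ℕ} (hM : M.Prime) (hn : 0 < n) {g p q : ℤ}
    (hpq : IsCoprime p q) (hp0 : p ≠ 0) (hle : |q| ≤ |p|) (hx : ¬ (M : ℤ) ∣ g * p)
    (hnM : (n : ℤ) * |p| ≤ M) :
    (((range M).filter (fun t => Near M n t (g * p) ∧ Near M n t (g * q))).card : ℝ) ≤
      (4 * (p.natAbs : ℝ) / n + 1) * (3 * M / (n * p.natAbs)) := by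
  have hn' : (0 : ℝ) < n := by exact_mod_cast hn
  have hM' : (0 : ℝ) < M := by exact_mod_cast hM.pos
  have hpa : 0 < p.natAbs := Int.natAbs_pos.mpr hp0
  have hpa' : (0 : ℝ) < (p.natAbs : ℝ) := by exact_mod_cast hpa
  have hpabs : |(p : ℝ)| = (p.natAbs : ℝ) := by
    rw [Nat.cast_natAbs]; push_cast; rfl
  set S := (range M).filter (fun t => Near M n t (g * p) ∧ Near M n t (g * q)) with hS
  have hk : ∀ t : ℕ, ∃ k l : ℤ, t ∈ S →
      |(t : ℤ) * (g * p) - k * M| * n ≤ M ∧ |(t : ℤ) * (g * q) - l * M| * n ≤ M := by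
    intro t
    by_cases ht : t ∈ S
    · rw [hS, mem_filter] at ht
      obtain ⟨⟨k, hk⟩, ⟨l, hl⟩⟩ := ht.2
      exact ⟨k, l, fun _ => ⟨hk, hl⟩⟩
    · exact ⟨0, 0, fun h => absurd h ht⟩
  choose k l hkl using hk
  set h : ℕ → ℤ := fun t => p * l t - q * k t with hh
  set r : ℕ → ℤ := fun t => (t : ℤ) * (g * p) - k t * M with hr
  -- relation
  have hrel : ∀ t, (M : ℤ) * h t = q * r t - p * ((t : ℤ) * (g * q) - l t * M) := by
    intro t; simp only [hh, hr]; ring
  have hbound : ∀ t ∈ S, |((h t : ℤ) : ℝ)| ≤ 2 * (p.natAbs : ℝ) / n := by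
    intro t ht
    obtain ⟨h1, h2⟩ := hkl t ht
    have h1' := near_real hn h1
    have h2' := near_real hn h2
    have h3 : ((M : ℝ) * (h t : ℝ)) =
        (q : ℝ) * (r t : ℝ) - p * ((((t : ℤ) * (g * q) - l t * M : ℤ)) : ℝ) := by
      exact_mod_cast hrel t
    have hq : |(q : ℝ)| ≤ (p.natAbs : ℝ) := by
      rw [← hpabs]; exact_mod_cast hle
    have h4 : (M : ℝ) * |(h t : ℝ)| ≤ (p.natAbs : ℝ) * (M / n) + (p.natAbs : ℝ) * (M / n) := by
      calc (M : ℝ) * |(h t : ℝ)| = |(M : ℝ) * (h t : ℝ)| := by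
            rw [abs_mul, abs_of_pos hM']
        _ = |(q : ℝ) * (r t : ℝ) - p * ((((t : ℤ) * (g * q) - l t * M : ℤ)) : ℝ)| := by rw [h3]
        _ ≤ |(q : ℝ) * (r t : ℝ)| + |p * ((((t : ℤ) * (g * q) - l t * M : ℤ)) : ℝ)| :=
            abs_sub _ _
        _ = |(q : ℝ)| * |(r t : ℝ)| + |(p : ℝ)| * |((((t : ℤ) * (g * q) - l t * M : ℤ)) : ℝ)| := by
            rw [abs_mul, abs_mul]
        _ ≤ (p.natAbs : ℝ) * (M / n) + (p.natAbs : ℝ) * (M / n) := by
            rw [hpabs]
            have e1 : |(r t : ℝ)| ≤ M / n := h1'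
            exact add_le_add (mul_le_mul hq e1 (abs_nonneg _) hpa'.le)
              (mul_le_mul_of_nonneg_left h2' hpa'.le)
    rw [le_div_iff₀ hn']
    have h5 : (M : ℝ) * (|(h t : ℝ)| * n) ≤ M * (2 * (p.natAbs : ℝ)) := by
      calc (M : ℝ) * (|(h t : ℝ)| * n) = (M * |(h t : ℝ)|) * n := by ring
        _ ≤ ((p.natAbs : ℝ) * (M / n) + (p.natAbs : ℝ) * (M / n)) * n :=
            mul_le_mul_of_nonneg_right h4 hn'.le
        _ = M * (2 * (p.natAbs : ℝ)) := by field_simp; ring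
    exact le_of_mul_le_mul_left h5 hM'
  -- number of values of h
  have hH : ((S.image h).card : ℝ) ≤ 4 * (p.natAbs : ℝ) / n + 1 := by
    have := card_le_of_dvd (S.image h) 1 one_pos (2 * (p.natAbs : ℝ) / n) (by positivity) (by
      intro y hy
      rw [mem_image] at hy
      obtain ⟨t, ht, rfl⟩ := hy
      exact hbound t ht) (by intro r _ r' _; simp)
    calc ((S.image h).card : ℝ) ≤ 2 * (2 * (p.natAbs : ℝ) / n) / (1 : ℕ) + 1 := this
      _ = 4 * (p.natAbs : ℝ) / n + 1 := by push_cast; ring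
  -- fibres
  have hfib : ∀ y ∈ S.image h, (((S.filter (fun t => h t = y)).card : ℕ) : ℝ) ≤
      3 * M / (n * p.natAbs) := by
    intro y _
    have hinj : Set.InjOn r (S.filter (fun t => h t = y)) := by
      intro t ht t' ht' he
      have h1 : t ∈ S.filter (fun t => h t = y) := by simpa using ht
      have h2 : t' ∈ S.filter (fun t => h t = y) := by simpa using ht'
      have h1' := (mem_filter.mp (mem_filter.mp h1).1).1
      have h2' := (mem_filter.mp (mem_filter.mp h2).1).1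
      exact inj_aux hM hx (mem_range.mp h1') (mem_range.mp h2') he
    have hcard := Finset.card_image_of_injOn hinj
    have h1 := card_le_of_dvd ((S.filter (fun t => h t = y)).image r) p.natAbs hpa
      ((M : ℝ) / n) (by positivity) (by
        intro z hz
        rw [mem_image] at hz
        obtain ⟨t, ht, rfl⟩ := hz
        exact near_real hn (hkl t (mem_filter.mp ht).1).1) (by
        intro z hz z' hz'
        rw [mem_image] at hz hz'
        obtain ⟨t, ht, rfl⟩ := hz
        obtain ⟨t', ht', rfl⟩ := hz'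
        have e1 := hrel t
        have e2 := hrel t'
        rw [(mem_filter.mp ht).2] at e1
        rw [(mem_filter.mp ht').2] at e2
        rw [Int.natAbs_dvd]
        have e3 : q * (r t - r t') = p * (((t : ℤ) * (g * q) - l t * M) -
            ((t' : ℤ) * (g * q) - l t' * M)) := by linarith
        exact hpq.dvd_of_dvd_mul_left (Dvd.intro _ e3.symm))
    rw [hcard] at h1
    have h2 : (1 : ℝ) ≤ M / (n * p.natAbs) := by
      rw [le_div_iff₀ (by positivity), one_mul]
      have : ((n : ℤ) * (p.natAbs : ℤ)) ≤ M := by rw [Int.natCast_natAbs]; exact hnM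
      exact_mod_cast this
    calc (((S.filter (fun t => h t = y)).card : ℕ) : ℝ) ≤ 2 * (M / n) / p.natAbs + 1 := h1
      _ = 2 * (M / (n * p.natAbs)) + 1 := by field_simp
      _ ≤ 3 * (M / (n * p.natAbs)) := by linarith
      _ = 3 * M / (n * p.natAbs) := by ring
  have hsum : (S.card : ℝ) = ∑ y ∈ S.image h, (((S.filter (fun t => h t = y)).card : ℕ) : ℝ) := by
    rw [Finset.card_eq_sum_card_image h S]; push_cast; rfl
  rw [hsum]
  calc ∑ y ∈ S.image h, (((S.filter (fun t => h t = y)).card : ℕ) : ℝ)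
      ≤ ∑ y ∈ S.image h, 3 * (M : ℝ) / (n * p.natAbs) := Finset.sum_le_sum hfib
    _ = ((S.image h).card : ℝ) * (3 * M / (n * p.natAbs)) := by rw [sum_const, nsmul_eq_mul]
    _ ≤ (4 * (p.natAbs : ℝ) / n + 1) * (3 * M / (n * p.natAbs)) :=
        mul_le_mul_of_nonneg_right hH (by positivity)

end Pool.Agent.MP_741d1b.H87
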