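import Mathlib
import Pool.Agent.Lib.MP_741d1b_nt_h87.Pair
import Pool.Agent.Lib.MP_456481_pr.Divisor

/-! A bound for GCD sums `∑ gcd (x, y) / max (x, y)` over a finite set of positive integers, by
iterating the Cauchy-Schwarz inequality. -/

set_option autoImplicit false

namespace Pool.Agent.MP_741d1b.H87

open Finset Classical

/-- The quadratic form attached to weighted dilations. -/
noncomputable def G (D : Finset ℕ) {ι : Type} [Fintype ι] (φ : ι → ℕ) (w : ι → ℝ) : ℝ :=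
  ∑ x ∈ D, ∑ y ∈ D, ∑ i : ι, ∑ j : ι, if x * φ i = y * φ j then w i * w j else 0

theorem G_nonneg (D : Finset ℕ) {ι : Type} [Fintype ι] (φ : ι → ℕ) (w : ι → ℝ)
    (hw : ∀ i, 0 ≤ w i) : 0 ≤ G D φ w := by
  unfold G
  refine sum_nonneg fun x _ => sum_nonneg fun y _ => sum_nonneg fun i _ => sum_nonneg fun j _ => ?_
  split_ifs
  · exact mul_nonneg (hw i) (hw j)
  · exact le_refl _

/-- One Cauchy-Schwarz step. -/
theorem G_step (D : Finset ℕ) {ι : Type} [Fintype ι] (φ : ι → ℕ)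
    (hφ : ∀ i, 0 < φ i) (w : ι → ℝ) (hw : ∀ i, 0 ≤ w i) :
    G D φ w ^ 2 ≤ D.card * G D (fun p : ι × ι => φ p.1 * φ p.2) (fun p => w p.1 * w p.2) := by
  set P : Finset (ℕ × ι × ι) := D ×ˢ (univ : Finset (ι × ι)) with hP
  set g : ℕ → ℝ := fun x => ∑ p ∈ P, if x * φ p.2.1 = p.1 * φ p.2.2 then w p.2.1 * w p.2.2 else 0
    with hg
  have hGg : G D φ w = ∑ x ∈ D, g x := by
    unfold G
    refine sum_congr rfl fun x _ => ?_
    show _ = ∑ p ∈ P, if x * φ p.2.1 = p.1 * φ p.2.2 then w p.2.1 * w p.2.2 else 0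
    rw [hP, Finset.sum_product]
    refine sum_congr rfl fun y _ => ?_
    rw [Fintype.sum_prod_type]
  have h1 : G D φ w ^ 2 ≤ D.card * ∑ x ∈ D, g x ^ 2 := by
    rw [hGg]; exact sq_sum_le_card_mul_sum_sq
  refine h1.trans (mul_le_mul_of_nonneg_left ?_ (Nat.cast_nonneg _))
  have h2 : ∑ x ∈ D, g x ^ 2 = ∑ p ∈ P, ∑ q ∈ P, ∑ x ∈ D,
      ((if x * φ p.2.1 = p.1 * φ p.2.2 then w p.2.1 * w p.2.2 else 0) *
       (if x * φ q.2.1 = q.1 * φ q.2.2 then w q.2.1 * w q.2.2 else 0)) := by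
    have : ∀ x ∈ D, g x ^ 2 = ∑ p ∈ P, ∑ q ∈ P,
      ((if x * φ p.2.1 = p.1 * φ p.2.2 then w p.2.1 * w p.2.2 else 0) *
       (if x * φ q.2.1 = q.1 * φ q.2.2 then w q.2.1 * w q.2.2 else 0)) := by
      intro x _
      rw [hg, sq, Finset.sum_mul_sum]
    rw [sum_congr rfl this, sum_comm]
    refine sum_congr rfl fun p _ => ?_
    rw [sum_comm]
  have h3 : ∀ p ∈ P, ∀ q ∈ P, ∑ x ∈ D,
      ((if x * φ p.2.1 = p.1 * φ p.2.2 then w p.2.1 * w p.2.2 else 0) *
       (if x * φ q.2.1 = q.1 * φ q.2.2 then w q.2.1 * w q.2.2 else 0)) ≤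
      if p.1 * (φ p.2.2 * φ q.2.1) = q.1 * (φ q.2.2 * φ p.2.1) then
        (w p.2.2 * w q.2.1) * (w q.2.2 * w p.2.1) else 0 := by
    intro p _ q _
    by_cases hx : ∃ x ∈ D, x * φ p.2.1 = p.1 * φ p.2.2 ∧ x * φ q.2.1 = q.1 * φ q.2.2
    · obtain ⟨x0, hx0, ha, hb⟩ := hx
      rw [Finset.sum_eq_single x0]
      · rw [if_pos ha, if_pos hb, if_pos]
        · apply le_of_eq; ring
        · calc p.1 * (φ p.2.2 * φ q.2.1) = (p.1 * φ p.2.2) * φ q.2.1 := by ring
            _ = (x0 * φ p.2.1) * φ q.2.1 := by rw [ha]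
            _ = (x0 * φ q.2.1) * φ p.2.1 := by ring
            _ = (q.1 * φ q.2.2) * φ p.2.1 := by rw [hb]
            _ = q.1 * (φ q.2.2 * φ p.2.1) := by ring
      · intro x _ hne
        have : ¬ x * φ p.2.1 = p.1 * φ p.2.2 := by
          intro h
          apply hne
          rw [← ha] at h
          exact Nat.eq_of_mul_eq_mul_right (hφ _) h
        rw [if_neg this, zero_mul]
      · intro h; exact absurd hx0 h
    · have : ∀ x ∈ D,
        ((if x * φ p.2.1 = p.1 * φ p.2.2 then w p.2.1 * w p.2.2 else 0) *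
         (if x * φ q.2.1 = q.1 * φ q.2.2 then w q.2.1 * w q.2.2 else 0)) = 0 := by
        intro x hxD
        by_cases h1 : x * φ p.2.1 = p.1 * φ p.2.2
        · by_cases h2 : x * φ q.2.1 = q.1 * φ q.2.2
          · exact absurd ⟨x, hxD, h1, h2⟩ hx
          · rw [if_neg h2, mul_zero]
        · rw [if_neg h1, zero_mul]
      rw [Finset.sum_eq_zero this]
      split_ifs
      · exact mul_nonneg (mul_nonneg (hw _) (hw _)) (mul_nonneg (hw _) (hw _))
      · exact le_refl _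
  rw [h2]
  refine (sum_le_sum fun p hp => sum_le_sum fun q hq => h3 p hp q hq).trans (le_of_eq ?_)
  unfold G
  rw [hP, Finset.sum_product]
  refine sum_congr rfl fun x _ => ?_
  have e1 : ∀ z : ι × ι, (∑ q ∈ D ×ˢ (univ : Finset (ι × ι)),
      if (x, z).1 * (φ (x, z).2.2 * φ q.2.1) = q.1 * (φ q.2.2 * φ (x, z).2.1) then
        (w (x, z).2.2 * w q.2.1) * (w q.2.2 * w (x, z).2.1) else 0) =
      ∑ y ∈ D, ∑ q : ι × ι, if x * (φ z.2 * φ q.1) = y * (φ q.2 * φ z.1) then
        (w z.2 * w q.1) * (w q.2 * w z.1) else 0 := by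
    intro z
    rw [Finset.sum_product]
  rw [sum_congr rfl (fun z _ => e1 z), sum_comm]
  refine sum_congr rfl fun y _ => ?_
  rw [← Fintype.sum_prod_type', ← Fintype.sum_prod_type']
  refine Fintype.sum_equiv
    { toFun := fun z => ((z.1.2, z.2.1), (z.2.2, z.1.1))
      invFun := fun z => ((z.2.2, z.1.1), (z.1.2, z.2.1))
      left_inv := fun z => rfl
      right_inv := fun z => rfl } _ _ ?_
  intro z
  rfl

/-- The basic bound. -/
theorem G_base (D : Finset ℕ) (hD : ∀ x ∈ D, 0 < x) {ι : Type} [Fintype ι] (φ : ι → ℕ)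
    (hφ : ∀ i, 0 < φ i) (w : ι → ℝ) (hw : ∀ i, 0 ≤ w i) (c : ℝ) (hc : 0 ≤ c) (U : ℕ)
    (hU : ∀ i, φ i ≤ U)
    (hW : ∀ u, 0 < u → ∑ i ∈ univ.filter (fun i => φ i = u), w i ≤ c / Real.sqrt u) :
    G D φ w ≤ (D.card : ℝ) ^ 2 * c ^ 2 * (1 + Real.log U) := by
  set W : ℕ → ℝ := fun u => ∑ i ∈ univ.filter (fun i => φ i = u), w i with hWdef
  have hW0 : ∀ u, 0 ≤ W u := fun u => sum_nonneg fun i _ => hw i
  have hharm : ∑ u ∈ Icc 1 U, (1 : ℝ) / u ≤ 1 + Real.log U := by
    have := harmonic_le_one_add_log U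
    rw [harmonic_eq_sum_Icc] at this
    push_cast at this
    simpa [one_div] using this
  have key : ∀ x ∈ D, ∀ y ∈ D, (∑ i : ι, ∑ j : ι, if x * φ i = y * φ j then w i * w j else 0) ≤
      c ^ 2 * (1 + Real.log U) := by
    intro x hx y hy
    have hx0 := hD x hx
    have hy0 := hD y hy
    have e1 : ∀ (F : ℕ → ℝ), ∑ i : ι, F (φ i) * w i = ∑ u ∈ Icc 1 U, F u * W u := by
      intro F
      rw [← Finset.sum_fiberwise_of_maps_to (g := φ) (t := Icc 1 U)
        (fun i _ => mem_Icc.mpr ⟨hφ i, hU i⟩)]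
      refine sum_congr rfl fun u _ => ?_
      rw [hWdef]
      simp only
      rw [mul_sum]
      refine sum_congr rfl fun i hi => ?_
      rw [(mem_filter.mp hi).2]
    have e2 : (∑ i : ι, ∑ j : ι, if x * φ i = y * φ j then w i * w j else 0) =
        ∑ u ∈ Icc 1 U, ∑ v ∈ Icc 1 U, if x * u = y * v then W u * W v else 0 := by
      have h1 : ∀ i : ι, (∑ j : ι, if x * φ i = y * φ j then w i * w j else 0) =
          (∑ v ∈ Icc 1 U, (if x * φ i = y * v then (1 : ℝ) else 0) * W v) * w i := by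
        intro i
        rw [← e1 (fun v => if x * φ i = y * v then (1 : ℝ) else 0), sum_mul]
        refine sum_congr rfl fun j _ => ?_
        split_ifs <;> ring
      rw [sum_congr rfl (fun i _ => h1 i),
        e1 (fun u => ∑ v ∈ Icc 1 U, (if x * u = y * v then (1 : ℝ) else 0) * W v)]
      refine sum_congr rfl fun u _ => ?_
      rw [sum_mul]
      refine sum_congr rfl fun v _ => ?_
      split_ifs <;> ring
    rw [e2]
    have e3 : ∀ u ∈ Icc 1 U, ∀ v ∈ Icc 1 U, (if x * u = y * v then W u * W v else 0) ≤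
        (if x * u = y * v then c ^ 2 * (1 / (u : ℝ)) / 2 else 0) +
        (if x * u = y * v then c ^ 2 * (1 / (v : ℝ)) / 2 else 0) := by
      intro u hu v hv
      split_ifs with h
      · have hu0 : (0 : ℝ) < u := by exact_mod_cast (mem_Icc.mp hu).1
        have hv0 : (0 : ℝ) < v := by exact_mod_cast (mem_Icc.mp hv).1
        have a1 : W u * W v ≤ (c / Real.sqrt u) * (c / Real.sqrt v) :=
          mul_le_mul (hW u (mem_Icc.mp hu).1) (hW v (mem_Icc.mp hv).1) (hW0 v) (by positivity)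
        have a2 : (c / Real.sqrt u) * (c / Real.sqrt v) =
            c ^ 2 * ((1 / Real.sqrt u) * (1 / Real.sqrt v)) := by ring
        have a3 : (1 / Real.sqrt u) * (1 / Real.sqrt v) ≤ (1 / (u : ℝ) + 1 / v) / 2 := by
          have b1 : (1 / Real.sqrt u) ^ 2 = 1 / (u : ℝ) := by
            rw [div_pow, one_pow, Real.sq_sqrt hu0.le]
          have b2 : (1 / Real.sqrt v) ^ 2 = 1 / (v : ℝ) := by
            rw [div_pow, one_pow, Real.sq_sqrt hv0.le]
          rw [← b1, ← b2]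
          nlinarith [sq_nonneg (1 / Real.sqrt u - 1 / Real.sqrt v)]
        have a4 := mul_le_mul_of_nonneg_left a3 (sq_nonneg c)
        linarith
      · simp
    refine (sum_le_sum fun u hu => sum_le_sum fun v hv => e3 u hu v hv).trans ?_
    simp only [sum_add_distrib]
    have f1 : ∑ u ∈ Icc 1 U, ∑ v ∈ Icc 1 U,
        (if x * u = y * v then c ^ 2 * (1 / (u : ℝ)) / 2 else 0) ≤
        c ^ 2 * (1 + Real.log U) / 2 := by
      have : ∀ u ∈ Icc 1 U, ∑ v ∈ Icc 1 U,
          (if x * u = y * v then c ^ 2 * (1 / (u : ℝ)) / 2 else 0) ≤ c ^ 2 * (1 / (u : ℝ)) / 2 := by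
        intro u hu
        have hu0 : (0 : ℝ) < u := by exact_mod_cast (mem_Icc.mp hu).1
        by_cases hv : ∃ v ∈ Icc 1 U, x * u = y * v
        · obtain ⟨v, hv, hxv⟩ := hv
          rw [Finset.sum_eq_single v]
          · rw [if_pos hxv]
          · intro v' _ hne
            rw [if_neg]
            intro h
            exact hne (Nat.eq_of_mul_eq_mul_left hy0 (h.symm.trans hxv))
          · intro h; exact absurd hv h
        · rw [Finset.sum_eq_zero]
          · positivity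
          · intro v hv'
            rw [if_neg]
            intro h
            exact hv ⟨v, hv', h⟩
      refine (sum_le_sum this).trans ?_
      rw [← sum_div, ← mul_sum]
      have := mul_le_mul_of_nonneg_left hharm (sq_nonneg c)
      linarith
    have f2 : ∑ u ∈ Icc 1 U, ∑ v ∈ Icc 1 U,
        (if x * u = y * v then c ^ 2 * (1 / (v : ℝ)) / 2 else 0) ≤
        c ^ 2 * (1 + Real.log U) / 2 := by
      rw [sum_comm]
      have : ∀ v ∈ Icc 1 U, ∑ u ∈ Icc 1 U,
          (if x * u = y * v then c ^ 2 * (1 / (v : ℝ)) / 2 else 0) ≤ c ^ 2 * (1 / (v : ℝ)) / 2 := by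
        intro v hv
        have hv0 : (0 : ℝ) < v := by exact_mod_cast (mem_Icc.mp hv).1
        by_cases hu : ∃ u ∈ Icc 1 U, x * u = y * v
        · obtain ⟨u, hu, hxu⟩ := hu
          rw [Finset.sum_eq_single u]
          · rw [if_pos hxu]
          · intro u' _ hne
            rw [if_neg]
            intro h
            exact hne (Nat.eq_of_mul_eq_mul_left hx0 (h.trans hxu.symm))
          · intro h; exact absurd hu h
        · rw [Finset.sum_eq_zero]
          · positivity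
          · intro u hu'
            rw [if_neg]
            intro h
            exact hu ⟨u, hu', h⟩
      refine (sum_le_sum this).trans ?_
      rw [← sum_div, ← mul_sum]
      have := mul_le_mul_of_nonneg_left hharm (sq_nonneg c)
      linarith
    linarith
  unfold G
  calc ∑ x ∈ D, ∑ y ∈ D, ∑ i : ι, ∑ j : ι, (if x * φ i = y * φ j then w i * w j else 0)
      ≤ ∑ x ∈ D, ∑ y ∈ D, c ^ 2 * (1 + Real.log U) :=
        sum_le_sum fun x hx => sum_le_sum fun y hy => key x hx y hy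
    _ = (D.card : ℝ) ^ 2 * c ^ 2 * (1 + Real.log U) := by
        rw [sum_const, sum_const, nsmul_eq_mul, nsmul_eq_mul]; ring

/-- Fibres of the product of two weighted systems. -/
theorem fib_prod {ι : Type} [Fintype ι] (φ : ι → ℕ) (w : ι → ℝ) (hw : ∀ i, 0 ≤ w i) (c : ℝ) (hc : 0 ≤ c)
    (hW : ∀ u, 0 < u → ∑ i ∈ univ.filter (fun i => φ i = u), w i ≤ c / Real.sqrt u)
    (u : ℕ) (hu : 0 < u) :
    ∑ p ∈ (univ : Finset (ι × ι)).filter (fun p => φ p.1 * φ p.2 = u), w p.1 * w p.2 ≤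
      (c ^ 2 * (u.divisors.card : ℝ)) / Real.sqrt u := by
  have h1 : ∑ p ∈ (univ : Finset (ι × ι)).filter (fun p => φ p.1 * φ p.2 = u), w p.1 * w p.2 =
      ∑ d ∈ u.divisorsAntidiagonal,
        ∑ p ∈ ((univ : Finset (ι × ι)).filter (fun p => φ p.1 * φ p.2 = u)).filter
          (fun p => (φ p.1, φ p.2) = d), w p.1 * w p.2 := by
    rw [Finset.sum_fiberwise_of_maps_to]
    intro p hp
    rw [Nat.mem_divisorsAntidiagonal]
    exact ⟨(mem_filter.mp hp).2, hu.ne'⟩
  rw [h1]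
  have h2 : ∀ d ∈ u.divisorsAntidiagonal,
      ∑ p ∈ ((univ : Finset (ι × ι)).filter (fun p => φ p.1 * φ p.2 = u)).filter
          (fun p => (φ p.1, φ p.2) = d), w p.1 * w p.2 ≤ c ^ 2 / Real.sqrt u := by
    intro d hd
    rw [Nat.mem_divisorsAntidiagonal] at hd
    have hd1 : 0 < d.1 := Nat.pos_of_ne_zero (fun h => hd.2 (by rw [← hd.1, h, zero_mul]))
    have hd2 : 0 < d.2 := Nat.pos_of_ne_zero (fun h => hd.2 (by rw [← hd.1, h, mul_zero]))
    have e1 : ((univ : Finset (ι × ι)).filter (fun p => φ p.1 * φ p.2 = u)).filter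
          (fun p => (φ p.1, φ p.2) = d) =
        (univ.filter (fun i => φ i = d.1)) ×ˢ (univ.filter (fun i => φ i = d.2)) := by
      ext p
      simp only [mem_filter, mem_univ, true_and, mem_product, Prod.ext_iff]
      constructor
      · rintro ⟨_, h⟩; exact h
      · intro h; exact ⟨by rw [h.1, h.2, hd.1], h⟩
    rw [e1, Finset.sum_product, ← Finset.sum_mul_sum]
    calc (∑ i ∈ univ.filter (fun i => φ i = d.1), w i) * ∑ j ∈ univ.filter (fun i => φ i = d.2), w j
        ≤ (c / Real.sqrt d.1) * (c / Real.sqrt d.2) :=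
          mul_le_mul (hW _ hd1) (hW _ hd2) (sum_nonneg fun i _ => hw i) (by positivity)
      _ = c ^ 2 / Real.sqrt u := by
          have hdu : (u : ℝ) = (d.1 : ℝ) * d.2 := by exact_mod_cast hd.1.symm
          rw [hdu, Real.sqrt_mul (Nat.cast_nonneg _)]
          have s1 : Real.sqrt (d.1 : ℝ) ≠ 0 := (Real.sqrt_pos.mpr (by exact_mod_cast hd1)).ne'
          have s2 : Real.sqrt (d.2 : ℝ) ≠ 0 := (Real.sqrt_pos.mpr (by exact_mod_cast hd2)).ne'
          field_simp
  refine (sum_le_sum h2).trans (le_of_eq ?_)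
  rw [sum_const, nsmul_eq_mul, ← Nat.map_div_right_divisors, card_map]
  ring

/-- The iterated bound. -/
theorem G_iter (D : Finset ℕ) (hD : ∀ x ∈ D, 0 < x) (Δ : ℝ) (hΔ1 : 1 ≤ Δ) (j : ℕ) :
    ∀ (ι : Type) [Fintype ι] (φ : ι → ℕ) (w : ι → ℝ) (c : ℝ) (U : ℕ),
      (∀ i, 0 < φ i) → (∀ i, 0 ≤ w i) → 0 ≤ c → 1 ≤ U → (∀ i, φ i ≤ U) →
      (∀ u, 0 < u → ∑ i ∈ univ.filter (fun i => φ i = u), w i ≤ c / Real.sqrt u) →
      (∀ u, 0 < u → u ≤ U ^ 2 ^ j → (u.divisors.card : ℝ) ≤ Δ) →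
      G D φ w ^ 2 ^ j ≤ (D.card : ℝ) ^ (2 ^ j + 1) * (c ^ 2 ^ j * Δ ^ (2 ^ j - 1)) ^ 2 *
        (1 + Real.log ((U : ℝ) ^ 2 ^ j)) := by
  induction j with
  | zero =>
    intro ι _ φ w c U hφ hw hc _ hU hW _
    have := G_base D hD φ hφ w hw c hc U hU hW
    simpa using this
  | succ j ih =>
    intro ι _ φ w c U hφ hw hc hU1 hU hW hΔ
    have h0 := G_nonneg D φ w hw
    have h1 := G_step D φ hφ w hw
    have hc' : 0 ≤ c ^ 2 * Δ := by positivity
    have hpowle : U ^ 2 ≤ U ^ 2 ^ (j + 1) := by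
      apply Nat.pow_le_pow_right hU1
      calc 2 = 2 ^ 1 := rfl
        _ ≤ 2 ^ (j + 1) := Nat.pow_le_pow_right (by norm_num) (by omega)
    have h2 := ih (ι × ι) (fun p => φ p.1 * φ p.2) (fun p => w p.1 * w p.2) (c ^ 2 * Δ) (U ^ 2)
      (fun p => Nat.mul_pos (hφ _) (hφ _)) (fun p => mul_nonneg (hw _) (hw _)) hc'
      (Nat.one_le_pow _ _ hU1)
      (fun p => by rw [sq]; exact Nat.mul_le_mul (hU _) (hU _))
      (fun u hu => by
        by_cases hle : u ≤ U ^ 2
        · refine (fib_prod φ w hw c hc hW u hu).trans ?_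
          have hd := hΔ u hu (hle.trans hpowle)
          gcongr
        · have : (univ : Finset (ι × ι)).filter (fun p => φ p.1 * φ p.2 = u) = ∅ := by
            apply filter_false_of_mem
            intro p _ h
            apply hle
            rw [← h, sq]
            exact Nat.mul_le_mul (hU _) (hU _)
          rw [this, sum_empty]
          positivity)
      (fun u hu hle => by
        apply hΔ u hu
        refine hle.trans (le_of_eq ?_)
        rw [← pow_mul, pow_succ 2 j]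
        ring_nf)
    have hG0 := G_nonneg D (fun p : ι × ι => φ p.1 * φ p.2) (fun p => w p.1 * w p.2)
      (fun p => mul_nonneg (hw _) (hw _))
    have e0 : (2 : ℕ) ^ (j + 1) = 2 * 2 ^ j := by rw [pow_succ]; ring
    have hpos : 1 ≤ 2 ^ j := Nat.one_le_two_pow
    calc G D φ w ^ 2 ^ (j + 1) = (G D φ w ^ 2) ^ 2 ^ j := by rw [e0, pow_mul]
      _ ≤ (D.card * G D (fun p : ι × ι => φ p.1 * φ p.2) (fun p => w p.1 * w p.2)) ^ 2 ^ j :=
          pow_le_pow_left₀ (sq_nonneg _) h1 _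
      _ = (D.card : ℝ) ^ 2 ^ j *
            G D (fun p : ι × ι => φ p.1 * φ p.2) (fun p => w p.1 * w p.2) ^ 2 ^ j := by
          rw [mul_pow]
      _ ≤ (D.card : ℝ) ^ 2 ^ j * ((D.card : ℝ) ^ (2 ^ j + 1) *
            ((c ^ 2 * Δ) ^ 2 ^ j * Δ ^ (2 ^ j - 1)) ^ 2 *
            (1 + Real.log (((U ^ 2 : ℕ) : ℝ) ^ 2 ^ j))) :=
          mul_le_mul_of_nonneg_left h2 (by positivity)
      _ = (D.card : ℝ) ^ (2 ^ (j + 1) + 1) * (c ^ 2 ^ (j + 1) * Δ ^ (2 ^ (j + 1) - 1)) ^ 2 *
            (1 + Real.log ((U : ℝ) ^ 2 ^ (j + 1))) := by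
          have e1 : 2 ^ (j + 1) - 1 = 2 ^ j + (2 ^ j - 1) := by omega
          have e2 : (((U ^ 2 : ℕ) : ℝ) ^ 2 ^ j) = (U : ℝ) ^ 2 ^ (j + 1) := by
            push_cast
            rw [← pow_mul, e0]
          rw [e2, e1, e0, mul_pow (c ^ 2) Δ, ← pow_mul c 2, pow_add Δ,
            show 2 * 2 ^ j + 1 = 2 ^ j + (2 ^ j + 1) by ring, pow_add (D.card : ℝ) (2 ^ j)]
          ring

/-- The height of the ratio of two integers. -/
def hgt (x y : ℤ) : ℕ := max x.natAbs y.natAbs / Int.gcd x y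

theorem hgt_natAbs (x y : ℤ) : hgt (x.natAbs : ℤ) (y.natAbs : ℤ) = hgt x y := by
  unfold hgt Int.gcd
  simp only [Int.natAbs_natCast]

/-- The truncated sum over natural numbers is bounded by the quadratic form. -/
theorem sum_le_G (D : Finset ℕ) (hD : ∀ x ∈ D, 0 < x) (n : ℕ) :
    ∑ x ∈ D, ∑ y ∈ D, (if hgt x y ≤ n then 1 / (hgt x y : ℝ) else 0) ≤
      G D (fun i : Fin n => (i : ℕ) + 1) (fun i : Fin n => 1 / Real.sqrt ((i : ℕ) + 1 : ℝ)) := by
  unfold G
  refine sum_le_sum fun x hx => sum_le_sum fun y hy => ?_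
  have hx0 := hD x hx
  have hy0 := hD y hy
  have hterm : ∀ i j : Fin n, 0 ≤ (if x * ((i : ℕ) + 1) = y * ((j : ℕ) + 1) then
      1 / Real.sqrt ((i : ℕ) + 1 : ℝ) * (1 / Real.sqrt ((j : ℕ) + 1 : ℝ)) else 0) := by
    intro i j
    split_ifs <;> positivity
  split_ifs with h
  · set g := Nat.gcd x y with hg
    have hg0 : 0 < g := Nat.gcd_pos_of_pos_left _ hx0
    obtain ⟨a, ha⟩ : g ∣ x := Nat.gcd_dvd_left x y
    obtain ⟨b, hb⟩ : g ∣ y := Nat.gcd_dvd_right x y
    have ha0 : 0 < a := Nat.pos_of_ne_zero (fun h => by rw [h, mul_zero] at ha; omega)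
    have hb0 : 0 < b := Nat.pos_of_ne_zero (fun h => by rw [h, mul_zero] at hb; omega)
    have hH : hgt x y = max a b := by
      unfold hgt
      have : Int.gcd (x : ℤ) (y : ℤ) = g := by simp [hg, Int.gcd]
      rw [this]
      simp only [Int.natAbs_natCast]
      conv_lhs => rw [ha, hb]
      rw [Nat.mul_max_mul_left, Nat.mul_div_cancel_left _ hg0]
    rw [hH] at h ⊢
    have han : a ≤ n := (le_max_left _ _).trans h
    have hbn : b ≤ n := (le_max_right _ _).trans h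
    have hfin : (1 : ℝ) / ((max a b : ℕ) : ℝ) ≤
        1 / Real.sqrt (((b - 1 : ℕ) : ℝ) + 1) * (1 / Real.sqrt (((a - 1 : ℕ) : ℝ) + 1)) := by
      have e1 : (((b - 1 : ℕ) : ℝ) + 1) = b := by
        have : b - 1 + 1 = b := by omega
        exact_mod_cast this
      have e2 : (((a - 1 : ℕ) : ℝ) + 1) = a := by
        have : a - 1 + 1 = a := by omega
        exact_mod_cast this
      rw [e1, e2, one_div_mul_one_div]
      apply one_div_le_one_div_of_le
      · have s1 := Real.sqrt_pos.mpr (show (0 : ℝ) < b by exact_mod_cast hb0)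
        have s2 := Real.sqrt_pos.mpr (show (0 : ℝ) < a by exact_mod_cast ha0)
        positivity
      · push_cast
        have m1 : (a : ℝ) ≤ max (a : ℝ) b := le_max_left _ _
        have m2 : (b : ℝ) ≤ max (a : ℝ) b := le_max_right _ _
        have m0 : 0 ≤ max (a : ℝ) (b : ℝ) := (Nat.cast_nonneg a).trans m1
        calc Real.sqrt b * Real.sqrt a ≤ Real.sqrt (max (a : ℝ) b) * Real.sqrt (max (a : ℝ) b) :=
              mul_le_mul (Real.sqrt_le_sqrt m2) (Real.sqrt_le_sqrt m1) (Real.sqrt_nonneg _)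
                (Real.sqrt_nonneg _)
          _ = max (a : ℝ) b := Real.mul_self_sqrt m0
    have hb1 : b - 1 < n := by omega
    have ha1 : a - 1 < n := by omega
    calc (1 : ℝ) / ((max a b : ℕ) : ℝ)
        ≤ 1 / Real.sqrt (((b - 1 : ℕ) : ℝ) + 1) * (1 / Real.sqrt (((a - 1 : ℕ) : ℝ) + 1)) := hfin
      _ = (if x * (((⟨b - 1, hb1⟩ : Fin n) : ℕ) + 1) = y * (((⟨a - 1, ha1⟩ : Fin n) : ℕ) + 1) then
            1 / Real.sqrt (((⟨b - 1, hb1⟩ : Fin n) : ℕ) + 1 : ℝ) *
            (1 / Real.sqrt (((⟨a - 1, ha1⟩ : Fin n) : ℕ) + 1 : ℝ)) else 0) := by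
          rw [if_pos]
          simp only
          have t1 : b - 1 + 1 = b := by omega
          have t2 : a - 1 + 1 = a := by omega
          rw [t1, t2]
          conv_lhs => rw [ha]
          conv_rhs => rw [hb]
          ring
      _ ≤ ∑ j : Fin n, (if x * (((⟨b - 1, hb1⟩ : Fin n) : ℕ) + 1) = y * ((j : ℕ) + 1) then
            1 / Real.sqrt (((⟨b - 1, hb1⟩ : Fin n) : ℕ) + 1 : ℝ) *
            (1 / Real.sqrt ((j : ℕ) + 1 : ℝ)) else 0) :=
          Finset.single_le_sum (f := fun j : Fin n =>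
            (if x * (((⟨b - 1, hb1⟩ : Fin n) : ℕ) + 1) = y * ((j : ℕ) + 1) then
            1 / Real.sqrt (((⟨b - 1, hb1⟩ : Fin n) : ℕ) + 1 : ℝ) *
            (1 / Real.sqrt ((j : ℕ) + 1 : ℝ)) else 0)) (fun j _ => hterm _ j) (mem_univ _)
      _ ≤ _ := Finset.single_le_sum (f := fun i : Fin n =>
            ∑ j : Fin n, (if x * ((i : ℕ) + 1) = y * ((j : ℕ) + 1) then
            1 / Real.sqrt ((i : ℕ) + 1 : ℝ) * (1 / Real.sqrt ((j : ℕ) + 1 : ℝ)) else 0))
            (fun i _ => sum_nonneg fun j _ => hterm i j) (mem_univ _)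
  · exact sum_nonneg fun i _ => sum_nonneg fun j _ => hterm i j

/-- GCD sum bound for positive integers, explicit form. -/
theorem gcd_sum_pow (D : Finset ℕ) (hD : ∀ x ∈ D, 0 < x) (n : ℕ) (hn : 1 ≤ n) (j : ℕ) (Δ : ℝ)
    (hΔ1 : 1 ≤ Δ) (hΔ : ∀ u, 0 < u → u ≤ n ^ 2 ^ j → (u.divisors.card : ℝ) ≤ Δ) :
    (∑ x ∈ D, ∑ y ∈ D, (if hgt x y ≤ n then 1 / (hgt x y : ℝ) else 0)) ^ 2 ^ j ≤
      (D.card : ℝ) ^ (2 ^ j + 1) * (Δ ^ (2 ^ j - 1)) ^ 2 * (1 + Real.log ((n : ℝ) ^ 2 ^ j)) := by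
  have h1 := sum_le_G D hD n
  have h0 : 0 ≤ ∑ x ∈ D, ∑ y ∈ D, (if hgt x y ≤ n then 1 / (hgt x y : ℝ) else 0) := by
    refine sum_nonneg fun x _ => sum_nonneg fun y _ => ?_
    split_ifs <;> positivity
  refine (pow_le_pow_left₀ h0 h1 _).trans ?_
  have := G_iter D hD Δ hΔ1 j (Fin n) (fun i : Fin n => (i : ℕ) + 1)
    (fun i : Fin n => 1 / Real.sqrt ((i : ℕ) + 1 : ℝ)) 1 n (fun i => Nat.succ_pos _)
    (fun i => by positivity) zero_le_one hn (fun i => i.2) (by
      intro u hu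
      have hsub : ∀ i ∈ (univ : Finset (Fin n)).filter (fun i : Fin n => (i : ℕ) + 1 = u),
          ∀ i' ∈ (univ : Finset (Fin n)).filter (fun i : Fin n => (i : ℕ) + 1 = u), i = i' := by
        intro i hi i' hi'
        have a := (mem_filter.mp hi).2
        have b := (mem_filter.mp hi').2
        apply Fin.ext
        omega
      have hcard : ((univ : Finset (Fin n)).filter (fun i : Fin n => (i : ℕ) + 1 = u)).card ≤ 1 :=
        Finset.card_le_one.mpr hsub
      calc ∑ i ∈ (univ : Finset (Fin n)).filter (fun i : Fin n => (i : ℕ) + 1 = u),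
            1 / Real.sqrt ((i : ℕ) + 1 : ℝ)
          = ∑ i ∈ (univ : Finset (Fin n)).filter (fun i : Fin n => (i : ℕ) + 1 = u),
            1 / Real.sqrt (u : ℝ) := by
            refine sum_congr rfl fun i hi => ?_
            have := (mem_filter.mp hi).2
            rw [← this]; push_cast; rfl
        _ = (((univ : Finset (Fin n)).filter (fun i : Fin n => (i : ℕ) + 1 = u)).card : ℝ) *
            (1 / Real.sqrt (u : ℝ)) := by rw [sum_const, nsmul_eq_mul]
        _ ≤ 1 * (1 / Real.sqrt (u : ℝ)) := by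
            apply mul_le_mul_of_nonneg_right _ (by positivity)
            exact_mod_cast hcard
        _ = 1 / Real.sqrt u := one_mul _) hΔ
  simpa using this

end Pool.Agent.MP_741d1b.H87
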