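import Mathlib
import Pool.Agent.Lib.MP_741d1b_nt_h87.Gcd

/-! The GCD sum over a set of at most `n ^ 2` nonzero integers, truncated at height `n`, is at
most `C |D| n ^ ε`. -/

set_option autoImplicit false

namespace Pool.Agent.MP_741d1b.H87

open Finset Classical

theorem gcd_sum_nat (ε : ℝ) (hε : 0 < ε) : ∃ C : ℝ, 1 ≤ C ∧ ∀ n : ℕ, 1 ≤ n → ∀ D : Finset ℕ,
    (∀ x ∈ D, 0 < x) → D.card ≤ n ^ 2 →
      ∑ x ∈ D, ∑ y ∈ D, (if hgt x y ≤ n then 1 / (hgt x y : ℝ) else 0) ≤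
        C * D.card * (n : ℝ) ^ ε := by
  obtain ⟨j, hj⟩ : ∃ j : ℕ, 4 / ε ≤ (2 : ℝ) ^ j := by
    obtain ⟨j, hj⟩ := pow_unbounded_of_one_lt (4 / ε) (by norm_num : (1 : ℝ) < 2)
    exact ⟨j, hj.le⟩
  set E : ℕ := 2 ^ j with hE
  have hE1 : 1 ≤ E := Nat.one_le_two_pow
  have hE0 : (0 : ℝ) < E := by exact_mod_cast hE1
  have hEε : 4 ≤ ε * E := by
    have : 4 / ε ≤ (E : ℝ) := by rw [hE]; push_cast; exact hj
    rw [div_le_iff₀ hε] at this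
    linarith
  obtain ⟨C₁, hC₁, hdiv⟩ := Pool.Agent.Lib.MP_456481_pr.divisor_bound (ε / (8 * E)) (by positivity)
  refine ⟨C₁ ^ 2 * (1 + 4 / ε), ?_, ?_⟩
  · have h1 : 1 ≤ C₁ ^ 2 := one_le_pow₀ hC₁
    have h2 : 0 ≤ 4 / ε := by positivity
    nlinarith
  intro n hn D hD hcard
  have hn1 : (1 : ℝ) ≤ n := by exact_mod_cast hn
  have hn0 : (0 : ℝ) < n := by linarith
  set Δ : ℝ := C₁ * (n : ℝ) ^ (ε / 8) with hΔ
  have hΔ1 : 1 ≤ Δ := by
    have := Real.one_le_rpow hn1 (by positivity : 0 ≤ ε / 8)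
    nlinarith
  have hmain := gcd_sum_pow D hD n hn j Δ hΔ1 (by
    intro u hu hle
    refine (hdiv u hu.ne').trans ?_
    rw [hΔ]
    apply mul_le_mul_of_nonneg_left _ (by linarith)
    calc (u : ℝ) ^ (ε / (8 * E)) ≤ ((n : ℝ) ^ E) ^ (ε / (8 * E)) := by
          apply Real.rpow_le_rpow (Nat.cast_nonneg _) _ (by positivity)
          exact_mod_cast hle
      _ = (n : ℝ) ^ (ε / 8) := by
          rw [← Real.rpow_natCast (n : ℝ) E, ← Real.rpow_mul hn0.le]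
          congr 1
          field_simp)
  rw [← hE] at hmain
  set Γ := ∑ x ∈ D, ∑ y ∈ D, (if hgt x y ≤ n then 1 / (hgt x y : ℝ) else 0) with hΓ
  have hB0 : 0 ≤ C₁ ^ 2 * (1 + 4 / ε) * D.card * (n : ℝ) ^ ε := by positivity
  refine le_of_pow_le_pow_left₀ (n := E) (by omega) hB0 (hmain.trans ?_)
  have k1 : (D.card : ℝ) ≤ ((n : ℝ) ^ (ε / 2)) ^ E := by
    calc (D.card : ℝ) ≤ (n : ℝ) ^ (2 : ℕ) := by exact_mod_cast hcard
      _ = (n : ℝ) ^ (2 : ℝ) := by norm_num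
      _ ≤ (n : ℝ) ^ (ε / 2 * E) := Real.rpow_le_rpow_of_exponent_le hn1 (by linarith)
      _ = ((n : ℝ) ^ (ε / 2)) ^ E := by rw [Real.rpow_mul hn0.le, Real.rpow_natCast]
  have k2 : (Δ ^ (E - 1)) ^ 2 ≤ (C₁ ^ 2 * (n : ℝ) ^ (ε / 4)) ^ E := by
    calc (Δ ^ (E - 1)) ^ 2 ≤ (Δ ^ E) ^ 2 := by
          apply pow_le_pow_left₀ (by positivity)
          exact pow_le_pow_right₀ hΔ1 (by omega)
      _ = (Δ ^ 2) ^ E := by rw [← pow_mul, ← pow_mul, mul_comm]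
      _ = (C₁ ^ 2 * (n : ℝ) ^ (ε / 4)) ^ E := by
          congr 1
          rw [hΔ, mul_pow, ← Real.rpow_natCast ((n : ℝ) ^ (ε / 8)) 2, ← Real.rpow_mul hn0.le]
          congr 2
          push_cast; ring
  have hlog0 : 0 ≤ Real.log n := Real.log_nonneg hn1
  have k3 : 1 + Real.log ((n : ℝ) ^ E) ≤ ((1 + 4 / ε) * (n : ℝ) ^ (ε / 4)) ^ E := by
    have h1 : 1 + Real.log ((n : ℝ) ^ E) ≤ (1 + Real.log n) ^ E := by
      rw [Real.log_pow]
      exact one_add_mul_le_pow (by linarith) E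
    refine h1.trans (pow_le_pow_left₀ (by linarith) ?_ _)
    have h2 : Real.log n ≤ (n : ℝ) ^ (ε / 4) / (ε / 4) := Real.log_le_rpow_div hn0.le (by positivity)
    have h3 : 1 ≤ (n : ℝ) ^ (ε / 4) := Real.one_le_rpow hn1 (by positivity)
    have h4 : (n : ℝ) ^ (ε / 4) / (ε / 4) = 4 / ε * (n : ℝ) ^ (ε / 4) := by field_simp
    rw [h4] at h2
    nlinarith
  have hlogn : 0 ≤ 1 + Real.log ((n : ℝ) ^ E) := by
    rw [Real.log_pow]; positivity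
  calc (D.card : ℝ) ^ (E + 1) * (Δ ^ (E - 1)) ^ 2 * (1 + Real.log ((n : ℝ) ^ E))
      ≤ ((D.card : ℝ) ^ E * ((n : ℝ) ^ (ε / 2)) ^ E) * (C₁ ^ 2 * (n : ℝ) ^ (ε / 4)) ^ E *
          ((1 + 4 / ε) * (n : ℝ) ^ (ε / 4)) ^ E := by
        rw [pow_succ]
        have a1 : (D.card : ℝ) ^ E * (D.card : ℝ) ≤ (D.card : ℝ) ^ E * ((n : ℝ) ^ (ε / 2)) ^ E :=
          mul_le_mul_of_nonneg_left k1 (by positivity)
        exact mul_le_mul (mul_le_mul a1 k2 (by positivity) (by positivity)) k3 hlogn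
          (by positivity)
    _ = (C₁ ^ 2 * (1 + 4 / ε) * D.card * (n : ℝ) ^ ε) ^ E := by
        rw [← mul_pow, ← mul_pow, ← mul_pow]
        congr 1
        have : (n : ℝ) ^ ε = (n : ℝ) ^ (ε / 2) * (n : ℝ) ^ (ε / 4) * (n : ℝ) ^ (ε / 4) := by
          rw [← Real.rpow_add hn0, ← Real.rpow_add hn0]
          congr 1; ring
        rw [this]; ring

theorem sum_natAbs_le (D : Finset ℤ) (g : ℕ → ℝ) (hg : ∀ a, 0 ≤ g a) :
    ∑ x ∈ D, g x.natAbs ≤ 2 * ∑ a ∈ D.image Int.natAbs, g a := by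
  rw [Finset.sum_comp g Int.natAbs, mul_sum]
  refine sum_le_sum fun a _ => ?_
  rw [nsmul_eq_mul]
  apply mul_le_mul_of_nonneg_right _ (hg a)
  have : D.filter (fun x => x.natAbs = a) ⊆ {(a : ℤ), -(a : ℤ)} := by
    intro x hx
    have := (mem_filter.mp hx).2
    simp only [mem_insert, mem_singleton]
    omega
  have h2 := (card_le_card this).trans Finset.card_le_two
  exact_mod_cast h2

/-- The GCD sum for nonzero integers. -/
theorem gcd_sum_int (ε : ℝ) (hε : 0 < ε) : ∃ C : ℝ, 1 ≤ C ∧ ∀ n : ℕ, 1 ≤ n → ∀ D : Finset ℤ,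
    (∀ x ∈ D, x ≠ 0) → D.card ≤ n ^ 2 →
      ∑ x ∈ D, ∑ y ∈ D, (if hgt x y ≤ n then 1 / (hgt x y : ℝ) else 0) ≤
        C * D.card * (n : ℝ) ^ ε := by
  obtain ⟨C, hC, h⟩ := gcd_sum_nat ε hε
  refine ⟨4 * C, by linarith, ?_⟩
  intro n hn D hD hcard
  set F : ℕ → ℕ → ℝ := fun a b => if hgt a b ≤ n then 1 / (hgt a b : ℝ) else 0 with hF
  have hF0 : ∀ a b, 0 ≤ F a b := by
    intro a b
    rw [hF]
    simp only
    split_ifs <;> positivity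
  have e1 : ∀ x y : ℤ, (if hgt x y ≤ n then 1 / (hgt x y : ℝ) else 0) =
      F x.natAbs y.natAbs := by
    intro x y
    rw [hF]
    simp only [hgt_natAbs]
  simp only [e1]
  have h1 : ∑ x ∈ D, ∑ y ∈ D, F x.natAbs y.natAbs ≤
      2 * ∑ a ∈ D.image Int.natAbs, ∑ y ∈ D, F a y.natAbs :=
    sum_natAbs_le D (fun a => ∑ y ∈ D, F a y.natAbs) (fun a => sum_nonneg fun y _ => hF0 _ _)
  have h2 : ∑ a ∈ D.image Int.natAbs, ∑ y ∈ D, F a y.natAbs ≤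
      ∑ a ∈ D.image Int.natAbs, 2 * ∑ b ∈ D.image Int.natAbs, F a b :=
    sum_le_sum fun a _ => sum_natAbs_le D (F a) (hF0 a)
  have h3 := h n hn (D.image Int.natAbs) (by
    intro a ha
    obtain ⟨x, hx, rfl⟩ := mem_image.mp ha
    exact Int.natAbs_pos.mpr (hD x hx)) (card_image_le.trans hcard)
  have h4 : ((D.image Int.natAbs).card : ℝ) ≤ D.card := by exact_mod_cast card_image_le
  rw [← mul_sum] at h2
  have hn0 : (0 : ℝ) ≤ (n : ℝ) ^ ε := by positivity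
  calc ∑ x ∈ D, ∑ y ∈ D, F x.natAbs y.natAbs
      ≤ 2 * (2 * ∑ a ∈ D.image Int.natAbs, ∑ b ∈ D.image Int.natAbs, F a b) := by linarith
    _ ≤ 2 * (2 * (C * (D.image Int.natAbs).card * (n : ℝ) ^ ε)) := by linarith [h3]
    _ ≤ 2 * (2 * (C * D.card * (n : ℝ) ^ ε)) := by gcongr
    _ = 4 * C * D.card * (n : ℝ) ^ ε := by ring

end Pool.Agent.MP_741d1b.H87
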