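import Mathlib
import Pool.Agent.Lib.MP_741d1b_nt_h87.GcdFinal

/-! The cluster lemma (deterministic), the expectations and the choice of the multiplier. -/

set_option autoImplicit false

namespace Pool.Agent.MP_741d1b.H87

open Finset Classical

/-- The elements `a` of `A` with `a - x ∈ A`. -/
noncomputable def S (A : Finset ℤ) (x : ℤ) : Finset ℤ := A.filter (fun a => a - x ∈ A)

/-- Nondegenerate pairs of representations of `x` (as a real number). -/
noncomputable def Q (A : Finset ℤ) (n : ℕ) (N : ℤ → Prop) (x : ℤ) : ℝ :=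
  ∑ a ∈ S A x, ∑ c ∈ S A x, if a ≠ c ∧ n < hgt x (a - c) ∧ N x ∧ N (a - c) then (1 : ℝ) else 0

noncomputable def f1 (A D : Finset ℤ) (N : ℤ → Prop) : ℝ :=
  ∑ x ∈ D, if N x then ((S A x).card : ℝ) else 0

noncomputable def f2 (D : Finset ℤ) (n : ℕ) (N : ℤ → Prop) : ℝ :=
  ∑ x ∈ D, ∑ y ∈ D, if N x ∧ N y ∧ hgt x y ≤ n then (1 : ℝ) else 0

noncomputable def f3 (A D : Finset ℤ) (n : ℕ) (N : ℤ → Prop) : ℝ :=
  ∑ x ∈ D, Q A n N x / ((S A x).card : ℝ)

theorem Q_nonneg (A : Finset ℤ) (n : ℕ) (N : ℤ → Prop) (x : ℤ) : 0 ≤ Q A n N x := by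
  unfold Q
  refine sum_nonneg fun a _ => sum_nonneg fun c _ => ?_
  split_ifs <;> norm_num

theorem hgt_self {x : ℤ} (hx : x ≠ 0) : hgt x x = 1 := by
  unfold hgt
  have h : 0 < x.natAbs := Int.natAbs_pos.mpr hx
  rw [max_self]
  simp only [Int.gcd_self]
  exact Nat.div_self h

/-- The count for one difference. -/
theorem rho_sq_le (A D C : Finset ℤ) (hCA : C ⊆ A) (hD0 : ∀ x ∈ D, x ≠ 0) (N : ℤ → Prop)
    (hCD : ∀ a ∈ C, ∀ b ∈ C, a ≠ b → a - b ∈ D) (hN : ∀ a ∈ C, ∀ b ∈ C, a ≠ b → N (a - b))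
    (n : ℕ) (hn : 1 ≤ n) (x : ℤ) (hx : x ∈ D) (hpos : 0 < (S C x).card) :
    ((S C x).card : ℝ) ^ 2 ≤ 2 * (S C x).card *
      (∑ y ∈ D, if N x ∧ N y ∧ hgt x y ≤ n then (1 : ℝ) else 0) + Q A n N x := by
  set m : ℝ := ∑ y ∈ D, if N x ∧ N y ∧ hgt x y ≤ n then (1 : ℝ) else 0 with hm
  have hx0 := hD0 x hx
  -- x is near
  have hNx : N x := by
    obtain ⟨a, ha⟩ := card_pos.mp hpos
    rw [S, mem_filter] at ha
    have := hN a ha.1 (a - x) ha.2 (by intro h; apply hx0; linarith)
    simpa using this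
  have hterm0 : ∀ y ∈ D, 0 ≤ (if N x ∧ N y ∧ hgt x y ≤ n then (1 : ℝ) else 0) := by
    intro y _; split_ifs <;> norm_num
  have hm1 : 1 ≤ m := by
    have h1 := Finset.single_le_sum hterm0 hx
    rw [if_pos ⟨hNx, hNx, by rw [hgt_self hx0]; exact hn⟩] at h1
    exact h1
  have hsub : S C x ⊆ S A x := by
    intro a ha
    rw [S, mem_filter] at ha ⊢
    exact ⟨hCA ha.1, hCA ha.2⟩
  have hSC : S C x ⊆ C := filter_subset _ _
  -- the square of the cardinality
  have h1 : ((S C x).card : ℝ) ^ 2 = ∑ a ∈ S C x, ∑ c ∈ S C x, (1 : ℝ) := by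
    simp [sq]
  have h2 : ∀ a ∈ S C x, ∀ c ∈ S C x, (1 : ℝ) ≤ (if a = c then 1 else 0) +
      (if a ≠ c ∧ hgt x (a - c) ≤ n then 1 else 0) +
      (if a ≠ c ∧ n < hgt x (a - c) ∧ N x ∧ N (a - c) then (1 : ℝ) else 0) := by
    intro a ha c hc
    by_cases hac : a = c
    · simp [hac]
    · have hNac := hN a (hSC ha) c (hSC hc) hac
      by_cases hh : hgt x (a - c) ≤ n
      · have h3 : ¬ n < hgt x (a - c) := not_lt.mpr hh
        simp [hac, hh, h3]
      · have h3 : n < hgt x (a - c) := not_le.mp hh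
        simp [hac, hh, h3, hNx, hNac]
  have h3 : ∑ a ∈ S C x, ∑ c ∈ S C x, (if a = c then (1 : ℝ) else 0) = (S C x).card := by
    have : ∀ a ∈ S C x, ∑ c ∈ S C x, (if a = c then (1 : ℝ) else 0) = 1 := by
      intro a ha
      rw [Finset.sum_ite_eq, if_pos ha]
    rw [sum_congr rfl this]; simp
  have h4 : ∀ a ∈ S C x, ∑ c ∈ S C x, (if a ≠ c ∧ hgt x (a - c) ≤ n then (1 : ℝ) else 0) ≤ m := by
    intro a ha
    have e1 : ∑ c ∈ S C x, (if a ≠ c ∧ hgt x (a - c) ≤ n then (1 : ℝ) else 0) =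
        ∑ c ∈ (S C x).erase a, (if a ≠ c ∧ hgt x (a - c) ≤ n then (1 : ℝ) else 0) := by
      rw [← Finset.sum_erase (s := S C x) (a := a)]
      simp
    rw [e1]
    have e2 : ∑ c ∈ (S C x).erase a, (if a ≠ c ∧ hgt x (a - c) ≤ n then (1 : ℝ) else 0) =
        ∑ y ∈ ((S C x).erase a).image (fun c => a - c),
          (if N x ∧ N y ∧ hgt x y ≤ n then (1 : ℝ) else 0) := by
      rw [Finset.sum_image]
      · refine sum_congr rfl fun c hc => ?_
        have hc' := mem_erase.mp hc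
        have hNac := hN a (hSC ha) c (hSC hc'.2) (Ne.symm hc'.1)
        have hne : a ≠ c := Ne.symm hc'.1
        simp [hne, hNx, hNac]
      · intro c _ c' _ h
        simp only at h
        linarith
    rw [e2, hm]
    refine Finset.sum_le_sum_of_subset_of_nonneg ?_ (fun y hy _ => hterm0 y hy)
    intro y hy
    obtain ⟨c, hc, rfl⟩ := mem_image.mp hy
    have hc' := mem_erase.mp hc
    exact hCD a (hSC ha) c (hSC hc'.2) (Ne.symm hc'.1)
  have h5 : ∑ a ∈ S C x, ∑ c ∈ S C x,
      (if a ≠ c ∧ n < hgt x (a - c) ∧ N x ∧ N (a - c) then (1 : ℝ) else 0) ≤ Q A n N x := by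
    unfold Q
    have n0 : ∀ a c, 0 ≤ (if a ≠ c ∧ n < hgt x (a - c) ∧ N x ∧ N (a - c) then (1 : ℝ) else 0) := by
      intro a c; split_ifs <;> norm_num
    calc ∑ a ∈ S C x, ∑ c ∈ S C x,
        (if a ≠ c ∧ n < hgt x (a - c) ∧ N x ∧ N (a - c) then (1 : ℝ) else 0)
        ≤ ∑ a ∈ S C x, ∑ c ∈ S A x,
        (if a ≠ c ∧ n < hgt x (a - c) ∧ N x ∧ N (a - c) then (1 : ℝ) else 0) :=
          sum_le_sum fun a _ => Finset.sum_le_sum_of_subset_of_nonneg hsub (fun c _ _ => n0 a c)
      _ ≤ _ := Finset.sum_le_sum_of_subset_of_nonneg hsub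
          (fun a _ _ => sum_nonneg fun c _ => n0 a c)
  have hρ : (0 : ℝ) ≤ (S C x).card := Nat.cast_nonneg _
  calc ((S C x).card : ℝ) ^ 2 = ∑ a ∈ S C x, ∑ c ∈ S C x, (1 : ℝ) := h1
    _ ≤ ∑ a ∈ S C x, ∑ c ∈ S C x, ((if a = c then 1 else 0) +
      (if a ≠ c ∧ hgt x (a - c) ≤ n then 1 else 0) +
      (if a ≠ c ∧ n < hgt x (a - c) ∧ N x ∧ N (a - c) then (1 : ℝ) else 0)) :=
        sum_le_sum fun a ha => sum_le_sum fun c hc => h2 a ha c hc
    _ = (S C x).card + ∑ a ∈ S C x, ∑ c ∈ S C x,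
        (if a ≠ c ∧ hgt x (a - c) ≤ n then (1 : ℝ) else 0) +
        ∑ a ∈ S C x, ∑ c ∈ S C x,
          (if a ≠ c ∧ n < hgt x (a - c) ∧ N x ∧ N (a - c) then (1 : ℝ) else 0) := by
        simp only [sum_add_distrib]
        rw [h3]
    _ ≤ (S C x).card + ∑ a ∈ S C x, m + Q A n N x := by
        have := sum_le_sum h4
        linarith
    _ = (S C x).card + (S C x).card * m + Q A n N x := by rw [sum_const, nsmul_eq_mul]
    _ ≤ 2 * (S C x).card * m + Q A n N x := by nlinarith

/-- The cluster lemma. -/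
theorem cluster_sq_le (A D C : Finset ℤ) (hCA : C ⊆ A) (hD0 : ∀ x ∈ D, x ≠ 0) (N : ℤ → Prop)
    (hCD : ∀ a ∈ C, ∀ b ∈ C, a ≠ b → a - b ∈ D) (hN : ∀ a ∈ C, ∀ b ∈ C, a ≠ b → N (a - b))
    (n : ℕ) (hn : 1 ≤ n) (l : ℝ) (hl : 0 < l) :
    (C.card : ℝ) ^ 2 ≤ C.card + 4 * f2 D n N + l / 2 * f1 A D N + f3 A D n N / l := by
  have hQ0 := Q_nonneg A n N
  have hx : ∀ x ∈ D, ((S C x).card : ℝ) ≤
      4 * (∑ y ∈ D, if N x ∧ N y ∧ hgt x y ≤ n then (1 : ℝ) else 0) +
      l / 2 * (if N x then ((S A x).card : ℝ) else 0) + Q A n N x / ((S A x).card : ℝ) / l := by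
    intro x hx
    set m : ℝ := ∑ y ∈ D, if N x ∧ N y ∧ hgt x y ≤ n then (1 : ℝ) else 0 with hm
    have hm0 : 0 ≤ m := by
      refine sum_nonneg fun y _ => ?_
      split_ifs <;> norm_num
    have hI0 : (0 : ℝ) ≤ (if N x then ((S A x).card : ℝ) else 0) := by
      split_ifs
      · exact Nat.cast_nonneg _
      · exact le_refl _
    have hQ := hQ0 x
    rcases Nat.eq_zero_or_pos (S C x).card with h0 | hpos
    · rw [h0]
      have : 0 ≤ Q A n N x / ((S A x).card : ℝ) / l := by positivity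
      have h2 : 0 ≤ l / 2 * (if N x then ((S A x).card : ℝ) else 0) := by positivity
      push_cast
      linarith
    · have hx0 := hD0 x hx
      have hNx : N x := by
        obtain ⟨a, ha⟩ := card_pos.mp hpos
        rw [S, mem_filter] at ha
        have := hN a ha.1 (a - x) ha.2 (by intro h; apply hx0; linarith)
        simpa using this
      rw [if_pos hNx]
      have hsub : S C x ⊆ S A x := by
        intro a ha
        rw [S, mem_filter] at ha ⊢
        exact ⟨hCA ha.1, hCA ha.2⟩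
      have hr : 0 < (S A x).card := lt_of_lt_of_le hpos (card_le_card hsub)
      have hr' : (0 : ℝ) < (S A x).card := by exact_mod_cast hr
      have hρ' : (0 : ℝ) < (S C x).card := by exact_mod_cast hpos
      have h1 := rho_sq_le A D C hCA hD0 N hCD hN n hn x hx hpos
      rw [← hm] at h1
      set ρ : ℝ := ((S C x).card : ℝ) with hρ
      set r : ℝ := ((S A x).card : ℝ) with hrr
      by_cases hcase : ρ ≤ 4 * m
      · have : 0 ≤ Q A n N x / r / l := by positivity
        have h2 : 0 ≤ l / 2 * r := by positivity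
        linarith
      · push Not at hcase
        have h2 : ρ ^ 2 ≤ 2 * Q A n N x := by nlinarith
        have h3 : ρ ≤ l / 2 * r + Q A n N x / r / l := by
          have h4 : ρ ^ 2 / 2 / r / l ≤ Q A n N x / r / l := by
            gcongr
            linarith
          have h5 : ρ ≤ l / 2 * r + ρ ^ 2 / 2 / r / l := by
            have h6 : l / 2 * r + ρ ^ 2 / 2 / r / l - ρ = (l * r - ρ) ^ 2 / (2 * l * r) := by
              field_simp
              ring
            have h7 : 0 ≤ (l * r - ρ) ^ 2 / (2 * l * r) := by positivity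
            linarith
          linarith
        linarith
  -- the number of pairs
  have hpairs : (C.card : ℝ) ^ 2 ≤ C.card + ∑ x ∈ D, ((S C x).card : ℝ) := by
    have h1 : C.offDiag.card = ∑ x ∈ D, (C.offDiag.filter (fun p => p.1 - p.2 = x)).card := by
      apply Finset.card_eq_sum_card_fiberwise
      intro p hp
      have hp' : p ∈ C.offDiag := by simpa using hp
      rw [mem_offDiag] at hp'
      exact_mod_cast hCD p.1 hp'.1 p.2 hp'.2.1 hp'.2.2
    have h2 : ∀ x ∈ D, (C.offDiag.filter (fun p => p.1 - p.2 = x)).card ≤ (S C x).card := by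
      intro x _
      refine Finset.card_le_card_of_injOn (fun p => p.1) ?_ ?_
      · intro p hp
        have hp' : p ∈ C.offDiag.filter (fun p => p.1 - p.2 = x) := by simpa using hp
        rw [mem_filter, mem_offDiag] at hp'
        have : p.1 - x = p.2 := by rw [← hp'.2]; ring
        have hmem : p.1 ∈ S C x := by
          rw [S, mem_filter]
          exact ⟨hp'.1.1, by rw [this]; exact hp'.1.2.1⟩
        simpa using hmem
      · intro p hp q hq h
        have hp' : p ∈ C.offDiag.filter (fun p => p.1 - p.2 = x) := by simpa using hp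
        have hq' : q ∈ C.offDiag.filter (fun p => p.1 - p.2 = x) := by simpa using hq
        have e1 := (mem_filter.mp hp').2
        have e2 := (mem_filter.mp hq').2
        simp only at h
        ext
        · exact h
        · rw [h] at e1; linarith
    have h3 : C.offDiag.card ≤ ∑ x ∈ D, (S C x).card := by
      rw [h1]; exact sum_le_sum h2
    have h4 : C.card * C.card = C.card + C.offDiag.card := by
      rw [Finset.offDiag_card]
      have : C.card ≤ C.card * C.card := Nat.le_mul_self _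
      omega
    have h5 : (C.card : ℝ) * C.card = C.card + (C.offDiag.card : ℝ) := by exact_mod_cast h4
    have h6 : (C.offDiag.card : ℝ) ≤ ∑ x ∈ D, ((S C x).card : ℝ) := by exact_mod_cast h3
    rw [sq, h5]
    linarith
  have hsum := sum_le_sum hx
  rw [sum_add_distrib, sum_add_distrib, ← mul_sum, ← mul_sum, ← sum_div] at hsum
  unfold f1 f2 f3
  linarith

end Pool.Agent.MP_741d1b.H87
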