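import Mathlib
import Pool.Agent.Lib.MP_741d1b_nt_h87.Det

/-! Averages over the multiplier and the choice of a good multiplier. -/

set_option autoImplicit false

namespace Pool.Agent.MP_741d1b.H87

open Finset Classical

theorem hgt_comm (x y : ℤ) : hgt x y = hgt y x := by
  unfold hgt
  rw [max_comm, Int.gcd_comm]

theorem card_near_pair_le_aux {M n : ℕ} (hM : M.Prime) (hn : 0 < n) {x y : ℤ} (hx0 : x ≠ 0)
    (hle : |y| ≤ |x|) (hxM : (n : ℤ) * |x| < M) :
    (((range M).filter (fun t => Near M n t x ∧ Near M n t y)).card : ℝ) ≤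
      if hgt x y ≤ n then 15 * M / n * (1 / (hgt x y : ℝ)) else 15 * M / (n : ℝ) ^ 2 := by
  have hn' : (0 : ℝ) < n := by exact_mod_cast hn
  have hM' : (0 : ℝ) < M := by exact_mod_cast hM.pos
  have hg : 0 < Int.gcd x y := Int.gcd_pos_of_ne_zero_left _ hx0
  obtain ⟨p, q, hpq, hxp, hyq⟩ := Int.exists_gcd_one hg
  set g : ℤ := (Int.gcd x y : ℤ) with hgdef
  have hg' : 0 < g := by rw [hgdef]; exact_mod_cast hg
  have hxp' : x = g * p := by rw [hxp]; ring
  have hyq' : y = g * q := by rw [hyq]; ring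
  have hp0 : p ≠ 0 := by
    intro h; apply hx0; rw [hxp', h, mul_zero]
  have hcop : IsCoprime p q := Int.isCoprime_iff_gcd_eq_one.mpr hpq
  have hqp : |q| ≤ |p| := by
    rw [hxp', hyq', abs_mul, abs_mul, abs_of_pos hg'] at hle
    exact le_of_mul_le_mul_left hle hg'
  have hH : hgt x y = p.natAbs := by
    have h1 : Int.gcd x y = g.natAbs := by rw [hgdef]; simp
    have h2 : x.natAbs = g.natAbs * p.natAbs := by rw [hxp', Int.natAbs_mul]
    have h3 : y.natAbs = g.natAbs * q.natAbs := by rw [hyq', Int.natAbs_mul]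
    have h4 : q.natAbs ≤ p.natAbs := by
      have : |q| ≤ |p| := hqp
      rw [Int.abs_eq_natAbs, Int.abs_eq_natAbs] at this
      exact_mod_cast this
    unfold hgt
    rw [h1, h2, h3, Nat.mul_max_mul_left, max_eq_left h4,
      Nat.mul_div_cancel_left _ (Int.natAbs_pos.mpr hg'.ne')]
  have hpx : |p| ≤ |x| := by
    rw [hxp', abs_mul, abs_of_pos hg']
    have : 0 ≤ |p| := abs_nonneg _
    nlinarith
  have hxd : ¬ (M : ℤ) ∣ x := by
    intro h
    have h1 : (M : ℤ) ≤ |x| := Int.le_of_dvd (abs_pos.mpr hx0) ((dvd_abs _ _).mpr h)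
    have h2 : (1 : ℤ) ≤ n := by exact_mod_cast hn
    have h3 : 0 ≤ |x| := abs_nonneg _
    nlinarith
  have hnM : (n : ℤ) * |p| ≤ M := by
    have h2 : (0 : ℤ) ≤ n := by positivity
    nlinarith
  have h1 := card_near_pair_aux hM hn hcop hp0 hqp (g := g) (by rw [← hxp']; exact hxd) hnM
  rw [← hxp', ← hyq', ← hH] at h1
  have hH0 : 0 < hgt x y := by rw [hH]; exact Int.natAbs_pos.mpr hp0
  have hH0' : (0 : ℝ) < hgt x y := by exact_mod_cast hH0
  refine h1.trans ?_
  have e1 : (4 * (hgt x y : ℝ) / n + 1) * (3 * M / (n * (hgt x y : ℝ))) =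
      12 * M / (n : ℝ) ^ 2 + 3 * M / n * (1 / (hgt x y : ℝ)) := by
    field_simp
    ring
  rw [e1]
  split_ifs with h
  · have h' : (hgt x y : ℝ) ≤ n := by exact_mod_cast h
    have : 12 * (M : ℝ) / (n : ℝ) ^ 2 ≤ 12 * M / n * (1 / (hgt x y : ℝ)) := by
      rw [sq, div_mul_eq_div_div, mul_one_div]
      gcongr
    calc 12 * (M : ℝ) / (n : ℝ) ^ 2 + 3 * M / n * (1 / (hgt x y : ℝ))
        ≤ 12 * M / n * (1 / (hgt x y : ℝ)) + 3 * M / n * (1 / (hgt x y : ℝ)) := by linarith
      _ = 15 * M / n * (1 / (hgt x y : ℝ)) := by ring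
  · have h' : (n : ℝ) ≤ hgt x y := by
      push Not at h
      exact_mod_cast h.le
    have : 3 * (M : ℝ) / n * (1 / (hgt x y : ℝ)) ≤ 3 * M / (n : ℝ) ^ 2 := by
      rw [sq, div_mul_eq_div_div, mul_one_div]
      gcongr
    calc 12 * (M : ℝ) / (n : ℝ) ^ 2 + 3 * M / n * (1 / (hgt x y : ℝ))
        ≤ 12 * M / (n : ℝ) ^ 2 + 3 * M / (n : ℝ) ^ 2 := by linarith
      _ = 15 * M / (n : ℝ) ^ 2 := by ring

theorem card_near_pair_le {M n : ℕ} (hM : M.Prime) (hn : 0 < n) {x y : ℤ} (hx0 : x ≠ 0)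
    (hy0 : y ≠ 0) (hxM : (n : ℤ) * |x| < M) (hyM : (n : ℤ) * |y| < M) :
    (((range M).filter (fun t => Near M n t x ∧ Near M n t y)).card : ℝ) ≤
      if hgt x y ≤ n then 15 * M / n * (1 / (hgt x y : ℝ)) else 15 * M / (n : ℝ) ^ 2 := by
  rcases le_total |y| |x| with h | h
  · exact card_near_pair_le_aux hM hn hx0 h hxM
  · have := card_near_pair_le_aux hM hn hy0 h hyM
    rw [hgt_comm x y]
    have e : (range M).filter (fun t => Near M n t x ∧ Near M n t y) =
        (range M).filter (fun t => Near M n t y ∧ Near M n t x) := by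
      ext t; simp only [mem_filter]; tauto
    rw [e]; exact this

theorem sum_ite_card {M : ℕ} (P : ℕ → Prop) [DecidablePred P] (c : ℝ) :
    ∑ t ∈ range M, (if P t then c else 0) = (((range M).filter P).card : ℝ) * c := by
  rw [← Finset.sum_filter, sum_const, nsmul_eq_mul]

/-- Sum of the numbers of representations. -/
theorem sum_card_S_le (A D : Finset ℤ) : ∑ x ∈ D, (S A x).card ≤ A.card ^ 2 := by
  have h1 : ∀ x ∈ D, (S A x).card ≤ ((A ×ˢ A).filter (fun p => p.1 - p.2 = x)).card := by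
    intro x _
    refine Finset.card_le_card_of_injOn (fun a => (a, a - x)) ?_ ?_
    · intro a ha
      have ha' : a ∈ S A x := by simpa using ha
      rw [S, mem_filter] at ha'
      simp [ha'.1, ha'.2]
    · intro a _ b _ h
      simp only [Prod.mk.injEq] at h
      exact h.1
  calc ∑ x ∈ D, (S A x).card ≤ ∑ x ∈ D, ((A ×ˢ A).filter (fun p => p.1 - p.2 = x)).card :=
        sum_le_sum h1
    _ ≤ (A ×ˢ A).card := by
        have := Finset.card_biUnion (s := D)
          (t := fun x => (A ×ˢ A).filter (fun p => p.1 - p.2 = x)) (by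
            intro x _ y _ hxy
            rw [Function.onFun, Finset.disjoint_left]
            intro p hp hq
            exact hxy ((mem_filter.mp hp).2.symm.trans (mem_filter.mp hq).2))
        rw [← this]
        exact card_le_card (biUnion_subset.mpr fun x _ => filter_subset _ _)
    _ = A.card ^ 2 := by rw [card_product, sq]

variable {M n : ℕ} (A D : Finset ℤ)

theorem exp_f1 (hM : M.Prime) (hn : 0 < n) (hnM : n ≤ M) (hA : A.card = n)
    (hD0 : ∀ x ∈ D, x ≠ 0) (hDM : ∀ x ∈ D, (n : ℤ) * |x| < M) :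
    ∑ t ∈ range M, f1 A D (Near M n t) ≤ M * (3 * n) := by
  have hn' : (0 : ℝ) < n := by exact_mod_cast hn
  unfold f1
  rw [sum_comm]
  calc ∑ x ∈ D, ∑ t ∈ range M, (if Near M n t x then ((S A x).card : ℝ) else 0)
      = ∑ x ∈ D, (((range M).filter (fun t => Near M n t x)).card : ℝ) * (S A x).card := by
        refine sum_congr rfl fun x _ => ?_
        exact sum_ite_card (fun t => Near M n t x) _
    _ ≤ ∑ x ∈ D, (3 * M / n) * ((S A x).card : ℝ) := by
        refine sum_le_sum fun x hx => ?_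
        apply mul_le_mul_of_nonneg_right _ (Nat.cast_nonneg _)
        apply card_near_le hM hn hnM
        intro h
        have hx0 := hD0 x hx
        have h1 : (M : ℤ) ≤ |x| := Int.le_of_dvd (abs_pos.mpr hx0) ((dvd_abs _ _).mpr h)
        have h2 : (1 : ℤ) ≤ n := by exact_mod_cast hn
        have h3 : 0 ≤ |x| := abs_nonneg _
        have h4 := hDM x hx
        nlinarith
    _ = (3 * M / n) * ((∑ x ∈ D, (S A x).card : ℕ) : ℝ) := by push_cast; rw [mul_sum]
    _ ≤ (3 * M / n) * ((n ^ 2 : ℕ) : ℝ) := by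
        apply mul_le_mul_of_nonneg_left _ (by positivity)
        have := sum_card_S_le A D
        rw [hA] at this
        exact_mod_cast this
    _ = M * (3 * n) := by push_cast; field_simp

theorem exp_f2 (hM : M.Prime) (hn : 0 < n)
    (hD0 : ∀ x ∈ D, x ≠ 0) (hDM : ∀ x ∈ D, (n : ℤ) * |x| < M) :
    ∑ t ∈ range M, f2 D n (Near M n t) ≤
      M * (15 / n * ∑ x ∈ D, ∑ y ∈ D, (if hgt x y ≤ n then 1 / (hgt x y : ℝ) else 0)) := by
  have hn' : (0 : ℝ) < n := by exact_mod_cast hn
  unfold f2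
  rw [sum_comm, ← mul_assoc, mul_sum]
  refine sum_le_sum fun x hx => ?_
  rw [sum_comm, mul_sum]
  refine sum_le_sum fun y hy => ?_
  rw [sum_ite_card (fun t => Near M n t x ∧ Near M n t y ∧ hgt x y ≤ n) 1, mul_one]
  split_ifs with h
  · have h1 := card_near_pair_le hM hn (hD0 x hx) (hD0 y hy) (hDM x hx) (hDM y hy)
    rw [if_pos h] at h1
    have e : (range M).filter (fun t => Near M n t x ∧ Near M n t y ∧ hgt x y ≤ n) =
        (range M).filter (fun t => Near M n t x ∧ Near M n t y) := by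
      ext t; simp only [mem_filter]; tauto
    rw [e]
    refine h1.trans (le_of_eq ?_)
    ring
  · have e : (range M).filter (fun t => Near M n t x ∧ Near M n t y ∧ hgt x y ≤ n) = ∅ := by
      apply filter_false_of_mem
      intro t _ ht
      exact h ht.2.2
    rw [e]; simp

theorem exp_f3 (hM : M.Prime) (hn : 0 < n) (hA : A.card = n)
    (hD0 : ∀ x ∈ D, x ≠ 0) (hDM : ∀ x ∈ D, (n : ℤ) * |x| < M)
    (hAM : ∀ a ∈ A, ∀ c ∈ A, (n : ℤ) * |a - c| < M) :
    ∑ t ∈ range M, f3 A D n (Near M n t) ≤ M * 15 := by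
  have hn' : (0 : ℝ) < n := by exact_mod_cast hn
  have hM' : (0 : ℝ) < M := by exact_mod_cast hM.pos
  unfold f3
  rw [sum_comm]
  have h1 : ∀ x ∈ D, ∑ t ∈ range M, Q A n (Near M n t) x / ((S A x).card : ℝ) ≤
      15 * M / (n : ℝ) ^ 2 * ((S A x).card : ℝ) := by
    intro x hx
    rw [← sum_div]
    have h2 : ∑ t ∈ range M, Q A n (Near M n t) x ≤
        ((S A x).card : ℝ) * (((S A x).card : ℝ) * (15 * M / (n : ℝ) ^ 2)) := by
      unfold Q
      rw [sum_comm]
      calc ∑ a ∈ S A x, ∑ t ∈ range M, ∑ c ∈ S A x,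
            (if a ≠ c ∧ n < hgt x (a - c) ∧ Near M n t x ∧ Near M n t (a - c) then (1 : ℝ) else 0)
          ≤ ∑ a ∈ S A x, ∑ c ∈ S A x, 15 * M / (n : ℝ) ^ 2 := by
            refine sum_le_sum fun a ha => ?_
            rw [sum_comm]
            refine sum_le_sum fun c hc => ?_
            rw [sum_ite_card
              (fun t => a ≠ c ∧ n < hgt x (a - c) ∧ Near M n t x ∧ Near M n t (a - c)) 1, mul_one]
            by_cases h : a ≠ c ∧ n < hgt x (a - c)
            · have ha' := (mem_filter.mp ha).1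
              have hc' := (mem_filter.mp hc).1
              have h3 := card_near_pair_le hM hn (hD0 x hx)
                (show a - c ≠ 0 by intro h0; apply h.1; linarith) (hDM x hx) (hAM a ha' c hc')
              rw [if_neg (not_le.mpr h.2)] at h3
              refine le_trans ?_ h3
              apply Nat.cast_le.mpr
              apply card_le_card
              intro t ht
              rw [mem_filter] at ht ⊢
              exact ⟨ht.1, ht.2.2.2.1, ht.2.2.2.2⟩
            · have e : (range M).filter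
                  (fun t => a ≠ c ∧ n < hgt x (a - c) ∧ Near M n t x ∧ Near M n t (a - c)) = ∅ := by
                apply filter_false_of_mem
                intro t _ ht
                exact h ⟨ht.1, ht.2.1⟩
              rw [e]
              simp only [card_empty, Nat.cast_zero]
              positivity
        _ = ((S A x).card : ℝ) * (((S A x).card : ℝ) * (15 * M / (n : ℝ) ^ 2)) := by
            rw [sum_const, sum_const, nsmul_eq_mul, nsmul_eq_mul]
    rcases Nat.eq_zero_or_pos (S A x).card with h0 | hpos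
    · rw [h0]; simp
    · have hr' : (0 : ℝ) < (S A x).card := by exact_mod_cast hpos
      rw [div_le_iff₀ hr']
      refine h2.trans (le_of_eq ?_)
      ring
  refine (sum_le_sum h1).trans ?_
  rw [← mul_sum]
  have h4 : ∑ x ∈ D, ((S A x).card : ℝ) ≤ (n : ℝ) ^ 2 := by
    have := sum_card_S_le A D
    rw [hA] at this
    exact_mod_cast this
  calc 15 * (M : ℝ) / (n : ℝ) ^ 2 * ∑ x ∈ D, ((S A x).card : ℝ)
      ≤ 15 * (M : ℝ) / (n : ℝ) ^ 2 * (n : ℝ) ^ 2 := mul_le_mul_of_nonneg_left h4 (by positivity)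
    _ = M * 15 := by field_simp

/-- A good multiplier for three nonnegative functions. -/
theorem exists_good {M : ℕ} (hM : 0 < M) (g1 g2 g3 : ℕ → ℝ) (h1 : ∀ t, 0 ≤ g1 t)
    (h2 : ∀ t, 0 ≤ g2 t) (h3 : ∀ t, 0 ≤ g3 t) (m1 m2 m3 : ℝ) (p1 : 0 < m1) (p2 : 0 < m2)
    (p3 : 0 < m3) (e1 : ∑ t ∈ range M, g1 t ≤ M * m1) (e2 : ∑ t ∈ range M, g2 t ≤ M * m2)
    (e3 : ∑ t ∈ range M, g3 t ≤ M * m3) :
    ∃ t, g1 t ≤ 3 * m1 ∧ g2 t ≤ 3 * m2 ∧ g3 t ≤ 3 * m3 := by
  have hM' : (0 : ℝ) < M := by exact_mod_cast hM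
  by_contra hcon
  push Not at hcon
  have h : ∀ t ∈ range M, (3 : ℝ) < g1 t / m1 + g2 t / m2 + g3 t / m3 := by
    intro t _
    have a1 : 0 ≤ g1 t / m1 := div_nonneg (h1 t) p1.le
    have a2 : 0 ≤ g2 t / m2 := div_nonneg (h2 t) p2.le
    have a3 : 0 ≤ g3 t / m3 := div_nonneg (h3 t) p3.le
    by_cases c1 : g1 t ≤ 3 * m1
    · by_cases c2 : g2 t ≤ 3 * m2
      · have c3 := hcon t c1 c2
        have : 3 < g3 t / m3 := by rw [lt_div_iff₀ p3]; exact c3
        linarith
      · push Not at c2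
        have : 3 < g2 t / m2 := by rw [lt_div_iff₀ p2]; exact c2
        linarith
    · push Not at c1
      have : 3 < g1 t / m1 := by rw [lt_div_iff₀ p1]; exact c1
      linarith
  have hsum : ∑ t ∈ range M, (3 : ℝ) < ∑ t ∈ range M, (g1 t / m1 + g2 t / m2 + g3 t / m3) :=
    Finset.sum_lt_sum_of_nonempty ⟨0, mem_range.mpr hM⟩ h
  rw [sum_const, card_range, nsmul_eq_mul, sum_add_distrib, sum_add_distrib, ← sum_div,
    ← sum_div, ← sum_div] at hsum
  have b1 : (∑ t ∈ range M, g1 t) / m1 ≤ M := by rw [div_le_iff₀ p1]; exact e1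
  have b2 : (∑ t ∈ range M, g2 t) / m2 ≤ M := by rw [div_le_iff₀ p2]; exact e2
  have b3 : (∑ t ∈ range M, g3 t) / m3 ≤ M := by rw [div_le_iff₀ p3]; exact e3
  linarith

end Pool.Agent.MP_741d1b.H87
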