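import Mathlib
import Pool.Agent.Lib.MP_741d1b_nt_h87.Expect

/-! Counting multipliers for noncollinear near pairs and for near quadruples with a relation. -/

set_option autoImplicit false

namespace Pool.Agent.MP_741d1b.H87

open Finset Classical

/-- The integer `k` is the integer near `t x / M` at scale `m`. -/
def NI (M m t : ℕ) (x k : ℤ) : Prop := |(t : ℤ) * x - k * M| * m ≤ M

theorem NI.near {M m t : ℕ} {x k : ℤ} (h : NI M m t x k) : Near M m t x := ⟨k, h⟩

theorem NI.real {M m t : ℕ} (hm : 0 < m) {x k : ℤ} (h : NI M m t x k) :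
    |(((t : ℤ) * x - k * M : ℤ) : ℝ)| ≤ (M : ℝ) / m := near_real hm h

theorem NI.unique {M m t : ℕ} (hM : 0 < M) (hm : 3 ≤ m) {x k l : ℤ} (h : NI M m t x k)
    (h' : NI M m t x l) : k = l := by
  unfold NI at h h'
  have hM' : (0 : ℤ) < M := by exact_mod_cast hM
  have hm' : (3 : ℤ) ≤ m := by exact_mod_cast hm
  by_contra hne
  have h1 : (1 : ℤ) ≤ |k - l| := Int.one_le_abs (sub_ne_zero.mpr hne)
  have h2 : |k - l| * M ≤ |(t : ℤ) * x - k * M| + |(t : ℤ) * x - l * M| := by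
    calc |k - l| * M = |(k - l) * M| := by rw [abs_mul, abs_of_pos hM']
      _ = |((t : ℤ) * x - l * M) - ((t : ℤ) * x - k * M)| := by congr 1; ring
      _ ≤ |(t : ℤ) * x - l * M| + |(t : ℤ) * x - k * M| := abs_sub _ _
      _ = _ := by ring
  have h3 : |k - l| * M * m ≤ 2 * M := by
    calc |k - l| * M * m ≤ (|(t : ℤ) * x - k * M| + |(t : ℤ) * x - l * M|) * m :=
          mul_le_mul_of_nonneg_right h2 (by positivity)
      _ ≤ 2 * M := by linarith
  have h4 : (1 : ℤ) * M * 3 ≤ |k - l| * M * m := by gcongr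
  linarith

theorem NI.mono {M m m' t : ℕ} (hmm : m' ≤ m) {x k : ℤ} (h : NI M m t x k) : NI M m' t x k := by
  unfold NI at *
  refine le_trans ?_ h
  exact mul_le_mul_of_nonneg_left (by exact_mod_cast hmm) (abs_nonneg _)

/-- Nonzero multiples of `p` in `[-B, B]`. -/
theorem card_nonzero_le (R : Finset ℤ) (p : ℕ) (hp : 0 < p) (B : ℝ) (hB0 : 0 ≤ B)
    (h0 : ∀ r ∈ R, r ≠ 0) (hd : ∀ r ∈ R, (p : ℤ) ∣ r) (hB : ∀ r ∈ R, |(r : ℝ)| ≤ B) :
    (R.card : ℝ) ≤ 2 * B / p := by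
  have hp' : (0 : ℝ) < p := by exact_mod_cast hp
  have hp0 : (p : ℤ) ≠ 0 := by exact_mod_cast hp.ne'
  have key : ∀ T : Finset ℤ, (∀ r ∈ T, 0 < r ∧ (p : ℤ) ∣ r ∧ (r : ℝ) ≤ B) →
      (T.card : ℝ) ≤ B / p := by
    intro T hT
    have h1 : T.card ≤ (Finset.Icc (1 : ℤ) ⌊B / p⌋).card := by
      refine Finset.card_le_card_of_injOn (fun r => r / p) ?_ ?_
      · intro r hr
        have hr' : r ∈ T := by simpa using hr
        obtain ⟨hr0, ⟨c, hc⟩, hrB⟩ := hT r hr'
        have hq : r / (p : ℤ) = c := by rw [hc]; exact Int.mul_ediv_cancel_left _ hp0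
        have hc0 : 1 ≤ c := by
          have hpz : (0 : ℤ) < p := by exact_mod_cast hp
          by_contra hcon
          push Not at hcon
          have : c ≤ 0 := by linarith
          nlinarith
        simp only [Finset.coe_Icc, Set.mem_Icc, hq]
        refine ⟨hc0, ?_⟩
        rw [Int.le_floor, le_div_iff₀ hp']
        have : (r : ℝ) = p * c := by exact_mod_cast hc
        linarith
      · intro r hr r' hr' h
        have hr1 : r ∈ T := by simpa using hr
        have hr2 : r' ∈ T := by simpa using hr'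
        obtain ⟨_, ⟨c, hc⟩, _⟩ := hT r hr1
        obtain ⟨_, ⟨c', hc'⟩, _⟩ := hT r' hr2
        simp only [hc, hc', Int.mul_ediv_cancel_left _ hp0] at h
        rw [hc, hc', h]
    have hfl : (0 : ℤ) ≤ ⌊B / p⌋ := Int.floor_nonneg.mpr (by positivity)
    have h2 : ((Finset.Icc (1 : ℤ) ⌊B / p⌋).card : ℝ) = (⌊B / p⌋ : ℝ) := by
      rw [Int.card_Icc]
      have : ((⌊B / (p : ℝ)⌋ + 1 - 1).toNat : ℤ) = ⌊B / (p : ℝ)⌋ := by
        rw [Int.toNat_of_nonneg (by linarith)]; ring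
      exact_mod_cast this
    calc (T.card : ℝ) ≤ ((Finset.Icc (1 : ℤ) ⌊B / p⌋).card : ℝ) := by exact_mod_cast h1
      _ = (⌊B / p⌋ : ℝ) := h2
      _ ≤ B / p := Int.floor_le _
  have hpos := key (R.filter (fun r => 0 < r)) (by
    intro r hr
    rw [mem_filter] at hr
    exact ⟨hr.2, hd r hr.1, (le_abs_self _).trans (hB r hr.1)⟩)
  have hneg := key ((R.filter (fun r => r < 0)).image (fun r => -r)) (by
    intro r hr
    rw [mem_image] at hr
    obtain ⟨s, hs, rfl⟩ := hr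
    rw [mem_filter] at hs
    refine ⟨by linarith [hs.2], (hd s hs.1).neg_right, ?_⟩
    push_cast
    exact (neg_le_abs _).trans (hB s hs.1))
  rw [card_image_of_injective _ neg_injective] at hneg
  have hsplit : R.card ≤ (R.filter (fun r => 0 < r)).card + (R.filter (fun r => r < 0)).card := by
    have : R ⊆ R.filter (fun r => 0 < r) ∪ R.filter (fun r => r < 0) := by
      intro r hr
      rw [mem_union, mem_filter, mem_filter]
      rcases lt_trichotomy r 0 with h | h | h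
      · exact Or.inr ⟨hr, h⟩
      · exact absurd h (h0 r hr)
      · exact Or.inl ⟨hr, h⟩
    exact (card_le_card this).trans (card_union_le _ _)
  have hs' : (R.card : ℝ) ≤ (R.filter (fun r => 0 < r)).card + (R.filter (fun r => r < 0)).card := by
    exact_mod_cast hsplit
  calc (R.card : ℝ) ≤ B / p + B / p := by linarith
    _ = 2 * B / p := by ring

/-- Fibre counting: a set of size at most (number of values) times (maximal fibre). -/
theorem card_le_image_mul (S : Finset ℕ) (h : ℕ → ℤ) (a b : ℝ) (hb : 0 ≤ b)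
    (h1 : ((S.image h).card : ℝ) ≤ a)
    (h2 : ∀ y ∈ S.image h, (((S.filter (fun t => h t = y)).card : ℕ) : ℝ) ≤ b) :
    (S.card : ℝ) ≤ a * b := by
  have hsum : (S.card : ℝ) = ∑ y ∈ S.image h, (((S.filter (fun t => h t = y)).card : ℕ) : ℝ) := by
    rw [Finset.card_eq_sum_card_image h S]; push_cast; rfl
  rw [hsum]
  calc ∑ y ∈ S.image h, (((S.filter (fun t => h t = y)).card : ℕ) : ℝ)
      ≤ ∑ y ∈ S.image h, b := Finset.sum_le_sum h2
    _ = ((S.image h).card : ℝ) * b := by rw [sum_const, nsmul_eq_mul]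
    _ ≤ a * b := mul_le_mul_of_nonneg_right h1 hb

/-- Noncollinear near pairs with small determinant. -/
theorem det_count {M m1 m2 : ℕ} (hM : M.Prime) (hm1 : 0 < m1) {s y : ℤ} (hs0 : s ≠ 0)
    (hsM : (m1 : ℤ) * |s| < M) (T : ℝ) (hT : 0 ≤ T) :
    (((range M).filter (fun t => ∃ S Y : ℤ, NI M m1 t s S ∧ NI M m2 t y Y ∧
      s * Y - y * S ≠ 0 ∧ |((s * Y - y * S : ℤ) : ℝ)| ≤ T)).card : ℝ) ≤
      6 * T * M / (m1 * |(s : ℝ)|) := by
  have hm1' : (0 : ℝ) < m1 := by exact_mod_cast hm1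
  have hM' : (0 : ℝ) < M := by exact_mod_cast hM.pos
  have hMz : (M : ℤ) ≠ 0 := by exact_mod_cast hM.pos.ne'
  have hg : 0 < Int.gcd s y := Int.gcd_pos_of_ne_zero_left _ hs0
  obtain ⟨s1, y1, hsy, hs1, hy1⟩ := Int.exists_gcd_one hg
  set g : ℤ := (Int.gcd s y : ℤ) with hgdef
  have hg' : 0 < g := by rw [hgdef]; exact_mod_cast hg
  have hs1' : s = g * s1 := by rw [hs1]; ring
  have hy1' : y = g * y1 := by rw [hy1]; ring
  have hs10 : s1 ≠ 0 := by intro h; apply hs0; rw [hs1', h, mul_zero]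
  have hcop : IsCoprime s1 y1 := Int.isCoprime_iff_gcd_eq_one.mpr hsy
  have hsd : ¬ (M : ℤ) ∣ s := by
    intro h
    have h1 : (M : ℤ) ≤ |s| := Int.le_of_dvd (abs_pos.mpr hs0) ((dvd_abs _ _).mpr h)
    have h2 : (1 : ℤ) ≤ m1 := by exact_mod_cast hm1
    have h3 : 0 ≤ |s| := abs_nonneg _
    nlinarith
  set P := (range M).filter (fun t => ∃ S Y : ℤ, NI M m1 t s S ∧ NI M m2 t y Y ∧
      s * Y - y * S ≠ 0 ∧ |((s * Y - y * S : ℤ) : ℝ)| ≤ T) with hP
  have hk : ∀ t : ℕ, ∃ S Y : ℤ, t ∈ P → NI M m1 t s S ∧ NI M m2 t y Y ∧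
      s * Y - y * S ≠ 0 ∧ |((s * Y - y * S : ℤ) : ℝ)| ≤ T := by
    intro t
    by_cases ht : t ∈ P
    · rw [hP, mem_filter] at ht
      obtain ⟨S, Y, h⟩ := ht.2
      exact ⟨S, Y, fun _ => h⟩
    · exact ⟨0, 0, fun h => absurd h ht⟩
  choose S Y hSY using hk
  set h : ℕ → ℤ := fun t => s1 * Y t - y1 * S t with hh
  set r : ℕ → ℤ := fun t => (t : ℤ) * s - S t * M with hr
  set r' : ℕ → ℤ := fun t => (t : ℤ) * y - Y t * M with hr'
  have hgr : (0 : ℝ) < g := by exact_mod_cast hg'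
  have hDh : ∀ t, s * Y t - y * S t = g * h t := by
    intro t; rw [hh]; simp only; rw [hs1', hy1']; ring
  have hrel : ∀ t, (M : ℤ) * h t = y1 * r t - s1 * r' t := by
    intro t
    simp only [hh, hr, hr']
    rw [hs1', hy1']; ring
  have hs1abs : (0 : ℝ) < |(s1 : ℝ)| := abs_pos.mpr (by exact_mod_cast hs10)
  have hsabs : |(s : ℝ)| = g * |(s1 : ℝ)| := by
    rw [hs1']; push_cast; rw [abs_mul, abs_of_pos hgr]
  have hnat : (s1.natAbs : ℝ) = |(s1 : ℝ)| := by rw [Nat.cast_natAbs]; push_cast; rfl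
  have hH : ((P.image h).card : ℝ) ≤ 2 * (T / g) := by
    have := card_nonzero_le (P.image h) 1 one_pos (T / g) (by positivity) (by
      intro v hv
      obtain ⟨t, ht, rfl⟩ := mem_image.mp hv
      intro h0
      apply (hSY t ht).2.2.1
      rw [hDh, h0, mul_zero]) (by intro v _; simp) (by
      intro v hv
      obtain ⟨t, ht, rfl⟩ := mem_image.mp hv
      have h1 := (hSY t ht).2.2.2
      rw [hDh] at h1
      push_cast at h1
      rw [abs_mul, abs_of_pos hgr] at h1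
      rw [le_div_iff₀ hgr]
      linarith)
    simpa using this
  have hfib : ∀ v ∈ P.image h, (((P.filter (fun t => h t = v)).card : ℕ) : ℝ) ≤
      3 * M / (m1 * |(s1 : ℝ)|) := by
    intro v _
    have hinj : Set.InjOn r (P.filter (fun t => h t = v)) := by
      intro t ht t' ht' he
      have h1 : t ∈ P.filter (fun t => h t = v) := by simpa using ht
      have h2 : t' ∈ P.filter (fun t => h t = v) := by simpa using ht'
      have h1' := (mem_filter.mp (mem_filter.mp h1).1).1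
      have h2' := (mem_filter.mp (mem_filter.mp h2).1).1
      exact inj_aux hM hsd (mem_range.mp h1') (mem_range.mp h2') he
    have hcard := Finset.card_image_of_injOn hinj
    have h1 := card_le_of_dvd ((P.filter (fun t => h t = v)).image r) s1.natAbs
      (Int.natAbs_pos.mpr hs10) ((M : ℝ) / m1) (by positivity) (by
        intro z hz
        obtain ⟨t, ht, rfl⟩ := mem_image.mp hz
        exact (hSY t (mem_filter.mp ht).1).1.real hm1) (by
        intro z hz z' hz'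
        obtain ⟨t, ht, rfl⟩ := mem_image.mp hz
        obtain ⟨t', ht', rfl⟩ := mem_image.mp hz'
        have e1 := hrel t
        have e2 := hrel t'
        rw [(mem_filter.mp ht).2] at e1
        rw [(mem_filter.mp ht').2] at e2
        rw [Int.natAbs_dvd]
        have e3 : y1 * (r t - r t') = s1 * (r' t - r' t') := by linarith
        exact hcop.dvd_of_dvd_mul_left (Dvd.intro _ e3.symm))
    rw [hcard, hnat] at h1
    have h2 : (1 : ℝ) ≤ M / (m1 * |(s1 : ℝ)|) := by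
      rw [le_div_iff₀ (by positivity), one_mul]
      have h3 : (m1 : ℝ) * |(s : ℝ)| ≤ M := by
        have : ((m1 : ℤ) * |s|) ≤ M := hsM.le
        exact_mod_cast this
      have h4 : |(s1 : ℝ)| ≤ |(s : ℝ)| := by
        rw [hsabs]
        have : (1 : ℝ) ≤ g := by exact_mod_cast hg'
        nlinarith
      calc (m1 : ℝ) * |(s1 : ℝ)| ≤ m1 * |(s : ℝ)| := by gcongr
        _ ≤ M := h3
    calc (((P.filter (fun t => h t = v)).card : ℕ) : ℝ) ≤ 2 * (M / m1) / |(s1 : ℝ)| + 1 := h1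
      _ = 2 * (M / (m1 * |(s1 : ℝ)|)) + 1 := by field_simp
      _ ≤ 3 * (M / (m1 * |(s1 : ℝ)|)) := by linarith
      _ = 3 * M / (m1 * |(s1 : ℝ)|) := by ring
  refine (card_le_image_mul P h _ _ (by positivity) hH hfib).trans (le_of_eq ?_)
  rw [hsabs]
  field_simp
  ring

/-- Noncollinear near pairs at two scales. -/
theorem pair_noncol {M m1 m2 : ℕ} (hM : M.Prime) (hm1 : 0 < m1) (hm2 : 0 < m2) {s y : ℤ}
    (hs0 : s ≠ 0) (hy0 : y ≠ 0) (hsM : (m1 : ℤ) * |s| < M) (hyM : (m2 : ℤ) * |y| < M) :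
    (((range M).filter (fun t => ∃ S Y : ℤ, NI M m1 t s S ∧ NI M m2 t y Y ∧
      s * Y - y * S ≠ 0)).card : ℝ) ≤ 12 * M / (m1 * m2) := by
  have hm1' : (0 : ℝ) < m1 := by exact_mod_cast hm1
  have hm2' : (0 : ℝ) < m2 := by exact_mod_cast hm2
  have hM' : (0 : ℝ) < M := by exact_mod_cast hM.pos
  have hs0' : (0 : ℝ) < |(s : ℝ)| := abs_pos.mpr (by exact_mod_cast hs0)
  have hy0' : (0 : ℝ) < |(y : ℝ)| := abs_pos.mpr (by exact_mod_cast hy0)
  -- the determinant bound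
  have hdet : ∀ (t : ℕ) (S Y : ℤ), NI M m1 t s S → NI M m2 t y Y →
      |((s * Y - y * S : ℤ) : ℝ)| ≤ |(s : ℝ)| / m2 + |(y : ℝ)| / m1 := by
    intro t S Y h1 h2
    have h1' := h1.real hm1
    have h2' := h2.real hm2
    have e : (M : ℝ) * ((s * Y - y * S : ℤ) : ℝ) =
        y * (((t : ℤ) * s - S * M : ℤ) : ℝ) - s * (((t : ℤ) * y - Y * M : ℤ) : ℝ) := by
      push_cast; ring
    have h3 : (M : ℝ) * |((s * Y - y * S : ℤ) : ℝ)| ≤ |(y : ℝ)| * (M / m1) + |(s : ℝ)| * (M / m2) := by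
      calc (M : ℝ) * |((s * Y - y * S : ℤ) : ℝ)| = |(M : ℝ) * ((s * Y - y * S : ℤ) : ℝ)| := by
            rw [abs_mul, abs_of_pos hM']
        _ = |y * (((t : ℤ) * s - S * M : ℤ) : ℝ) - s * (((t : ℤ) * y - Y * M : ℤ) : ℝ)| := by rw [e]
        _ ≤ |y * (((t : ℤ) * s - S * M : ℤ) : ℝ)| + |s * (((t : ℤ) * y - Y * M : ℤ) : ℝ)| :=
            abs_sub _ _
        _ = |(y : ℝ)| * |(((t : ℤ) * s - S * M : ℤ) : ℝ)| +
            |(s : ℝ)| * |(((t : ℤ) * y - Y * M : ℤ) : ℝ)| := by rw [abs_mul, abs_mul]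
        _ ≤ |(y : ℝ)| * (M / m1) + |(s : ℝ)| * (M / m2) := by gcongr
    have h4 : |(y : ℝ)| * (M / m1) + |(s : ℝ)| * (M / m2) =
        M * (|(s : ℝ)| / m2 + |(y : ℝ)| / m1) := by ring
    rw [h4] at h3
    exact le_of_mul_le_mul_left h3 hM'
  rcases le_total (|(y : ℝ)| / m1) (|(s : ℝ)| / m2) with hle | hle
  · have h1 := det_count (m2 := m2) hM hm1 (y := y) hs0 hsM (2 * (|(s : ℝ)| / m2)) (by positivity)
    have hsub : (range M).filter (fun t => ∃ S Y : ℤ, NI M m1 t s S ∧ NI M m2 t y Y ∧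
        s * Y - y * S ≠ 0) ⊆ (range M).filter (fun t => ∃ S Y : ℤ, NI M m1 t s S ∧ NI M m2 t y Y ∧
        s * Y - y * S ≠ 0 ∧ |((s * Y - y * S : ℤ) : ℝ)| ≤ 2 * (|(s : ℝ)| / m2)) := by
      intro t ht
      rw [mem_filter] at ht ⊢
      obtain ⟨h0, S, Y, h2, h3, h4⟩ := ht
      refine ⟨h0, S, Y, h2, h3, h4, ?_⟩
      have := hdet t S Y h2 h3
      linarith
    calc (((range M).filter (fun t => ∃ S Y : ℤ, NI M m1 t s S ∧ NI M m2 t y Y ∧
        s * Y - y * S ≠ 0)).card : ℝ) ≤ _ := by exact_mod_cast card_le_card hsub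
      _ ≤ 6 * (2 * (|(s : ℝ)| / m2)) * M / (m1 * |(s : ℝ)|) := h1
      _ = 12 * M / (m1 * m2) := by field_simp; ring
  · have h1 := det_count (m2 := m1) hM hm2 (y := s) hy0 hyM (2 * (|(y : ℝ)| / m1)) (by positivity)
    have hsub : (range M).filter (fun t => ∃ S Y : ℤ, NI M m1 t s S ∧ NI M m2 t y Y ∧
        s * Y - y * S ≠ 0) ⊆ (range M).filter (fun t => ∃ S Y : ℤ, NI M m2 t y S ∧ NI M m1 t s Y ∧
        y * Y - s * S ≠ 0 ∧ |((y * Y - s * S : ℤ) : ℝ)| ≤ 2 * (|(y : ℝ)| / m1)) := by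
      intro t ht
      rw [mem_filter] at ht ⊢
      obtain ⟨h0, S, Y, h2, h3, h4⟩ := ht
      refine ⟨h0, Y, S, h3, h2, ?_, ?_⟩
      · intro h5; apply h4; linarith
      · have := hdet t S Y h2 h3
        have e : |((y * S - s * Y : ℤ) : ℝ)| = |((s * Y - y * S : ℤ) : ℝ)| := by
          rw [← abs_neg]; congr 1; push_cast; ring
        rw [e]
        linarith
    calc (((range M).filter (fun t => ∃ S Y : ℤ, NI M m1 t s S ∧ NI M m2 t y Y ∧
        s * Y - y * S ≠ 0)).card : ℝ) ≤ _ := by exact_mod_cast card_le_card hsub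
      _ ≤ 6 * (2 * (|(y : ℝ)| / m1)) * M / (m2 * |(y : ℝ)|) := h1
      _ = 12 * M / (m1 * m2) := by field_simp; ring

end Pool.Agent.MP_741d1b.H87
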