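import Mathlib
import Pool.Agent.Lib.MP_741d1b_nt_h87.T3Count

/-! Sums over ratios of small height, via the divisor function. -/

set_option autoImplicit false

namespace Pool.Agent.MP_741d1b.H87

open Finset Classical
open scoped Pointwise

/-- The nonzero integers of absolute value at most `L`. -/
noncomputable def Iz (L : ℕ) : Finset ℤ := (Finset.Icc (-(L : ℤ)) L).erase 0

theorem mem_Iz {L : ℕ} {x : ℤ} : x ∈ Iz L ↔ x ≠ 0 ∧ |x| ≤ L := by
  unfold Iz
  rw [mem_erase, mem_Icc, abs_le]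

theorem card_Iz (L : ℕ) : (Iz L).card = 2 * L := by
  unfold Iz
  rw [card_erase_of_mem (by simp), Int.card_Icc]
  omega

theorem sum_Iz_inv (L : ℕ) : ∑ q ∈ Iz L, (1 : ℝ) / |(q : ℝ)| ≤ 2 * (1 + Real.log L) := by
  have hharm : ∑ u ∈ Icc 1 L, (1 : ℝ) / u ≤ 1 + Real.log L := by
    have := harmonic_le_one_add_log L
    rw [harmonic_eq_sum_Icc] at this
    push_cast at this
    simpa [one_div] using this
  have hsub : Iz L ⊆ (Icc 1 L).image (fun u : ℕ => (u : ℤ)) ∪
      (Icc 1 L).image (fun u : ℕ => -(u : ℤ)) := by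
    intro x hx
    rw [mem_Iz] at hx
    rw [mem_union, mem_image, mem_image]
    have h1 : x.natAbs ∈ Icc 1 L := by
      rw [mem_Icc]
      constructor
      · exact Int.natAbs_pos.mpr hx.1
      · have := hx.2
        rw [Int.abs_eq_natAbs] at this
        exact_mod_cast this
    rcases le_total 0 x with h | h
    · left; exact ⟨x.natAbs, h1, Int.natAbs_of_nonneg h⟩
    · right; refine ⟨x.natAbs, h1, ?_⟩
      have := Int.ofNat_natAbs_of_nonpos h
      rw [this]; ring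
  have n0 : ∀ q : ℤ, 0 ≤ (1 : ℝ) / |(q : ℝ)| := fun q => by positivity
  calc ∑ q ∈ Iz L, (1 : ℝ) / |(q : ℝ)|
      ≤ ∑ q ∈ (Icc 1 L).image (fun u : ℕ => (u : ℤ)) ∪
        (Icc 1 L).image (fun u : ℕ => -(u : ℤ)), (1 : ℝ) / |(q : ℝ)| :=
        Finset.sum_le_sum_of_subset_of_nonneg hsub (fun q _ _ => n0 q)
    _ ≤ ∑ q ∈ (Icc 1 L).image (fun u : ℕ => (u : ℤ)), (1 : ℝ) / |(q : ℝ)| +
        ∑ q ∈ (Icc 1 L).image (fun u : ℕ => -(u : ℤ)), (1 : ℝ) / |(q : ℝ)| := by
        rw [← Finset.sum_union_inter]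
        have : 0 ≤ ∑ q ∈ (Icc 1 L).image (fun u : ℕ => (u : ℤ)) ∩
          (Icc 1 L).image (fun u : ℕ => -(u : ℤ)), (1 : ℝ) / |(q : ℝ)| :=
          sum_nonneg fun q _ => n0 q
        linarith
    _ = ∑ u ∈ Icc 1 L, (1 : ℝ) / u + ∑ u ∈ Icc 1 L, (1 : ℝ) / u := by
        rw [Finset.sum_image (by intro a _ b _ h; simpa using h),
          Finset.sum_image (by intro a _ b _ h; simpa using h)]
        congr 1
        · refine sum_congr rfl fun u _ => ?_
          push_cast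
          rw [abs_of_nonneg (Nat.cast_nonneg _)]
        · refine sum_congr rfl fun u _ => ?_
          push_cast
          rw [abs_neg, abs_of_nonneg (Nat.cast_nonneg _)]
    _ ≤ 2 * (1 + Real.log L) := by linarith

/-- Sums over integers whose ratio with `x` has small height. -/
theorem sum_hgt_le (x : ℤ) (hx : x ≠ 0) (Y : Finset ℤ) (n : ℕ) (Δ : ℝ)
    (hΔ : (x.natAbs.divisors.card : ℝ) ≤ Δ) :
    ∑ y ∈ Y.filter (fun y => y ≠ 0 ∧ hgt x y ≤ n), 1 / (hgt x y : ℝ) ≤
      2 * Δ * (1 + Real.log n) := by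
  set Y' := Y.filter (fun y => y ≠ 0 ∧ hgt x y ≤ n) with hY'
  set φ : ℤ → ℕ × ℤ := fun y => ((x / (Int.gcd x y : ℤ)).natAbs, y / (Int.gcd x y : ℤ)) with hφ
  have key : ∀ y ∈ Y', φ y ∈ x.natAbs.divisors ×ˢ Iz n ∧
      1 / (hgt x y : ℝ) ≤ 1 / |((φ y).2 : ℝ)| ∧ ((x.natAbs / (φ y).1 : ℕ) : ℤ) * (φ y).2 = y := by
    intro y hy
    rw [hY', mem_filter] at hy
    have hg : 0 < Int.gcd x y := Int.gcd_pos_of_ne_zero_left _ hx
    have hgz : ((Int.gcd x y : ℕ) : ℤ) ≠ 0 := by exact_mod_cast hg.ne'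
    obtain ⟨p, hp⟩ : (Int.gcd x y : ℤ) ∣ x := Int.gcd_dvd_left ..
    obtain ⟨q, hq⟩ : (Int.gcd x y : ℤ) ∣ y := Int.gcd_dvd_right ..
    have e1 : x / (Int.gcd x y : ℤ) = p := by
      conv_lhs => rw [hp]
      have := Int.mul_ediv_cancel_left p hgz
      convert this using 2
      rw [← hp]
    have e2 : y / (Int.gcd x y : ℤ) = q := by
      conv_lhs => rw [hq]
      have := Int.mul_ediv_cancel_left q hgz
      convert this using 2
      rw [← hq]
    have hq0 : q ≠ 0 := by intro h; apply hy.2.1; rw [hq, h, mul_zero]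
    have hp0 : p ≠ 0 := by intro h; apply hx; rw [hp, h, mul_zero]
    have hxa : x.natAbs = Int.gcd x y * p.natAbs := by
      conv_lhs => rw [hp]
      rw [Int.natAbs_mul, Int.natAbs_natCast]
    have hya : y.natAbs = Int.gcd x y * q.natAbs := by
      conv_lhs => rw [hq]
      rw [Int.natAbs_mul, Int.natAbs_natCast]
    have hH : hgt x y = max p.natAbs q.natAbs := by
      unfold hgt
      rw [hxa, hya, Nat.mul_max_mul_left, Nat.mul_div_cancel_left _ hg]
    have hqn : q.natAbs ≤ n := by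
      have := hy.2.2
      rw [hH] at this
      exact (le_max_right _ _).trans this
    refine ⟨?_, ?_, ?_⟩
    · rw [hφ, mem_product]
      simp only
      rw [e1, e2, Nat.mem_divisors, mem_Iz]
      refine ⟨⟨⟨Int.gcd x y, ?_⟩, Int.natAbs_ne_zero.mpr hx⟩, hq0, ?_⟩
      · rw [hxa]; ring
      · rw [Int.abs_eq_natAbs]; exact_mod_cast hqn
    · rw [hφ]
      simp only
      rw [e2, hH]
      have hqabs : |(q : ℝ)| = (q.natAbs : ℝ) := by rw [Nat.cast_natAbs]; push_cast; rfl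
      rw [hqabs]
      have h1 : (0 : ℝ) < q.natAbs := by exact_mod_cast Int.natAbs_pos.mpr hq0
      apply one_div_le_one_div_of_le h1
      exact_mod_cast le_max_right _ _
    · rw [hφ]
      simp only
      rw [e1, e2, hxa, Nat.mul_div_cancel _ (Int.natAbs_pos.mpr hp0)]
      exact hq.symm
  have hinj : Set.InjOn φ Y' := by
    intro y hy y' hy' h
    have h1 : y ∈ Y' := by simpa using hy
    have h2 : y' ∈ Y' := by simpa using hy'
    rw [← (key y h1).2.2, ← (key y' h2).2.2, h]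
  calc ∑ y ∈ Y', 1 / (hgt x y : ℝ) ≤ ∑ y ∈ Y', 1 / |((φ y).2 : ℝ)| :=
        sum_le_sum fun y hy => (key y hy).2.1
    _ = ∑ z ∈ Y'.image φ, 1 / |(z.2 : ℝ)| := by
        rw [Finset.sum_image (by
          intro a ha b hb h
          exact hinj (by simpa using ha) (by simpa using hb) h)]
    _ ≤ ∑ z ∈ x.natAbs.divisors ×ˢ Iz n, 1 / |(z.2 : ℝ)| := by
        refine Finset.sum_le_sum_of_subset_of_nonneg ?_ (fun z _ _ => by positivity)
        intro z hz
        obtain ⟨y, hy, rfl⟩ := mem_image.mp hz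
        exact (key y hy).1
    _ = (x.natAbs.divisors.card : ℝ) * ∑ q ∈ Iz n, 1 / |(q : ℝ)| := by
        simp only [Finset.sum_product, sum_const, nsmul_eq_mul]
    _ ≤ Δ * (2 * (1 + Real.log n)) := by
        have h0 : 0 ≤ ∑ q ∈ Iz n, 1 / |(q : ℝ)| := sum_nonneg fun q _ => by positivity
        exact mul_le_mul hΔ (sum_Iz_inv n) h0 ((Nat.cast_nonneg _).trans hΔ)
    _ = 2 * Δ * (1 + Real.log n) := by ring

/-- Total number of near pairs with a fixed first difference. -/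
theorem near_pair_sum {M n : ℕ} (hM : M.Prime) (hn : 0 < n) (hnM : n ≤ M) (x : ℤ) (hx : x ≠ 0)
    (hxM : (n : ℤ) * |x| < M) (Y : Finset ℤ) (hYM : ∀ y ∈ Y, (n : ℤ) * |y| < M) (Δ : ℝ)
    (hΔ : (x.natAbs.divisors.card : ℝ) ≤ Δ) :
    ∑ y ∈ Y, (((range M).filter (fun t => Near M n t x ∧ Near M n t y)).card : ℝ) ≤
      (M : ℝ) / n * (3 + 15 * Y.card / n + 30 * Δ * (1 + Real.log n)) := by
  have hn' : (0 : ℝ) < n := by exact_mod_cast hn
  have hM' : (0 : ℝ) < M := by exact_mod_cast hM.pos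
  have hxd : ¬ (M : ℤ) ∣ x := by
    intro h
    have h1 : (M : ℤ) ≤ |x| := Int.le_of_dvd (abs_pos.mpr hx) ((dvd_abs _ _).mpr h)
    have h2 : (1 : ℤ) ≤ n := by exact_mod_cast hn
    have h3 : 0 ≤ |x| := abs_nonneg _
    nlinarith
  have h1 : ∀ y ∈ Y, (((range M).filter (fun t => Near M n t x ∧ Near M n t y)).card : ℝ) ≤
      (if y = 0 then 3 * (M : ℝ) / n else 0) + 15 * M / (n : ℝ) ^ 2 +
      (if y ≠ 0 ∧ hgt x y ≤ n then 15 * M / n * (1 / (hgt x y : ℝ)) else 0) := by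
    intro y hy
    by_cases hy0 : y = 0
    · rw [if_pos hy0, if_neg (by simp [hy0])]
      have h2 : (((range M).filter (fun t => Near M n t x ∧ Near M n t y)).card : ℝ) ≤
          (((range M).filter (fun t => Near M n t x)).card : ℝ) := by
        apply Nat.cast_le.mpr
        apply card_le_card
        intro t ht
        rw [mem_filter] at ht ⊢
        exact ⟨ht.1, ht.2.1⟩
      have h3 := card_near_le hM hn hnM hxd
      have h4 : (0 : ℝ) ≤ 15 * M / (n : ℝ) ^ 2 := by positivity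
      linarith
    · rw [if_neg hy0]
      have h2 := card_near_pair_le hM hn hx hy0 hxM (hYM y hy)
      refine h2.trans ?_
      split_ifs with h3 h4 h4
      · have h5 : (0 : ℝ) ≤ 15 * M / (n : ℝ) ^ 2 := by positivity
        linarith
      · exact absurd ⟨hy0, h3⟩ h4
      · exact absurd h4.2 h3
      · linarith
  refine (sum_le_sum h1).trans ?_
  rw [sum_add_distrib, sum_add_distrib]
  have e1 : ∑ y ∈ Y, (if y = 0 then 3 * (M : ℝ) / n else 0) ≤ 3 * M / n := by
    rw [Finset.sum_ite_eq' Y (0 : ℤ) (fun _ => 3 * (M : ℝ) / n)]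
    split_ifs
    · exact le_refl _
    · positivity
  have e2 : ∑ y ∈ Y, (if y ≠ 0 ∧ hgt x y ≤ n then 15 * (M : ℝ) / n * (1 / (hgt x y : ℝ)) else 0) ≤
      15 * M / n * (2 * Δ * (1 + Real.log n)) := by
    rw [← Finset.sum_filter, ← mul_sum]
    exact mul_le_mul_of_nonneg_left (sum_hgt_le x hx Y n Δ hΔ) (by positivity)
  rw [sum_const, nsmul_eq_mul]
  calc ∑ y ∈ Y, (if y = 0 then 3 * (M : ℝ) / n else 0) + Y.card * (15 * M / (n : ℝ) ^ 2) +
        ∑ y ∈ Y, (if y ≠ 0 ∧ hgt x y ≤ n then 15 * (M : ℝ) / n * (1 / (hgt x y : ℝ)) else 0)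
      ≤ 3 * M / n + Y.card * (15 * M / (n : ℝ) ^ 2) + 15 * M / n * (2 * Δ * (1 + Real.log n)) := by
        linarith
    _ = (M : ℝ) / n * (3 + 15 * Y.card / n + 30 * Δ * (1 + Real.log n)) := by
        field_simp
        ring

end Pool.Agent.MP_741d1b.H87
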