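import Mathlib
import Pool.Agent.Lib.MP_741d1b_nt_h87.T3Div

/-! Dilate energies, the number of solutions of equations with bounded coefficients. -/

set_option autoImplicit false

namespace Pool.Agent.MP_741d1b.H87

open Finset Classical
open scoped Pointwise

/-- The additive energy. -/
noncomputable def En (A : Finset ℤ) : ℝ := ∑ v ∈ A - A, ((S A v).card : ℝ) ^ 2

theorem En_nonneg (A : Finset ℤ) : 0 ≤ En A := sum_nonneg fun _ _ => sq_nonneg _

/-- The weight `1 / max (|p|, |q|)`. -/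
noncomputable def wt (p q : ℤ) : ℝ := 1 / max |(p : ℝ)| |(q : ℝ)|

theorem wt_nonneg (p q : ℤ) : 0 ≤ wt p q := by unfold wt; positivity

theorem wt_comm (p q : ℤ) : wt p q = wt q p := by unfold wt; rw [max_comm]

theorem wt_le (p q : ℤ) (hp : p ≠ 0) : wt p q ≤ 1 / |(p : ℝ)| := by
  unfold wt
  exact one_div_le_one_div_of_le (abs_pos.mpr (by exact_mod_cast hp)) (le_max_left _ _)

theorem sum_wt_le (L : ℕ) : ∑ p ∈ Iz L, ∑ q ∈ Iz L, wt p q ≤ 4 * L * (1 + Real.log L) := by
  calc ∑ p ∈ Iz L, ∑ q ∈ Iz L, wt p q ≤ ∑ p ∈ Iz L, ∑ q ∈ Iz L, 1 / |(p : ℝ)| :=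
        sum_le_sum fun p hp => sum_le_sum fun q _ => wt_le p q (mem_Iz.mp hp).1
    _ = 2 * L * ∑ p ∈ Iz L, 1 / |(p : ℝ)| := by
        rw [mul_sum]
        refine sum_congr rfl fun p _ => ?_
        rw [sum_const, card_Iz, nsmul_eq_mul]
        push_cast
        rfl
    _ ≤ 2 * L * (2 * (1 + Real.log L)) :=
        mul_le_mul_of_nonneg_left (sum_Iz_inv L) (by positivity)
    _ = 4 * L * (1 + Real.log L) := by ring

/-- The number of solutions of `p (a - a') = q (b - b')`. -/
noncomputable def Dil (A : Finset ℤ) (p q : ℤ) : ℝ :=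
  ∑ x ∈ A - A, ∑ y ∈ A - A, if p * x = q * y then ((S A x).card : ℝ) * (S A y).card else 0

theorem Dil_nonneg (A : Finset ℤ) (p q : ℤ) : 0 ≤ Dil A p q := by
  unfold Dil
  refine sum_nonneg fun x _ => sum_nonneg fun y _ => ?_
  split_ifs <;> positivity

theorem card_div_Iz (L : ℕ) (m : ℤ) (hm : m ≠ 0) :
    ((Iz L).filter (fun q => q ∣ m)).card ≤ 2 * m.natAbs.divisors.card := by
  have hsub : (Iz L).filter (fun q => q ∣ m) ⊆ m.natAbs.divisors.image (fun u : ℕ => (u : ℤ)) ∪
      m.natAbs.divisors.image (fun u : ℕ => -(u : ℤ)) := by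
    intro q hq
    rw [mem_filter] at hq
    have h1 : q.natAbs ∈ m.natAbs.divisors := by
      rw [Nat.mem_divisors]
      exact ⟨Int.natAbs_dvd_natAbs.mpr hq.2, Int.natAbs_ne_zero.mpr hm⟩
    rw [mem_union, mem_image, mem_image]
    rcases le_total 0 q with h | h
    · left; exact ⟨q.natAbs, h1, Int.natAbs_of_nonneg h⟩
    · right; refine ⟨q.natAbs, h1, ?_⟩
      have := Int.ofNat_natAbs_of_nonpos h
      rw [this]; ring
  calc ((Iz L).filter (fun q => q ∣ m)).card ≤ _ := card_le_card hsub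
    _ ≤ _ := card_union_le _ _
    _ ≤ m.natAbs.divisors.card + m.natAbs.divisors.card :=
        Nat.add_le_add card_image_le card_image_le
    _ = 2 * m.natAbs.divisors.card := by ring

theorem Sx_zero_card (A : Finset ℤ) : (S A 0).card = A.card := by
  unfold S
  congr 1
  apply filter_true_of_mem
  intro a ha
  simpa using ha

theorem dil_sum (A : Finset ℤ) (n B L U : ℕ) (hn : A.card ≤ n) (hB : ∀ a ∈ A, |a| ≤ B)
    (hU : 2 * B * L ≤ U) (Δ : ℝ) (hΔ0 : 0 ≤ Δ)
    (hΔ : ∀ u : ℕ, 0 < u → u ≤ U → (u.divisors.card : ℝ) ≤ Δ) :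
    ∑ p ∈ Iz L, ∑ q ∈ Iz L, Dil A p q * wt p q ≤
      4 * L * (1 + Real.log L) * (n : ℝ) ^ 2 + 4 * Δ * (1 + Real.log L) * En A := by
  set r : ℤ → ℝ := fun v => ((S A v).card : ℝ) with hr
  set D := A - A with hD
  have hxB : ∀ x ∈ D, |x| ≤ 2 * B := by
    intro x hx
    obtain ⟨a, ha, b, hb, rfl⟩ := mem_sub.mp hx
    calc |a - b| ≤ |a| + |b| := abs_sub _ _
      _ ≤ 2 * B := by linarith [hB a ha, hB b hb]
  have h1 : ∀ p ∈ Iz L, ∀ q ∈ Iz L, Dil A p q * wt p q ≤ (n : ℝ) ^ 2 * wt p q +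
      (1 / 2) * (∑ x ∈ D.erase 0, ∑ y ∈ D.erase 0, if p * x = q * y then r x ^ 2 * wt p q else 0) +
      (1 / 2) * (∑ x ∈ D.erase 0, ∑ y ∈ D.erase 0, if p * x = q * y then r y ^ 2 * wt p q else 0) := by
    intro p hp q hq
    have hp0 := (mem_Iz.mp hp).1
    have hq0 := (mem_Iz.mp hq).1
    have hw := wt_nonneg p q
    have h2 : Dil A p q ≤ (n : ℝ) ^ 2 + ∑ x ∈ D.erase 0, ∑ y ∈ D.erase 0,
        if p * x = q * y then r x * r y else 0 := by
      unfold Dil
      have h3 : ∀ x ∈ D.erase 0, (∑ y ∈ D, if p * x = q * y then r x * r y else 0) =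
          ∑ y ∈ D.erase 0, if p * x = q * y then r x * r y else 0 := by
        intro x hx
        have hx0 := (mem_erase.mp hx).1
        symm
        apply Finset.sum_erase
        rw [if_neg]
        rw [mul_zero]
        exact mul_ne_zero hp0 hx0
      have h4 : (∑ y ∈ D, if p * 0 = q * y then r 0 * r y else 0) ≤ (n : ℝ) ^ 2 := by
        have h5 : ∀ y ∈ D, (if p * 0 = q * y then r 0 * r y else 0) =
            if y = 0 then r 0 * r 0 else 0 := by
          intro y _
          by_cases hy : y = 0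
          · simp [hy]
          · rw [if_neg, if_neg hy]
            rw [mul_zero]
            exact fun h => (mul_ne_zero hq0 hy) h.symm
        rw [sum_congr rfl h5, Finset.sum_ite_eq' D (0 : ℤ) (fun _ => r 0 * r 0)]
        have h6 : r 0 ≤ n := by
          rw [hr]; simp only; rw [Sx_zero_card]; exact_mod_cast hn
        have h7 : 0 ≤ r 0 := by rw [hr]; positivity
        split_ifs
        · nlinarith
        · positivity
      by_cases h0 : (0 : ℤ) ∈ D
      · rw [← Finset.add_sum_erase D _ h0, sum_congr rfl h3]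
        linarith
      · have : D.erase 0 = D := erase_eq_of_notMem h0
        rw [this] at h3 ⊢
        have h8 : (0 : ℝ) ≤ (n : ℝ) ^ 2 := by positivity
        linarith
    calc Dil A p q * wt p q ≤ ((n : ℝ) ^ 2 + ∑ x ∈ D.erase 0, ∑ y ∈ D.erase 0,
        if p * x = q * y then r x * r y else 0) * wt p q := mul_le_mul_of_nonneg_right h2 hw
      _ = (n : ℝ) ^ 2 * wt p q + ∑ x ∈ D.erase 0, ∑ y ∈ D.erase 0,
        if p * x = q * y then r x * r y * wt p q else 0 := by
          rw [add_mul, sum_mul]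
          congr 1
          refine sum_congr rfl fun x _ => ?_
          rw [sum_mul]
          refine sum_congr rfl fun y _ => ?_
          split_ifs <;> ring
      _ ≤ (n : ℝ) ^ 2 * wt p q + ∑ x ∈ D.erase 0, ∑ y ∈ D.erase 0,
        ((1 / 2) * (if p * x = q * y then r x ^ 2 * wt p q else 0) +
         (1 / 2) * (if p * x = q * y then r y ^ 2 * wt p q else 0)) := by
          have : ∀ x ∈ D.erase 0, ∀ y ∈ D.erase 0,
              (if p * x = q * y then r x * r y * wt p q else 0) ≤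
              ((1 / 2) * (if p * x = q * y then r x ^ 2 * wt p q else 0) +
               (1 / 2) * (if p * x = q * y then r y ^ 2 * wt p q else 0)) := by
            intro x _ y _
            split_ifs
            · have h9 : r x * r y ≤ (1 / 2) * r x ^ 2 + (1 / 2) * r y ^ 2 := by
                nlinarith [sq_nonneg (r x - r y)]
              have h10 := mul_le_mul_of_nonneg_right h9 hw
              linarith
            · simp
          have h11 := sum_le_sum fun x hx => sum_le_sum fun y hy => this x hx y hy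
          linarith
      _ = _ := by
          simp only [sum_add_distrib, ← mul_sum]
          ring
  have hT : ∀ (f : ℤ → ℤ → ℝ), (∀ p q, f p q = wt p q) →
      ∑ p ∈ Iz L, ∑ q ∈ Iz L, ∑ x ∈ D.erase 0, ∑ y ∈ D.erase 0,
        (if p * x = q * y then r x ^ 2 * f p q else 0) ≤ 4 * Δ * (1 + Real.log L) * En A := by
    intro f hf
    have h2 : ∀ p ∈ Iz L, ∀ x ∈ D.erase 0, ∑ q ∈ Iz L, ∑ y ∈ D.erase 0,
        (if p * x = q * y then r x ^ 2 * f p q else 0) ≤ r x ^ 2 * (2 * Δ) * (1 / |(p : ℝ)|) := by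
      intro p hp x hx
      have hp' := mem_Iz.mp hp
      have hx' := mem_erase.mp hx
      have hpx : p * x ≠ 0 := mul_ne_zero hp'.1 hx'.1
      have hpabs : (0 : ℝ) < |(p : ℝ)| := abs_pos.mpr (by exact_mod_cast hp'.1)
      have h3 : ∀ q ∈ Iz L, ∑ y ∈ D.erase 0, (if p * x = q * y then r x ^ 2 * f p q else 0) ≤
          if q ∣ p * x then r x ^ 2 * (1 / |(p : ℝ)|) else 0 := by
        intro q hq
        have hq0 := (mem_Iz.mp hq).1
        by_cases hex : ∃ y ∈ D.erase 0, p * x = q * y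
        · obtain ⟨y, hy, hxy⟩ := hex
          rw [Finset.sum_eq_single y]
          · rw [if_pos hxy, if_pos ⟨y, hxy⟩, hf]
            exact mul_le_mul_of_nonneg_left (wt_le p q hp'.1) (sq_nonneg _)
          · intro y' _ hne
            rw [if_neg]
            intro h
            exact hne (mul_left_cancel₀ hq0 (h.symm.trans hxy))
          · intro h; exact absurd hy h
        · rw [Finset.sum_eq_zero]
          · split_ifs <;> positivity
          · intro y hy
            rw [if_neg]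
            intro h
            exact hex ⟨y, hy, h⟩
      refine (sum_le_sum h3).trans ?_
      rw [← Finset.sum_filter, sum_const, nsmul_eq_mul]
      have h4 := card_div_Iz L (p * x) hpx
      have h5 : ((p * x).natAbs.divisors.card : ℝ) ≤ Δ := by
        apply hΔ _ (Int.natAbs_pos.mpr hpx)
        refine le_trans ?_ hU
        have h6 : |p * x| ≤ L * (2 * B) := by
          rw [abs_mul]
          exact mul_le_mul hp'.2 (hxB x hx'.2) (abs_nonneg _) (by positivity)
        rw [Int.abs_eq_natAbs] at h6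
        have h7 : (p * x).natAbs ≤ L * (2 * B) := by exact_mod_cast h6
        calc (p * x).natAbs ≤ L * (2 * B) := h7
          _ = 2 * B * L := by ring
      have h8 : (((Iz L).filter (fun q => q ∣ p * x)).card : ℝ) ≤ 2 * Δ := by
        have : (((Iz L).filter (fun q => q ∣ p * x)).card : ℝ) ≤
            2 * ((p * x).natAbs.divisors.card : ℝ) := by exact_mod_cast h4
        linarith
      calc (((Iz L).filter (fun q => q ∣ p * x)).card : ℝ) * (r x ^ 2 * (1 / |(p : ℝ)|))
          ≤ 2 * Δ * (r x ^ 2 * (1 / |(p : ℝ)|)) := mul_le_mul_of_nonneg_right h8 (by positivity)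
        _ = r x ^ 2 * (2 * Δ) * (1 / |(p : ℝ)|) := by ring
    calc ∑ p ∈ Iz L, ∑ q ∈ Iz L, ∑ x ∈ D.erase 0, ∑ y ∈ D.erase 0,
        (if p * x = q * y then r x ^ 2 * f p q else 0)
        = ∑ p ∈ Iz L, ∑ x ∈ D.erase 0, ∑ q ∈ Iz L, ∑ y ∈ D.erase 0,
        (if p * x = q * y then r x ^ 2 * f p q else 0) := by
          refine sum_congr rfl fun p _ => ?_
          rw [sum_comm]
      _ ≤ ∑ p ∈ Iz L, ∑ x ∈ D.erase 0, r x ^ 2 * (2 * Δ) * (1 / |(p : ℝ)|) :=
          sum_le_sum fun p hp => sum_le_sum fun x hx => h2 p hp x hx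
      _ = (∑ x ∈ D.erase 0, r x ^ 2) * (2 * Δ) * ∑ p ∈ Iz L, (1 / |(p : ℝ)|) := by
          rw [mul_sum]
          refine sum_congr rfl fun p _ => ?_
          rw [← sum_mul, ← sum_mul]
      _ ≤ En A * (2 * Δ) * (2 * (1 + Real.log L)) := by
          have a1 : ∑ x ∈ D.erase 0, r x ^ 2 ≤ En A := by
            unfold En
            exact Finset.sum_le_sum_of_subset_of_nonneg (erase_subset _ _)
              (fun x _ _ => sq_nonneg _)
          have a2 := sum_Iz_inv L
          have a3 : 0 ≤ ∑ p ∈ Iz L, (1 / |(p : ℝ)|) := sum_nonneg fun p _ => by positivity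
          have a0 : 0 ≤ ∑ x ∈ D.erase 0, r x ^ 2 := sum_nonneg fun x _ => sq_nonneg _
          have a4 := En_nonneg A
          gcongr
      _ = 4 * Δ * (1 + Real.log L) * En A := by ring
  have hT1 := hT wt (fun _ _ => rfl)
  have hT2 : ∑ p ∈ Iz L, ∑ q ∈ Iz L, ∑ x ∈ D.erase 0, ∑ y ∈ D.erase 0,
        (if p * x = q * y then r y ^ 2 * wt p q else 0) ≤ 4 * Δ * (1 + Real.log L) * En A := by
    have h3 := hT (fun p q => wt q p) (fun p q => wt_comm q p)
    refine le_trans (le_of_eq ?_) h3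
    rw [sum_comm]
    refine sum_congr rfl fun q _ => ?_
    refine sum_congr rfl fun p _ => ?_
    rw [sum_comm]
    refine sum_congr rfl fun y _ => ?_
    refine sum_congr rfl fun x _ => ?_
    by_cases h : p * x = q * y
    · rw [if_pos h, if_pos h.symm]
    · rw [if_neg h, if_neg (fun h' => h h'.symm)]
  have hmain := sum_le_sum fun p hp => sum_le_sum fun q hq => h1 p hp q hq
  simp only [sum_add_distrib, ← mul_sum] at hmain
  have h4 : (n : ℝ) ^ 2 * ∑ p ∈ Iz L, ∑ q ∈ Iz L, wt p q ≤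
      (n : ℝ) ^ 2 * (4 * L * (1 + Real.log L)) :=
    mul_le_mul_of_nonneg_left (sum_wt_le L) (by positivity)
  linarith

/-- Pairs with equal values as a sum over the values. -/
theorem card_coll_eq {α β : Type} (X : Finset α) (Y : Finset β) (f : α → ℤ) (g : β → ℤ)
    (T : Finset ℤ) (hT : ∀ u ∈ X, f u ∈ T) :
    (((X ×ˢ Y).filter (fun p => f p.1 = g p.2)).card : ℝ) =
      ∑ τ ∈ T, ((X.filter (fun u => f u = τ)).card : ℝ) * (Y.filter (fun v => g v = τ)).card := by
  have h1 : ((X ×ˢ Y).filter (fun p => f p.1 = g p.2)).card =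
      ∑ τ ∈ T, (((X ×ˢ Y).filter (fun p => f p.1 = g p.2)).filter (fun p => f p.1 = τ)).card := by
    apply Finset.card_eq_sum_card_fiberwise
    intro p hp
    have hp' : p ∈ (X ×ˢ Y).filter (fun p => f p.1 = g p.2) := by simpa using hp
    rw [mem_filter, mem_product] at hp'
    exact_mod_cast hT p.1 hp'.1.1
  rw [h1]
  push_cast
  refine sum_congr rfl fun τ _ => ?_
  have h2 : ((X ×ˢ Y).filter (fun p => f p.1 = g p.2)).filter (fun p => f p.1 = τ) =
      (X.filter (fun u => f u = τ)) ×ˢ (Y.filter (fun v => g v = τ)) := by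
    ext p
    simp only [mem_filter, mem_product]
    constructor
    · rintro ⟨⟨⟨h3, h4⟩, h5⟩, h6⟩
      exact ⟨⟨h3, h6⟩, ⟨h4, h5.symm.trans h6⟩⟩
    · rintro ⟨⟨h3, h6⟩, ⟨h4, h5⟩⟩
      exact ⟨⟨⟨h3, h4⟩, h6.trans h5.symm⟩, h6⟩
  rw [h2, card_product]
  push_cast
  rfl

/-- Cauchy-Schwarz for the number of pairs with equal values. -/
theorem card_coll_sq {α β : Type} (X : Finset α) (Y : Finset β) (f : α → ℤ) (g : β → ℤ) :
    (((X ×ˢ Y).filter (fun p => f p.1 = g p.2)).card : ℝ) ^ 2 ≤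
      (((X ×ˢ X).filter (fun p => f p.1 = f p.2)).card : ℝ) *
      ((Y ×ˢ Y).filter (fun p => g p.1 = g p.2)).card := by
  set T := X.image f ∪ Y.image g with hT
  have hX : ∀ u ∈ X, f u ∈ T := fun u hu => mem_union_left _ (mem_image_of_mem f hu)
  have hY : ∀ u ∈ Y, g u ∈ T := fun u hu => mem_union_right _ (mem_image_of_mem g hu)
  rw [card_coll_eq X Y f g T hX, card_coll_eq X X f f T hX, card_coll_eq Y Y g g T hY]
  have h := Finset.sum_mul_sq_le_sq_mul_sq T
    (fun τ => ((X.filter (fun u => f u = τ)).card : ℝ))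
    (fun τ => ((Y.filter (fun v => g v = τ)).card : ℝ))
  simpa [sq] using h

/-- The collision number of `p a + q b` is the dilate energy. -/
theorem card_lin_eq (A : Finset ℤ) (p q : ℤ) :
    ((((A ×ˢ A) ×ˢ (A ×ˢ A)).filter
      (fun z => p * z.1.1 + q * z.1.2 = p * z.2.1 + q * z.2.2)).card : ℝ) = Dil A p q := by
  have hfib : ∀ x : ℤ, (S A x).card = ((A ×ˢ A).filter (fun z => z.1 - z.2 = x)).card := by
    intro x
    refine Finset.card_bij (fun a _ => (a, a - x)) ?_ ?_ ?_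
    · intro a ha
      rw [S, mem_filter] at ha
      simp [ha.1, ha.2]
    · intro a _ b _ h
      simp only [Prod.mk.injEq] at h
      exact h.1
    · rintro ⟨a, b⟩ hab
      rw [mem_filter, mem_product] at hab
      simp only at hab
      have hb : a - x = b := by linarith [hab.2]
      refine ⟨a, ?_, ?_⟩
      · rw [S, mem_filter]; exact ⟨hab.1.1, by rw [hb]; exact hab.1.2⟩
      · simp [hb]
  unfold Dil
  have h1 : (((A ×ˢ A) ×ˢ (A ×ˢ A)).filter
      (fun z => p * z.1.1 + q * z.1.2 = p * z.2.1 + q * z.2.2)).card =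
      ∑ w ∈ (A - A) ×ˢ (A - A), ((((A ×ˢ A) ×ˢ (A ×ˢ A)).filter
      (fun z => p * z.1.1 + q * z.1.2 = p * z.2.1 + q * z.2.2)).filter
        (fun z => (z.1.1 - z.2.1, z.2.2 - z.1.2) = w)).card := by
    apply Finset.card_eq_sum_card_fiberwise
    intro z hz
    have hz' : z ∈ ((A ×ˢ A) ×ˢ (A ×ˢ A)).filter
      (fun z => p * z.1.1 + q * z.1.2 = p * z.2.1 + q * z.2.2) := by simpa using hz
    rw [mem_filter, mem_product, mem_product, mem_product] at hz'
    have : (z.1.1 - z.2.1, z.2.2 - z.1.2) ∈ (A - A) ×ˢ (A - A) := by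
      rw [mem_product]
      exact ⟨sub_mem_sub hz'.1.1.1 hz'.1.2.1, sub_mem_sub hz'.1.2.2 hz'.1.1.2⟩
    exact_mod_cast this
  rw [h1]
  push_cast
  rw [Finset.sum_product]
  refine sum_congr rfl fun x _ => sum_congr rfl fun y _ => ?_
  split_ifs with h
  · rw [hfib x, hfib y, ← Nat.cast_mul, ← card_product]
    congr 1
    refine Finset.card_bij (fun z _ => ((z.1.1, z.2.1), (z.2.2, z.1.2))) ?_ ?_ ?_
    · rintro ⟨⟨a, b⟩, ⟨c, d⟩⟩ hz
      simp only [mem_filter, mem_product, Prod.mk.injEq] at hz ⊢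
      exact ⟨⟨⟨hz.1.1.1.1, hz.1.1.2.1⟩, hz.2.1⟩, ⟨⟨hz.1.1.2.2, hz.1.1.1.2⟩, hz.2.2⟩⟩
    · rintro ⟨⟨a, b⟩, ⟨c, d⟩⟩ _ ⟨⟨a', b'⟩, ⟨c', d'⟩⟩ _ h'
      simp only [Prod.mk.injEq] at h' ⊢
      exact ⟨⟨h'.1.1, h'.2.2⟩, ⟨h'.1.2, h'.2.1⟩⟩
    · rintro ⟨⟨a, b⟩, ⟨c, d⟩⟩ hz
      simp only [mem_filter, mem_product] at hz
      refine ⟨((a, d), (b, c)), ?_, rfl⟩
      simp only [mem_filter, mem_product, Prod.mk.injEq]
      refine ⟨⟨⟨⟨hz.1.1.1, hz.2.1.2⟩, ⟨hz.1.1.2, hz.2.1.1⟩⟩, ?_⟩, hz.1.2, hz.2.2⟩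
      have e1 := hz.1.2
      have e2 := hz.2.2
      have : p * (a - b) = q * (c - d) := by rw [e1, e2, h]
      linarith
  · rw [Finset.card_eq_zero.mpr, Nat.cast_zero]
    apply filter_false_of_mem
    rintro ⟨⟨a, b⟩, ⟨c, d⟩⟩ hz h'
    simp only [mem_filter, mem_product, Prod.mk.injEq] at hz h'
    apply h
    rw [← h'.1, ← h'.2]
    linarith [hz.2]

end Pool.Agent.MP_741d1b.H87
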