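import Mathlib
import Pool.Agent.Lib.MP_741d1b_nt_h87.T3Energy

/-! Weighted numbers of solutions of homogeneous equations in four and three elements of a set. -/

set_option autoImplicit false

namespace Pool.Agent.MP_741d1b.H87

open Finset Classical
open scoped Pointwise

/-- Number of solutions of `p a + q b + r c + s d = 0`. -/
noncomputable def Nq (A : Finset ℤ) (p q r s : ℤ) : ℝ :=
  ((((A ×ˢ A) ×ˢ (A ×ˢ A)).filter
    (fun z => p * z.1.1 + q * z.1.2 + r * z.2.1 + s * z.2.2 = 0)).card : ℝ)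

theorem Nq_nonneg (A : Finset ℤ) (p q r s : ℤ) : 0 ≤ Nq A p q r s := Nat.cast_nonneg _

theorem Nq_le (A : Finset ℤ) (p q r s : ℤ) :
    Nq A p q r s ≤ (1 / 2) * Dil A p q + (1 / 2) * Dil A r s := by
  have h := card_coll_sq (A ×ˢ A) (A ×ˢ A) (fun z => p * z.1 + q * z.2)
    (fun z => -(r * z.1 + s * z.2))
  have e1 : ((((A ×ˢ A) ×ˢ (A ×ˢ A)).filter
      (fun z => p * z.1.1 + q * z.1.2 = -(r * z.2.1 + s * z.2.2))).card : ℝ) = Nq A p q r s := by
    unfold Nq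
    congr 2
    apply filter_congr
    intro z _
    constructor
    · intro h; linarith
    · intro h; linarith
  have e2 : ((((A ×ˢ A) ×ˢ (A ×ˢ A)).filter
      (fun z => -(r * z.1.1 + s * z.1.2) = -(r * z.2.1 + s * z.2.2))).card : ℝ) = Dil A r s := by
    rw [← card_lin_eq A r s]
    congr 2
    apply filter_congr
    intro z _
    constructor
    · intro h; linarith
    · intro h; linarith
  rw [e1, card_lin_eq A p q, e2] at h
  have h1 := Dil_nonneg A p q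
  have h2 := Dil_nonneg A r s
  have h3 := Nq_nonneg A p q r s
  nlinarith [sq_nonneg (Dil A p q - Dil A r s)]

/-- Weight of a quadruple. -/
noncomputable def wt4 (p q r s : ℤ) : ℝ :=
  1 / max (max |(p : ℝ)| |(q : ℝ)|) (max |(r : ℝ)| |(s : ℝ)|)

theorem wt4_nonneg (p q r s : ℤ) : 0 ≤ wt4 p q r s := by unfold wt4; positivity

theorem wt4_le_left (p q r s : ℤ) (hp : p ≠ 0) : wt4 p q r s ≤ wt p q := by
  unfold wt4 wt
  apply one_div_le_one_div_of_le
  · exact lt_of_lt_of_le (abs_pos.mpr (by exact_mod_cast hp)) (le_max_left _ _)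
  · exact le_max_left _ _

theorem wt4_le_right (p q r s : ℤ) (hr : r ≠ 0) : wt4 p q r s ≤ wt r s := by
  unfold wt4 wt
  apply one_div_le_one_div_of_le
  · exact lt_of_lt_of_le (abs_pos.mpr (by exact_mod_cast hr)) (le_max_left _ _)
  · exact le_max_right _ _

theorem sol_sum (A : Finset ℤ) (n B L U : ℕ) (hn : A.card ≤ n) (hB : ∀ a ∈ A, |a| ≤ B)
    (hU : 2 * B * L ≤ U) (Δ : ℝ) (hΔ0 : 0 ≤ Δ)
    (hΔ : ∀ u : ℕ, 0 < u → u ≤ U → (u.divisors.card : ℝ) ≤ Δ) :
    ∑ p ∈ Iz L, ∑ q ∈ Iz L, ∑ r ∈ Iz L, ∑ s ∈ Iz L,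
      (if p + q + r + s = 0 then Nq A p q r s * wt4 p q r s else 0) ≤
      2 * L * (4 * L * (1 + Real.log L) * (n : ℝ) ^ 2 + 4 * Δ * (1 + Real.log L) * En A) := by
  set X := ∑ p ∈ Iz L, ∑ q ∈ Iz L, Dil A p q * wt p q with hX
  have hXle := dil_sum A n B L U hn hB hU Δ hΔ0 hΔ
  have one : ∀ (c : ℤ) (F : ℝ), 0 ≤ F →
      ∑ r ∈ Iz L, ∑ s ∈ Iz L, (if c + r + s = 0 then F else 0) ≤ 2 * L * F := by
    intro c F hF
    calc ∑ r ∈ Iz L, ∑ s ∈ Iz L, (if c + r + s = 0 then F else 0) ≤ ∑ r ∈ Iz L, F := by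
          refine sum_le_sum fun r _ => ?_
          have : ∀ s ∈ Iz L, (if c + r + s = 0 then F else 0) = if s = -(c + r) then F else 0 := by
            intro s _
            by_cases h : s = -(c + r)
            · rw [if_pos h, if_pos (by rw [h]; ring)]
            · rw [if_neg h, if_neg (fun h' => h (by linarith))]
          rw [sum_congr rfl this, Finset.sum_ite_eq' (Iz L) (-(c + r)) (fun _ => F)]
          split_ifs
          · exact le_refl _
          · exact hF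
      _ = 2 * L * F := by rw [sum_const, card_Iz, nsmul_eq_mul]; push_cast; rfl
  have h1 : ∀ p ∈ Iz L, ∀ q ∈ Iz L, ∀ r ∈ Iz L, ∀ s ∈ Iz L,
      (if p + q + r + s = 0 then Nq A p q r s * wt4 p q r s else 0) ≤
      (if p + q + r + s = 0 then (1 / 2) * (Dil A p q * wt p q) else 0) +
      (if p + q + r + s = 0 then (1 / 2) * (Dil A r s * wt r s) else 0) := by
    intro p hp q hq r hr s hs
    split_ifs
    · have a1 := Nq_le A p q r s
      have a2 := wt4_nonneg p q r s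
      have a3 := wt4_le_left p q r s (mem_Iz.mp hp).1
      have a4 := wt4_le_right p q r s (mem_Iz.mp hr).1
      have a5 := Dil_nonneg A p q
      have a6 := Dil_nonneg A r s
      calc Nq A p q r s * wt4 p q r s ≤ ((1 / 2) * Dil A p q + (1 / 2) * Dil A r s) * wt4 p q r s :=
            mul_le_mul_of_nonneg_right a1 a2
        _ = (1 / 2) * (Dil A p q * wt4 p q r s) + (1 / 2) * (Dil A r s * wt4 p q r s) := by ring
        _ ≤ _ := by
            have b1 := mul_le_mul_of_nonneg_left a3 a5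
            have b2 := mul_le_mul_of_nonneg_left a4 a6
            linarith
    · simp
  have h2 := sum_le_sum fun p hp => sum_le_sum fun q hq => sum_le_sum fun r hr =>
    sum_le_sum fun s hs => h1 p hp q hq r hr s hs
  refine h2.trans ?_
  simp only [sum_add_distrib]
  have e1 : ∑ p ∈ Iz L, ∑ q ∈ Iz L, ∑ r ∈ Iz L, ∑ s ∈ Iz L,
      (if p + q + r + s = 0 then (1 / 2) * (Dil A p q * wt p q) else 0) ≤ 2 * L * (1 / 2 * X) := by
    calc ∑ p ∈ Iz L, ∑ q ∈ Iz L, ∑ r ∈ Iz L, ∑ s ∈ Iz L,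
      (if p + q + r + s = 0 then (1 / 2) * (Dil A p q * wt p q) else 0)
        ≤ ∑ p ∈ Iz L, ∑ q ∈ Iz L, 2 * L * ((1 / 2) * (Dil A p q * wt p q)) :=
          sum_le_sum fun p _ => sum_le_sum fun q _ => one (p + q) _
            (mul_nonneg (by norm_num) (mul_nonneg (Dil_nonneg _ _ _) (wt_nonneg _ _)))
      _ = 2 * L * (1 / 2 * X) := by
          rw [hX]
          simp only [← mul_sum]
  have e2 : ∑ p ∈ Iz L, ∑ q ∈ Iz L, ∑ r ∈ Iz L, ∑ s ∈ Iz L,
      (if p + q + r + s = 0 then (1 / 2) * (Dil A r s * wt r s) else 0) ≤ 2 * L * (1 / 2 * X) := by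
    have h3 : ∑ p ∈ Iz L, ∑ q ∈ Iz L, ∑ r ∈ Iz L, ∑ s ∈ Iz L,
      (if p + q + r + s = 0 then (1 / 2) * (Dil A r s * wt r s) else 0) =
      ∑ r ∈ Iz L, ∑ s ∈ Iz L, ∑ p ∈ Iz L, ∑ q ∈ Iz L,
      (if (r + s) + p + q = 0 then (1 / 2) * (Dil A r s * wt r s) else 0) := by
      rw [show (∑ p ∈ Iz L, ∑ q ∈ Iz L, ∑ r ∈ Iz L, ∑ s ∈ Iz L,
        (if p + q + r + s = 0 then (1 / 2) * (Dil A r s * wt r s) else 0)) =
        ∑ p ∈ Iz L, ∑ r ∈ Iz L, ∑ q ∈ Iz L, ∑ s ∈ Iz L,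
        (if p + q + r + s = 0 then (1 / 2) * (Dil A r s * wt r s) else 0) from
          sum_congr rfl fun p _ => sum_comm]
      rw [sum_comm]
      refine sum_congr rfl fun r _ => ?_
      rw [show (∑ p ∈ Iz L, ∑ q ∈ Iz L, ∑ s ∈ Iz L,
        (if p + q + r + s = 0 then (1 / 2) * (Dil A r s * wt r s) else 0)) =
        ∑ p ∈ Iz L, ∑ s ∈ Iz L, ∑ q ∈ Iz L,
        (if p + q + r + s = 0 then (1 / 2) * (Dil A r s * wt r s) else 0) from
          sum_congr rfl fun p _ => sum_comm]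
      rw [sum_comm]
      refine sum_congr rfl fun s _ => sum_congr rfl fun p _ => sum_congr rfl fun q _ => ?_
      have : (p + q + r + s = 0) ↔ ((r + s) + p + q = 0) := by
        constructor <;> intro h <;> linarith
      simp only [this]
    rw [h3]
    calc ∑ r ∈ Iz L, ∑ s ∈ Iz L, ∑ p ∈ Iz L, ∑ q ∈ Iz L,
      (if (r + s) + p + q = 0 then (1 / 2) * (Dil A r s * wt r s) else 0)
        ≤ ∑ r ∈ Iz L, ∑ s ∈ Iz L, 2 * L * ((1 / 2) * (Dil A r s * wt r s)) :=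
          sum_le_sum fun r _ => sum_le_sum fun s _ => one (r + s) _
            (mul_nonneg (by norm_num) (mul_nonneg (Dil_nonneg _ _ _) (wt_nonneg _ _)))
      _ = 2 * L * (1 / 2 * X) := by
          rw [hX]
          simp only [← mul_sum]
  have h4 : 2 * (L : ℝ) * X ≤ 2 * L * (4 * L * (1 + Real.log L) * (n : ℝ) ^ 2 +
      4 * Δ * (1 + Real.log L) * En A) := mul_le_mul_of_nonneg_left hXle (by positivity)
  linarith

/-- The weighted number of triples with a ratio of small height. -/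
noncomputable def Wsum (A : Finset ℤ) (L : ℕ) : ℝ :=
  ∑ a ∈ A, ∑ b ∈ A, ∑ c ∈ A, if a ≠ b ∧ a ≠ c ∧ b ≠ c ∧ hgt (a - b) (a - c) ≤ L then
    1 / (hgt (a - b) (a - c) : ℝ) else 0

theorem hgt_red {x y : ℤ} (hx : x ≠ 0) (hy : y ≠ 0) (L : ℕ) (h : hgt x y ≤ L) :
    ∃ s ∈ Iz L, ∃ s' ∈ Iz L, s' * x = s * y ∧ 1 / (hgt x y : ℝ) = wt s s' := by
  have hg : 0 < Int.gcd x y := Int.gcd_pos_of_ne_zero_left _ hx
  obtain ⟨p, q, _, hp, hq⟩ := Int.exists_gcd_one hg
  have hp0 : p ≠ 0 := by intro h; apply hx; rw [hp, h, zero_mul]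
  have hq0 : q ≠ 0 := by intro h; apply hy; rw [hq, h, zero_mul]
  have hxa : x.natAbs = Int.gcd x y * p.natAbs := by
    conv_lhs => rw [hp]
    rw [Int.natAbs_mul, Int.natAbs_natCast, mul_comm]
  have hya : y.natAbs = Int.gcd x y * q.natAbs := by
    conv_lhs => rw [hq]
    rw [Int.natAbs_mul, Int.natAbs_natCast, mul_comm]
  have hH : hgt x y = max p.natAbs q.natAbs := by
    unfold hgt
    rw [hxa, hya, Nat.mul_max_mul_left, Nat.mul_div_cancel_left _ hg]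
  rw [hH] at h
  refine ⟨p, ?_, q, ?_, ?_, ?_⟩
  · rw [mem_Iz, Int.abs_eq_natAbs]
    exact ⟨hp0, by exact_mod_cast (le_max_left _ _).trans h⟩
  · rw [mem_Iz, Int.abs_eq_natAbs]
    exact ⟨hq0, by exact_mod_cast (le_max_right _ _).trans h⟩
  · have e : q * (p * ↑(Int.gcd x y)) = p * (q * ↑(Int.gcd x y)) := by ring
    rw [← hp, ← hq] at e
    exact e
  · rw [hH]
    unfold wt
    have e1 : |(p : ℝ)| = (p.natAbs : ℝ) := by rw [Nat.cast_natAbs]; push_cast; rfl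
    have e2 : |(q : ℝ)| = (q.natAbs : ℝ) := by rw [Nat.cast_natAbs]; push_cast; rfl
    rw [e1, e2]
    push_cast
    rfl

/-- Number of `(a, b, c)` with `(s' - s) a = s' b - s c`. -/
noncomputable def T3n (A : Finset ℤ) (s s' : ℤ) : ℝ :=
  (((A ×ˢ (A ×ˢ A)).filter (fun z => (s' - s) * z.1 = s' * z.2.1 + (-s) * z.2.2)).card : ℝ)

theorem T3n_sq (A : Finset ℤ) (n : ℕ) (hn : A.card ≤ n) (s s' : ℤ) (hne : s ≠ s') :
    T3n A s s' ^ 2 ≤ n * Dil A s' (-s) := by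
  have h := card_coll_sq A (A ×ˢ A) (fun a => (s' - s) * a) (fun z => s' * z.1 + (-s) * z.2)
  rw [card_lin_eq A s' (-s)] at h
  have e : ((A ×ˢ A).filter (fun p => (s' - s) * p.1 = (s' - s) * p.2)).card ≤ A.card := by
    refine Finset.card_le_card_of_injOn (fun p => p.1) ?_ ?_
    · intro p hp
      have hp' : p ∈ (A ×ˢ A).filter (fun p => (s' - s) * p.1 = (s' - s) * p.2) := by simpa using hp
      rw [mem_filter, mem_product] at hp'
      simpa using hp'.1.1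
    · intro p hp q hq hpq
      have hp' : p ∈ (A ×ˢ A).filter (fun p => (s' - s) * p.1 = (s' - s) * p.2) := by simpa using hp
      have hq' : q ∈ (A ×ˢ A).filter (fun p => (s' - s) * p.1 = (s' - s) * p.2) := by simpa using hq
      have hs : s' - s ≠ 0 := sub_ne_zero.mpr (Ne.symm hne)
      have e1 := mul_left_cancel₀ hs (mem_filter.mp hp').2
      have e2 := mul_left_cancel₀ hs (mem_filter.mp hq').2
      simp only at hpq
      ext
      · exact hpq
      · rw [← e1, ← e2, hpq]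
  have e' : (((A ×ˢ A).filter (fun p => (s' - s) * p.1 = (s' - s) * p.2)).card : ℝ) ≤ n := by
    exact_mod_cast e.trans hn
  exact h.trans (mul_le_mul_of_nonneg_right e' (Dil_nonneg _ _ _))

theorem Wsum_le (A : Finset ℤ) (L : ℕ) :
    Wsum A L ≤ ∑ s ∈ Iz L, ∑ s' ∈ Iz L, if s ≠ s' then wt s s' * T3n A s s' else 0 := by
  have h1 : ∀ a ∈ A, ∀ b ∈ A, ∀ c ∈ A, (if a ≠ b ∧ a ≠ c ∧ b ≠ c ∧ hgt (a - b) (a - c) ≤ L then
      1 / (hgt (a - b) (a - c) : ℝ) else 0) ≤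
      ∑ s ∈ Iz L, ∑ s' ∈ Iz L, if s ≠ s' ∧ (s' - s) * a = s' * b + (-s) * c then wt s s' else 0 := by
    intro a _ b _ c _
    have n0 : ∀ s s' : ℤ, 0 ≤ (if s ≠ s' ∧ (s' - s) * a = s' * b + (-s) * c then wt s s' else 0) := by
      intro s s'
      split_ifs
      · exact wt_nonneg _ _
      · exact le_refl _
    split_ifs with h
    · obtain ⟨hab, hac, hbc, hh⟩ := h
      obtain ⟨s, hs, s', hs', hrel, hw⟩ := hgt_red (sub_ne_zero.mpr hab) (sub_ne_zero.mpr hac) L hh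
      rw [hw]
      have hne : s ≠ s' := by
        intro h'
        rw [← h'] at hrel
        have := mul_left_cancel₀ (mem_Iz.mp hs).1 hrel
        apply hbc
        linarith
      calc wt s s' = (if s ≠ s' ∧ (s' - s) * a = s' * b + (-s) * c then wt s s' else 0) := by
            rw [if_pos ⟨hne, by linarith⟩]
        _ ≤ ∑ s' ∈ Iz L, (if s ≠ s' ∧ (s' - s) * a = s' * b + (-s) * c then wt s s' else 0) :=
            Finset.single_le_sum (f := fun s' =>
              (if s ≠ s' ∧ (s' - s) * a = s' * b + (-s) * c then wt s s' else 0))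
              (fun s' _ => n0 s s') hs'
        _ ≤ _ := Finset.single_le_sum (f := fun s => ∑ s' ∈ Iz L,
              (if s ≠ s' ∧ (s' - s) * a = s' * b + (-s) * c then wt s s' else 0))
              (fun s _ => sum_nonneg fun s' _ => n0 s s') hs
    · exact sum_nonneg fun s _ => sum_nonneg fun s' _ => n0 s s'
  unfold Wsum
  refine (sum_le_sum fun a ha => sum_le_sum fun b hb => sum_le_sum fun c hc =>
    h1 a ha b hb c hc).trans (le_of_eq ?_)
  have h2 : ∀ s ∈ Iz L, ∀ s' ∈ Iz L, (if s ≠ s' then wt s s' * T3n A s s' else 0) =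
      ∑ a ∈ A, ∑ b ∈ A, ∑ c ∈ A,
        if s ≠ s' ∧ (s' - s) * a = s' * b + (-s) * c then wt s s' else 0 := by
    intro s _ s' _
    by_cases hne : s ≠ s'
    · rw [if_pos hne]
      unfold T3n
      rw [mul_comm, ← nsmul_eq_mul, ← sum_const, Finset.sum_filter, Finset.sum_product]
      refine sum_congr rfl fun a _ => ?_
      rw [Finset.sum_product]
      refine sum_congr rfl fun b _ => sum_congr rfl fun c _ => ?_
      by_cases h : (s' - s) * a = s' * b + (-s) * c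
      · rw [if_pos h, if_pos ⟨hne, h⟩]
      · rw [if_neg h, if_neg (fun h' => h h'.2)]
    · rw [if_neg hne]
      symm
      refine Finset.sum_eq_zero fun a _ => Finset.sum_eq_zero fun b _ =>
        Finset.sum_eq_zero fun c _ => ?_
      rw [if_neg (fun h' => hne h'.1)]
  rw [sum_congr rfl (fun s hs => sum_congr rfl (fun s' hs' => h2 s hs s' hs'))]
  -- exchange the sums
  have h3 : ∀ F : ℤ → ℤ → ℤ → ℤ → ℤ → ℝ,
      ∑ a ∈ A, ∑ b ∈ A, ∑ c ∈ A, ∑ s ∈ Iz L, ∑ s' ∈ Iz L, F a b c s s' =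
      ∑ s ∈ Iz L, ∑ s' ∈ Iz L, ∑ a ∈ A, ∑ b ∈ A, ∑ c ∈ A, F a b c s s' := by
    intro F
    have a1 : ∀ G : ℤ → ℤ → ℤ → ℤ → ℝ, ∑ a ∈ A, ∑ b ∈ A, ∑ c ∈ A, ∑ s ∈ Iz L, G a b c s =
        ∑ s ∈ Iz L, ∑ a ∈ A, ∑ b ∈ A, ∑ c ∈ A, G a b c s := by
      intro G
      calc ∑ a ∈ A, ∑ b ∈ A, ∑ c ∈ A, ∑ s ∈ Iz L, G a b c s
          = ∑ a ∈ A, ∑ b ∈ A, ∑ s ∈ Iz L, ∑ c ∈ A, G a b c s :=
            sum_congr rfl fun a _ => sum_congr rfl fun b _ => sum_comm
        _ = ∑ a ∈ A, ∑ s ∈ Iz L, ∑ b ∈ A, ∑ c ∈ A, G a b c s := sum_congr rfl fun a _ => sum_comm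
        _ = _ := sum_comm
    rw [a1]
    refine sum_congr rfl fun s _ => ?_
    rw [a1]
  exact h3 _

theorem sum_Iz_neg (L : ℕ) (F : ℤ → ℝ) : ∑ s ∈ Iz L, F (-s) = ∑ s ∈ Iz L, F s := by
  refine Finset.sum_nbij' (fun s => -s) (fun s => -s) ?_ ?_ ?_ ?_ ?_
  · intro s hs; rw [mem_Iz] at hs ⊢; exact ⟨neg_ne_zero.mpr hs.1, by rw [abs_neg]; exact hs.2⟩
  · intro s hs; rw [mem_Iz] at hs ⊢; exact ⟨neg_ne_zero.mpr hs.1, by rw [abs_neg]; exact hs.2⟩
  · intro s _; ring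
  · intro s _; ring
  · intro s _; rfl

theorem Wsum_sq (A : Finset ℤ) (n B L U : ℕ) (hn : A.card ≤ n) (hB : ∀ a ∈ A, |a| ≤ B)
    (hU : 2 * B * L ≤ U) (Δ : ℝ) (hΔ0 : 0 ≤ Δ)
    (hΔ : ∀ u : ℕ, 0 < u → u ≤ U → (u.divisors.card : ℝ) ≤ Δ) :
    Wsum A L ^ 2 ≤ 4 * L * (1 + Real.log L) * (n *
      (4 * L * (1 + Real.log L) * (n : ℝ) ^ 2 + 4 * Δ * (1 + Real.log L) * En A)) := by
  have hXle := dil_sum A n B L U hn hB hU Δ hΔ0 hΔ
  set f : ℤ × ℤ → ℝ := fun z => Real.sqrt (wt z.1 z.2) with hf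
  set g : ℤ × ℤ → ℝ := fun z => if z.1 ≠ z.2 then Real.sqrt (wt z.1 z.2) * T3n A z.1 z.2 else 0
    with hg
  have hW0 : 0 ≤ Wsum A L := by
    unfold Wsum
    refine sum_nonneg fun a _ => sum_nonneg fun b _ => sum_nonneg fun c _ => ?_
    split_ifs <;> positivity
  have e1 : ∑ s ∈ Iz L, ∑ s' ∈ Iz L, (if s ≠ s' then wt s s' * T3n A s s' else 0) =
      ∑ z ∈ Iz L ×ˢ Iz L, f z * g z := by
    rw [Finset.sum_product]
    refine sum_congr rfl fun s _ => sum_congr rfl fun s' _ => ?_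
    simp only [hf, hg]
    split_ifs
    · rw [← mul_assoc, Real.mul_self_sqrt (wt_nonneg _ _)]
    · ring
  have hcs := Finset.sum_mul_sq_le_sq_mul_sq (Iz L ×ˢ Iz L) f g
  have e2 : ∑ z ∈ Iz L ×ˢ Iz L, f z ^ 2 ≤ 4 * L * (1 + Real.log L) := by
    rw [Finset.sum_product]
    refine le_trans (le_of_eq ?_) (sum_wt_le L)
    refine sum_congr rfl fun s _ => sum_congr rfl fun s' _ => ?_
    simp only [hf]
    rw [Real.sq_sqrt (wt_nonneg _ _)]
  have e3 : ∑ z ∈ Iz L ×ˢ Iz L, g z ^ 2 ≤ n * ∑ p ∈ Iz L, ∑ q ∈ Iz L, Dil A p q * wt p q := by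
    rw [Finset.sum_product, mul_sum]
    calc ∑ s ∈ Iz L, ∑ s' ∈ Iz L, g (s, s') ^ 2
        ≤ ∑ s ∈ Iz L, ∑ s' ∈ Iz L, n * (Dil A s' (-s) * wt s' (-s)) := by
          refine sum_le_sum fun s _ => sum_le_sum fun s' _ => ?_
          have hw : wt s' (-s) = wt s s' := by
            rw [wt_comm s s']; unfold wt; push_cast; rw [abs_neg]
          simp only [hg]
          split_ifs with h
          · rw [mul_pow, Real.sq_sqrt (wt_nonneg _ _), hw]
            have := T3n_sq A n hn s s' h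
            have := mul_le_mul_of_nonneg_left this (wt_nonneg s s')
            linarith
          · rw [hw]
            have a1 := Dil_nonneg A s' (-s)
            have a2 := wt_nonneg s s'
            rw [zero_pow two_ne_zero]
            exact mul_nonneg (Nat.cast_nonneg _) (mul_nonneg a1 a2)
      _ = ∑ s ∈ Iz L, ∑ s' ∈ Iz L, n * (Dil A s' s * wt s' s) :=
          sum_Iz_neg L (fun s => ∑ s' ∈ Iz L, n * (Dil A s' s * wt s' s))
      _ = ∑ p ∈ Iz L, n * ∑ q ∈ Iz L, Dil A p q * wt p q := by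
          rw [sum_comm]
          refine sum_congr rfl fun p _ => ?_
          rw [mul_sum]
  have hle := Wsum_le A L
  rw [e1] at hle
  have hl0 : 0 ≤ 4 * (L : ℝ) * (1 + Real.log L) := by
    refine le_trans ?_ (sum_wt_le L)
    exact sum_nonneg fun p _ => sum_nonneg fun q _ => wt_nonneg _ _
  have hg0 : 0 ≤ ∑ z ∈ Iz L ×ˢ Iz L, g z ^ 2 := sum_nonneg fun z _ => sq_nonneg _
  calc Wsum A L ^ 2 ≤ (∑ z ∈ Iz L ×ˢ Iz L, f z * g z) ^ 2 := pow_le_pow_left₀ hW0 hle 2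
    _ ≤ (∑ z ∈ Iz L ×ˢ Iz L, f z ^ 2) * ∑ z ∈ Iz L ×ˢ Iz L, g z ^ 2 := hcs
    _ ≤ (4 * L * (1 + Real.log L)) * (n * ∑ p ∈ Iz L, ∑ q ∈ Iz L, Dil A p q * wt p q) :=
        mul_le_mul e2 e3 hg0 hl0
    _ ≤ _ := by
        apply mul_le_mul_of_nonneg_left _ hl0
        exact mul_le_mul_of_nonneg_left hXle (Nat.cast_nonneg _)

end Pool.Agent.MP_741d1b.H87
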