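import Mathlib
import Pool.Agent.Lib.MP_741d1b_nt_h87.T3Sol

/-! The context of the proof by contradiction: a cluster for every multiplier. Basic averages. -/

set_option autoImplicit false

namespace Pool.Agent.MP_741d1b.H87

open Finset Classical
open scoped Pointwise

/-- A set `A` of `n` integers in `[-B, B]`, a large prime `M` and for every multiplier `t` a set
`C t ⊆ A` of `K` elements whose dilates are in an arc of length `1 / n`. -/
structure Ctx where
  n : ℕ
  M : ℕ
  A : Finset ℤ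
  K : ℕ
  B : ℕ
  C : ℕ → Finset ℤ
  k : ℕ → ℤ → ℤ
  X : ℕ → ℝ
  Δ : ℝ
  hM : M.Prime
  hn : 3 ≤ n
  hA : A.card = n
  hCA : ∀ t, C t ⊆ A
  hCK : ∀ t, (C t).card = K
  hlo : ∀ t, ∀ a ∈ C t, X t ≤ (t : ℝ) * a - (k t a : ℝ) * M
  hhi : ∀ t, ∀ a ∈ C t, (t : ℝ) * a - (k t a : ℝ) * M ≤ X t + (M : ℝ) / n
  hB : ∀ a ∈ A, |a| ≤ B
  hBM : n ^ 3 * (8 * (B + 1)) < M
  hΔ1 : 1 ≤ Δ
  hΔ : ∀ u : ℕ, 0 < u → u ≤ n ^ 3 * (8 * (B + 1)) → (u.divisors.card : ℝ) ≤ Δ

namespace Ctx

variable (c : Ctx)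

theorem n_pos : 0 < c.n := by have := c.hn; omega

theorem n_pos' : (0 : ℝ) < c.n := by exact_mod_cast c.n_pos

theorem M_pos' : (0 : ℝ) < c.M := by exact_mod_cast c.hM.pos

/-- The loss factor. -/
noncomputable def D1 : ℝ := 22 + 30 * c.Δ * (1 + Real.log c.n)

theorem log_nonneg : 0 ≤ Real.log c.n := by
  apply Real.log_nonneg
  have := c.hn
  exact_mod_cast (by omega : 1 ≤ c.n)

theorem D1_pos : 0 < c.D1 := by
  unfold D1
  have h1 := c.log_nonneg
  have h2 := c.hΔ1
  positivity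

theorem n_le_M : c.n ≤ c.M := by
  have h := c.hBM
  have h1 := c.n_pos
  have h2 : c.n * 1 ≤ c.n ^ 3 * (8 * (c.B + 1)) := by
    have : c.n ≤ c.n ^ 3 := Nat.le_self_pow (by norm_num) _
    calc c.n * 1 ≤ c.n ^ 3 * 1 := by omega
      _ ≤ c.n ^ 3 * (8 * (c.B + 1)) := Nat.mul_le_mul_left _ (by omega)
  omega

/-- Size of `m x` for `m ≤ n ^ 2` and `x` of size at most `4 B`. -/
theorem mul_lt_M {m : ℕ} (hm : m ≤ c.n ^ 3) {x : ℤ} (hx : |x| ≤ 6 * c.B) : (m : ℤ) * |x| < c.M := by
  have h := c.hBM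
  have h1 : (c.n : ℤ) ^ 3 * (8 * (c.B + 1)) < c.M := by exact_mod_cast h
  calc (m : ℤ) * |x| ≤ (c.n : ℤ) ^ 3 * (6 * c.B) := by
        apply mul_le_mul _ hx (abs_nonneg _) (by positivity)
        exact_mod_cast hm
    _ ≤ (c.n : ℤ) ^ 3 * (8 * (c.B + 1)) := by
        apply mul_le_mul_of_nonneg_left _ (by positivity)
        have : (0 : ℤ) ≤ c.B := by positivity
        linarith
    _ < c.M := h1

theorem sub_le {a b : ℤ} (ha : a ∈ c.A) (hb : b ∈ c.A) : |a - b| ≤ 2 * c.B := by
  calc |a - b| ≤ |a| + |b| := abs_sub _ _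
    _ ≤ 2 * c.B := by linarith [c.hB a ha, c.hB b hb]

theorem sub_lt {a b : ℤ} (ha : a ∈ c.A) (hb : b ∈ c.A) : (c.n : ℤ) * |a - b| < c.M := by
  apply c.mul_lt_M (Nat.le_self_pow (by norm_num) _)
  have := c.sub_le ha hb
  have : (0 : ℤ) ≤ c.B := by positivity
  linarith

theorem div_le {x : ℤ} (hx0 : x ≠ 0) (hx : |x| ≤ 8 * (c.B + 1)) :
    (x.natAbs.divisors.card : ℝ) ≤ c.Δ := by
  apply c.hΔ _ (Int.natAbs_pos.mpr hx0)
  have h1 : x.natAbs ≤ 8 * (c.B + 1) := by
    rw [Int.abs_eq_natAbs] at hx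
    exact_mod_cast hx
  calc x.natAbs ≤ 1 * (8 * (c.B + 1)) := by omega
    _ ≤ c.n ^ 3 * (8 * (c.B + 1)) := Nat.mul_le_mul_right _ (Nat.one_le_pow _ _ c.n_pos)

/-- Differences of elements of a cluster are near, with explicit integers. -/
theorem ni {t : ℕ} {a b : ℤ} (ha : a ∈ c.C t) (hb : b ∈ c.C t) :
    NI c.M c.n t (a - b) (c.k t a - c.k t b) := by
  have h1 := c.hlo t a ha
  have h2 := c.hhi t a ha
  have h3 := c.hlo t b hb
  have h4 := c.hhi t b hb
  have hn := c.n_pos'
  unfold NI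
  have h5 : |((t : ℝ) * (a - b) - (c.k t a - c.k t b) * c.M)| ≤ (c.M : ℝ) / c.n := by
    rw [abs_le]
    constructor <;> linarith
  rw [le_div_iff₀ hn] at h5
  have h6 : ((|(t : ℤ) * (a - b) - (c.k t a - c.k t b) * c.M| * c.n : ℤ) : ℝ) ≤
      ((c.M : ℤ) : ℝ) := by
    push_cast
    exact h5
  exact_mod_cast h6

theorem near {t : ℕ} {a b : ℤ} (ha : a ∈ c.C t) (hb : b ∈ c.C t) : Near c.M c.n t (a - b) :=
  (c.ni ha hb).near

/-- Sums over pairs and a third element. -/
theorem triple_sum {a b : ℤ} (ha : a ∈ c.A) (hb : b ∈ c.A) (hab : a ≠ b) :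
    ∑ y ∈ c.A, (((range c.M).filter
      (fun t => Near c.M c.n t (a - b) ∧ Near c.M c.n t (a - y))).card : ℝ) ≤
      (c.M : ℝ) / c.n * c.D1 := by
  have h := near_pair_sum c.hM c.n_pos c.n_le_M (a - b) (sub_ne_zero.mpr hab) (c.sub_lt ha hb)
    (c.A.image (fun y => a - y)) (by
      intro y hy
      obtain ⟨z, hz, rfl⟩ := mem_image.mp hy
      exact c.sub_lt ha hz) c.Δ (c.div_le (sub_ne_zero.mpr hab) (by
        have := c.sub_le ha hb
        have : (0 : ℤ) ≤ c.B := by positivity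
        linarith))
  rw [Finset.sum_image (by intro x _ y _ h; simp only at h; linarith)] at h
  refine h.trans ?_
  have hn := c.n_pos'
  have hM := c.M_pos'
  apply mul_le_mul_of_nonneg_left _ (by positivity)
  have h2 : ((c.A.image (fun y => a - y)).card : ℝ) ≤ c.n := by
    have : (c.A.image (fun y => a - y)).card ≤ c.A.card := card_image_le
    rw [c.hA] at this
    exact_mod_cast this
  have h3 : 15 * ((c.A.image (fun y => a - y)).card : ℝ) / c.n ≤ 15 := by
    rw [div_le_iff₀ hn]; linarith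
  unfold D1
  linarith

/-- Sparse sets of pairs are rare in the clusters. -/
theorem sparse (Q : Finset (ℤ × ℤ)) (hQ : ∀ z ∈ Q, z.1 ∈ c.A ∧ z.2 ∈ c.A ∧ z.1 ≠ z.2) :
    (c.K : ℝ) * ∑ t ∈ range c.M, (((c.C t ×ˢ c.C t) ∩ Q).card : ℝ) ≤
      Q.card * ((c.M : ℝ) / c.n * c.D1) := by
  have h1 : ∀ t ∈ range c.M, (c.K : ℝ) * (((c.C t ×ˢ c.C t) ∩ Q).card : ℝ) ≤
      ∑ z ∈ Q, ∑ y ∈ c.A,
        if Near c.M c.n t (z.1 - z.2) ∧ Near c.M c.n t (z.1 - y) then (1 : ℝ) else 0 := by
    intro t _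
    calc (c.K : ℝ) * (((c.C t ×ˢ c.C t) ∩ Q).card : ℝ) =
        ∑ z ∈ (c.C t ×ˢ c.C t) ∩ Q, ∑ y ∈ c.C t, (1 : ℝ) := by
          rw [sum_const, sum_const, c.hCK t]; simp [mul_comm]
      _ ≤ ∑ z ∈ (c.C t ×ˢ c.C t) ∩ Q, ∑ y ∈ c.A,
        if Near c.M c.n t (z.1 - z.2) ∧ Near c.M c.n t (z.1 - y) then (1 : ℝ) else 0 := by
          refine sum_le_sum fun z hz => ?_
          rw [mem_inter, mem_product] at hz
          calc ∑ y ∈ c.C t, (1 : ℝ) = ∑ y ∈ c.C t,
              if Near c.M c.n t (z.1 - z.2) ∧ Near c.M c.n t (z.1 - y) then (1 : ℝ) else 0 := by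
                refine sum_congr rfl fun y hy => ?_
                rw [if_pos ⟨c.near hz.1.1 hz.1.2, c.near hz.1.1 hy⟩]
            _ ≤ _ := Finset.sum_le_sum_of_subset_of_nonneg (c.hCA t) (fun y _ _ => by
                split_ifs <;> norm_num)
      _ ≤ _ := Finset.sum_le_sum_of_subset_of_nonneg inter_subset_right (fun z _ _ =>
          sum_nonneg fun y _ => by split_ifs <;> norm_num)
  rw [mul_sum]
  refine (sum_le_sum h1).trans ?_
  rw [sum_comm]
  calc ∑ z ∈ Q, ∑ t ∈ range c.M, ∑ y ∈ c.A,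
        (if Near c.M c.n t (z.1 - z.2) ∧ Near c.M c.n t (z.1 - y) then (1 : ℝ) else 0)
      ≤ ∑ z ∈ Q, (c.M : ℝ) / c.n * c.D1 := by
        refine sum_le_sum fun z hz => ?_
        rw [sum_comm]
        have h2 := c.triple_sum (hQ z hz).1 (hQ z hz).2.1 (hQ z hz).2.2
        refine le_trans (le_of_eq ?_) h2
        refine sum_congr rfl fun y _ => ?_
        rw [sum_ite_card (fun t => Near c.M c.n t (z.1 - z.2) ∧ Near c.M c.n t (z.1 - y)) 1, mul_one]
    _ = Q.card * ((c.M : ℝ) / c.n * c.D1) := by rw [sum_const, nsmul_eq_mul]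

/-- Near triples. -/
noncomputable def Tr (t : ℕ) : Finset (ℤ × ℤ × ℤ) :=
  (c.A ×ˢ c.A ×ˢ c.A).filter (fun z => Near c.M c.n t (z.1 - z.2.1) ∧ Near c.M c.n t (z.1 - z.2.2))

theorem near_zero (M n t : ℕ) : Near M n t 0 := ⟨0, by simp⟩

theorem sum_Tr : ∑ t ∈ range c.M, ((c.Tr t).card : ℝ) ≤ c.M * (c.n * c.D1) := by
  have hn := c.n_pos'
  have hM := c.M_pos'
  have e : ∀ t ∈ range c.M, ((c.Tr t).card : ℝ) = ∑ a ∈ c.A, ∑ b ∈ c.A, ∑ y ∈ c.A,
      if Near c.M c.n t (a - b) ∧ Near c.M c.n t (a - y) then (1 : ℝ) else 0 := by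
    intro t _
    unfold Tr
    rw [card_filter]
    push_cast
    rw [Finset.sum_product]
    refine sum_congr rfl fun a _ => ?_
    rw [Finset.sum_product]
  rw [sum_congr rfl e, sum_comm]
  have h1 : ∀ a ∈ c.A, ∑ t ∈ range c.M, ∑ b ∈ c.A, ∑ y ∈ c.A,
      (if Near c.M c.n t (a - b) ∧ Near c.M c.n t (a - y) then (1 : ℝ) else 0) ≤ c.M * c.D1 := by
    intro a ha
    rw [sum_comm]
    have h2 : ∀ b ∈ c.A, ∑ t ∈ range c.M, ∑ y ∈ c.A,
        (if Near c.M c.n t (a - b) ∧ Near c.M c.n t (a - y) then (1 : ℝ) else 0) ≤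
        (c.M : ℝ) / c.n * (c.D1 - 4) + (if b = a then (4 : ℝ) * c.M else 0) := by
      intro b hb
      by_cases hab : b = a
      · rw [if_pos hab, hab, sub_self, sum_comm]
        have h3 : ∀ y ∈ c.A, ∑ t ∈ range c.M,
            (if Near c.M c.n t 0 ∧ Near c.M c.n t (a - y) then (1 : ℝ) else 0) ≤
            (3 : ℝ) * c.M / c.n + (if y = a then (c.M : ℝ) else 0) := by
          intro y hy
          rw [sum_ite_card (fun t => Near c.M c.n t 0 ∧ Near c.M c.n t (a - y)) 1, mul_one]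
          by_cases hya : y = a
          · rw [if_pos hya]
            have : (((range c.M).filter
              (fun t => Near c.M c.n t 0 ∧ Near c.M c.n t (a - y))).card : ℝ) ≤ c.M := by
              have := card_filter_le (range c.M)
                (fun t => Near c.M c.n t 0 ∧ Near c.M c.n t (a - y))
              rw [card_range] at this
              exact_mod_cast this
            have h4 : 0 ≤ (3 : ℝ) * c.M / c.n := by positivity
            linarith
          · rw [if_neg hya, add_zero]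
            have h5 := card_near_le c.hM c.n_pos c.n_le_M (x := a - y) (by
              intro hd
              have hne : a - y ≠ 0 := sub_ne_zero.mpr (Ne.symm hya)
              have h6 : (c.M : ℤ) ≤ |a - y| :=
                Int.le_of_dvd (abs_pos.mpr hne) ((dvd_abs _ _).mpr hd)
              have h7 := c.sub_lt ha hy
              have h8 : (1 : ℤ) ≤ c.n := by exact_mod_cast c.n_pos
              have h9 : 0 ≤ |a - y| := abs_nonneg _
              nlinarith)
            refine le_trans ?_ h5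
            apply Nat.cast_le.mpr
            apply card_le_card
            intro t ht
            rw [mem_filter] at ht ⊢
            exact ⟨ht.1, ht.2.2⟩
        refine (sum_le_sum h3).trans ?_
        rw [sum_add_distrib, sum_const, c.hA, nsmul_eq_mul,
          Finset.sum_ite_eq' c.A a (fun _ => (c.M : ℝ)), if_pos ha]
        have h10 : 0 ≤ (c.M : ℝ) / c.n * (c.D1 - 4) := by
          apply mul_nonneg (by positivity)
          unfold D1
          have h1 := c.log_nonneg
          have h2 := c.hΔ1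
          have : 0 ≤ 30 * c.Δ * (1 + Real.log c.n) := by positivity
          linarith
        have h11 : (c.n : ℝ) * (3 * c.M / c.n) = 3 * c.M := by field_simp
        linarith
      · rw [if_neg hab, add_zero, sum_comm]
        have h2 := near_pair_sum c.hM c.n_pos c.n_le_M (a - b) (sub_ne_zero.mpr (Ne.symm hab))
          (c.sub_lt ha hb) (c.A.image (fun y => a - y)) (by
            intro y hy
            obtain ⟨z, hz, rfl⟩ := mem_image.mp hy
            exact c.sub_lt ha hz) c.Δ (c.div_le (sub_ne_zero.mpr (Ne.symm hab)) (by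
              have := c.sub_le ha hb
              have : (0 : ℤ) ≤ c.B := by positivity
              linarith))
        rw [Finset.sum_image (by intro x _ y _ h; simp only at h; linarith)] at h2
        have h3 : ((c.A.image (fun y => a - y)).card : ℝ) ≤ c.n := by
          have : (c.A.image (fun y => a - y)).card ≤ c.A.card := card_image_le
          rw [c.hA] at this
          exact_mod_cast this
        have h4 : 15 * ((c.A.image (fun y => a - y)).card : ℝ) / c.n ≤ 15 := by
          rw [div_le_iff₀ hn]; linarith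
        have e1 : ∑ y ∈ c.A, ∑ t ∈ range c.M,
            (if Near c.M c.n t (a - b) ∧ Near c.M c.n t (a - y) then (1 : ℝ) else 0) =
            ∑ y ∈ c.A, (((range c.M).filter
              (fun t => Near c.M c.n t (a - b) ∧ Near c.M c.n t (a - y))).card : ℝ) := by
          refine sum_congr rfl fun y _ => ?_
          rw [sum_ite_card (fun t => Near c.M c.n t (a - b) ∧ Near c.M c.n t (a - y)) 1, mul_one]
        rw [e1]
        refine h2.trans ?_
        apply mul_le_mul_of_nonneg_left _ (by positivity)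
        unfold D1
        linarith
    refine (sum_le_sum h2).trans ?_
    rw [sum_add_distrib, sum_const, c.hA, nsmul_eq_mul,
      Finset.sum_ite_eq' c.A a (fun _ => (4 : ℝ) * c.M), if_pos ha]
    have h12 : (c.n : ℝ) * ((c.M : ℝ) / c.n * (c.D1 - 4)) = c.M * (c.D1 - 4) := by field_simp
    rw [h12]
    linarith
  refine (sum_le_sum h1).trans ?_
  rw [sum_const, c.hA, nsmul_eq_mul]
  linarith

end Ctx

end Pool.Agent.MP_741d1b.H87
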