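import Mathlib
import Pool.Agent.Lib.MP_741d1b_nt_h87.T3Ctx

/-! Typical elements, third moment of the representation function, popular differences in clusters. -/

set_option autoImplicit false

namespace Pool.Agent.MP_741d1b.H87

open Finset Classical
open scoped Pointwise

/-- Pairs with one difference in a cluster. -/
theorem rho_le (A C Y : Finset ℤ) (hCA : C ⊆ A) (hY0 : ∀ y ∈ Y, y ≠ 0) (N : ℤ → Prop)
    (hCY : ∀ a ∈ C, ∀ b ∈ C, a ≠ b → a - b ∈ Y) (hN : ∀ a ∈ C, ∀ b ∈ C, a ≠ b → N (a - b))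
    (n : ℕ) (hn : 1 ≤ n) (x : ℤ) (hx0 : x ≠ 0) (l : ℝ) (hl : 0 < l) :
    ((S C x).card : ℝ) ≤ 4 * (∑ y ∈ Y, if N x ∧ N y ∧ hgt x y ≤ n then (1 : ℝ) else 0) +
      l / 2 * (if N x then ((S A x).card : ℝ) else 0) + Q A n N x / ((S A x).card : ℝ) / l := by
  set m : ℝ := ∑ y ∈ Y, if N x ∧ N y ∧ hgt x y ≤ n then (1 : ℝ) else 0 with hm
  have hm0 : 0 ≤ m := by
    refine sum_nonneg fun y _ => ?_
    split_ifs <;> norm_num
  have hI0 : (0 : ℝ) ≤ (if N x then ((S A x).card : ℝ) else 0) := by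
    split_ifs
    · exact Nat.cast_nonneg _
    · exact le_refl _
  have hQ := Q_nonneg A n N x
  rcases Nat.eq_zero_or_pos (S C x).card with h0 | hpos
  · rw [h0]
    have : 0 ≤ Q A n N x / ((S A x).card : ℝ) / l := by positivity
    have h2 : 0 ≤ l / 2 * (if N x then ((S A x).card : ℝ) else 0) := by positivity
    push_cast
    linarith
  · obtain ⟨a, ha⟩ := card_pos.mp hpos
    have ha' := ha
    rw [S, mem_filter] at ha'
    have hne : a ≠ a - x := by intro h; apply hx0; linarith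
    have hNx : N x := by
      have := hN a ha'.1 (a - x) ha'.2 hne
      simpa using this
    have hxY : x ∈ Y := by
      have := hCY a ha'.1 (a - x) ha'.2 hne
      simpa using this
    rw [if_pos hNx]
    have hsub : S C x ⊆ S A x := by
      intro b hb
      rw [S, mem_filter] at hb ⊢
      exact ⟨hCA hb.1, hCA hb.2⟩
    have hr : 0 < (S A x).card := lt_of_lt_of_le hpos (card_le_card hsub)
    have hr' : (0 : ℝ) < (S A x).card := by exact_mod_cast hr
    have hρ' : (0 : ℝ) < (S C x).card := by exact_mod_cast hpos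
    have h1 := rho_sq_le A Y C hCA hY0 N hCY hN n hn x hxY hpos
    rw [← hm] at h1
    set ρ : ℝ := ((S C x).card : ℝ) with hρ
    set r : ℝ := ((S A x).card : ℝ) with hrr
    by_cases hcase : ρ ≤ 4 * m
    · have : 0 ≤ Q A n N x / r / l := by positivity
      have h2 : 0 ≤ l / 2 * r := by positivity
      linarith
    · push Not at hcase
      have h2 : ρ ^ 2 ≤ 2 * Q A n N x := by nlinarith
      have h4 : ρ ^ 2 / 2 / r / l ≤ Q A n N x / r / l := by
        gcongr
        linarith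
      have h5 : ρ ≤ l / 2 * r + ρ ^ 2 / 2 / r / l := by
        have h6 : l / 2 * r + ρ ^ 2 / 2 / r / l - ρ = (l * r - ρ) ^ 2 / (2 * l * r) := by
          field_simp
          ring
        have h7 : 0 ≤ (l * r - ρ) ^ 2 / (2 * l * r) := by positivity
        linarith
      linarith

namespace Ctx

variable (c : Ctx)

/-- Number of multipliers whose cluster contains `a`. -/
noncomputable def cnt (a : ℤ) : ℕ := ((range c.M).filter (fun t => a ∈ c.C t)).card

/-- Typical elements. -/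
noncomputable def As : Finset ℤ := c.A.filter (fun a => c.M * c.K ≤ 2 * c.n * c.cnt a)

theorem As_sub : c.As ⊆ c.A := filter_subset _ _

theorem As_card : c.As.card ≤ c.n := by
  rw [← c.hA]; exact card_le_card c.As_sub

theorem sum_inter (S' : Finset ℤ) :
    ∑ t ∈ range c.M, ((c.C t ∩ S').card : ℝ) = ∑ a ∈ S', (c.cnt a : ℝ) := by
  have e1 : ∀ t ∈ range c.M, ((c.C t ∩ S').card : ℝ) =
      ∑ a ∈ S', if a ∈ c.C t then (1 : ℝ) else 0 := by
    intro t _
    rw [inter_comm, ← Finset.filter_mem_eq_inter, card_filter]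
    push_cast; rfl
  rw [sum_congr rfl e1, sum_comm]
  refine sum_congr rfl fun a _ => ?_
  rw [sum_ite_card (fun t => a ∈ c.C t) 1, mul_one]
  rfl

theorem first_moment (S' : Finset ℤ) (hS : S' ⊆ c.As) :
    (S'.card : ℝ) * (c.M * c.K / (2 * c.n)) ≤ ∑ t ∈ range c.M, ((c.C t ∩ S').card : ℝ) := by
  rw [c.sum_inter S', ← nsmul_eq_mul, ← sum_const]
  refine sum_le_sum fun a ha => ?_
  have h := (mem_filter.mp (hS ha)).2
  have hn := c.n_pos'
  rw [div_le_iff₀ (by positivity)]
  have : ((c.M * c.K : ℕ) : ℝ) ≤ ((2 * c.n * c.cnt a : ℕ) : ℝ) := by exact_mod_cast h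
  push_cast at this
  linarith

theorem third_moment (S' : Finset ℤ) (hS : S' ⊆ c.As) :
    c.M * ((S'.card : ℝ) * (c.K / (2 * c.n))) ^ 3 ≤
      ∑ t ∈ range c.M, ((c.C t ∩ S').card : ℝ) ^ 3 := by
  have h1 := c.first_moment S' hS
  have hn := c.n_pos'
  have hM := c.M_pos'
  have h2 := pow_sum_div_card_le_sum_pow (s := range c.M)
    (f := fun t => ((c.C t ∩ S').card : ℝ)) (fun t _ => Nat.cast_nonneg _) 2
  rw [card_range] at h2
  refine le_trans ?_ h2
  rw [le_div_iff₀ (by positivity)]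
  have h3 : ((S'.card : ℝ) * (c.M * c.K / (2 * c.n))) ^ (2 + 1) ≤
      (∑ t ∈ range c.M, ((c.C t ∩ S').card : ℝ)) ^ (2 + 1) :=
    pow_le_pow_left₀ (by positivity) h1 _
  refine le_trans (le_of_eq ?_) h3
  ring

/-- The representation function of the typical elements. -/
noncomputable def r (v : ℤ) : ℝ := ((S c.As v).card : ℝ)

theorem r_nonneg (v : ℤ) : 0 ≤ c.r v := Nat.cast_nonneg _

theorem S_sub (v : ℤ) : S c.As v ⊆ c.As := filter_subset _ _

theorem r_le (v : ℤ) : c.r v ≤ c.n := by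
  unfold r
  exact_mod_cast (card_le_card (c.S_sub v)).trans c.As_card

theorem r_card (v : ℤ) : ((S c.As v).card : ℝ) = c.r v := rfl

/-- Counting shifted triples with multiplicity at most `K`. -/
theorem shift_le (t : ℕ) (V : Finset ℤ) :
    ∑ v ∈ V, ((c.C t ∩ S c.As v).card : ℝ) ^ 3 ≤ c.K * (c.Tr t).card := by
  set Z : Finset (Σ _ : ℤ, ℤ × ℤ × ℤ) := V.sigma (fun v =>
    (c.C t ∩ S c.As v) ×ˢ (c.C t ∩ S c.As v) ×ˢ (c.C t ∩ S c.As v)) with hZ
  have hcard : (Z.card : ℝ) = ∑ v ∈ V, ((c.C t ∩ S c.As v).card : ℝ) ^ 3 := by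
    rw [hZ, card_sigma]
    push_cast
    refine sum_congr rfl fun v _ => ?_
    rw [card_product, card_product]
    push_cast; ring
  have hle : Z.card ≤ (c.Tr t ×ˢ c.C t).card := by
    refine Finset.card_le_card_of_injOn
      (fun z => ((z.2.1 - z.1, z.2.2.1 - z.1, z.2.2.2 - z.1), z.2.1)) ?_ ?_
    · rintro ⟨v, a, b, d⟩ hz
      have hz' : (⟨v, a, b, d⟩ : Σ _ : ℤ, ℤ × ℤ × ℤ) ∈ Z := by simpa using hz
      rw [hZ, mem_sigma, mem_product, mem_product, mem_inter, mem_inter, mem_inter] at hz'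
      obtain ⟨_, ⟨ha, ha'⟩, ⟨hb, hb'⟩, hd, hd'⟩ := hz'
      have m1 : a - v ∈ c.A := c.As_sub (mem_filter.mp ha').2
      have m2 : b - v ∈ c.A := c.As_sub (mem_filter.mp hb').2
      have m3 : d - v ∈ c.A := c.As_sub (mem_filter.mp hd').2
      have : ((a - v, b - v, d - v), a) ∈ c.Tr t ×ˢ c.C t := by
        rw [mem_product, Tr, mem_filter, mem_product, mem_product]
        refine ⟨⟨⟨m1, m2, m3⟩, ?_, ?_⟩, ha⟩
        · have : a - v - (b - v) = a - b := by ring
          simp only [this]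
          exact c.near ha hb
        · have : a - v - (d - v) = a - d := by ring
          simp only [this]
          exact c.near ha hd
      simpa using this
    · rintro ⟨v, a, b, d⟩ _ ⟨v', a', b', d'⟩ _ h
      simp only [Prod.mk.injEq] at h
      obtain ⟨⟨h1, h2, h3⟩, h4⟩ := h
      subst h4
      have hv : v = v' := by linarith
      subst hv
      have hb : b = b' := by linarith
      have hd : d = d' := by linarith
      subst hb hd
      rfl
  rw [card_product, c.hCK t] at hle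
  rw [← hcard]
  have : (Z.card : ℝ) ≤ (((c.Tr t).card * c.K : ℕ) : ℝ) := by exact_mod_cast hle
  push_cast at this
  linarith

/-- Counting shifted triples when no two shifts are near. -/
theorem shift_le' (t : ℕ) (V : Finset ℤ)
    (hV : ∀ v ∈ V, ∀ v' ∈ V, v ≠ v' → ¬ Near c.M c.n t (v - v')) :
    ∑ v ∈ V, ((c.C t ∩ S c.As v).card : ℝ) ^ 3 ≤ (c.Tr t).card := by
  set Z : Finset (Σ _ : ℤ, ℤ × ℤ × ℤ) := V.sigma (fun v =>
    (c.C t ∩ S c.As v) ×ˢ (c.C t ∩ S c.As v) ×ˢ (c.C t ∩ S c.As v)) with hZ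
  have hcard : (Z.card : ℝ) = ∑ v ∈ V, ((c.C t ∩ S c.As v).card : ℝ) ^ 3 := by
    rw [hZ, card_sigma]
    push_cast
    refine sum_congr rfl fun v _ => ?_
    rw [card_product, card_product]
    push_cast; ring
  have hle : Z.card ≤ (c.Tr t).card := by
    refine Finset.card_le_card_of_injOn
      (fun z => (z.2.1 - z.1, z.2.2.1 - z.1, z.2.2.2 - z.1)) ?_ ?_
    · rintro ⟨v, a, b, d⟩ hz
      have hz' : (⟨v, a, b, d⟩ : Σ _ : ℤ, ℤ × ℤ × ℤ) ∈ Z := by simpa using hz
      rw [hZ, mem_sigma, mem_product, mem_product, mem_inter, mem_inter, mem_inter] at hz'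
      obtain ⟨_, ⟨ha, ha'⟩, ⟨hb, hb'⟩, hd, hd'⟩ := hz'
      have m1 : a - v ∈ c.A := c.As_sub (mem_filter.mp ha').2
      have m2 : b - v ∈ c.A := c.As_sub (mem_filter.mp hb').2
      have m3 : d - v ∈ c.A := c.As_sub (mem_filter.mp hd').2
      have : (a - v, b - v, d - v) ∈ c.Tr t := by
        rw [Tr, mem_filter, mem_product, mem_product]
        refine ⟨⟨m1, m2, m3⟩, ?_, ?_⟩
        · have : a - v - (b - v) = a - b := by ring
          simp only [this]
          exact c.near ha hb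
        · have : a - v - (d - v) = a - d := by ring
          simp only [this]
          exact c.near ha hd
      simpa using this
    · rintro ⟨v, a, b, d⟩ hz ⟨v', a', b', d'⟩ hz2 h
      have hz' : (⟨v, a, b, d⟩ : Σ _ : ℤ, ℤ × ℤ × ℤ) ∈ Z := by simpa using hz
      have hz2' : (⟨v', a', b', d'⟩ : Σ _ : ℤ, ℤ × ℤ × ℤ) ∈ Z := by simpa using hz2
      rw [hZ, mem_sigma, mem_product, mem_product, mem_inter, mem_inter, mem_inter] at hz' hz2'
      simp only [Prod.mk.injEq] at h
      obtain ⟨h1, h2, h3⟩ := h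
      have hv : v = v' := by
        by_contra hne
        apply hV v hz'.1 v' hz2'.1 hne
        have : v - v' = a - a' := by linarith
        rw [this]
        exact c.near hz'.2.1.1 hz2'.2.1.1
      subst hv
      have ha : a = a' := by linarith
      have hb : b = b' := by linarith
      have hd : d = d' := by linarith
      subst ha hb hd
      rfl
  rw [← hcard]
  exact_mod_cast hle

/-- The third moment of the representation function. -/
theorem sum_r_cube (V : Finset ℤ) :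
    ∑ v ∈ V, c.r v ^ 3 * ((c.K : ℝ) / (2 * c.n)) ^ 3 ≤ c.K * (c.n * c.D1) := by
  have hM := c.M_pos'
  have h1 : ∑ v ∈ V, (c.M : ℝ) * (c.r v * ((c.K : ℝ) / (2 * c.n))) ^ 3 ≤
      ∑ v ∈ V, ∑ t ∈ range c.M, ((c.C t ∩ S c.As v).card : ℝ) ^ 3 :=
    sum_le_sum fun v _ => c.third_moment (S c.As v) (c.S_sub v)
  rw [sum_comm] at h1
  have h2 : ∑ t ∈ range c.M, ∑ v ∈ V, ((c.C t ∩ S c.As v).card : ℝ) ^ 3 ≤
      ∑ t ∈ range c.M, (c.K : ℝ) * (c.Tr t).card := sum_le_sum fun t _ => c.shift_le t V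
  rw [← mul_sum] at h2
  have h3 := mul_le_mul_of_nonneg_left c.sum_Tr (Nat.cast_nonneg (α := ℝ) c.K)
  have h4 : ∑ v ∈ V, (c.M : ℝ) * (c.r v * ((c.K : ℝ) / (2 * c.n))) ^ 3 =
      (c.M : ℝ) * ∑ v ∈ V, c.r v ^ 3 * ((c.K : ℝ) / (2 * c.n)) ^ 3 := by
    rw [mul_sum]
    refine sum_congr rfl fun v _ => ?_
    rw [mul_pow]
  rw [h4] at h1
  have h5 : (c.M : ℝ) * ∑ v ∈ V, c.r v ^ 3 * ((c.K : ℝ) / (2 * c.n)) ^ 3 ≤
      c.M * (c.K * (c.n * c.D1)) := by
    calc (c.M : ℝ) * ∑ v ∈ V, c.r v ^ 3 * ((c.K : ℝ) / (2 * c.n)) ^ 3 ≤ _ := h1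
      _ ≤ _ := h2
      _ ≤ _ := h3
      _ = _ := by ring
  exact le_of_mul_le_mul_left h5 hM

/-- Popular differences in clusters. -/
theorem popular_pairs (D : Finset ℤ) (hD : D ⊆ c.A - c.A) (hD0 : ∀ x ∈ D, x ≠ 0) (l : ℝ)
    (hl : 0 < l) :
    ∑ t ∈ range c.M, ∑ x ∈ D, ((S (c.C t) x).card : ℝ) ≤
      c.M * (4 * D.card * c.D1 / c.n + l / 2 * (3 * c.n) + 15 / l) := by
  have hn := c.n_pos'
  have hM := c.M_pos'
  set Y : Finset ℤ := (c.A - c.A).erase 0 with hY
  have hY0 : ∀ y ∈ Y, y ≠ 0 := fun y hy => (mem_erase.mp hy).1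
  have hDM : ∀ x ∈ D, (c.n : ℤ) * |x| < c.M := by
    intro x hx
    obtain ⟨a, ha, b, hb, rfl⟩ := mem_sub.mp (hD hx)
    exact c.sub_lt ha hb
  have hYM : ∀ x ∈ Y, (c.n : ℤ) * |x| < c.M := by
    intro x hx
    obtain ⟨a, ha, b, hb, rfl⟩ := mem_sub.mp (mem_erase.mp hx).2
    exact c.sub_lt ha hb
  have h1 : ∀ t ∈ range c.M, ∑ x ∈ D, ((S (c.C t) x).card : ℝ) ≤
      4 * (∑ x ∈ D, ∑ y ∈ Y, if Near c.M c.n t x ∧ Near c.M c.n t y ∧ hgt x y ≤ c.n
        then (1 : ℝ) else 0) + l / 2 * f1 c.A D (Near c.M c.n t) +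
        f3 c.A D c.n (Near c.M c.n t) / l := by
    intro t _
    unfold f1 f3
    rw [mul_sum, mul_sum, sum_div, ← sum_add_distrib, ← sum_add_distrib]
    refine sum_le_sum fun x hx => ?_
    exact rho_le c.A (c.C t) Y (c.hCA t) hY0 (Near c.M c.n t)
      (fun a ha b hb hab => mem_erase.mpr ⟨sub_ne_zero.mpr hab,
        sub_mem_sub (c.hCA t ha) (c.hCA t hb)⟩)
      (fun a ha b hb _ => c.near ha hb) c.n c.n_pos x (hD0 x hx) l hl
  refine (sum_le_sum h1).trans ?_
  rw [sum_add_distrib, sum_add_distrib, ← mul_sum, ← mul_sum, ← sum_div]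
  have e1 := exp_f1 c.A D c.hM c.n_pos c.n_le_M c.hA hD0 hDM
  have e3 := exp_f3 c.A D c.hM c.n_pos c.hA hD0 hDM (fun a ha b hb => c.sub_lt ha hb)
  have e2 : ∑ t ∈ range c.M, ∑ x ∈ D, ∑ y ∈ Y,
      (if Near c.M c.n t x ∧ Near c.M c.n t y ∧ hgt x y ≤ c.n then (1 : ℝ) else 0) ≤
      D.card * ((c.M : ℝ) / c.n * c.D1) := by
    rw [sum_comm]
    calc ∑ x ∈ D, ∑ t ∈ range c.M, ∑ y ∈ Y,
      (if Near c.M c.n t x ∧ Near c.M c.n t y ∧ hgt x y ≤ c.n then (1 : ℝ) else 0)
        ≤ ∑ x ∈ D, (c.M : ℝ) / c.n * c.D1 := by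
          refine sum_le_sum fun x hx => ?_
          rw [sum_comm]
          have h2 : ∀ y ∈ Y, ∑ t ∈ range c.M,
              (if Near c.M c.n t x ∧ Near c.M c.n t y ∧ hgt x y ≤ c.n then (1 : ℝ) else 0) ≤
              if y ≠ 0 ∧ hgt x y ≤ c.n then 15 * (c.M : ℝ) / c.n * (1 / (hgt x y : ℝ)) else 0 := by
            intro y hy
            rw [sum_ite_card
              (fun t => Near c.M c.n t x ∧ Near c.M c.n t y ∧ hgt x y ≤ c.n) 1, mul_one]
            by_cases h : hgt x y ≤ c.n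
            · rw [if_pos ⟨hY0 y hy, h⟩]
              have h3 := card_near_pair_le c.hM c.n_pos (hD0 x hx) (hY0 y hy) (hDM x hx) (hYM y hy)
              rw [if_pos h] at h3
              refine le_trans ?_ h3
              apply Nat.cast_le.mpr
              apply card_le_card
              intro t ht
              rw [mem_filter] at ht ⊢
              exact ⟨ht.1, ht.2.1, ht.2.2.1⟩
            · rw [if_neg (fun h' => h h'.2)]
              have : (range c.M).filter
                  (fun t => Near c.M c.n t x ∧ Near c.M c.n t y ∧ hgt x y ≤ c.n) = ∅ := by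
                apply filter_false_of_mem
                intro t _ ht
                exact h ht.2.2
              rw [this]; simp
          refine (sum_le_sum h2).trans ?_
          rw [← Finset.sum_filter, ← mul_sum]
          have hx' : |x| ≤ 8 * (c.B + 1) := by
            obtain ⟨a, ha, b, hb, rfl⟩ := mem_sub.mp (hD hx)
            have := c.sub_le ha hb
            have : (0 : ℤ) ≤ c.B := by positivity
            linarith
          have h3 := sum_hgt_le x (hD0 x hx) Y c.n c.Δ (c.div_le (hD0 x hx) hx')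
          have h4 := mul_le_mul_of_nonneg_left h3 (show 0 ≤ 15 * (c.M : ℝ) / c.n by positivity)
          refine h4.trans ?_
          have h5 : 15 * (c.M : ℝ) / c.n * (2 * c.Δ * (1 + Real.log c.n)) =
              (c.M : ℝ) / c.n * (30 * c.Δ * (1 + Real.log c.n)) := by ring
          rw [h5]
          apply mul_le_mul_of_nonneg_left _ (by positivity)
          unfold D1
          linarith
      _ = D.card * ((c.M : ℝ) / c.n * c.D1) := by rw [sum_const, nsmul_eq_mul]
  have a1 : l / 2 * ∑ t ∈ range c.M, f1 c.A D (Near c.M c.n t) ≤ l / 2 * (c.M * (3 * c.n)) :=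
    mul_le_mul_of_nonneg_left e1 (by positivity)
  have a3 : (∑ t ∈ range c.M, f3 c.A D c.n (Near c.M c.n t)) / l ≤ c.M * 15 / l := by
    gcongr
  calc _ ≤ 4 * (D.card * ((c.M : ℝ) / c.n * c.D1)) + l / 2 * (c.M * (3 * c.n)) + c.M * 15 / l := by
        linarith
    _ = _ := by ring

end Ctx

end Pool.Agent.MP_741d1b.H87
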