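import Mathlib
import Pool.Agent.Lib.MP_741d1b_nt_h87.T3Core1

/-! Clusters with many points on a line force large energy. -/

set_option autoImplicit false

namespace Pool.Agent.MP_741d1b.H87

open Finset Classical
open scoped Pointwise

theorem hgt_mul_right {s s' g : ℤ} (hg : g ≠ 0) : hgt (s * g) (s' * g) = hgt s s' := by
  unfold hgt
  rw [Int.natAbs_mul, Int.natAbs_mul, Int.gcd_mul_right, Nat.mul_max_mul_right,
    Nat.mul_div_mul_right _ _ (Int.natAbs_pos.mpr hg)]

theorem Near.neg {M n t : ℕ} {x : ℤ} (h : Near M n t x) : Near M n t (-x) := by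
  obtain ⟨k, hk⟩ := h
  refine ⟨-k, ?_⟩
  have e : (t : ℤ) * -x - -k * M = -((t : ℤ) * x - k * M) := by ring
  rw [e, abs_neg]
  exact hk

namespace Ctx

variable (c : Ctx)

/-- The determinant of three points of a cluster. -/
def dt (t : ℕ) (x y z : ℤ) : ℤ :=
  (x - y) * (c.k t x - c.k t z) - (x - z) * (c.k t x - c.k t y)

/-- A set of points on a line. -/
def Lin (t : ℕ) (L : Finset ℤ) : Prop :=
  L ⊆ c.C t ∩ c.As ∧ ∃ g G : ℤ, g ≠ 0 ∧ ∃ s : ℤ → ℤ, ∀ a ∈ L, ∀ b ∈ L,
    a - b = (s a - s b) * g ∧ c.k t a - c.k t b = (s a - s b) * G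

theorem line_param (t : ℕ) (a0 b0 : ℤ) (hab : a0 ≠ b0) :
    c.Lin t ((c.C t ∩ c.As).filter (fun z => c.dt t a0 b0 z = 0)) := by
  refine ⟨filter_subset _ _, ?_⟩
  set u := a0 - b0 with hu
  set v := c.k t a0 - c.k t b0 with hv
  have hu0 : u ≠ 0 := sub_ne_zero.mpr hab
  have hg : 0 < Int.gcd u v := Int.gcd_pos_of_ne_zero_left _ hu0
  obtain ⟨p, q, hpq, hp, hq⟩ := Int.exists_gcd_one hg
  have hp0 : p ≠ 0 := by intro h; apply hu0; rw [hp, h, zero_mul]
  have hg0 : ((Int.gcd u v : ℕ) : ℤ) ≠ 0 := by exact_mod_cast hg.ne'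
  refine ⟨p, q, hp0, fun z => (z - a0) / p, ?_⟩
  have hone : ∀ z ∈ (c.C t ∩ c.As).filter (fun z => c.dt t a0 b0 z = 0),
      z - a0 = (z - a0) / p * p ∧ c.k t z - c.k t a0 = (z - a0) / p * q := by
    intro z hz
    have hdt := (mem_filter.mp hz).2
    unfold dt at hdt
    rw [← hu, ← hv] at hdt
    have e1 : p * (c.k t z - c.k t a0) = q * (z - a0) := by
      have e2 : (p * (c.k t z - c.k t a0)) * (Int.gcd u v : ℤ) =
          (q * (z - a0)) * (Int.gcd u v : ℤ) := by
        have e3 : u * (c.k t z - c.k t a0) = v * (z - a0) := by linarith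
        calc (p * (c.k t z - c.k t a0)) * (Int.gcd u v : ℤ) =
            (p * (Int.gcd u v : ℤ)) * (c.k t z - c.k t a0) := by ring
          _ = u * (c.k t z - c.k t a0) := by rw [← hp]
          _ = v * (z - a0) := e3
          _ = (q * (Int.gcd u v : ℤ)) * (z - a0) := by rw [← hq]
          _ = _ := by ring
      exact mul_right_cancel₀ hg0 e2
    have hdvd : p ∣ z - a0 := by
      have h1 : p ∣ q * (z - a0) := ⟨_, e1.symm⟩
      exact (Int.isCoprime_iff_gcd_eq_one.mpr hpq).dvd_of_dvd_mul_left h1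
    have e4 : z - a0 = (z - a0) / p * p := (Int.ediv_mul_cancel hdvd).symm
    refine ⟨e4, ?_⟩
    have e5 : p * (c.k t z - c.k t a0) = p * ((z - a0) / p * q) := by
      rw [e1]
      conv_lhs => rw [e4]
      ring
    exact mul_left_cancel₀ hp0 e5
  intro a ha b hb
  obtain ⟨a1, a2⟩ := hone a ha
  obtain ⟨b1, b2⟩ := hone b hb
  constructor
  · calc a - b = (a - a0) - (b - a0) := by ring
      _ = (a - a0) / p * p - (b - a0) / p * p := by rw [← a1, ← b1]
      _ = _ := by ring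
  · calc c.k t a - c.k t b = (c.k t a - c.k t a0) - (c.k t b - c.k t a0) := by ring
      _ = (a - a0) / p * q - (b - a0) / p * q := by rw [a2, b2]
      _ = _ := by ring

/-- The basic inequality along a line. -/
theorem line_ni {t : ℕ} {L : Finset ℤ} (hL : L ⊆ c.C t ∩ c.As) {g G : ℤ} {s : ℤ → ℤ}
    (hs : ∀ a ∈ L, ∀ b ∈ L, a - b = (s a - s b) * g ∧ c.k t a - c.k t b = (s a - s b) * G)
    {a b : ℤ} (ha : a ∈ L) (hb : b ∈ L) :
    |(t : ℤ) * g - G * c.M| * (c.n * (s a - s b).natAbs) ≤ c.M := by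
  have h := c.ni (mem_inter.mp (hL ha)).1 (mem_inter.mp (hL hb)).1
  unfold NI at h
  obtain ⟨h1, h2⟩ := hs a ha b hb
  rw [h1, h2] at h
  have e : (t : ℤ) * ((s a - s b) * g) - (s a - s b) * G * c.M =
      (s a - s b) * ((t : ℤ) * g - G * c.M) := by ring
  rw [e, abs_mul] at h
  have e2 : (((s a - s b).natAbs : ℕ) : ℤ) = |s a - s b| := Int.natCast_natAbs _
  rw [e2]
  linarith

theorem nH_le {H : ℕ} (hH : H ≤ c.n ^ 2) : c.n * H ≤ c.M := by
  have h := c.hBM
  calc c.n * H ≤ c.n * c.n ^ 2 := Nat.mul_le_mul_left _ hH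
    _ = c.n ^ 3 * 1 := by ring
    _ ≤ c.n ^ 3 * (8 * (c.B + 1)) := Nat.mul_le_mul_left _ (by omega)
    _ ≤ c.M := h.le

theorem not_dvd_sub {x : ℤ} (hx0 : x ≠ 0) (hx : |x| ≤ 2 * c.B) : ¬ (c.M : ℤ) ∣ x := by
  intro hd
  have h6 : (c.M : ℤ) ≤ |x| := Int.le_of_dvd (abs_pos.mpr hx0) ((dvd_abs _ _).mpr hd)
  have h10 := c.mul_lt_M (m := 1) (x := x) (Nat.one_le_pow _ _ c.n_pos) (by
    have : (0 : ℤ) ≤ c.B := by positivity
    linarith)
  push_cast at h10
  linarith

/-- Long lines: count pairs. -/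
theorem long_lines (H : ℕ) (hH1 : 1 ≤ H) (hH : H ≤ c.n ^ 2) (Θ : Finset ℕ) (hΘ : Θ ⊆ range c.M)
    (L : ℕ → Finset ℤ)
    (hL : ∀ t ∈ Θ, L t ⊆ c.C t ∩ c.As ∧ ∃ g G : ℤ, g ≠ 0 ∧
      |(t : ℤ) * g - G * c.M| * (c.n * H) ≤ c.M ∧ ∃ s : ℤ → ℤ, ∀ a ∈ L t, ∀ b ∈ L t,
      a - b = (s a - s b) * g) :
    ∑ t ∈ Θ, (((L t).offDiag).card : ℝ) ≤ (c.n : ℝ) ^ 2 * (c.Δ * (3 * c.M / (c.n * H))) := by
  have hn := c.n_pos'
  have hM := c.M_pos'
  have hH0 : (0 : ℝ) < H := by exact_mod_cast hH1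
  have h1 : ∀ t ∈ Θ, (((L t).offDiag).card : ℝ) ≤
      ∑ z ∈ c.A.offDiag, ∑ d ∈ (z.1 - z.2).natAbs.divisors,
        if Near c.M (c.n * H) t ((z.1 - z.2) / d) then (1 : ℝ) else 0 := by
    intro t ht
    obtain ⟨hLs, g, G, hg, hgG, s, hs⟩ := hL t ht
    have hNg : Near c.M (c.n * H) t g := ⟨G, by push_cast; exact hgG⟩
    calc (((L t).offDiag).card : ℝ) = ∑ z ∈ (L t).offDiag, (1 : ℝ) := by simp
      _ ≤ ∑ z ∈ (L t).offDiag, ∑ d ∈ (z.1 - z.2).natAbs.divisors,
        (if Near c.M (c.n * H) t ((z.1 - z.2) / d) then (1 : ℝ) else 0) := by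
          refine sum_le_sum fun z hz => ?_
          rw [mem_offDiag] at hz
          obtain ⟨hz1, hz2, hz3⟩ := hz
          have hzz : z.1 - z.2 ≠ 0 := sub_ne_zero.mpr hz3
          have hsz := hs z.1 hz1 z.2 hz2
          set e := s z.1 - s z.2 with he
          have he0 : e ≠ 0 := by
            intro h; rw [h, zero_mul] at hsz; exact hzz hsz
          have hd : e.natAbs ∈ (z.1 - z.2).natAbs.divisors := by
            rw [Nat.mem_divisors]
            refine ⟨?_, Int.natAbs_ne_zero.mpr hzz⟩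
            rw [hsz, Int.natAbs_mul]
            exact dvd_mul_right _ _
          have hN : Near c.M (c.n * H) t ((z.1 - z.2) / ((e.natAbs : ℕ) : ℤ)) := by
            rw [hsz]
            rcases Int.natAbs_eq e with h | h
            · have : e * g / ((e.natAbs : ℕ) : ℤ) = g := by
                rw [← h, Int.mul_ediv_cancel_left _ he0]
              rw [this]; exact hNg
            · have h' : ((e.natAbs : ℕ) : ℤ) = -e := by linarith
              have : e * g / ((e.natAbs : ℕ) : ℤ) = -g := by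
                rw [h', Int.ediv_neg, Int.mul_ediv_cancel_left _ he0]
              rw [this]; exact hNg.neg
          calc (1 : ℝ) = if Near c.M (c.n * H) t ((z.1 - z.2) / ((e.natAbs : ℕ) : ℤ))
                then (1 : ℝ) else 0 := by rw [if_pos hN]
            _ ≤ _ := Finset.single_le_sum (f := fun d : ℕ =>
                (if Near c.M (c.n * H) t ((z.1 - z.2) / (d : ℤ)) then (1 : ℝ) else 0))
                (fun d _ => by split_ifs <;> norm_num) hd
      _ ≤ _ := Finset.sum_le_sum_of_subset_of_nonneg (offDiag_mono (fun a ha =>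
          c.hCA t (mem_inter.mp (hLs ha)).1)) (fun z _ _ => sum_nonneg fun d _ => by
            split_ifs <;> norm_num)
  have h2 : ∑ t ∈ Θ, (((L t).offDiag).card : ℝ) ≤ ∑ t ∈ range c.M,
      ∑ z ∈ c.A.offDiag, ∑ d ∈ (z.1 - z.2).natAbs.divisors,
        (if Near c.M (c.n * H) t ((z.1 - z.2) / d) then (1 : ℝ) else 0) :=
    (sum_le_sum h1).trans (Finset.sum_le_sum_of_subset_of_nonneg hΘ (fun t _ _ =>
      sum_nonneg fun z _ => sum_nonneg fun d _ => by split_ifs <;> norm_num))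
  refine h2.trans ?_
  rw [sum_comm]
  have h3 : ∀ z ∈ c.A.offDiag, ∑ t ∈ range c.M, ∑ d ∈ (z.1 - z.2).natAbs.divisors,
        (if Near c.M (c.n * H) t ((z.1 - z.2) / d) then (1 : ℝ) else 0) ≤
        c.Δ * (3 * c.M / (c.n * H)) := by
    intro z hz
    rw [mem_offDiag] at hz
    obtain ⟨hz1, hz2, hz3⟩ := hz
    have hzz : z.1 - z.2 ≠ 0 := sub_ne_zero.mpr hz3
    have hzB := c.sub_le hz1 hz2
    rw [sum_comm]
    have h4 : ∀ d ∈ (z.1 - z.2).natAbs.divisors, ∑ t ∈ range c.M,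
        (if Near c.M (c.n * H) t ((z.1 - z.2) / d) then (1 : ℝ) else 0) ≤
        3 * c.M / (c.n * H) := by
      intro d hd
      rw [sum_ite_card (fun t => Near c.M (c.n * H) t ((z.1 - z.2) / d)) 1, mul_one]
      rw [Nat.mem_divisors] at hd
      have hdv : (d : ℤ) ∣ z.1 - z.2 := Int.natCast_dvd.mpr hd.1
      have hd0 : (d : ℤ) ≠ 0 := by
        intro h
        rw [h] at hdv
        exact hzz (zero_dvd_iff.mp hdv)
      obtain ⟨w, hw⟩ := hdv
      have hww : (z.1 - z.2) / (d : ℤ) = w := by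
        rw [hw, Int.mul_ediv_cancel_left _ hd0]
      have hw0 : w ≠ 0 := by intro h; rw [h, mul_zero] at hw; exact hzz hw
      have hwB : |w| ≤ 2 * c.B := by
        refine le_trans ?_ hzB
        exact Int.le_of_dvd (abs_pos.mpr hzz) ((abs_dvd_abs _ _).mpr ⟨d, by rw [hw]; ring⟩)
      have h5 := card_near_le c.hM (n := c.n * H) (Nat.mul_pos c.n_pos hH1) (c.nH_le hH)
        (x := w) (c.not_dvd_sub hw0 hwB)
      rw [hww]
      push_cast at h5
      exact h5
    refine (sum_le_sum h4).trans ?_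
    rw [sum_const, nsmul_eq_mul]
    apply mul_le_mul_of_nonneg_right _ (by positivity)
    apply c.div_le hzz
    have : (0 : ℤ) ≤ c.B := by positivity
    linarith
  refine (sum_le_sum h3).trans ?_
  rw [sum_const, nsmul_eq_mul]
  apply mul_le_mul_of_nonneg_right
  · rw [offDiag_card, c.hA]
    have : c.n * c.n - c.n ≤ c.n ^ 2 := by
      rw [sq]; omega
    exact_mod_cast this
  · have := c.hΔ1
    positivity

/-- Short lines: count triples. -/
theorem short_lines (H : ℕ) (hH : H ≤ c.n ^ 2) (Θ : Finset ℕ) (hΘ : Θ ⊆ range c.M)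
    (L : ℕ → Finset ℤ)
    (hL : ∀ t ∈ Θ, L t ⊆ c.C t ∩ c.As ∧ ∃ g G : ℤ, g ≠ 0 ∧ ∃ s : ℤ → ℤ, (∀ a ∈ L t, ∀ b ∈ L t,
      a - b = (s a - s b) * g ∧ c.k t a - c.k t b = (s a - s b) * G) ∧
      ∀ a ∈ L t, ∀ b ∈ L t, (s a - s b).natAbs ≤ H) :
    ∑ t ∈ Θ, (((L t ×ˢ L t ×ˢ L t).filter
      (fun z => z.1 ≠ z.2.1 ∧ z.1 ≠ z.2.2 ∧ z.2.1 ≠ z.2.2)).card : ℝ) ≤
      3 * c.M / c.n * Wsum c.As H := by
  have hn := c.n_pos'
  have hM := c.M_pos'
  have h1 : ∀ t ∈ Θ, (((L t ×ˢ L t ×ˢ L t).filter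
      (fun z => z.1 ≠ z.2.1 ∧ z.1 ≠ z.2.2 ∧ z.2.1 ≠ z.2.2)).card : ℝ) ≤
      ∑ a ∈ c.As, ∑ b ∈ c.As, ∑ d ∈ c.As,
        if a ≠ b ∧ a ≠ d ∧ b ≠ d ∧ hgt (a - b) (a - d) ≤ H then
          (if Near c.M (c.n * hgt (a - b) (a - d)) t (Int.gcd (a - b) (a - d)) then (1 : ℝ) else 0)
        else 0 := by
    intro t ht
    obtain ⟨hLs, g, G, hg, s, hs, hsH⟩ := hL t ht
    have hLA : L t ⊆ c.As := fun a ha => (mem_inter.mp (hLs ha)).2
    have hn0 : ∀ a b d : ℤ, (0 : ℝ) ≤ if a ≠ b ∧ a ≠ d ∧ b ≠ d ∧ hgt (a - b) (a - d) ≤ H then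
          (if Near c.M (c.n * hgt (a - b) (a - d)) t (Int.gcd (a - b) (a - d)) then (1 : ℝ) else 0)
        else 0 := by
      intro a b d
      split_ifs <;> norm_num
    rw [card_filter, Finset.sum_product]
    push_cast
    calc ∑ a ∈ L t, ∑ y ∈ L t ×ˢ L t, (if a ≠ y.1 ∧ a ≠ y.2 ∧ y.1 ≠ y.2 then (1 : ℝ) else 0) =
        ∑ a ∈ L t, ∑ b ∈ L t, ∑ d ∈ L t, (if a ≠ b ∧ a ≠ d ∧ b ≠ d then (1 : ℝ) else 0) := by
          refine sum_congr rfl fun a _ => ?_
          rw [Finset.sum_product]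
      _ ≤ ∑ a ∈ L t, ∑ b ∈ L t, ∑ d ∈ L t,
        (if a ≠ b ∧ a ≠ d ∧ b ≠ d ∧ hgt (a - b) (a - d) ≤ H then
          (if Near c.M (c.n * hgt (a - b) (a - d)) t (Int.gcd (a - b) (a - d)) then (1 : ℝ) else 0)
        else 0) := by
          refine sum_le_sum fun a ha => sum_le_sum fun b hb => sum_le_sum fun d hd => ?_
          by_cases h : a ≠ b ∧ a ≠ d ∧ b ≠ d
          · obtain ⟨hab, had, hbd⟩ := h
            rw [if_pos ⟨hab, had, hbd⟩]
            obtain ⟨e1, _⟩ := hs a ha b hb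
            obtain ⟨e2, _⟩ := hs a ha d hd
            set x := s a - s b with hx
            set y := s a - s d with hy
            have hx0 : x ≠ 0 := by
              intro h; rw [h, zero_mul] at e1; exact hab (sub_eq_zero.mp e1)
            have hy0 : y ≠ 0 := by
              intro h; rw [h, zero_mul] at e2; exact had (sub_eq_zero.mp e2)
            have hgp : 0 < Int.gcd x y := Int.gcd_pos_of_ne_zero_left _ hx0
            have hh : hgt (a - b) (a - d) = hgt x y := by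
              rw [e1, e2, hgt_mul_right hg]
            have hdvd : Int.gcd x y ∣ max x.natAbs y.natAbs := by
              rcases le_total x.natAbs y.natAbs with h | h
              · rw [max_eq_right h]
                exact Int.gcd_dvd_natAbs_right _ _
              · rw [max_eq_left h]
                exact Int.gcd_dvd_natAbs_left _ _
            have hmul : hgt x y * Int.gcd x y = max x.natAbs y.natAbs := by
              unfold hgt
              exact Nat.div_mul_cancel hdvd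
            have hmaxH : max x.natAbs y.natAbs ≤ H := max_le (hsH a ha b hb) (hsH a ha d hd)
            have hle : hgt (a - b) (a - d) ≤ H := by
              rw [hh]
              unfold hgt
              exact (Nat.div_le_self _ _).trans hmaxH
            have hni : |(t : ℤ) * g - G * c.M| * (c.n * (max x.natAbs y.natAbs : ℕ)) ≤ c.M := by
              rcases le_total x.natAbs y.natAbs with h | h
              · rw [max_eq_right h]
                exact c.line_ni hLs hs ha hd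
              · rw [max_eq_left h]
                exact c.line_ni hLs hs ha hb
            have hgcd : Int.gcd (a - b) (a - d) = Int.gcd x y * g.natAbs := by
              rw [e1, e2, Int.gcd_mul_right]
            have hNear : Near c.M (c.n * hgt (a - b) (a - d)) t (Int.gcd (a - b) (a - d)) := by
              have hbase : Near c.M (c.n * hgt x y) t ((Int.gcd x y : ℤ) * g) := by
                refine ⟨(Int.gcd x y : ℤ) * G, ?_⟩
                have e3 : (t : ℤ) * ((Int.gcd x y : ℤ) * g) - (Int.gcd x y : ℤ) * G * c.M =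
                    (Int.gcd x y : ℤ) * ((t : ℤ) * g - G * c.M) := by ring
                rw [e3, abs_mul, Nat.abs_cast]
                calc (Int.gcd x y : ℤ) * |(t : ℤ) * g - G * c.M| * ((c.n * hgt x y : ℕ) : ℤ) =
                    |(t : ℤ) * g - G * c.M| * (c.n * ((hgt x y * Int.gcd x y : ℕ) : ℤ)) := by
                      push_cast; ring
                  _ = |(t : ℤ) * g - G * c.M| * (c.n * ((max x.natAbs y.natAbs : ℕ) : ℤ)) := by
                      rw [hmul]
                  _ ≤ c.M := hni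
              rw [hh, hgcd]
              push_cast
              rcases abs_choice g with h | h
              · rw [h]; exact hbase
              · rw [h, mul_neg]; exact hbase.neg
            rw [if_pos ⟨hab, had, hbd, hle⟩, if_pos hNear]
          · rw [if_neg h]
            exact hn0 a b d
      _ ≤ ∑ a ∈ L t, ∑ b ∈ L t, ∑ d ∈ c.As,
        (if a ≠ b ∧ a ≠ d ∧ b ≠ d ∧ hgt (a - b) (a - d) ≤ H then
          (if Near c.M (c.n * hgt (a - b) (a - d)) t (Int.gcd (a - b) (a - d)) then (1 : ℝ) else 0)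
        else 0) := sum_le_sum fun a _ => sum_le_sum fun b _ =>
          Finset.sum_le_sum_of_subset_of_nonneg hLA (fun d _ _ => hn0 a b d)
      _ ≤ ∑ a ∈ L t, ∑ b ∈ c.As, ∑ d ∈ c.As,
        (if a ≠ b ∧ a ≠ d ∧ b ≠ d ∧ hgt (a - b) (a - d) ≤ H then
          (if Near c.M (c.n * hgt (a - b) (a - d)) t (Int.gcd (a - b) (a - d)) then (1 : ℝ) else 0)
        else 0) := sum_le_sum fun a _ =>
          Finset.sum_le_sum_of_subset_of_nonneg hLA (fun b _ _ => sum_nonneg fun d _ => hn0 a b d)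
      _ ≤ _ := Finset.sum_le_sum_of_subset_of_nonneg hLA (fun a _ _ => sum_nonneg fun b _ =>
          sum_nonneg fun d _ => hn0 a b d)
  refine (sum_le_sum h1).trans ?_
  have h2 : ∀ a ∈ c.As, ∀ b ∈ c.As, ∀ d ∈ c.As, ∑ t ∈ Θ,
      (if a ≠ b ∧ a ≠ d ∧ b ≠ d ∧ hgt (a - b) (a - d) ≤ H then
          (if Near c.M (c.n * hgt (a - b) (a - d)) t (Int.gcd (a - b) (a - d)) then (1 : ℝ) else 0)
        else 0) ≤
      3 * c.M / c.n * (if a ≠ b ∧ a ≠ d ∧ b ≠ d ∧ hgt (a - b) (a - d) ≤ H then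
        1 / (hgt (a - b) (a - d) : ℝ) else 0) := by
    intro a ha b hb d hd
    by_cases h : a ≠ b ∧ a ≠ d ∧ b ≠ d ∧ hgt (a - b) (a - d) ≤ H
    · simp only [if_pos h]
      obtain ⟨hab, had, hbd, hle⟩ := h
      have hx0 : a - b ≠ 0 := sub_ne_zero.mpr hab
      have hgp : 0 < Int.gcd (a - b) (a - d) := Int.gcd_pos_of_ne_zero_left _ hx0
      have hhp : 0 < hgt (a - b) (a - d) := by
        unfold hgt
        apply Nat.div_pos _ hgp
        exact (Nat.le_of_dvd (Int.natAbs_pos.mpr hx0) (Int.gcd_dvd_natAbs_left _ _)).trans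
          (le_max_left _ _)
      have hgB : |((Int.gcd (a - b) (a - d) : ℕ) : ℤ)| ≤ 2 * c.B := by
        refine le_trans ?_ (c.sub_le (c.As_sub ha) (c.As_sub hb))
        apply Int.le_of_dvd (abs_pos.mpr hx0)
        rw [abs_dvd_abs]
        exact Int.gcd_dvd_left _ _
      have h5 := card_near_le c.hM (n := c.n * hgt (a - b) (a - d)) (Nat.mul_pos c.n_pos hhp)
        (c.nH_le (hle.trans hH)) (x := ((Int.gcd (a - b) (a - d) : ℕ) : ℤ))
        (c.not_dvd_sub (by exact_mod_cast hgp.ne') hgB)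
      calc ∑ t ∈ Θ, (if Near c.M (c.n * hgt (a - b) (a - d)) t (Int.gcd (a - b) (a - d))
            then (1 : ℝ) else 0) ≤ ∑ t ∈ range c.M,
            (if Near c.M (c.n * hgt (a - b) (a - d)) t (Int.gcd (a - b) (a - d))
            then (1 : ℝ) else 0) := Finset.sum_le_sum_of_subset_of_nonneg hΘ (fun t _ _ => by
              split_ifs <;> norm_num)
        _ = _ := sum_ite_card (fun t => Near c.M (c.n * hgt (a - b) (a - d)) t
              (Int.gcd (a - b) (a - d))) 1
        _ = (((range c.M).filter (fun t => Near c.M (c.n * hgt (a - b) (a - d)) t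
              (Int.gcd (a - b) (a - d)))).card : ℝ) := mul_one _
        _ ≤ _ := h5
        _ = 3 * c.M / c.n * (1 / (hgt (a - b) (a - d) : ℝ)) := by
            push_cast
            have : (0 : ℝ) < hgt (a - b) (a - d) := by exact_mod_cast hhp
            field_simp
    · simp only [if_neg h]
      simp
  have h3 : ∀ F : ℕ → ℤ → ℤ → ℤ → ℝ, ∑ t ∈ Θ, ∑ a ∈ c.As, ∑ b ∈ c.As, ∑ d ∈ c.As, F t a b d =
      ∑ a ∈ c.As, ∑ b ∈ c.As, ∑ d ∈ c.As, ∑ t ∈ Θ, F t a b d := by
    intro F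
    rw [sum_comm]
    refine sum_congr rfl fun a _ => ?_
    rw [sum_comm]
    refine sum_congr rfl fun b _ => ?_
    rw [sum_comm]
  rw [h3]
  unfold Wsum
  rw [mul_sum]
  refine sum_le_sum fun a ha => ?_
  rw [mul_sum]
  refine sum_le_sum fun b hb => ?_
  rw [mul_sum]
  exact sum_le_sum fun d hd => h2 a ha b hb d hd

end Ctx

end Pool.Agent.MP_741d1b.H87
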