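import Mathlib
import Pool.Agent.Lib.MP_741d1b_nt_h87.T3Count

/-! Near quadruples with a given primitive relation. -/

set_option autoImplicit false

namespace Pool.Agent.MP_741d1b.H87

open Finset Classical

theorem rel_of_near {M m t : ℕ} (hM : 0 < M) {x y z p q r X Y Z : ℤ}
    (hrel : p * x + q * y + r * z = 0) (hsum : |p| + |q| + |r| < m)
    (hX : NI M m t x X) (hY : NI M m t y Y) (hZ : NI M m t z Z) : p * X + q * Y + r * Z = 0 := by
  unfold NI at hX hY hZ
  have hM' : (0 : ℤ) < M := by exact_mod_cast hM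
  by_contra hne
  have h1 : (1 : ℤ) ≤ |p * X + q * Y + r * Z| := Int.one_le_abs hne
  have e : (p * X + q * Y + r * Z) * M = -(p * ((t : ℤ) * x - X * M) + q * ((t : ℤ) * y - Y * M) +
      r * ((t : ℤ) * z - Z * M)) := by
    have : (t : ℤ) * (p * x + q * y + r * z) = 0 := by rw [hrel, mul_zero]
    linarith
  have h2 : |p * X + q * Y + r * Z| * M ≤ |p| * |(t : ℤ) * x - X * M| + |q| * |(t : ℤ) * y - Y * M| +
      |r| * |(t : ℤ) * z - Z * M| := by
    calc |p * X + q * Y + r * Z| * M = |(p * X + q * Y + r * Z) * M| := by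
          rw [abs_mul, abs_of_pos hM']
      _ = |p * ((t : ℤ) * x - X * M) + q * ((t : ℤ) * y - Y * M) + r * ((t : ℤ) * z - Z * M)| := by
          rw [e, abs_neg]
      _ ≤ |p * ((t : ℤ) * x - X * M)| + |q * ((t : ℤ) * y - Y * M)| +
          |r * ((t : ℤ) * z - Z * M)| := abs_add_three _ _ _
      _ = _ := by rw [abs_mul, abs_mul, abs_mul]
  have h3 : |p * X + q * Y + r * Z| * M * m ≤ (|p| + |q| + |r|) * M := by
    calc |p * X + q * Y + r * Z| * M * m ≤ (|p| * |(t : ℤ) * x - X * M| +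
          |q| * |(t : ℤ) * y - Y * M| + |r| * |(t : ℤ) * z - Z * M|) * m :=
          mul_le_mul_of_nonneg_right h2 (by positivity)
      _ = |p| * (|(t : ℤ) * x - X * M| * m) + |q| * (|(t : ℤ) * y - Y * M| * m) +
          |r| * (|(t : ℤ) * z - Z * M| * m) := by ring
      _ ≤ |p| * M + |q| * M + |r| * M := by gcongr
      _ = _ := by ring
  have h4 : 1 * (M : ℤ) * m ≤ |p * X + q * Y + r * Z| * M * m := by gcongr
  have h5 : (|p| + |q| + |r|) * M < m * M := mul_lt_mul_of_pos_right hsum hM'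
  linarith

theorem quad_aux {M m : ℕ} (hM : M.Prime) (hm : 0 < m) {x y z p q r : ℤ}
    (hrel : p * x + q * y + r * z = 0) (hcop : ∃ u v w : ℤ, u * p + v * q + w * r = 1)
    (hp : p ≠ 0) (hsum : |p| + |q| + |r| < m) (hy0 : y ≠ 0)
    (hle : |z| ≤ |y|) (hyM : (m : ℤ) * |y| < M) :
    (((range M).filter (fun t => ∃ X Y Z : ℤ, NI M m t x X ∧ NI M m t y Y ∧ NI M m t z Z ∧
      y * Z - z * Y ≠ 0)).card : ℝ) ≤ 12 * M / ((m : ℝ) ^ 2 * |(p : ℝ)|) := by
  have hm' : (0 : ℝ) < m := by exact_mod_cast hm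
  have hM' : (0 : ℝ) < M := by exact_mod_cast hM.pos
  have hg : 0 < Int.gcd y z := Int.gcd_pos_of_ne_zero_left _ hy0
  obtain ⟨y1, z1, hyz, hy1, hz1⟩ := Int.exists_gcd_one hg
  set g : ℤ := (Int.gcd y z : ℤ) with hgdef
  have hg' : 0 < g := by rw [hgdef]; exact_mod_cast hg
  have hy1' : y = g * y1 := by rw [hy1]; ring
  have hz1' : z = g * z1 := by rw [hz1]; ring
  have hy10 : y1 ≠ 0 := by intro h; apply hy0; rw [hy1', h, mul_zero]
  have hcop1 : IsCoprime y1 z1 := Int.isCoprime_iff_gcd_eq_one.mpr hyz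
  have hG : 0 < Int.gcd g x := Int.gcd_pos_of_ne_zero_left _ hg'.ne'
  obtain ⟨g1, x1, hgx, hg1, hx1⟩ := Int.exists_gcd_one hG
  set G0 : ℤ := (Int.gcd g x : ℤ) with hG0def
  have hG0 : 0 < G0 := by rw [hG0def]; exact_mod_cast hG
  have hg1' : g = G0 * g1 := by rw [hg1]; ring
  have hx1' : x = G0 * x1 := by rw [hx1]; ring
  have hcop2 : IsCoprime g1 x1 := Int.isCoprime_iff_gcd_eq_one.mpr hgx
  have hg1pos : 0 < g1 := (mul_pos_iff_of_pos_left hG0).mp (by rw [← hg1']; exact hg')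
  have hkey : p * x1 = -(g1 * (q * y1 + r * z1)) := by
    have h1 : G0 * (p * x1 + g1 * (q * y1 + r * z1)) = 0 := by
      calc G0 * (p * x1 + g1 * (q * y1 + r * z1)) = p * (G0 * x1) + q * ((G0 * g1) * y1) +
            r * ((G0 * g1) * z1) := by ring
        _ = p * x + q * y + r * z := by rw [← hg1', ← hx1', ← hy1', ← hz1']
        _ = 0 := hrel
    rcases mul_eq_zero.mp h1 with h2 | h2
    · exact absurd h2 hG0.ne'
    · linarith
  obtain ⟨p1, hp1⟩ : g1 ∣ p := by
    have : g1 ∣ p * x1 := by rw [hkey]; exact (Dvd.intro _ rfl).neg_right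
    exact hcop2.dvd_of_dvd_mul_right this
  have hp10 : p1 ≠ 0 := by intro h; apply hp; rw [hp1, h, mul_zero]
  have hkey2 : p1 * x1 = -(q * y1 + r * z1) := by
    have h1 : g1 * (p1 * x1 + (q * y1 + r * z1)) = 0 := by
      rw [hp1] at hkey
      linarith
    rcases mul_eq_zero.mp h1 with h2 | h2
    · exact absurd h2 hg1pos.ne'
    · linarith
  have hyd : ¬ (M : ℤ) ∣ y := by
    intro h
    have h1 : (M : ℤ) ≤ |y| := Int.le_of_dvd (abs_pos.mpr hy0) ((dvd_abs _ _).mpr h)
    have h2 : (1 : ℤ) ≤ m := by exact_mod_cast hm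
    have h3 : 0 ≤ |y| := abs_nonneg _
    nlinarith
  set P := (range M).filter (fun t => ∃ X Y Z : ℤ, NI M m t x X ∧ NI M m t y Y ∧ NI M m t z Z ∧
      y * Z - z * Y ≠ 0) with hP
  have hk : ∀ t : ℕ, ∃ X Y Z : ℤ, t ∈ P → NI M m t x X ∧ NI M m t y Y ∧ NI M m t z Z ∧
      y * Z - z * Y ≠ 0 := by
    intro t
    by_cases ht : t ∈ P
    · rw [hP, mem_filter] at ht
      obtain ⟨X, Y, Z, h⟩ := ht.2
      exact ⟨X, Y, Z, fun _ => h⟩
    · exact ⟨0, 0, 0, fun h => absurd h ht⟩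
  choose X Y Z hXYZ using hk
  set h : ℕ → ℤ := fun t => y1 * Z t - z1 * Y t with hh
  set e : ℕ → ℤ := fun t => (t : ℤ) * y - Y t * M with he
  set e' : ℕ → ℤ := fun t => (t : ℤ) * z - Z t * M with he'
  have hR : ∀ t ∈ P, p * X t + q * Y t + r * Z t = 0 := fun t ht =>
    rel_of_near hM.pos hrel hsum (hXYZ t ht).1 (hXYZ t ht).2.1 (hXYZ t ht).2.2.1
  have hDh : ∀ t, y * Z t - z * Y t = g * h t := by
    intro t; rw [hh]; simp only; rw [hy1', hz1']; ring
  have hMh : ∀ t, (M : ℤ) * h t = z1 * e t - y1 * e' t := by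
    intro t
    simp only [hh, he, he']
    rw [hy1', hz1']; ring
  have hy1abs : (0 : ℝ) < |(y1 : ℝ)| := abs_pos.mpr (by exact_mod_cast hy10)
  have hz1le : |(z1 : ℝ)| ≤ |(y1 : ℝ)| := by
    have : |z1| ≤ |y1| := by
      rw [hy1', hz1', abs_mul, abs_mul, abs_of_pos hg'] at hle
      exact le_of_mul_le_mul_left hle hg'
    exact_mod_cast this
  have hp1abs : (0 : ℝ) < |(p1 : ℝ)| := abs_pos.mpr (by exact_mod_cast hp10)
  have hg1r : (0 : ℝ) < g1 := by exact_mod_cast hg1pos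
  have hpabs : |(p : ℝ)| = g1 * |(p1 : ℝ)| := by
    rw [hp1]; push_cast; rw [abs_mul, abs_of_pos hg1r]
  -- divisibility of h by p1
  have hdiv : ∀ t ∈ P, p1 ∣ h t := by
    intro t ht
    have hr0 := hR t ht
    obtain ⟨u, v, w, huvw⟩ := hcop
    have a1 : q * h t = p1 * (-(x1 * Z t) + z1 * g1 * X t) := by
      simp only [hh]
      have c1 : q * y1 = -(p1 * x1) - r * z1 := by linarith
      have c2 : q * Y t = -(g1 * p1 * X t) - r * Z t := by rw [hp1] at hr0; linarith
      calc q * (y1 * Z t - z1 * Y t) = (q * y1) * Z t - z1 * (q * Y t) := by ring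
        _ = (-(p1 * x1) - r * z1) * Z t - z1 * (-(g1 * p1 * X t) - r * Z t) := by rw [c1, c2]
        _ = _ := by ring
    have a2 : r * h t = p1 * (x1 * Y t - g1 * y1 * X t) := by
      simp only [hh]
      have c1 : r * z1 = -(p1 * x1) - q * y1 := by linarith
      have c2 : r * Z t = -(g1 * p1 * X t) - q * Y t := by rw [hp1] at hr0; linarith
      calc r * (y1 * Z t - z1 * Y t) = y1 * (r * Z t) - (r * z1) * Y t := by ring
        _ = y1 * (-(g1 * p1 * X t) - q * Y t) - (-(p1 * x1) - q * y1) * Y t := by rw [c1, c2]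
        _ = _ := by ring
    have a3 : p * h t = p1 * (g1 * h t) := by rw [hp1]; ring
    refine ⟨u * (g1 * h t) + v * (-(x1 * Z t) + z1 * g1 * X t) + w * (x1 * Y t - g1 * y1 * X t), ?_⟩
    calc h t = (u * p + v * q + w * r) * h t := by rw [huvw, one_mul]
      _ = u * (p * h t) + v * (q * h t) + w * (r * h t) := by ring
      _ = _ := by rw [a1, a2, a3]; ring
  -- size of h
  have hsize : ∀ t ∈ P, |((h t : ℤ) : ℝ)| ≤ 2 * |(y1 : ℝ)| / m := by
    intro t ht
    have h1 := (hXYZ t ht).2.1.real hm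
    have h2 := (hXYZ t ht).2.2.1.real hm
    have h3 : (M : ℝ) * ((h t : ℤ) : ℝ) = z1 * ((e t : ℤ) : ℝ) - y1 * ((e' t : ℤ) : ℝ) := by
      exact_mod_cast hMh t
    have h4 : (M : ℝ) * |((h t : ℤ) : ℝ)| ≤ M * (2 * |(y1 : ℝ)| / m) := by
      calc (M : ℝ) * |((h t : ℤ) : ℝ)| = |(M : ℝ) * ((h t : ℤ) : ℝ)| := by
            rw [abs_mul, abs_of_pos hM']
        _ = |z1 * ((e t : ℤ) : ℝ) - y1 * ((e' t : ℤ) : ℝ)| := by rw [h3]
        _ ≤ |z1 * ((e t : ℤ) : ℝ)| + |y1 * ((e' t : ℤ) : ℝ)| := abs_sub _ _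
        _ = |(z1 : ℝ)| * |((e t : ℤ) : ℝ)| + |(y1 : ℝ)| * |((e' t : ℤ) : ℝ)| := by
            rw [abs_mul, abs_mul]
        _ ≤ |(y1 : ℝ)| * (M / m) + |(y1 : ℝ)| * (M / m) := by
            exact add_le_add (mul_le_mul hz1le h1 (abs_nonneg _) hy1abs.le)
              (mul_le_mul_of_nonneg_left h2 hy1abs.le)
        _ = M * (2 * |(y1 : ℝ)| / m) := by ring
    exact le_of_mul_le_mul_left h4 hM'
  have hp1nat : (p1.natAbs : ℝ) = |(p1 : ℝ)| := by rw [Nat.cast_natAbs]; push_cast; rfl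
  have hH : ((P.image h).card : ℝ) ≤ 2 * (2 * |(y1 : ℝ)| / m) / |(p1 : ℝ)| := by
    have := card_nonzero_le (P.image h) p1.natAbs (Int.natAbs_pos.mpr hp10) (2 * |(y1 : ℝ)| / m)
      (by positivity) (by
      intro v hv
      obtain ⟨t, ht, rfl⟩ := mem_image.mp hv
      intro h0
      apply (hXYZ t ht).2.2.2
      rw [hDh, h0, mul_zero]) (by
      intro v hv
      obtain ⟨t, ht, rfl⟩ := mem_image.mp hv
      exact Int.natAbs_dvd.mpr (hdiv t ht)) (by
      intro v hv
      obtain ⟨t, ht, rfl⟩ := mem_image.mp hv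
      exact hsize t ht)
    rwa [hp1nat] at this
  have hgy : (g1 * y1).natAbs ≠ 0 := Int.natAbs_ne_zero.mpr (mul_ne_zero hg1pos.ne' hy10)
  have hgynat : ((g1 * y1).natAbs : ℝ) = g1 * |(y1 : ℝ)| := by
    rw [Nat.cast_natAbs]; push_cast; rw [abs_mul, abs_of_pos hg1r]
  have hfib : ∀ v ∈ P.image h, (((P.filter (fun t => h t = v)).card : ℕ) : ℝ) ≤
      3 * M / (m * (g1 * |(y1 : ℝ)|)) := by
    intro v _
    have hinj : Set.InjOn e (P.filter (fun t => h t = v)) := by
      intro t ht t' ht' hee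
      have h1 : t ∈ P.filter (fun t => h t = v) := by simpa using ht
      have h2 : t' ∈ P.filter (fun t => h t = v) := by simpa using ht'
      have h1' := (mem_filter.mp (mem_filter.mp h1).1).1
      have h2' := (mem_filter.mp (mem_filter.mp h2).1).1
      exact inj_aux hM hyd (mem_range.mp h1') (mem_range.mp h2') hee
    have hcard := Finset.card_image_of_injOn hinj
    have h1 := card_le_of_dvd ((P.filter (fun t => h t = v)).image e) (g1 * y1).natAbs
      (Nat.pos_of_ne_zero hgy) ((M : ℝ) / m) (by positivity) (by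
        intro w hw
        obtain ⟨t, ht, rfl⟩ := mem_image.mp hw
        exact (hXYZ t (mem_filter.mp ht).1).2.1.real hm) (by
        intro w hw w' hw'
        obtain ⟨t, ht, rfl⟩ := mem_image.mp hw
        obtain ⟨t', ht', rfl⟩ := mem_image.mp hw'
        rw [Int.natAbs_dvd]
        have b1 := (mem_filter.mp ht).2
        have b2 := (mem_filter.mp ht').2
        have b3 : y1 * (Z t - Z t') = z1 * (Y t - Y t') := by
          have : h t = h t' := b1.trans b2.symm
          simp only [hh] at this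
          linarith
        obtain ⟨k, hk⟩ : y1 ∣ Y t - Y t' := hcop1.dvd_of_dvd_mul_left (Dvd.intro _ b3)
        have b4 : Z t - Z t' = k * z1 := by
          rw [hk] at b3
          have : y1 * (Z t - Z t' - k * z1) = 0 := by linarith
          rcases mul_eq_zero.mp this with h0 | h0
          · exact absurd h0 hy10
          · linarith
        have b5 : p * (X t - X t') + q * (Y t - Y t') + r * (Z t - Z t') = 0 := by
          have c1 := hR t (mem_filter.mp ht).1
          have c2 := hR t' (mem_filter.mp ht').1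
          linarith
        have b6 : k * x1 = g1 * (X t - X t') := by
          rw [hk, b4, hp1] at b5
          have c3 : p1 * (g1 * (X t - X t') - k * x1) = 0 := by
            have : k * (q * y1 + r * z1) = -(k * (p1 * x1)) := by rw [hkey2]; ring
            linarith
          rcases mul_eq_zero.mp c3 with h0 | h0
          · exact absurd h0 hp10
          · linarith
        obtain ⟨k', hk'⟩ : g1 ∣ k := hcop2.dvd_of_dvd_mul_right (by rw [b6]; exact Dvd.intro _ rfl)
        refine ⟨((t : ℤ) - t') * G0 - k' * M, ?_⟩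
        simp only [he]
        have : Y t = Y t' + y1 * k := by linarith
        rw [this, hk', hy1', hg1']
        ring)
    rw [hcard, hgynat] at h1
    have h2 : (1 : ℝ) ≤ M / (m * (g1 * |(y1 : ℝ)|)) := by
      rw [le_div_iff₀ (by positivity), one_mul]
      have h3 : (m : ℝ) * |(y : ℝ)| ≤ M := by
        have : ((m : ℤ) * |y|) ≤ M := hyM.le
        exact_mod_cast this
      have h4 : g1 * |(y1 : ℝ)| ≤ |(y : ℝ)| := by
        rw [hy1', hg1']
        push_cast
        rw [abs_mul, abs_mul, abs_of_pos hg1r]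
        have : (1 : ℝ) ≤ |(G0 : ℝ)| := by
          rw [abs_of_pos (by exact_mod_cast hG0)]
          exact_mod_cast hG0
        have h5 : 0 ≤ g1 * |(y1 : ℝ)| := by positivity
        nlinarith
      calc (m : ℝ) * (g1 * |(y1 : ℝ)|) ≤ m * |(y : ℝ)| := by gcongr
        _ ≤ M := h3
    calc (((P.filter (fun t => h t = v)).card : ℕ) : ℝ) ≤ 2 * (M / m) / (g1 * |(y1 : ℝ)|) + 1 := h1
      _ = 2 * (M / (m * (g1 * |(y1 : ℝ)|))) + 1 := by field_simp
      _ ≤ 3 * (M / (m * (g1 * |(y1 : ℝ)|))) := by linarith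
      _ = 3 * M / (m * (g1 * |(y1 : ℝ)|)) := by ring
  refine (card_le_image_mul P h _ _ (by positivity) hH hfib).trans (le_of_eq ?_)
  rw [hpabs]
  field_simp
  ring

theorem quad_count {M m : ℕ} (hM : M.Prime) (hm : 0 < m) {x y z p q r : ℤ}
    (hrel : p * x + q * y + r * z = 0) (hcop : ∃ u v w : ℤ, u * p + v * q + w * r = 1)
    (hp : p ≠ 0) (hsum : |p| + |q| + |r| < m) (hy0 : y ≠ 0) (hz0 : z ≠ 0)
    (hyM : (m : ℤ) * |y| < M) (hzM : (m : ℤ) * |z| < M) :
    (((range M).filter (fun t => ∃ X Y Z : ℤ, NI M m t x X ∧ NI M m t y Y ∧ NI M m t z Z ∧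
      y * Z - z * Y ≠ 0)).card : ℝ) ≤ 12 * M / ((m : ℝ) ^ 2 * |(p : ℝ)|) := by
  rcases le_total |z| |y| with hle | hle
  · exact quad_aux hM hm hrel hcop hp hsum hy0 hle hyM
  · obtain ⟨u, v, w, huvw⟩ := hcop
    have h := quad_aux (x := x) (y := z) (z := y) (p := p) (q := r) (r := q) hM hm (by linarith)
      ⟨u, w, v, by linarith⟩ hp (by linarith) hz0 hle hzM
    refine le_trans ?_ h
    apply Nat.cast_le.mpr
    apply card_le_card
    intro t ht
    rw [mem_filter] at ht ⊢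
    obtain ⟨h0, X, Y, Z, h1, h2, h3, h4⟩ := ht
    exact ⟨h0, X, Z, Y, h1, h3, h2, fun h5 => h4 (by linarith)⟩

end Pool.Agent.MP_741d1b.H87
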