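import Mathlib
import Pool.Agent.Lib.MP_741d1b_nt_h87.T3Count

/-! Near triples without small relations (large sieve type inequality on the integers mod `M`). -/

set_option autoImplicit false

namespace Pool.Agent.MP_741d1b.H87

open Finset Classical

theorem sum_cos_eq_zero {M : ℕ} (hM : 0 < M) (v : ℤ) (hv : ¬ (M : ℤ) ∣ v) :
    ∑ t ∈ range M, Real.cos (2 * Real.pi * t * v / M) = 0 := by
  have hM' : (M : ℂ) ≠ 0 := by exact_mod_cast hM.ne'
  set ζ : ℂ := Complex.exp (2 * Real.pi * v / M * Complex.I) with hζ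
  have hne : ζ ≠ 1 := by
    intro h
    rw [hζ, Complex.exp_eq_one_iff] at h
    obtain ⟨k, hk⟩ := h
    apply hv
    refine ⟨k, ?_⟩
    have hpi : (2 * (Real.pi : ℂ) * Complex.I) ≠ 0 := Complex.two_pi_I_ne_zero
    have h1 : (v : ℂ) / M = k := by
      have : (2 * (Real.pi : ℂ) * Complex.I) * ((v : ℂ) / M) = (2 * (Real.pi : ℂ) * Complex.I) * k := by
        calc (2 * (Real.pi : ℂ) * Complex.I) * ((v : ℂ) / M) =
            2 * Real.pi * v / M * Complex.I := by ring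
          _ = k * (2 * Real.pi * Complex.I) := hk
          _ = _ := by ring
      exact mul_left_cancel₀ hpi this
    rw [div_eq_iff hM'] at h1
    have : (v : ℂ) = (((M : ℤ) * k : ℤ) : ℂ) := by rw [h1]; push_cast; ring
    exact_mod_cast this
  have hpow : ζ ^ M = 1 := by
    rw [hζ, ← Complex.exp_nat_mul, Complex.exp_eq_one_iff]
    refine ⟨v, ?_⟩
    field_simp
  have hgeom : ∑ t ∈ range M, ζ ^ t = 0 := by
    have h := mul_neg_geom_sum ζ M
    rw [hpow, sub_self] at h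
    rcases mul_eq_zero.mp h with h1 | h1
    · exact absurd (by linear_combination -h1) hne
    · exact h1
  have hre : ∀ t ∈ range M, (ζ ^ t).re = Real.cos (2 * Real.pi * t * v / M) := by
    intro t _
    rw [hζ, ← Complex.exp_nat_mul]
    have : (t : ℂ) * (2 * Real.pi * v / M * Complex.I) =
        ((2 * Real.pi * t * v / M : ℝ) : ℂ) * Complex.I := by
      push_cast; ring
    rw [this, Complex.exp_ofReal_mul_I_re]
  rw [← sum_congr rfl hre, ← Complex.re_sum, hgeom, Complex.zero_re]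

theorem sum_cos_sq_le {M : ℕ} (hM : 0 < M) {ι : Type} (J : Finset ι) (u : ι → ℤ)
    (hu : ∀ i ∈ J, ∀ j ∈ J, i ≠ j → ¬ (M : ℤ) ∣ u i - u j) :
    ∑ t ∈ range M, (∑ j ∈ J, Real.cos (2 * Real.pi * t * (u j) / M)) ^ 2 ≤ M * J.card := by
  have h1 : ∀ t ∈ range M, (∑ j ∈ J, Real.cos (2 * Real.pi * t * (u j) / M)) ^ 2 ≤
      ∑ i ∈ J, ∑ j ∈ J, Real.cos (2 * Real.pi * t * ((u i - u j : ℤ) : ℝ) / M) := by
    intro t _
    have e : ∑ i ∈ J, ∑ j ∈ J, Real.cos (2 * Real.pi * t * ((u i - u j : ℤ) : ℝ) / M) =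
        (∑ j ∈ J, Real.cos (2 * Real.pi * t * (u j) / M)) ^ 2 +
        (∑ j ∈ J, Real.sin (2 * Real.pi * t * (u j) / M)) ^ 2 := by
      rw [sq, sq, Finset.sum_mul_sum, Finset.sum_mul_sum, ← sum_add_distrib]
      refine sum_congr rfl fun i _ => ?_
      rw [← sum_add_distrib]
      refine sum_congr rfl fun j _ => ?_
      rw [← Real.cos_sub]
      congr 1
      push_cast
      ring
    rw [e]
    linarith [sq_nonneg (∑ j ∈ J, Real.sin (2 * Real.pi * t * (u j) / M))]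
  refine (sum_le_sum h1).trans ?_
  rw [sum_comm]
  have h2 : ∀ i ∈ J, ∑ t ∈ range M, ∑ j ∈ J,
      Real.cos (2 * Real.pi * t * ((u i - u j : ℤ) : ℝ) / M) = M := by
    intro i hi
    rw [sum_comm, Finset.sum_eq_single i]
    · simp
    · intro j hj hne
      exact sum_cos_eq_zero hM _ (hu i hi j hj (Ne.symm hne))
    · intro h; exact absurd hi h
  rw [sum_congr rfl h2, sum_const, nsmul_eq_mul]
  exact le_of_eq (mul_comm _ _)

theorem cos_near {M m t L : ℕ} (hM : 0 < M) (hm : 0 < m) (hL : 24 * L ≤ m) {x y z : ℤ}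
    (hx : Near M m t x) (hy : Near M m t y) (hz : Near M m t z) {a b c : ℕ} (ha : a < L)
    (hb : b < L) (hc : c < L) :
    Real.sqrt 2 / 2 ≤ Real.cos (2 * Real.pi * t * ((a * x + b * y + c * z : ℤ) : ℝ) / M) := by
  obtain ⟨X, hX⟩ := hx
  obtain ⟨Y, hY⟩ := hy
  obtain ⟨Z, hZ⟩ := hz
  have hM' : (0 : ℝ) < M := by exact_mod_cast hM
  have hm' : (0 : ℝ) < m := by exact_mod_cast hm
  have hX' := near_real hm hX
  have hY' := near_real hm hY
  have hZ' := near_real hm hZ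
  set ex : ℝ := (((t : ℤ) * x - X * M : ℤ) : ℝ) with hex
  set ey : ℝ := (((t : ℤ) * y - Y * M : ℤ) : ℝ) with hey
  set ez : ℝ := (((t : ℤ) * z - Z * M : ℤ) : ℝ) with hez
  set e : ℝ := (a * ex + b * ey + c * ez) / M with he
  have h1 : 2 * Real.pi * t * ((a * x + b * y + c * z : ℤ) : ℝ) / M =
      2 * Real.pi * e + ((a * X + b * Y + c * Z : ℤ) : ℝ) * (2 * Real.pi) := by
    rw [he, hex, hey, hez]
    push_cast
    field_simp
    ring
  rw [h1, Real.cos_add_int_mul_two_pi]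
  have ha' : (a : ℝ) ≤ L := by exact_mod_cast ha.le
  have hb' : (b : ℝ) ≤ L := by exact_mod_cast hb.le
  have hc' : (c : ℝ) ≤ L := by exact_mod_cast hc.le
  have hL' : 24 * (L : ℝ) ≤ m := by exact_mod_cast hL
  have h2 : |e| ≤ 1 / 8 := by
    rw [he, abs_div, abs_of_pos hM', div_le_iff₀ hM']
    calc |a * ex + b * ey + c * ez| ≤ |a * ex| + |b * ey| + |c * ez| := abs_add_three _ _ _
      _ = a * |ex| + b * |ey| + c * |ez| := by
          rw [abs_mul, abs_mul, abs_mul, abs_of_nonneg (Nat.cast_nonneg (α := ℝ) a),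
            abs_of_nonneg (Nat.cast_nonneg (α := ℝ) b), abs_of_nonneg (Nat.cast_nonneg (α := ℝ) c)]
      _ ≤ L * (M / m) + L * (M / m) + L * (M / m) := by gcongr
      _ = 3 * L * M / m := by ring
      _ ≤ 1 / 8 * M := by
          rw [div_le_iff₀ hm']
          nlinarith
  rw [← Real.cos_pi_div_four, ← Real.cos_abs (2 * Real.pi * e)]
  apply Real.cos_le_cos_of_nonneg_of_le_pi (abs_nonneg _)
  · linarith [Real.pi_pos]
  · rw [abs_mul, abs_of_pos (by positivity : (0 : ℝ) < 2 * Real.pi)]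
    nlinarith [Real.pi_pos]

/-- Near triples without relations of height below `m / 24`. -/
theorem triple_count {M m : ℕ} (hM : M.Prime) (hm : 24 ≤ m) {x y z : ℤ}
    (hno : ∀ p q r : ℤ, 24 * |p| ≤ m → 24 * |q| ≤ m → 24 * |r| ≤ m →
      p * x + q * y + r * z = 0 → p = 0 ∧ q = 0 ∧ r = 0)
    (hbig : (m : ℤ) * (|x| + |y| + |z|) < M) :
    (((range M).filter (fun t => Near M m t x ∧ Near M m t y ∧ Near M m t z)).card : ℝ) ≤
      221184 * M / (m : ℝ) ^ 3 := by
  have hM' : (0 : ℝ) < M := by exact_mod_cast hM.pos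
  have hm0 : 0 < m := by omega
  have hm' : (0 : ℝ) < m := by exact_mod_cast hm0
  set L := m / 24 with hL
  have hL1 : 1 ≤ L := by omega
  have hL24 : 24 * L ≤ m := Nat.mul_div_le m 24
  have hL48 : m ≤ 48 * L := by omega
  have hL' : (0 : ℝ) < L := by exact_mod_cast hL1
  set J : Finset (ℕ × ℕ × ℕ) := range L ×ˢ range L ×ˢ range L with hJ
  set u : ℕ × ℕ × ℕ → ℤ := fun j => (j.1 : ℤ) * x + j.2.1 * y + j.2.2 * z with hu
  have hJcard : (J.card : ℝ) = (L : ℝ) ^ 3 := by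
    rw [hJ, card_product, card_product, card_range]; push_cast; ring
  have hdist : ∀ i ∈ J, ∀ j ∈ J, i ≠ j → ¬ (M : ℤ) ∣ u i - u j := by
    intro i hi j hj hne hdvd
    rw [hJ, mem_product, mem_product, mem_range, mem_range, mem_range] at hi hj
    have b : ∀ a b : ℕ, a < L → b < L → |(a : ℤ) - b| ≤ L := by
      intro a b ha hb
      rw [abs_le]
      constructor <;> [skip; skip] <;> omega
    have b1 := b _ _ hi.1 hj.1
    have b2 := b _ _ hi.2.1 hj.2.1
    have b3 := b _ _ hi.2.2 hj.2.2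
    have hLm : 24 * (L : ℤ) ≤ m := by exact_mod_cast hL24
    have e : u i - u j = ((i.1 : ℤ) - j.1) * x + ((i.2.1 : ℤ) - j.2.1) * y +
        ((i.2.2 : ℤ) - j.2.2) * z := by
      simp only [hu]; ring
    have hsz : |u i - u j| < M := by
      rw [e]
      calc |((i.1 : ℤ) - j.1) * x + ((i.2.1 : ℤ) - j.2.1) * y + ((i.2.2 : ℤ) - j.2.2) * z|
          ≤ |((i.1 : ℤ) - j.1) * x| + |((i.2.1 : ℤ) - j.2.1) * y| + |((i.2.2 : ℤ) - j.2.2) * z| :=
            abs_add_three _ _ _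
        _ = |(i.1 : ℤ) - j.1| * |x| + |(i.2.1 : ℤ) - j.2.1| * |y| +
            |(i.2.2 : ℤ) - j.2.2| * |z| := by rw [abs_mul, abs_mul, abs_mul]
        _ ≤ m * |x| + m * |y| + m * |z| := by
            have hLm' : (L : ℤ) ≤ m := by linarith [show (0 : ℤ) ≤ L by positivity]
            gcongr
            · exact b1.trans hLm'
            · exact b2.trans hLm'
            · exact b3.trans hLm'
        _ = m * (|x| + |y| + |z|) := by ring
        _ < M := hbig
    have hzero : u i - u j = 0 := Int.eq_zero_of_abs_lt_dvd hdvd hsz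
    rw [e] at hzero
    have h3 := hno _ _ _ (by linarith) (by linarith) (by linarith) hzero
    apply hne
    refine Prod.ext ?_ (Prod.ext ?_ ?_)
    · have := h3.1; omega
    · have := h3.2.1; omega
    · have := h3.2.2; omega
  have hls := sum_cos_sq_le hM.pos J u hdist
  set S := (range M).filter (fun t => Near M m t x ∧ Near M m t y ∧ Near M m t z) with hS
  have h1 : ∀ t ∈ S, (L : ℝ) ^ 6 / 2 ≤ (∑ j ∈ J, Real.cos (2 * Real.pi * t * (u j) / M)) ^ 2 := by
    intro t ht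
    rw [hS, mem_filter] at ht
    have h2 : (J.card : ℝ) * (Real.sqrt 2 / 2) ≤
        ∑ j ∈ J, Real.cos (2 * Real.pi * t * (u j) / M) := by
      rw [← nsmul_eq_mul, ← sum_const]
      refine sum_le_sum fun j hj => ?_
      rw [hJ, mem_product, mem_product, mem_range, mem_range, mem_range] at hj
      exact cos_near hM.pos hm0 hL24 ht.2.1 ht.2.2.1 ht.2.2.2 hj.1 hj.2.1 hj.2.2
    rw [hJcard] at h2
    have h3 : (L : ℝ) ^ 6 / 2 = ((L : ℝ) ^ 3 * (Real.sqrt 2 / 2)) ^ 2 := by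
      have : Real.sqrt 2 ^ 2 = 2 := Real.sq_sqrt (by norm_num)
      calc (L : ℝ) ^ 6 / 2 = (L : ℝ) ^ 6 * 2 / 4 := by ring
        _ = (L : ℝ) ^ 6 * Real.sqrt 2 ^ 2 / 4 := by rw [this]
        _ = _ := by ring
    rw [h3]
    exact pow_le_pow_left₀ (by positivity) h2 2
  have h2 : (S.card : ℝ) * ((L : ℝ) ^ 6 / 2) ≤ M * (L : ℝ) ^ 3 := by
    calc (S.card : ℝ) * ((L : ℝ) ^ 6 / 2) = ∑ t ∈ S, (L : ℝ) ^ 6 / 2 := by
          rw [sum_const, nsmul_eq_mul]
      _ ≤ ∑ t ∈ S, (∑ j ∈ J, Real.cos (2 * Real.pi * t * (u j) / M)) ^ 2 := sum_le_sum h1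
      _ ≤ ∑ t ∈ range M, (∑ j ∈ J, Real.cos (2 * Real.pi * t * (u j) / M)) ^ 2 :=
          Finset.sum_le_sum_of_subset_of_nonneg (filter_subset _ _) (fun t _ _ => sq_nonneg _)
      _ ≤ M * J.card := hls
      _ = M * (L : ℝ) ^ 3 := by rw [hJcard]
  have h3 : (S.card : ℝ) ≤ 2 * M / (L : ℝ) ^ 3 := by
    rw [le_div_iff₀ (by positivity)]
    have h4 : (L : ℝ) ^ 3 * ((S.card : ℝ) * (L : ℝ) ^ 3) ≤ (L : ℝ) ^ 3 * (2 * M) := by
      calc (L : ℝ) ^ 3 * ((S.card : ℝ) * (L : ℝ) ^ 3) = 2 * ((S.card : ℝ) * ((L : ℝ) ^ 6 / 2)) := by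
            ring
        _ ≤ 2 * (M * (L : ℝ) ^ 3) := by linarith
        _ = _ := by ring
    exact le_of_mul_le_mul_left h4 (by positivity)
  refine h3.trans ?_
  rw [div_le_div_iff₀ (by positivity) (by positivity)]
  have h5 : (m : ℝ) ^ 3 ≤ (48 * (L : ℝ)) ^ 3 := by
    apply pow_le_pow_left₀ hm'.le
    exact_mod_cast hL48
  calc 2 * (M : ℝ) * (m : ℝ) ^ 3 ≤ 2 * M * (48 * (L : ℝ)) ^ 3 := by gcongr
    _ = 221184 * M * (L : ℝ) ^ 3 := by ring

end Pool.Agent.MP_741d1b.H87
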