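import Mathlib
import Pool.Agent.Lib.MP_741d1b_nt_h87.T3Line
import Pool.Agent.Lib.MP_741d1b_nt_h87.T3Triple
import Pool.Agent.Lib.MP_741d1b_nt_h87.T3Quad

/-! Expected numbers of bad triples and quadruples in clusters. -/

set_option autoImplicit false

namespace Pool.Agent.MP_741d1b.H87

open Finset Classical
open scoped Pointwise

/-- Averaging over multipliers. -/
theorem avg_le {ι : Type} [DecidableEq ι] {M : ℕ} (X : ℕ → Finset ι) (U : Finset ι) (hX : ∀ t, X t ⊆ U) (w : ι → ℝ)
    (hw : ∀ z ∈ U, (((range M).filter (fun t => z ∈ X t)).card : ℝ) ≤ w z) :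
    ∑ t ∈ range M, ((X t).card : ℝ) ≤ ∑ z ∈ U, w z := by
  have e1 : ∀ t ∈ range M, ((X t).card : ℝ) = ∑ z ∈ U, if z ∈ X t then (1 : ℝ) else 0 := by
    intro t _
    rw [← Finset.sum_filter, Finset.filter_mem_eq_inter, inter_eq_right.mpr (hX t)]
    simp
  rw [sum_congr rfl e1, sum_comm]
  refine sum_le_sum fun z hz => ?_
  rw [sum_ite_card (fun t => z ∈ X t) 1, mul_one]
  exact hw z hz

namespace Ctx

variable (c : Ctx)

theorem card_A3 : ((c.A ×ˢ c.A ×ˢ c.A).card : ℝ) = (c.n : ℝ) ^ 3 := by
  rw [card_product, card_product, c.hA]; push_cast; ring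

theorem card_A4 : (((c.A ×ˢ c.A) ×ˢ (c.A ×ˢ c.A)).card : ℝ) = (c.n : ℝ) ^ 4 := by
  rw [card_product, card_product, c.hA]; push_cast; ring

/-- Noncollinear triples with small determinant. -/
noncomputable def BD (T ρ : ℝ) (t : ℕ) : Finset (ℤ × ℤ × ℤ) :=
  (c.C t ×ˢ c.C t ×ˢ c.C t).filter (fun z => c.dt t z.1 z.2.1 z.2.2 ≠ 0 ∧
    |(c.dt t z.1 z.2.1 z.2.2 : ℝ)| ≤ T ∧ ρ ≤ |((z.1 - z.2.1 : ℤ) : ℝ)|)

theorem sum_BD (T ρ : ℝ) (hT : 0 ≤ T) (hρ : 0 < ρ) :
    ∑ t ∈ range c.M, ((c.BD T ρ t).card : ℝ) ≤ c.M * (6 * T * c.n ^ 2 / ρ) := by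
  have hn := c.n_pos'
  have hM := c.M_pos'
  have h := avg_le (M := c.M) (c.BD T ρ) (c.A ×ˢ c.A ×ˢ c.A) (by
    intro t
    refine (filter_subset _ _).trans ?_
    exact product_subset_product (c.hCA t) (product_subset_product (c.hCA t) (c.hCA t)))
    (fun _ => 6 * T * c.M / (c.n * ρ)) (by
    rintro ⟨a, b, d⟩ hz
    rw [mem_product, mem_product] at hz
    obtain ⟨ha, hb, hd⟩ := hz
    simp only at ha hb hd
    by_cases hs : a ≠ b ∧ ρ ≤ |((a - b : ℤ) : ℝ)|
    · have h1 := det_count (M := c.M) (m1 := c.n) (m2 := c.n) c.hM c.n_pos (s := a - b)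
        (y := a - d) (sub_ne_zero.mpr hs.1) (c.sub_lt ha hb) T hT
      refine le_trans ?_ (h1.trans ?_)
      · apply Nat.cast_le.mpr
        apply card_le_card
        intro t ht
        rw [mem_filter] at ht ⊢
        refine ⟨ht.1, ?_⟩
        have ht2 := ht.2
        rw [BD, mem_filter, mem_product, mem_product] at ht2
        obtain ⟨⟨ha', hb', hd'⟩, h2, h3, _⟩ := ht2
        exact ⟨c.k t a - c.k t b, c.k t a - c.k t d, c.ni ha' hb', c.ni ha' hd', h2, by
          simpa [dt] using h3⟩
      · apply div_le_div_of_nonneg_left (by positivity) (by positivity)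
        exact mul_le_mul_of_nonneg_left hs.2 hn.le
    · have : (range c.M).filter (fun t => ((a, b, d) : ℤ × ℤ × ℤ) ∈ c.BD T ρ t) = ∅ := by
        apply filter_false_of_mem
        intro t _ ht2
        rw [BD, mem_filter] at ht2
        obtain ⟨_, h2, _, h4⟩ := ht2
        apply hs
        refine ⟨?_, h4⟩
        intro hab
        apply h2
        simp only
        rw [hab]
        unfold dt
        ring
      rw [this]
      simp only [card_empty, Nat.cast_zero]
      positivity)
  rw [sum_const, nsmul_eq_mul, c.card_A3] at h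
  refine h.trans (le_of_eq ?_)
  field_simp

/-- Noncollinear triples with large content. -/
noncomputable def BC (F : ℕ) (t : ℕ) : Finset (ℤ × ℤ × ℤ) :=
  (c.C t ×ˢ c.C t ×ˢ c.C t).filter (fun z => c.dt t z.1 z.2.1 z.2.2 ≠ 0 ∧
    F ≤ Int.gcd (z.1 - z.2.1) (c.k t z.1 - c.k t z.2.1))

theorem sum_BC (F : ℕ) (hF : 1 ≤ F) :
    ∑ t ∈ range c.M, ((c.BC F t).card : ℝ) ≤ c.M * (12 * c.Δ * c.n / F) := by
  have hn := c.n_pos'
  have hM := c.M_pos'
  have hF0 : (0 : ℝ) < F := by exact_mod_cast hF
  have hΔ := c.hΔ1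
  have h := avg_le (M := c.M) (c.BC F) (c.A ×ˢ c.A ×ˢ c.A) (by
    intro t
    refine (filter_subset _ _).trans ?_
    exact product_subset_product (c.hCA t) (product_subset_product (c.hCA t) (c.hCA t)))
    (fun _ => c.Δ * (12 * c.M / (c.n ^ 2 * F))) (by
    rintro ⟨a, b, d⟩ hz
    rw [mem_product, mem_product] at hz
    obtain ⟨ha, hb, hd⟩ := hz
    simp only at ha hb hd
    by_cases hs : a ≠ b ∧ a ≠ d
    · obtain ⟨hab, had⟩ := hs
      have hx0 : a - b ≠ 0 := sub_ne_zero.mpr hab
      have hy0 : a - d ≠ 0 := sub_ne_zero.mpr had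
      have hsub : (range c.M).filter (fun t => ((a, b, d) : ℤ × ℤ × ℤ) ∈ c.BC F t) ⊆
          ((a - b).natAbs.divisors.filter (fun f => F ≤ f)).biUnion (fun f =>
            (range c.M).filter (fun t => ∃ S Y : ℤ, NI c.M (c.n * f) t ((a - b) / f) S ∧
              NI c.M c.n t (a - d) Y ∧ (a - b) / f * Y - (a - d) * S ≠ 0)) := by
        intro t ht
        rw [mem_filter] at ht
        have ht2 := ht.2
        rw [BC, mem_filter, mem_product, mem_product] at ht2
        obtain ⟨⟨ha', hb', hd'⟩, h2, h3⟩ := ht2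
        simp only at ha' hb' hd' h2 h3
        have hgp : 0 < Int.gcd (a - b) (c.k t a - c.k t b) := Int.gcd_pos_of_ne_zero_left _ hx0
        obtain ⟨p, q, _, hp, hq⟩ := Int.exists_gcd_one hgp
        set f := Int.gcd (a - b) (c.k t a - c.k t b) with hf
        have hf0 : (f : ℤ) ≠ 0 := by exact_mod_cast hgp.ne'
        rw [mem_biUnion]
        refine ⟨f, ?_, ?_⟩
        · rw [mem_filter, Nat.mem_divisors]
          exact ⟨⟨Int.gcd_dvd_natAbs_left _ _, Int.natAbs_ne_zero.mpr hx0⟩, h3⟩
        · rw [mem_filter]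
          have e1 : (a - b) / (f : ℤ) = p := by
            rw [hp, Int.mul_ediv_cancel _ hf0]
          refine ⟨ht.1, q, c.k t a - c.k t d, ?_, c.ni ha' hd', ?_⟩
          · rw [e1]
            have h4 := c.ni ha' hb'
            unfold NI at h4 ⊢
            rw [hp, hq] at h4
            have e2 : (t : ℤ) * (p * (f : ℤ)) - q * (f : ℤ) * c.M =
                ((t : ℤ) * p - q * c.M) * (f : ℤ) := by ring
            rw [e2, abs_mul, Nat.abs_cast] at h4
            push_cast
            linarith
          · rw [e1]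
            intro h5
            apply h2
            unfold dt
            rw [hp, hq]
            have e3 : p * (f : ℤ) * (c.k t a - c.k t d) - (a - d) * (q * (f : ℤ)) =
                (f : ℤ) * (p * (c.k t a - c.k t d) - (a - d) * q) := by ring
            rw [e3, h5, mul_zero]
      have hb1 : (((range c.M).filter (fun t => ((a, b, d) : ℤ × ℤ × ℤ) ∈ c.BC F t)).card : ℝ) ≤
          ∑ f ∈ (a - b).natAbs.divisors.filter (fun f => F ≤ f),
            (12 * (c.M : ℝ) / ((c.n : ℝ) ^ 2 * F)) := by
        have h6 := (card_le_card hsub).trans card_biUnion_le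
        have h7 : (((range c.M).filter (fun t => ((a, b, d) : ℤ × ℤ × ℤ) ∈ c.BC F t)).card : ℝ) ≤
          ∑ f ∈ (a - b).natAbs.divisors.filter (fun f => F ≤ f),
            (((range c.M).filter (fun t => ∃ S Y : ℤ, NI c.M (c.n * f) t ((a - b) / f) S ∧
              NI c.M c.n t (a - d) Y ∧ (a - b) / f * Y - (a - d) * S ≠ 0)).card : ℝ) := by
          exact_mod_cast h6
        refine h7.trans (sum_le_sum fun f hf => ?_)
        rw [mem_filter, Nat.mem_divisors] at hf
        obtain ⟨⟨hf1, hf2⟩, hf3⟩ := hf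
        have hfd : (f : ℤ) ∣ a - b := Int.natCast_dvd.mpr hf1
        have hfp : 0 < f := by omega
        have hf0 : (f : ℤ) ≠ 0 := by exact_mod_cast hfp.ne'
        obtain ⟨w, hw⟩ := hfd
        have hww : (a - b) / (f : ℤ) = w := by rw [hw, Int.mul_ediv_cancel_left _ hf0]
        rw [hww]
        have hw0 : w ≠ 0 := by intro h; rw [h, mul_zero] at hw; exact hx0 hw
        have h8 := pair_noncol (M := c.M) (m1 := c.n * f) (m2 := c.n) c.hM
          (Nat.mul_pos c.n_pos hfp) c.n_pos (s := w) (y := a - d) hw0 hy0 (by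
            have h9 := c.sub_lt ha hb
            rw [hw, abs_mul, Nat.abs_cast] at h9
            push_cast
            linarith) (c.sub_lt ha hd)
        refine h8.trans ?_
        push_cast
        apply div_le_div_of_nonneg_left (by positivity) (by positivity)
        have hfF : (F : ℝ) ≤ f := by exact_mod_cast hf3
        calc (c.n : ℝ) ^ 2 * F = c.n * F * c.n := by ring
          _ ≤ c.n * f * c.n := by gcongr
      refine hb1.trans ?_
      rw [sum_const, nsmul_eq_mul]
      apply mul_le_mul_of_nonneg_right _ (by positivity)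
      have h10 : (((a - b).natAbs.divisors.filter (fun f => F ≤ f)).card : ℝ) ≤
          ((a - b).natAbs.divisors.card : ℝ) := by exact_mod_cast card_filter_le _ _
      refine h10.trans (c.div_le hx0 ?_)
      have := c.sub_le ha hb
      have : (0 : ℤ) ≤ c.B := by positivity
      linarith
    · have : (range c.M).filter (fun t => ((a, b, d) : ℤ × ℤ × ℤ) ∈ c.BC F t) = ∅ := by
        apply filter_false_of_mem
        intro t _ ht2
        rw [BC, mem_filter] at ht2
        obtain ⟨_, h2, _⟩ := ht2
        apply hs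
        constructor
        · intro hab
          apply h2
          simp only
          rw [hab]
          unfold dt
          ring
        · intro had
          apply h2
          simp only
          rw [had]
          unfold dt
          ring
      rw [this]
      simp only [card_empty, Nat.cast_zero]
      positivity)
  rw [sum_const, nsmul_eq_mul, c.card_A3] at h
  refine h.trans (le_of_eq ?_)
  field_simp

/-- Quadruples whose planar relation has a large coefficient. -/
noncomputable def BQ (Λ : ℝ) (t : ℕ) : Finset ((ℤ × ℤ) × (ℤ × ℤ)) :=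
  ((c.C t ×ˢ c.C t) ×ˢ (c.C t ×ˢ c.C t)).filter (fun z => c.dt t z.1.1 z.1.2 z.2.1 ≠ 0 ∧
    Λ * (Int.gcd (c.dt t z.1.1 z.1.2 z.2.1) (c.dt t z.1.1 z.1.2 z.2.2) : ℝ) <
      |(c.dt t z.1.1 z.1.2 z.2.1 : ℝ)|)

/-- A small relation can be taken primitive. -/
theorem prim_rel {x y z p q r : ℤ} {m : ℤ} (hp : 24 * |p| ≤ m) (hq : 24 * |q| ≤ m)
    (hr : 24 * |r| ≤ m) (hrel : p * x + q * y + r * z = 0) (hne : ¬ (p = 0 ∧ q = 0 ∧ r = 0)) :
    ∃ p' q' r' : ℤ, 24 * |p'| ≤ m ∧ 24 * |q'| ≤ m ∧ 24 * |r'| ≤ m ∧
      p' * x + q' * y + r' * z = 0 ∧ ∃ u v w : ℤ, u * p' + v * q' + w * r' = 1 := by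
  set g : ℕ := Int.gcd p (Int.gcd q r) with hg
  have hg0 : 0 < g := by
    rw [Nat.pos_iff_ne_zero]
    intro h0
    rw [hg, Int.gcd_eq_zero_iff] at h0
    obtain ⟨h1, h2⟩ := h0
    have h3 : Int.gcd q r = 0 := by exact_mod_cast h2
    rw [Int.gcd_eq_zero_iff] at h3
    exact hne ⟨h1, h3.1, h3.2⟩
  have hg0' : (g : ℤ) ≠ 0 := by exact_mod_cast hg0.ne'
  have hgp : (g : ℤ) ∣ p := Int.gcd_dvd_left _ _
  have hgqr : (g : ℤ) ∣ (Int.gcd q r : ℤ) := Int.gcd_dvd_right _ _
  have hgq : (g : ℤ) ∣ q := hgqr.trans (Int.gcd_dvd_left _ _)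
  have hgr : (g : ℤ) ∣ r := hgqr.trans (Int.gcd_dvd_right _ _)
  obtain ⟨p', hp'⟩ := hgp
  obtain ⟨q', hq'⟩ := hgq
  obtain ⟨r', hr'⟩ := hgr
  have hle : ∀ s s' : ℤ, s = g * s' → 24 * |s| ≤ m → 24 * |s'| ≤ m := by
    intro s s' hs hm
    refine le_trans ?_ hm
    rw [hs, abs_mul, Nat.abs_cast]
    have h1 : (1 : ℤ) ≤ g := by exact_mod_cast hg0
    have h2 := abs_nonneg s'
    nlinarith
  refine ⟨p', q', r', hle p p' hp' hp, hle q q' hq' hq, hle r r' hr' hr, ?_, ?_⟩
  · have : (g : ℤ) * (p' * x + q' * y + r' * z) = 0 := by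
      rw [← hrel, hp', hq', hr']; ring
    rcases mul_eq_zero.mp this with h | h
    · exact absurd h hg0'
    · exact h
  · -- Bezout
    have hb1 := Int.gcd_eq_gcd_ab p (Int.gcd q r)
    have hb2 := Int.gcd_eq_gcd_ab q r
    set u := Int.gcdA p (Int.gcd q r)
    set v := Int.gcdB p (Int.gcd q r)
    set u2 := Int.gcdA q r
    set v2 := Int.gcdB q r
    refine ⟨u, v * u2, v * v2, ?_⟩
    have h3 : (g : ℤ) * (u * p' + v * u2 * q' + v * v2 * r') = g * 1 := by
      calc (g : ℤ) * (u * p' + v * u2 * q' + v * v2 * r') =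
          (g * p') * u + ((g * q') * u2 + (g * r') * v2) * v := by ring
        _ = p * u + (q * u2 + r * v2) * v := by rw [← hp', ← hq', ← hr']
        _ = p * u + (Int.gcd q r : ℤ) * v := by rw [← hb2]
        _ = g := by rw [hg]; exact hb1.symm
        _ = g * 1 := by ring
    exact mul_left_cancel₀ hg0' h3

theorem sum_BQ (Λ : ℝ) (hΛ : 0 < Λ) (hn24 : 24 ≤ c.n) :
    ∑ t ∈ range c.M, ((c.BQ Λ t).card : ℝ) ≤
      c.M * (12 * c.n ^ 2 / Λ + 221184 * c.n) := by
  have hn := c.n_pos'
  have hM := c.M_pos'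
  have h := avg_le (M := c.M) (c.BQ Λ) ((c.A ×ˢ c.A) ×ˢ (c.A ×ˢ c.A)) (by
    intro t
    refine (filter_subset _ _).trans ?_
    exact product_subset_product (product_subset_product (c.hCA t) (c.hCA t))
      (product_subset_product (c.hCA t) (c.hCA t)))
    (fun _ => 12 * c.M / (c.n ^ 2 * Λ) + 221184 * c.M / c.n ^ 3) (by
    rintro ⟨⟨a, b⟩, ⟨e, d⟩⟩ hz
    rw [mem_product, mem_product, mem_product] at hz
    obtain ⟨⟨ha, hb⟩, he, hd⟩ := hz
    simp only at ha hb he hd
    have hpos1 : (0 : ℝ) ≤ 12 * c.M / (c.n ^ 2 * Λ) := by positivity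
    have hpos2 : (0 : ℝ) ≤ 221184 * c.M / c.n ^ 3 := by positivity
    by_cases hs : a ≠ b ∧ a ≠ e
    · obtain ⟨hab, hae⟩ := hs
      have hy0 : a - b ≠ 0 := sub_ne_zero.mpr hab
      have hz0 : a - e ≠ 0 := sub_ne_zero.mpr hae
      by_cases hno : ∀ p q r : ℤ, 24 * |p| ≤ c.n → 24 * |q| ≤ c.n → 24 * |r| ≤ c.n →
          p * (a - d) + q * (a - b) + r * (a - e) = 0 → p = 0 ∧ q = 0 ∧ r = 0
      · have h1 := triple_count (M := c.M) (m := c.n) c.hM hn24 hno (by
          have h2 := c.sub_le ha hd
          have h3 := c.sub_le ha hb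
          have h4 := c.sub_le ha he
          have h5 : |(|a - d| + |a - b| + |a - e|)| ≤ 6 * (c.B : ℤ) := by
            rw [abs_of_nonneg (by positivity)]
            linarith
          have h6 := c.mul_lt_M (m := c.n) (Nat.le_self_pow (by norm_num) _) h5
          rwa [abs_of_nonneg (by positivity)] at h6)
        refine le_trans ?_ (h1.trans (by linarith))
        apply Nat.cast_le.mpr
        apply card_le_card
        intro t ht
        rw [mem_filter] at ht ⊢
        have ht2 := ht.2
        rw [BQ, mem_filter, mem_product, mem_product, mem_product] at ht2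
        obtain ⟨⟨⟨ha', hb'⟩, he', hd'⟩, _⟩ := ht2
        exact ⟨ht.1, c.near ha' hd', c.near ha' hb', c.near ha' he'⟩
      · push Not at hno
        obtain ⟨p0, q0, r0, hp0, hq0, hr0, hrel0, hne0⟩ := hno
        obtain ⟨p, q, r, hp, hq, hr, hrel, hprim⟩ := prim_rel hp0 hq0 hr0 hrel0 (by
          rintro ⟨h1, h2, h3⟩
          exact hne0 h1 h2 h3)
        have hsum : |p| + |q| + |r| < c.n := by
          have : (0 : ℤ) < c.n := by exact_mod_cast c.n_pos
          have h1 := abs_nonneg p
          have h2 := abs_nonneg q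
          have h3 := abs_nonneg r
          linarith
        -- for t in the set, the relation holds and |p| > Λ
        have hkey : ∀ t, (((a, b), (e, d)) : (ℤ × ℤ) × (ℤ × ℤ)) ∈ c.BQ Λ t →
            p ≠ 0 ∧ Λ < |(p : ℝ)| := by
          intro t ht2
          rw [BQ, mem_filter, mem_product, mem_product, mem_product] at ht2
          obtain ⟨⟨⟨ha', hb'⟩, he', hd'⟩, hD0, hD1⟩ := ht2
          simp only at ha' hb' he' hd' hD0 hD1
          have hrelk := rel_of_near c.hM.pos hrel hsum (c.ni ha' hd') (c.ni ha' hb') (c.ni ha' he')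
          set Dc := c.dt t a b e with hDc
          set Dd := c.dt t a b d with hDd
          have hpD : p * Dd = -r * Dc := by
            rw [hDc, hDd]
            unfold dt
            have e1 : p * ((a - b) * (c.k t a - c.k t d) - (a - d) * (c.k t a - c.k t b)) =
                (a - b) * (p * (c.k t a - c.k t d)) - (p * (a - d)) * (c.k t a - c.k t b) := by
              ring
            have e2 : p * (c.k t a - c.k t d) =
                -(q * (c.k t a - c.k t b)) - r * (c.k t a - c.k t e) := by linarith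
            have e3 : p * (a - d) = -(q * (a - b)) - r * (a - e) := by linarith
            rw [e1, e2, e3]
            ring
          have hpne : p ≠ 0 := by
            intro hp0
            rw [hp0, zero_mul] at hpD
            have hr0 : r = 0 := by
              rcases mul_eq_zero.mp hpD.symm with h1 | h1
              · linarith
              · exact absurd h1 hD0
            rw [hp0, hr0] at hrel
            have hq0 : q = 0 := by
              have : q * (a - b) = 0 := by linarith
              rcases mul_eq_zero.mp this with h1 | h1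
              · exact h1
              · exact absurd h1 hy0
            obtain ⟨u, v, w, huvw⟩ := hprim
            rw [hp0, hq0, hr0] at huvw
            simp at huvw
          refine ⟨hpne, ?_⟩
          have hgp : 0 < Int.gcd Dc Dd := Int.gcd_pos_of_ne_zero_left _ hD0
          obtain ⟨s1, s2, hco, hs1, hs2⟩ := Int.exists_gcd_one hgp
          set g := Int.gcd Dc Dd with hg
          have hg0 : (g : ℤ) ≠ 0 := by exact_mod_cast hgp.ne'
          have hdvd : s1 ∣ p := by
            have h1 : p * s2 = -r * s1 := by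
              have : (p * s2) * (g : ℤ) = (-r * s1) * (g : ℤ) := by
                calc (p * s2) * (g : ℤ) = p * (s2 * g) := by ring
                  _ = p * Dd := by rw [← hs2]
                  _ = -r * Dc := hpD
                  _ = -r * (s1 * g) := by rw [← hs1]
                  _ = _ := by ring
              exact mul_right_cancel₀ hg0 this
            have h2 : s1 ∣ p * s2 := ⟨-r, by rw [h1]; ring⟩
            exact (Int.isCoprime_iff_gcd_eq_one.mpr hco).dvd_of_dvd_mul_right h2
          have h3 : |s1| ≤ |p| := Int.le_of_dvd (abs_pos.mpr hpne) ((abs_dvd_abs _ _).mpr hdvd)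
          have h3' : |(s1 : ℝ)| ≤ |(p : ℝ)| := by exact_mod_cast h3
          have h4 : |(Dc : ℝ)| = |(s1 : ℝ)| * g := by
            rw [hs1]; push_cast
            rw [abs_mul, Nat.abs_cast]
          rw [h4] at hD1
          have hg0' : (0 : ℝ) < g := by exact_mod_cast hgp
          have h5 := lt_of_mul_lt_mul_right hD1 hg0'.le
          linarith
        by_cases hpΛ : p ≠ 0 ∧ Λ < |(p : ℝ)|
        · have h1 := quad_count (M := c.M) (m := c.n) c.hM c.n_pos hrel hprim hpΛ.1 hsum hy0 hz0
            (c.sub_lt ha hb) (c.sub_lt ha he)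
          refine le_trans ?_ (h1.trans ?_)
          · apply Nat.cast_le.mpr
            apply card_le_card
            intro t ht
            rw [mem_filter] at ht ⊢
            have ht2 := ht.2
            rw [BQ, mem_filter, mem_product, mem_product, mem_product] at ht2
            obtain ⟨⟨⟨ha', hb'⟩, he', hd'⟩, hD0, _⟩ := ht2
            exact ⟨ht.1, _, _, _, c.ni ha' hd', c.ni ha' hb', c.ni ha' he', hD0⟩
          · have : 12 * (c.M : ℝ) / ((c.n : ℝ) ^ 2 * |(p : ℝ)|) ≤ 12 * c.M / (c.n ^ 2 * Λ) := by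
              apply div_le_div_of_nonneg_left (by positivity) (by positivity)
              exact mul_le_mul_of_nonneg_left hpΛ.2.le (by positivity)
            linarith
        · have : (range c.M).filter
              (fun t => (((a, b), (e, d)) : (ℤ × ℤ) × (ℤ × ℤ)) ∈ c.BQ Λ t) = ∅ := by
            apply filter_false_of_mem
            intro t _ ht2
            exact hpΛ (hkey t ht2)
          rw [this]
          simp only [card_empty, Nat.cast_zero]
          positivity
    · have : (range c.M).filter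
          (fun t => (((a, b), (e, d)) : (ℤ × ℤ) × (ℤ × ℤ)) ∈ c.BQ Λ t) = ∅ := by
        apply filter_false_of_mem
        intro t _ ht2
        rw [BQ, mem_filter] at ht2
        obtain ⟨_, h2, _⟩ := ht2
        apply hs
        constructor
        · intro hab
          apply h2
          simp only
          rw [hab]
          unfold dt
          ring
        · intro had
          apply h2
          simp only
          rw [had]
          unfold dt
          ring
      rw [this]
      simp only [card_empty, Nat.cast_zero]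
      positivity)
  rw [sum_const, nsmul_eq_mul, c.card_A4] at h
  refine h.trans (le_of_eq ?_)
  field_simp

end Ctx

end Pool.Agent.MP_741d1b.H87
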