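import Mathlib
import Pool.Agent.Lib.MP_741d1b_nt_h87.T3Exp
import Pool.Agent.Lib.MP_741d1b_nt_h87.T3Sol

/-! Expected number of quadruples in a slice with a relation of small height. -/

set_option autoImplicit false

namespace Pool.Agent.MP_741d1b.H87

open Finset Classical
open scoped Pointwise

namespace Ctx

variable (c : Ctx)

/-- A quadruple of points of a cluster, pairwise near at scale `m`, in general position. -/
def Quad (m t : ℕ) (z : (ℤ × ℤ) × (ℤ × ℤ)) : Prop :=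
  (∀ x ∈ ({z.1.1, z.1.2, z.2.1, z.2.2} : Finset ℤ), ∀ y ∈ ({z.1.1, z.1.2, z.2.1, z.2.2} : Finset ℤ),
    NI c.M m t (x - y) (c.k t x - c.k t y)) ∧
  c.dt t z.1.1 z.1.2 z.2.1 ≠ 0 ∧ c.dt t z.1.1 z.1.2 z.2.2 ≠ 0 ∧
  c.dt t z.1.1 z.2.1 z.2.2 ≠ 0 ∧ c.dt t z.1.2 z.2.1 z.2.2 ≠ 0

/-- The relation. -/
def Rel (z : (ℤ × ℤ) × (ℤ × ℤ)) (w : (ℤ × ℤ) × (ℤ × ℤ)) : Prop :=
  w.1.1 * z.1.1 + w.1.2 * z.1.2 + w.2.1 * z.2.1 + w.2.2 * z.2.2 = 0

/-- The slice quadruples. -/
noncomputable def W (m L t : ℕ) : Finset ((ℤ × ℤ) × (ℤ × ℤ)) :=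
  ((c.As ×ˢ c.As) ×ˢ (c.As ×ˢ c.As)).filter (fun z => c.Quad m t z ∧
    ∃ w ∈ (Iz L ×ˢ Iz L) ×ˢ (Iz L ×ˢ Iz L), Rel z w ∧ w.1.1 + w.1.2 + w.2.1 + w.2.2 = 0 ∧
      ∃ u v x : ℤ, u * w.1.1 + v * w.1.2 + x * w.2.1 = 1)

theorem quad_role {m L : ℕ} (hm0 : 0 < m) (hm : m ≤ c.n ^ 3) (hL : 3 * L < m)
    {z w : (ℤ × ℤ) × (ℤ × ℤ)} (hz : z ∈ (c.As ×ˢ c.As) ×ˢ (c.As ×ˢ c.As))
    (hw : w ∈ (Iz L ×ˢ Iz L) ×ˢ (Iz L ×ˢ Iz L)) (hrel : Rel z w)
    (hsum : w.1.1 + w.1.2 + w.2.1 + w.2.2 = 0)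
    (hprim : ∃ u v x : ℤ, u * w.1.1 + v * w.1.2 + x * w.2.1 = 1) :
    (((range c.M).filter (fun t => c.Quad m t z)).card : ℝ) ≤
      12 * c.M / (m : ℝ) ^ 2 * wt4 w.1.1 w.1.2 w.2.1 w.2.2 := by
  obtain ⟨⟨a, b⟩, ⟨e, d⟩⟩ := z
  obtain ⟨⟨p, q⟩, ⟨r, s⟩⟩ := w
  rw [mem_product, mem_product, mem_product] at hz hw
  obtain ⟨⟨ha, hb⟩, he, hd⟩ := hz
  obtain ⟨⟨hp, hq⟩, hr, hs⟩ := hw
  unfold Rel at hrel
  simp only at ha hb he hd hp hq hr hs hrel hsum hprim ⊢
  obtain ⟨u, v, x, huvx⟩ := hprim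
  rw [mem_Iz] at hp hq hr hs
  have hM := c.M_pos'
  have hm' : (0 : ℝ) < m := by exact_mod_cast hm0
  have hB0 : (0 : ℤ) ≤ c.B := by positivity
  have hlt : ∀ {x y : ℤ}, x ∈ c.As → y ∈ c.As → (m : ℤ) * |x - y| < c.M := by
    intro x y hx hy
    apply c.mul_lt_M hm
    have := c.sub_le (c.As_sub hx) (c.As_sub hy)
    linarith
  have hL' : (3 : ℤ) * L < m := by exact_mod_cast hL
  -- trivial case: no multiplier
  by_cases hex : ∃ t ∈ range c.M, c.Quad m t ((a, b), (e, d))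
  swap
  · push Not at hex
    have : (range c.M).filter (fun t => c.Quad m t ((a, b), (e, d))) = ∅ := by
      apply filter_false_of_mem
      intro t ht
      exact hex t ht
    rw [this]
    simp only [card_empty, Nat.cast_zero]
    exact mul_nonneg (by positivity) (wt4_nonneg _ _ _ _)
  obtain ⟨t0, _, hQ0⟩ := hex
  obtain ⟨_, hq1, hq2, hq3, hq4⟩ := hQ0
  simp only at hq1 hq2 hq3 hq4
  have hab : a ≠ b := by
    intro h; apply hq1; rw [h]; unfold dt; ring
  have hae : a ≠ e := by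
    intro h; apply hq1; rw [h]; unfold dt; ring
  have had : a ≠ d := by
    intro h; apply hq2; rw [h]; unfold dt; ring
  have hbe : b ≠ e := by
    intro h; apply hq4; rw [h]; unfold dt; ring
  have hbd : b ≠ d := by
    intro h; apply hq4; rw [h]; unfold dt; ring
  have hed : e ≠ d := by
    intro h; apply hq4; rw [h]; unfold dt; ring
  -- the four roles
  have R1 : (((range c.M).filter (fun t => c.Quad m t ((a, b), (e, d)))).card : ℝ) ≤
      12 * c.M / ((m : ℝ) ^ 2 * |(p : ℝ)|) := by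
    have h := quad_count (M := c.M) (m := m) c.hM hm0 (x := a - d) (y := b - d) (z := e - d)
      (p := p) (q := q) (r := r) (by
        have : s = -p - q - r := by linarith
        rw [this] at hrel; linarith) ⟨u, v, x, huvx⟩ hp.1 (by linarith [hp.2, hq.2, hr.2])
      (sub_ne_zero.mpr hbd) (sub_ne_zero.mpr hed) (hlt hb hd) (hlt he hd)
    refine le_trans ?_ h
    apply Nat.cast_le.mpr
    apply card_le_card
    intro t ht
    rw [mem_filter] at ht ⊢
    obtain ⟨ht1, hN, _, _, _, h4⟩ := ht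
    simp only at hN h4
    refine ⟨ht1, _, _, _, hN a (by simp) d (by simp), hN b (by simp) d (by simp),
      hN e (by simp) d (by simp), ?_⟩
    intro h5
    apply h4
    unfold dt
    linarith
  have R2 : (((range c.M).filter (fun t => c.Quad m t ((a, b), (e, d)))).card : ℝ) ≤
      12 * c.M / ((m : ℝ) ^ 2 * |(q : ℝ)|) := by
    have h := quad_count (M := c.M) (m := m) c.hM hm0 (x := b - d) (y := a - d) (z := e - d)
      (p := q) (q := p) (r := r) (by
        have : s = -p - q - r := by linarith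
        rw [this] at hrel; linarith) ⟨v, u, x, by linarith⟩ hq.1 (by linarith [hp.2, hq.2, hr.2])
      (sub_ne_zero.mpr had) (sub_ne_zero.mpr hed) (hlt ha hd) (hlt he hd)
    refine le_trans ?_ h
    apply Nat.cast_le.mpr
    apply card_le_card
    intro t ht
    rw [mem_filter] at ht ⊢
    obtain ⟨ht1, hN, _, _, h3, _⟩ := ht
    simp only at hN h3
    refine ⟨ht1, _, _, _, hN b (by simp) d (by simp), hN a (by simp) d (by simp),
      hN e (by simp) d (by simp), ?_⟩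
    intro h5
    apply h3
    unfold dt
    linarith
  have R3 : (((range c.M).filter (fun t => c.Quad m t ((a, b), (e, d)))).card : ℝ) ≤
      12 * c.M / ((m : ℝ) ^ 2 * |(r : ℝ)|) := by
    have h := quad_count (M := c.M) (m := m) c.hM hm0 (x := e - d) (y := a - d) (z := b - d)
      (p := r) (q := p) (r := q) (by
        have : s = -p - q - r := by linarith
        rw [this] at hrel; linarith) ⟨x, u, v, by linarith⟩ hr.1 (by linarith [hp.2, hq.2, hr.2])
      (sub_ne_zero.mpr had) (sub_ne_zero.mpr hbd) (hlt ha hd) (hlt hb hd)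
    refine le_trans ?_ h
    apply Nat.cast_le.mpr
    apply card_le_card
    intro t ht
    rw [mem_filter] at ht ⊢
    obtain ⟨ht1, hN, _, h2, _, _⟩ := ht
    simp only at hN h2
    refine ⟨ht1, _, _, _, hN e (by simp) d (by simp), hN a (by simp) d (by simp),
      hN b (by simp) d (by simp), ?_⟩
    intro h5
    apply h2
    unfold dt
    linarith
  have R4 : (((range c.M).filter (fun t => c.Quad m t ((a, b), (e, d)))).card : ℝ) ≤
      12 * c.M / ((m : ℝ) ^ 2 * |(s : ℝ)|) := by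
    have h := quad_count (M := c.M) (m := m) c.hM hm0 (x := d - a) (y := b - a) (z := e - a)
      (p := s) (q := q) (r := r) (by
        have : p = -q - r - s := by linarith
        rw [this] at hrel; linarith) ⟨-u, v - u, x - u, by
          have : p = -q - r - s := by linarith
          rw [this] at huvx; linarith⟩ hs.1 (by linarith [hs.2, hq.2, hr.2])
      (sub_ne_zero.mpr (Ne.symm hab)) (sub_ne_zero.mpr (Ne.symm hae)) (hlt hb ha) (hlt he ha)
    refine le_trans ?_ h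
    apply Nat.cast_le.mpr
    apply card_le_card
    intro t ht
    rw [mem_filter] at ht ⊢
    obtain ⟨ht1, hN, h1, _, _, _⟩ := ht
    simp only at hN h1
    refine ⟨ht1, _, _, _, hN d (by simp) a (by simp), hN b (by simp) a (by simp),
      hN e (by simp) a (by simp), ?_⟩
    intro h5
    apply h1
    unfold dt
    linarith
  have hfin : ∀ y : ℝ, 12 * (c.M : ℝ) / ((m : ℝ) ^ 2 * y) = 12 * c.M / (m : ℝ) ^ 2 * (1 / y) := by
    intro y
    rw [div_mul_div_comm, mul_one]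
  unfold wt4
  rw [hfin] at R1 R2 R3 R4
  rcases max_choice (max |(p : ℝ)| |(q : ℝ)|) (max |(r : ℝ)| |(s : ℝ)|) with h | h
  · rw [h]
    rcases max_choice |(p : ℝ)| |(q : ℝ)| with h' | h'
    · rw [h']; exact R1
    · rw [h']; exact R2
  · rw [h]
    rcases max_choice |(r : ℝ)| |(s : ℝ)| with h' | h'
    · rw [h']; exact R3
    · rw [h']; exact R4

theorem sum_W {m L : ℕ} (hm0 : 0 < m) (hm : m ≤ c.n ^ 3) (hL : 3 * L < m) :
    ∑ t ∈ range c.M, ((c.W m L t).card : ℝ) ≤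
      12 * c.M / (m : ℝ) ^ 2 * ∑ p ∈ Iz L, ∑ q ∈ Iz L, ∑ r ∈ Iz L, ∑ s ∈ Iz L,
      (if p + q + r + s = 0 then Nq c.As p q r s * wt4 p q r s else 0) := by
  have hM := c.M_pos'
  have hm' : (0 : ℝ) < m := by exact_mod_cast hm0
  set IL := (Iz L ×ˢ Iz L) ×ˢ (Iz L ×ˢ Iz L) with hIL
  have h := avg_le (M := c.M) (c.W m L) ((c.As ×ˢ c.As) ×ˢ (c.As ×ˢ c.As)) (fun t => filter_subset _ _)
    (fun z => ∑ w ∈ IL, if w.1.1 + w.1.2 + w.2.1 + w.2.2 = 0 then
      (if w.1.1 * z.1.1 + w.1.2 * z.1.2 + w.2.1 * z.2.1 + w.2.2 * z.2.2 = 0 then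
      12 * c.M / (m : ℝ) ^ 2 * wt4 w.1.1 w.1.2 w.2.1 w.2.2 else 0) else 0) (by
    intro z hz
    have hnn : ∀ w : (ℤ × ℤ) × (ℤ × ℤ), 0 ≤ (if w.1.1 + w.1.2 + w.2.1 + w.2.2 = 0 then
      (if w.1.1 * z.1.1 + w.1.2 * z.1.2 + w.2.1 * z.2.1 + w.2.2 * z.2.2 = 0 then
      12 * c.M / (m : ℝ) ^ 2 * wt4 w.1.1 w.1.2 w.2.1 w.2.2 else 0) else 0) := by
      intro w
      split_ifs
      · exact mul_nonneg (by positivity) (wt4_nonneg _ _ _ _)
      · exact le_refl _
      · exact le_refl _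
    by_cases hex : ∃ w ∈ IL, Rel z w ∧ w.1.1 + w.1.2 + w.2.1 + w.2.2 = 0 ∧
      ∃ u v x : ℤ, u * w.1.1 + v * w.1.2 + x * w.2.1 = 1
    · obtain ⟨w, hw, hrel, hsum, hprim⟩ := hex
      have h1 := c.quad_role hm0 hm hL hz hw hrel hsum hprim
      refine le_trans ?_ (h1.trans ?_)
      · apply Nat.cast_le.mpr
        apply card_le_card
        intro t ht
        rw [mem_filter] at ht ⊢
        rw [W, mem_filter] at ht
        exact ⟨ht.1, ht.2.2.1⟩
      · have h2 := Finset.single_le_sum (f := fun w : (ℤ × ℤ) × (ℤ × ℤ) =>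
          (if w.1.1 + w.1.2 + w.2.1 + w.2.2 = 0 then
          (if w.1.1 * z.1.1 + w.1.2 * z.1.2 + w.2.1 * z.2.1 + w.2.2 * z.2.2 = 0 then
          12 * c.M / (m : ℝ) ^ 2 * wt4 w.1.1 w.1.2 w.2.1 w.2.2 else 0) else 0))
          (fun w _ => hnn w) hw
        refine le_trans (le_of_eq ?_) h2
        unfold Rel at hrel
        rw [if_pos hsum, if_pos hrel]
    · have : (range c.M).filter (fun t => z ∈ c.W m L t) = ∅ := by
        apply filter_false_of_mem
        intro t _ ht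
        rw [W, mem_filter] at ht
        exact hex ht.2.2
      rw [this]
      simp only [card_empty, Nat.cast_zero]
      exact sum_nonneg fun w _ => hnn w)
  refine h.trans (le_of_eq ?_)
  rw [sum_comm, hIL, Finset.sum_product, Finset.sum_product, mul_sum]
  refine sum_congr rfl fun p _ => ?_
  rw [mul_sum]
  refine sum_congr rfl fun q _ => ?_
  rw [Finset.sum_product, mul_sum]
  refine sum_congr rfl fun r _ => ?_
  rw [mul_sum]
  refine sum_congr rfl fun s _ => ?_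
  simp only
  by_cases hs : p + q + r + s = 0
  · simp only [if_pos hs]
    rw [← Finset.sum_filter, sum_const, nsmul_eq_mul]
    unfold Nq
    ring
  · simp only [if_neg hs]
    simp

end Ctx

end Pool.Agent.MP_741d1b.H87
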