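import Mathlib
import Pool.Agent.Lib.MP_741d1b_nt_h87.T3Core1

/-! The core argument: popular differences, common neighbours, collisions. -/

set_option autoImplicit false

namespace Pool.Agent.MP_741d1b.H87

open Finset Classical
open scoped Pointwise

namespace Ctx

variable (c : Ctx)

theorem sum_r_le (D : Finset ℤ) : ∑ v ∈ D, c.r v ≤ (c.n : ℝ) ^ 2 := by
  have h := sum_card_S_le c.As D
  have h1 : ∑ v ∈ D, c.r v = ((∑ x ∈ D, (S c.As x).card : ℕ) : ℝ) := by
    push_cast; rfl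
  rw [h1]
  calc ((∑ x ∈ D, (S c.As x).card : ℕ) : ℝ) ≤ ((c.As.card ^ 2 : ℕ) : ℝ) := by exact_mod_cast h
    _ = (c.As.card : ℝ) ^ 2 := by push_cast; ring
    _ ≤ (c.n : ℝ) ^ 2 := by
        have : (c.As.card : ℝ) ≤ c.n := by exact_mod_cast c.As_card
        gcongr

/-- Step A: popular differences carry the energy. -/
theorem popular (E S3 τ : ℝ) (hE0 : 0 ≤ E) (hE : E ≤ En c.As) (hτ : 0 < τ)
    (hτE : τ * (c.n : ℝ) ^ 2 ≤ E / 2)
    (hS3 : ∀ V : Finset ℤ, ∑ v ∈ V, c.r v ^ 3 ≤ S3) :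
    ∃ D : Finset ℤ, D ⊆ c.As - c.As ∧ (D.card : ℝ) * τ ≤ (c.n : ℝ) ^ 2 ∧
      (E / 2) ^ 2 ≤ (∑ v ∈ D, c.r v) * S3 := by
  refine ⟨(c.As - c.As).filter (fun v => τ ≤ c.r v), filter_subset _ _, ?_, ?_⟩
  · have h1 : (((c.As - c.As).filter (fun v => τ ≤ c.r v)).card : ℝ) * τ ≤
        ∑ v ∈ (c.As - c.As).filter (fun v => τ ≤ c.r v), c.r v := by
      rw [← nsmul_eq_mul, ← sum_const]
      exact sum_le_sum fun v hv => (mem_filter.mp hv).2
    exact h1.trans (c.sum_r_le _)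
  · set D := (c.As - c.As).filter (fun v => τ ≤ c.r v) with hD
    have h1 : En c.As = ∑ v ∈ D, c.r v ^ 2 +
        ∑ v ∈ (c.As - c.As).filter (fun v => ¬ τ ≤ c.r v), c.r v ^ 2 := by
      rw [hD, Finset.sum_filter_add_sum_filter_not]
      rfl
    have h2 : ∑ v ∈ (c.As - c.As).filter (fun v => ¬ τ ≤ c.r v), c.r v ^ 2 ≤
        τ * (c.n : ℝ) ^ 2 := by
      calc ∑ v ∈ (c.As - c.As).filter (fun v => ¬ τ ≤ c.r v), c.r v ^ 2 ≤
          ∑ v ∈ (c.As - c.As).filter (fun v => ¬ τ ≤ c.r v), τ * c.r v := by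
            refine sum_le_sum fun v hv => ?_
            have h3 := (mem_filter.mp hv).2
            push Not at h3
            have := c.r_nonneg v
            nlinarith
        _ = τ * ∑ v ∈ (c.As - c.As).filter (fun v => ¬ τ ≤ c.r v), c.r v := by rw [mul_sum]
        _ ≤ _ := mul_le_mul_of_nonneg_left (c.sum_r_le _) hτ.le
    have h3 : E / 2 ≤ ∑ v ∈ D, c.r v ^ 2 := by linarith
    have h4 : (∑ v ∈ D, c.r v ^ 2) ^ 2 ≤ (∑ v ∈ D, c.r v) * ∑ v ∈ D, c.r v ^ 3 := by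
      apply Finset.sum_sq_le_sum_mul_sum_of_sq_le_mul
      · intro v _; exact c.r_nonneg v
      · intro v _; exact pow_nonneg (c.r_nonneg v) 3
      · intro v _; exact le_of_eq (by ring)
    calc (E / 2) ^ 2 ≤ (∑ v ∈ D, c.r v ^ 2) ^ 2 := pow_le_pow_left₀ (by linarith) h3 2
      _ ≤ _ := h4
      _ ≤ _ := mul_le_mul_of_nonneg_left (hS3 D) (sum_nonneg fun v _ => c.r_nonneg v)

/-- Neighbours in the graph of popular differences. -/
noncomputable def nb (D : Finset ℤ) (a : ℤ) : Finset ℤ := c.As.filter (fun b => a - b ∈ D)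

theorem nb_sub (D : Finset ℤ) (a : ℤ) : c.nb D a ⊆ c.As := filter_subset _ _

theorem mem_nb {D : Finset ℤ} {a b : ℤ} : b ∈ c.nb D a ↔ b ∈ c.As ∧ a - b ∈ D := by
  rw [nb, mem_filter]

theorem second_moment (S' : Finset ℤ) (hS : S' ⊆ c.As) :
    c.M * ((S'.card : ℝ) * (c.K / (2 * c.n))) ^ 2 ≤
      ∑ t ∈ range c.M, ((c.C t ∩ S').card : ℝ) ^ 2 := by
  have h1 := c.first_moment S' hS
  have hn := c.n_pos'
  have hM := c.M_pos'
  have h2 := pow_sum_div_card_le_sum_pow (s := range c.M)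
    (f := fun t => ((c.C t ∩ S').card : ℝ)) (fun t _ => Nat.cast_nonneg _) 1
  rw [card_range] at h2
  refine le_trans ?_ h2
  rw [le_div_iff₀ (by positivity)]
  have h3 : ((S'.card : ℝ) * (c.M * c.K / (2 * c.n))) ^ (1 + 1) ≤
      (∑ t ∈ range c.M, ((c.C t ∩ S').card : ℝ)) ^ (1 + 1) :=
    pow_le_pow_left₀ (by positivity) h1 _
  refine le_trans (le_of_eq ?_) h3
  ring

/-- The number of pairs of typical elements with difference in `D`. -/
theorem sum_T (D : Finset ℤ) :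
    ∑ b ∈ c.As, ((c.As.filter (fun a => a - b ∈ D)).card : ℝ) = ∑ v ∈ D, c.r v := by
  have h1 : ∑ b ∈ c.As, ((c.As.filter (fun a => a - b ∈ D)).card : ℝ) =
      (((c.As ×ˢ c.As).filter (fun z => z.1 - z.2 ∈ D)).card : ℝ) := by
    rw [card_filter, Finset.sum_product_right]
    push_cast
    refine sum_congr rfl fun b _ => ?_
    rw [card_filter]
    push_cast
    rfl
  have h2 : ((c.As ×ˢ c.As).filter (fun z => z.1 - z.2 ∈ D)).card =
      ∑ v ∈ D, (((c.As ×ˢ c.As).filter (fun z => z.1 - z.2 ∈ D)).filter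
        (fun z => z.1 - z.2 = v)).card := by
    apply card_eq_sum_card_fiberwise
    intro z hz
    exact (mem_filter.mp hz).2
  rw [h1, h2]
  push_cast
  refine sum_congr rfl fun v hv => ?_
  unfold r
  norm_cast
  refine Finset.card_nbij' (fun z => z.1) (fun a => (a, a - v)) ?_ ?_ ?_ ?_
  · rintro ⟨a, b⟩ hz
    have hz' : (a, b) ∈ ((c.As ×ˢ c.As).filter (fun z => z.1 - z.2 ∈ D)).filter
        (fun z => z.1 - z.2 = v) := hz
    rw [mem_filter, mem_filter, mem_product] at hz'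
    obtain ⟨⟨⟨ha, hb⟩, _⟩, hv'⟩ := hz'
    simp only at ha hb hv'
    have : a ∈ S c.As v := by
      rw [S, mem_filter]
      refine ⟨ha, ?_⟩
      rw [← hv']
      simpa using hb
    exact this
  · intro a ha
    have ha' : a ∈ S c.As v := ha
    rw [S, mem_filter] at ha'
    have : (a, a - v) ∈ ((c.As ×ˢ c.As).filter (fun z => z.1 - z.2 ∈ D)).filter
        (fun z => z.1 - z.2 = v) := by
      rw [mem_filter, mem_filter, mem_product]
      refine ⟨⟨ha', ?_⟩, ?_⟩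
      · simpa using hv
      · simp
    exact this
  · rintro ⟨a, b⟩ hz
    have hz' : (a, b) ∈ ((c.As ×ˢ c.As).filter (fun z => z.1 - z.2 ∈ D)).filter
        (fun z => z.1 - z.2 = v) := hz
    have h3 := (mem_filter.mp hz').2
    simp only at h3 ⊢
    rw [← h3]; simp
  · intro a _
    rfl

/-- Step B: common neighbours of pairs of elements of a cluster. -/
theorem codeg_sum (D : Finset ℤ) :
    (c.M : ℝ) * ((c.K / (2 * c.n)) ^ 2 * (∑ v ∈ D, c.r v) ^ 2 / c.n) ≤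
      ∑ t ∈ range c.M, ∑ a ∈ c.C t ∩ c.As, ∑ a' ∈ c.C t ∩ c.As,
        ((c.nb D a ∩ c.nb D a').card : ℝ) := by
  have hn := c.n_pos'
  have hM := c.M_pos'
  have e1 : ∀ t ∈ range c.M, ∑ a ∈ c.C t ∩ c.As, ∑ a' ∈ c.C t ∩ c.As,
      ((c.nb D a ∩ c.nb D a').card : ℝ) =
      ∑ b ∈ c.As, ((c.C t ∩ c.As.filter (fun a => a - b ∈ D)).card : ℝ) ^ 2 := by
    intro t _
    have e2 : ∀ a a' : ℤ, ((c.nb D a ∩ c.nb D a').card : ℝ) =
        ∑ b ∈ c.As, (if a - b ∈ D then (1 : ℝ) else 0) * (if a' - b ∈ D then (1 : ℝ) else 0) := by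
      intro a a'
      rw [nb, nb, ← Finset.filter_and, card_filter]
      push_cast
      refine sum_congr rfl fun b _ => ?_
      by_cases h1 : a - b ∈ D <;> by_cases h2 : a' - b ∈ D <;> simp [h1, h2]
    have e3 : ∀ b : ℤ, ((c.C t ∩ c.As.filter (fun a => a - b ∈ D)).card : ℝ) =
        ∑ a ∈ c.C t ∩ c.As, if a - b ∈ D then (1 : ℝ) else 0 := by
      intro b
      have : c.C t ∩ c.As.filter (fun a => a - b ∈ D) =
          (c.C t ∩ c.As).filter (fun a => a - b ∈ D) := by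
        ext a
        simp only [mem_inter, mem_filter]
        tauto
      rw [this, card_filter]
      push_cast; rfl
    calc ∑ a ∈ c.C t ∩ c.As, ∑ a' ∈ c.C t ∩ c.As, ((c.nb D a ∩ c.nb D a').card : ℝ) =
        ∑ a ∈ c.C t ∩ c.As, ∑ a' ∈ c.C t ∩ c.As, ∑ b ∈ c.As,
          (if a - b ∈ D then (1 : ℝ) else 0) * (if a' - b ∈ D then (1 : ℝ) else 0) :=
          sum_congr rfl fun a _ => sum_congr rfl fun a' _ => e2 a a'
      _ = ∑ a ∈ c.C t ∩ c.As, ∑ b ∈ c.As, ∑ a' ∈ c.C t ∩ c.As,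
          (if a - b ∈ D then (1 : ℝ) else 0) * (if a' - b ∈ D then (1 : ℝ) else 0) :=
          sum_congr rfl fun a _ => sum_comm
      _ = ∑ b ∈ c.As, ∑ a ∈ c.C t ∩ c.As, ∑ a' ∈ c.C t ∩ c.As,
          (if a - b ∈ D then (1 : ℝ) else 0) * (if a' - b ∈ D then (1 : ℝ) else 0) := sum_comm
      _ = _ := by
          refine sum_congr rfl fun b _ => ?_
          rw [e3 b, sq, Finset.sum_mul_sum]
  rw [sum_congr rfl e1, sum_comm]
  have h1 : ∀ b ∈ c.As, (c.M : ℝ) * (((c.As.filter (fun a => a - b ∈ D)).card : ℝ) *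
      (c.K / (2 * c.n))) ^ 2 ≤
      ∑ t ∈ range c.M, ((c.C t ∩ c.As.filter (fun a => a - b ∈ D)).card : ℝ) ^ 2 :=
    fun b _ => c.second_moment _ (filter_subset _ _)
  refine le_trans ?_ (sum_le_sum h1)
  rw [← mul_sum]
  apply mul_le_mul_of_nonneg_left _ hM.le
  have h2 : (∑ v ∈ D, c.r v) ^ 2 ≤ c.n * ∑ b ∈ c.As,
      ((c.As.filter (fun a => a - b ∈ D)).card : ℝ) ^ 2 := by
    rw [← c.sum_T D]
    have h3 := sq_sum_le_card_mul_sum_sq (s := c.As)
      (f := fun b => ((c.As.filter (fun a => a - b ∈ D)).card : ℝ))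
    refine h3.trans ?_
    apply mul_le_mul_of_nonneg_right
    · exact_mod_cast c.As_card
    · exact sum_nonneg fun b _ => sq_nonneg _
  have h4 : ∑ b ∈ c.As, (((c.As.filter (fun a => a - b ∈ D)).card : ℝ) *
      (c.K / (2 * c.n))) ^ 2 = (c.K / (2 * c.n)) ^ 2 * ∑ b ∈ c.As,
      ((c.As.filter (fun a => a - b ∈ D)).card : ℝ) ^ 2 := by
    rw [mul_sum]
    refine sum_congr rfl fun b _ => ?_
    rw [mul_pow]; ring
  rw [h4, mul_div_assoc]
  apply mul_le_mul_of_nonneg_left _ (by positivity)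
  rw [div_le_iff₀ hn]
  linarith

/-- Step C: good pairs. -/
theorem good_pairs (D Dp : Finset ℤ) (G κ H : ℝ) (hG : (c.M : ℝ) * G ≤
      ∑ t ∈ range c.M, ∑ a ∈ c.C t ∩ c.As, ∑ a' ∈ c.C t ∩ c.As,
        ((c.nb D a ∩ c.nb D a').card : ℝ))
    (hκ0 : 0 ≤ κ) (hκ : (c.K : ℝ) ^ 2 * κ ≤ G / 8) (hdiag : (c.K : ℝ) * c.n ≤ G / 8)
    (hH : ∑ t ∈ range c.M, ∑ x ∈ Dp, ((S (c.C t) x).card : ℝ) ≤ c.M * H)
    (hH2 : c.n * H ≤ G / 4) :
    ∃ P : Finset (ℤ × ℤ), (∀ z ∈ P, z.1 ∈ c.As ∧ z.2 ∈ c.As ∧ z.1 ≠ z.2 ∧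
      κ ≤ ((c.nb D z.1 ∩ c.nb D z.2).card : ℝ) ∧ z.1 - z.2 ∉ Dp) ∧
      c.K * G ≤ 2 * P.card * c.D1 := by
  have hn := c.n_pos'
  have hM := c.M_pos'
  set cd : ℤ × ℤ → ℝ := fun z => ((c.nb D z.1 ∩ c.nb D z.2).card : ℝ) with hcd
  have hcd0 : ∀ z, 0 ≤ cd z := fun z => Nat.cast_nonneg _
  have hcdn : ∀ z, cd z ≤ c.n := by
    intro z
    have : (c.nb D z.1 ∩ c.nb D z.2).card ≤ c.n :=
      (card_le_card (inter_subset_left.trans (c.nb_sub D z.1))).trans c.As_card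
    show ((c.nb D z.1 ∩ c.nb D z.2).card : ℝ) ≤ c.n
    exact_mod_cast this
  set P : Finset (ℤ × ℤ) := (c.As ×ˢ c.As).filter (fun z => z.1 ≠ z.2 ∧ κ ≤ cd z ∧
    z.1 - z.2 ∉ Dp) with hP
  refine ⟨P, ?_, ?_⟩
  · intro z hz
    rw [hP, mem_filter, mem_product] at hz
    exact ⟨hz.1.1, hz.1.2, hz.2.1, hz.2.2.1, hz.2.2.2⟩
  · have hbd : ∀ t ∈ range c.M, ∑ a ∈ c.C t ∩ c.As, ∑ a' ∈ c.C t ∩ c.As,
        ((c.nb D a ∩ c.nb D a').card : ℝ) ≤
        c.n * (((c.C t ×ˢ c.C t) ∩ P).card : ℝ) + (c.K : ℝ) * c.n + (c.K : ℝ) ^ 2 * κ +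
          c.n * ∑ x ∈ Dp, ((S (c.C t) x).card : ℝ) := by
      intro t _
      set W := (c.C t ∩ c.As) ×ˢ (c.C t ∩ c.As) with hW
      have e1 : ∑ a ∈ c.C t ∩ c.As, ∑ a' ∈ c.C t ∩ c.As,
        ((c.nb D a ∩ c.nb D a').card : ℝ) = ∑ z ∈ W, cd z := by
        rw [hW, Finset.sum_product]
      rw [e1]
      have h1 : ∀ z ∈ W, cd z ≤ (if z ∈ P then (c.n : ℝ) else 0) +
          (if z.1 = z.2 then (c.n : ℝ) else 0) + κ +
          (if z.1 - z.2 ∈ Dp then (c.n : ℝ) else 0) := by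
        intro z hz
        rw [hW, mem_product, mem_inter, mem_inter] at hz
        have h0 := hcdn z
        have h00 := hcd0 z
        by_cases ha : z.1 = z.2
        · rw [if_pos ha]
          have : (0 : ℝ) ≤ (if z ∈ P then (c.n : ℝ) else 0) := by split_ifs <;> positivity
          have : (0 : ℝ) ≤ (if z.1 - z.2 ∈ Dp then (c.n : ℝ) else 0) := by
            split_ifs <;> positivity
          linarith
        · by_cases hb : z.1 - z.2 ∈ Dp
          · rw [if_pos hb]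
            have : (0 : ℝ) ≤ (if z ∈ P then (c.n : ℝ) else 0) := by split_ifs <;> positivity
            have : (0 : ℝ) ≤ (if z.1 = z.2 then (c.n : ℝ) else 0) := by
              split_ifs <;> positivity
            linarith
          · by_cases hc : κ ≤ cd z
            · have : z ∈ P := by
                rw [hP, mem_filter, mem_product]
                exact ⟨⟨hz.1.2, hz.2.2⟩, ha, hc, hb⟩
              rw [if_pos this, if_neg ha, if_neg hb]
              linarith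
            · push Not at hc
              have : (0 : ℝ) ≤ (if z ∈ P then (c.n : ℝ) else 0) := by split_ifs <;> positivity
              have : (0 : ℝ) ≤ (if z.1 - z.2 ∈ Dp then (c.n : ℝ) else 0) := by
                split_ifs <;> positivity
              have : (0 : ℝ) ≤ (if z.1 = z.2 then (c.n : ℝ) else 0) := by
                split_ifs <;> positivity
              linarith
      refine (sum_le_sum h1).trans ?_
      rw [sum_add_distrib, sum_add_distrib, sum_add_distrib]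
      have hWsub : W ⊆ c.C t ×ˢ c.C t := product_subset_product inter_subset_left inter_subset_left
      have k1 : ∑ z ∈ W, (if z ∈ P then (c.n : ℝ) else 0) ≤
          c.n * (((c.C t ×ˢ c.C t) ∩ P).card : ℝ) := by
        rw [← Finset.sum_filter, Finset.filter_mem_eq_inter, sum_const, nsmul_eq_mul, mul_comm]
        apply mul_le_mul_of_nonneg_left _ hn.le
        exact_mod_cast card_le_card (inter_subset_inter_right hWsub)
      have k2 : ∑ z ∈ W, (if z.1 = z.2 then (c.n : ℝ) else 0) ≤ (c.K : ℝ) * c.n := by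
        rw [hW, Finset.sum_product]
        calc ∑ a ∈ c.C t ∩ c.As, ∑ a' ∈ c.C t ∩ c.As, (if a = a' then (c.n : ℝ) else 0) ≤
            ∑ a ∈ c.C t ∩ c.As, (c.n : ℝ) := by
              refine sum_le_sum fun a ha => ?_
              rw [Finset.sum_ite_eq, if_pos ha]
          _ = ((c.C t ∩ c.As).card : ℝ) * c.n := by rw [sum_const, nsmul_eq_mul]
          _ ≤ (c.K : ℝ) * c.n := by
              apply mul_le_mul_of_nonneg_right _ hn.le
              rw [← c.hCK t]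
              exact_mod_cast card_le_card inter_subset_left
      have k3 : ∑ z ∈ W, κ ≤ (c.K : ℝ) ^ 2 * κ := by
        rw [sum_const, nsmul_eq_mul]
        apply mul_le_mul_of_nonneg_right _ hκ0
        have : W.card ≤ c.K * c.K := by
          calc W.card ≤ (c.C t ×ˢ c.C t).card := card_le_card hWsub
            _ = c.K * c.K := by rw [card_product, c.hCK t]
        calc (W.card : ℝ) ≤ ((c.K * c.K : ℕ) : ℝ) := by exact_mod_cast this
          _ = (c.K : ℝ) ^ 2 := by push_cast; ring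
      have k4 : ∑ z ∈ W, (if z.1 - z.2 ∈ Dp then (c.n : ℝ) else 0) ≤
          c.n * ∑ x ∈ Dp, ((S (c.C t) x).card : ℝ) := by
        rw [← Finset.sum_filter, sum_const, nsmul_eq_mul, mul_comm]
        apply mul_le_mul_of_nonneg_left _ hn.le
        have h5 : (W.filter (fun z => z.1 - z.2 ∈ Dp)).card =
            ∑ x ∈ Dp, ((W.filter (fun z => z.1 - z.2 ∈ Dp)).filter
              (fun z => z.1 - z.2 = x)).card := by
          apply card_eq_sum_card_fiberwise
          intro z hz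
          exact (mem_filter.mp hz).2
        rw [h5]
        push_cast
        refine sum_le_sum fun x _ => ?_
        norm_cast
        refine Finset.card_le_card_of_injOn (fun z => z.1) ?_ ?_
        · rintro ⟨a, b⟩ hz
          have hz' : (a, b) ∈ (W.filter (fun z => z.1 - z.2 ∈ Dp)).filter
              (fun z => z.1 - z.2 = x) := hz
          rw [mem_filter, mem_filter, hW, mem_product, mem_inter, mem_inter] at hz'
          obtain ⟨⟨⟨⟨ha, _⟩, hb, _⟩, _⟩, hx⟩ := hz'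
          simp only at ha hb hx
          have : a ∈ S (c.C t) x := by
            rw [S, mem_filter]
            refine ⟨ha, ?_⟩
            rw [← hx]; simpa using hb
          exact this
        · rintro ⟨a, b⟩ hz ⟨a', b'⟩ hz2 h
          have hz' : (a, b) ∈ (W.filter (fun z => z.1 - z.2 ∈ Dp)).filter
              (fun z => z.1 - z.2 = x) := hz
          have hz2' : (a', b') ∈ (W.filter (fun z => z.1 - z.2 ∈ Dp)).filter
              (fun z => z.1 - z.2 = x) := hz2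
          have h6 := (mem_filter.mp hz').2
          have h7 := (mem_filter.mp hz2').2
          simp only at h h6 h7
          subst h
          have : b = b' := by linarith
          rw [this]
      linarith
    have h2 := hG.trans (sum_le_sum hbd)
    rw [sum_add_distrib, sum_add_distrib, sum_add_distrib, sum_const, sum_const, card_range,
      nsmul_eq_mul, nsmul_eq_mul, ← mul_sum, ← mul_sum] at h2
    have h3 := c.sparse P (by
      intro z hz
      rw [hP, mem_filter, mem_product] at hz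
      exact ⟨c.As_sub hz.1.1, c.As_sub hz.1.2, hz.2.1⟩)
    set Sg := ∑ t ∈ range c.M, (((c.C t ×ˢ c.C t) ∩ P).card : ℝ) with hSg
    have h4 : (c.n : ℝ) * ∑ t ∈ range c.M, ∑ x ∈ Dp, ((S (c.C t) x).card : ℝ) ≤
        c.M * (G / 4) := by
      calc (c.n : ℝ) * ∑ t ∈ range c.M, ∑ x ∈ Dp, ((S (c.C t) x).card : ℝ) ≤
          c.n * (c.M * H) := mul_le_mul_of_nonneg_left hH hn.le
        _ = c.M * (c.n * H) := by ring
        _ ≤ c.M * (G / 4) := mul_le_mul_of_nonneg_left hH2 hM.le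
    have h5 : (c.M : ℝ) * (c.K * c.n) ≤ c.M * (G / 8) := mul_le_mul_of_nonneg_left hdiag hM.le
    have h6 : (c.M : ℝ) * ((c.K : ℝ) ^ 2 * κ) ≤ c.M * (G / 8) :=
      mul_le_mul_of_nonneg_left hκ hM.le
    have h7 : (c.M : ℝ) * G / 2 ≤ c.n * Sg := by linarith
    have h8 : (c.K : ℝ) * (c.M * G / 2) ≤ c.n * (P.card * ((c.M : ℝ) / c.n * c.D1)) := by
      calc (c.K : ℝ) * (c.M * G / 2) ≤ c.K * (c.n * Sg) :=
            mul_le_mul_of_nonneg_left h7 (Nat.cast_nonneg _)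
        _ = c.n * (c.K * Sg) := by ring
        _ ≤ _ := mul_le_mul_of_nonneg_left h3 hn.le
    have h9 : c.n * (P.card * ((c.M : ℝ) / c.n * c.D1)) = c.M * (P.card * c.D1) := by
      field_simp
    rw [h9] at h8
    have h10 : (c.M : ℝ) * (c.K * G) ≤ c.M * (2 * P.card * c.D1) := by linarith
    exact le_of_mul_le_mul_left h10 hM

/-- Translates by `v` of pairs in `P`. -/
noncomputable def qq (P : Finset (ℤ × ℤ)) (v : ℤ) : ℝ :=
  ((P.filter (fun z => (z.1 - v, z.2 - v) ∈ P)).card : ℝ)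

theorem qq_nonneg (P : Finset (ℤ × ℤ)) (v : ℤ) : 0 ≤ qq P v := Nat.cast_nonneg _

/-- Step D: collisions. -/
theorem collisions (D : Finset ℤ) (P : Finset (ℤ × ℤ)) (κ : ℝ) (hκ : 0 ≤ κ)
    (hP : ∀ z ∈ P, z.1 ∈ c.As ∧ z.2 ∈ c.As ∧ κ ≤ ((c.nb D z.1 ∩ c.nb D z.2).card : ℝ)) :
    ((P.card : ℝ) * κ) ^ 2 ≤ (D.card : ℝ) ^ 2 * ∑ v ∈ c.As - c.As, qq P v * c.r v := by
  set Z : Finset ((ℤ × ℤ) × ℤ) := (P ×ˢ c.As).filter
    (fun y => y.2 ∈ c.nb D y.1.1 ∩ c.nb D y.1.2) with hZ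
  set φ : (ℤ × ℤ) × ℤ → ℤ × ℤ := fun y => (y.1.1 - y.2, y.1.2 - y.2) with hφ
  have hZc : (P.card : ℝ) * κ ≤ Z.card := by
    have h1 : Z.card = ∑ z ∈ P, (c.nb D z.1 ∩ c.nb D z.2).card := by
      rw [hZ, card_filter, Finset.sum_product]
      refine sum_congr rfl fun z _ => ?_
      rw [← card_filter]
      congr 1
      ext b
      simp only [mem_filter, mem_inter]
      constructor
      · rintro ⟨_, h⟩; exact h
      · intro h; exact ⟨c.nb_sub D _ h.1, h⟩
    rw [h1]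
    push_cast
    rw [← nsmul_eq_mul, ← sum_const]
    exact sum_le_sum fun z hz => (hP z hz).2.2
  have hmaps : ∀ y ∈ Z, φ y ∈ D ×ˢ D := by
    intro y hy
    rw [hZ, mem_filter, mem_inter] at hy
    rw [mem_product]
    exact ⟨(c.mem_nb.mp hy.2.1).2, (c.mem_nb.mp hy.2.2).2⟩
  have h2 : Z.card = ∑ y ∈ D ×ˢ D, (Z.filter (fun z => φ z = y)).card :=
    card_eq_sum_card_fiberwise hmaps
  have h3 : (Z.card : ℝ) ^ 2 ≤ (D.card : ℝ) ^ 2 *
      ∑ y ∈ D ×ˢ D, ((Z.filter (fun z => φ z = y)).card : ℝ) ^ 2 := by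
    have h4 := sq_sum_le_card_mul_sum_sq (s := D ×ˢ D)
      (f := fun y => ((Z.filter (fun z => φ z = y)).card : ℝ))
    rw [card_product] at h4
    push_cast at h4
    rw [h2]
    push_cast
    rw [sq (D.card : ℝ)]
    exact h4
  have h5 : ∑ y ∈ D ×ˢ D, ((Z.filter (fun z => φ z = y)).card : ℝ) ^ 2 =
      (((Z ×ˢ Z).filter (fun w => φ w.1 = φ w.2)).card : ℝ) := by
    have h6 : ((Z ×ˢ Z).filter (fun w => φ w.1 = φ w.2)).card =
        ∑ y ∈ D ×ˢ D, (((Z ×ˢ Z).filter (fun w => φ w.1 = φ w.2)).filter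
          (fun w => φ w.1 = y)).card := by
      apply card_eq_sum_card_fiberwise
      intro w hw
      have hw' : w ∈ (Z ×ˢ Z).filter (fun w => φ w.1 = φ w.2) := hw
      rw [mem_filter, mem_product] at hw'
      exact hmaps _ hw'.1.1
    rw [h6]
    push_cast
    refine sum_congr rfl fun y _ => ?_
    rw [sq]
    norm_cast
    rw [← card_product]
    congr 1
    ext w
    simp only [mem_filter, mem_product]
    constructor
    · rintro ⟨⟨h1, h2⟩, h3, h4⟩
      exact ⟨⟨⟨h1, h3⟩, by rw [h2, h4]⟩, h2⟩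
    · rintro ⟨⟨⟨h1, h3⟩, h4⟩, h2⟩
      exact ⟨⟨h1, h2⟩, h3, by rw [← h4, h2]⟩
  have h7 : (((Z ×ˢ Z).filter (fun w => φ w.1 = φ w.2)).card : ℝ) ≤
      ∑ v ∈ c.As - c.As, qq P v * c.r v := by
    set T : Finset (Σ _ : ℤ, (ℤ × ℤ) × ℤ) := (c.As - c.As).sigma (fun v =>
      (P.filter (fun z => (z.1 - v, z.2 - v) ∈ P)) ×ˢ S c.As v) with hT
    have hTc : (T.card : ℝ) = ∑ v ∈ c.As - c.As, qq P v * c.r v := by
      rw [hT, card_sigma]
      push_cast
      refine sum_congr rfl fun v _ => ?_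
      rw [card_product]
      push_cast
      rfl
    rw [← hTc]
    norm_cast
    refine Finset.card_le_card_of_injOn
      (fun w => (⟨w.1.1.1 - w.2.1.1, (w.1.1, w.1.2)⟩ : Σ _ : ℤ, (ℤ × ℤ) × ℤ)) ?_ ?_
    · rintro ⟨⟨⟨a, d⟩, b⟩, ⟨⟨a', d'⟩, b'⟩⟩ hw
      have hw' : (((a, d), b), ((a', d'), b')) ∈ (Z ×ˢ Z).filter (fun w => φ w.1 = φ w.2) := hw
      rw [mem_filter, mem_product, hZ, mem_filter, mem_filter, mem_product, mem_product] at hw'
      obtain ⟨⟨⟨⟨hz, hb⟩, hb2⟩, ⟨hz', hb'⟩, hb2'⟩, he⟩ := hw'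
      rw [hφ] at he
      simp only [Prod.mk.injEq] at hz hb hb2 hz' hb' hb2' he
      obtain ⟨he1, he2⟩ := he
      have ha := (hP _ hz).1
      have ha' := (hP _ hz').1
      simp only at ha ha'
      have : (⟨a - a', ((a, d), b)⟩ : Σ _ : ℤ, (ℤ × ℤ) × ℤ) ∈ T := by
        rw [hT, mem_sigma, mem_product, mem_filter, S, mem_filter]
        refine ⟨sub_mem_sub ha ha', ⟨hz, ?_⟩, hb, ?_⟩
        · have e1 : a - (a - a') = a' := by ring
          have e2 : d - (a - a') = d' := by linarith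
          simp only [e1, e2]
          exact hz'
        · have e3 : b - (a - a') = b' := by linarith
          simp only [e3]
          exact hb'
      exact this
    · rintro ⟨⟨⟨a, d⟩, b⟩, ⟨⟨a', d'⟩, b'⟩⟩ hw ⟨⟨⟨a1, d1⟩, b1⟩, ⟨⟨a1', d1'⟩, b1'⟩⟩ hw1 h
      have hw' : (((a, d), b), ((a', d'), b')) ∈ (Z ×ˢ Z).filter (fun w => φ w.1 = φ w.2) := hw
      have hw1' : (((a1, d1), b1), ((a1', d1'), b1')) ∈
        (Z ×ˢ Z).filter (fun w => φ w.1 = φ w.2) := hw1
      have e1 := (mem_filter.mp hw').2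
      have e2 := (mem_filter.mp hw1').2
      rw [hφ] at e1 e2
      simp only [Prod.mk.injEq] at e1 e2
      simp only [Sigma.mk.injEq, heq_eq_eq, Prod.mk.injEq] at h
      obtain ⟨h1, ⟨h2, h3⟩, h4⟩ := h
      subst h2 h3 h4
      have f1 : a' = a1' := by linarith
      have f2 : b' = b1' := by linarith [e1.1, e2.1]
      have f3 : d' = d1' := by linarith [e1.2, e2.2]
      subst f1 f2 f3
      rfl
  calc ((P.card : ℝ) * κ) ^ 2 ≤ (Z.card : ℝ) ^ 2 := pow_le_pow_left₀ (by positivity) hZc 2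
    _ ≤ _ := h3
    _ ≤ _ := by
        apply mul_le_mul_of_nonneg_left _ (by positivity)
        rw [h5]
        exact h7

/-- The total number of translates. -/
theorem sum_qq (P : Finset (ℤ × ℤ)) (R : ℝ)
    (hP : ∀ z ∈ P, z.1 ∈ c.As ∧ z.2 ∈ c.As ∧ c.r (z.1 - z.2) ≤ R) (V : Finset ℤ) :
    ∑ v ∈ V, qq P v ≤ R * P.card := by
  set T : Finset (Σ _ : ℤ, ℤ × ℤ) := V.sigma (fun v =>
      P.filter (fun z => (z.1 - v, z.2 - v) ∈ P)) with hT
  have hTc : (T.card : ℝ) = ∑ v ∈ V, qq P v := by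
    rw [hT, card_sigma]
    push_cast
    rfl
  set T2 : Finset (Σ _ : ℤ × ℤ, ℤ) := P.sigma (fun z => S c.As (z.1 - z.2)) with hT2
  have h1 : T.card ≤ T2.card := by
    refine Finset.card_le_card_of_injOn
      (fun w => (⟨w.2, w.2.1 - w.1⟩ : Σ _ : ℤ × ℤ, ℤ)) ?_ ?_
    · rintro ⟨v, a, d⟩ hw
      have hw' : (⟨v, a, d⟩ : Σ _ : ℤ, ℤ × ℤ) ∈ T := hw
      rw [hT, mem_sigma, mem_filter] at hw'
      obtain ⟨_, hz, hz'⟩ := hw'
      have hz2 : (a - v, d - v) ∈ P := hz'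
      have h2 := hP _ hz2
      have : (⟨(a, d), a - v⟩ : Σ _ : ℤ × ℤ, ℤ) ∈ T2 := by
        rw [hT2, mem_sigma, S, mem_filter]
        refine ⟨hz, h2.1, ?_⟩
        have e : a - v - (a - d) = d - v := by ring
        simp only [e]
        exact h2.2.1
      exact this
    · rintro ⟨v, a, d⟩ _ ⟨v', a', d'⟩ _ h
      simp only [Sigma.mk.injEq, heq_eq_eq, Prod.mk.injEq] at h
      obtain ⟨⟨h1, h2⟩, h3⟩ := h
      subst h1 h2
      have : v = v' := by linarith
      rw [this]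
  rw [← hTc]
  calc (T.card : ℝ) ≤ (T2.card : ℝ) := by exact_mod_cast h1
    _ = ∑ z ∈ P, c.r (z.1 - z.2) := by
        rw [hT2, card_sigma]; push_cast; rfl
    _ ≤ ∑ z ∈ P, R := sum_le_sum fun z hz => (hP z hz).2.2
    _ = R * P.card := by rw [sum_const, nsmul_eq_mul]; ring

theorem qq_le (P : Finset (ℤ × ℤ)) (hP : ∀ z ∈ P, z.1 ∈ c.As ∧ z.2 ∈ c.As) (v : ℤ) :
    qq P v ≤ c.r v ^ 2 := by
  unfold qq r
  have h : (P.filter (fun z => (z.1 - v, z.2 - v) ∈ P)).card ≤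
      (S c.As v ×ˢ S c.As v).card := by
    apply card_le_card
    intro z hz
    rw [mem_filter] at hz
    have h1 := hP _ hz.1
    have h2 := hP _ hz.2
    rw [mem_product, S, mem_filter, mem_filter]
    exact ⟨⟨h1.1, h2.1⟩, h1.2, h2.2⟩
  rw [card_product] at h
  calc ((P.filter (fun z => (z.1 - v, z.2 - v) ∈ P)).card : ℝ) ≤
      (((S c.As v).card * (S c.As v).card : ℕ) : ℝ) := by exact_mod_cast h
    _ = _ := by push_cast; ring

/-- Step E: very popular differences. -/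
theorem very_popular (P : Finset (ℤ × ℤ)) (R ρ X : ℝ) (hρ : 0 ≤ ρ)
    (hP : ∀ z ∈ P, z.1 ∈ c.As ∧ z.2 ∈ c.As ∧ c.r (z.1 - z.2) ≤ R)
    (hX : X ≤ ∑ v ∈ c.As - c.As, qq P v * c.r v) (hρX : ρ * (R * P.card) ≤ X / 2) :
    X / 2 ≤ (((c.As - c.As).filter (fun v => ρ ≤ c.r v)).card : ℝ) * (c.n : ℝ) ^ 3 := by
  rw [← Finset.sum_filter_add_sum_filter_not (c.As - c.As) (fun v => ρ ≤ c.r v)] at hX
  have h1 : ∑ v ∈ (c.As - c.As).filter (fun v => ¬ ρ ≤ c.r v), qq P v * c.r v ≤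
      ρ * (R * P.card) := by
    calc ∑ v ∈ (c.As - c.As).filter (fun v => ¬ ρ ≤ c.r v), qq P v * c.r v ≤
        ∑ v ∈ (c.As - c.As).filter (fun v => ¬ ρ ≤ c.r v), ρ * qq P v := by
          refine sum_le_sum fun v hv => ?_
          have h2 := (mem_filter.mp hv).2
          push Not at h2
          have := qq_nonneg P v
          nlinarith
      _ = ρ * ∑ v ∈ (c.As - c.As).filter (fun v => ¬ ρ ≤ c.r v), qq P v := by rw [mul_sum]
      _ ≤ _ := mul_le_mul_of_nonneg_left (c.sum_qq P R hP _) hρ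
  have h3 : ∑ v ∈ (c.As - c.As).filter (fun v => ρ ≤ c.r v), qq P v * c.r v ≤
      (((c.As - c.As).filter (fun v => ρ ≤ c.r v)).card : ℝ) * (c.n : ℝ) ^ 3 := by
    rw [← nsmul_eq_mul, ← sum_const]
    refine sum_le_sum fun v _ => ?_
    have h4 := c.qq_le P (fun z hz => ⟨(hP z hz).1, (hP z hz).2.1⟩) v
    have h5 := c.r_le v
    have h6 := c.r_nonneg v
    calc qq P v * c.r v ≤ c.r v ^ 2 * c.r v := mul_le_mul_of_nonneg_right h4 h6
      _ = c.r v ^ 3 := by ring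
      _ ≤ (c.n : ℝ) ^ 3 := pow_le_pow_left₀ h6 h5 3
  linarith

/-- Step F: a set of very popular differences in general position. -/
theorem finish (V : Finset ℤ) (hV : V ⊆ c.As - c.As) (ρ : ℝ) (hρ : 0 ≤ ρ)
    (hr : ∀ v ∈ V, ρ ≤ c.r v) :
    (V.card : ℝ) * (ρ * (c.K / (2 * c.n))) ^ 3 ≤
      c.n * c.D1 + 3 / c.n * (V.card : ℝ) ^ 3 * (c.K : ℝ) ^ 3 := by
  have hn := c.n_pos'
  have hM := c.M_pos'
  set W := V ×ˢ V with hW
  set bad : Finset ℕ := (range c.M).filter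
    (fun t => ∃ w ∈ V ×ˢ V, w.1 ≠ w.2 ∧ Near c.M c.n t (w.1 - w.2)) with hbad
  have hbadc : (bad.card : ℝ) ≤ (V.card : ℝ) ^ 2 * (3 * c.M / c.n) := by
    have h1 : bad ⊆ ((V ×ˢ V).filter (fun w => w.1 ≠ w.2)).biUnion
        (fun w => (range c.M).filter (fun t => Near c.M c.n t (w.1 - w.2))) := by
      intro t ht
      rw [hbad, mem_filter] at ht
      obtain ⟨ht1, w, hw, hne, hnear⟩ := ht
      rw [mem_biUnion]
      exact ⟨w, mem_filter.mpr ⟨hw, hne⟩, mem_filter.mpr ⟨ht1, hnear⟩⟩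
    have h2 : (bad.card : ℝ) ≤ ∑ w ∈ (V ×ˢ V).filter (fun w => w.1 ≠ w.2),
        (((range c.M).filter (fun t => Near c.M c.n t (w.1 - w.2))).card : ℝ) := by
      have := (card_le_card h1).trans card_biUnion_le
      exact_mod_cast this
    refine h2.trans ?_
    have h3 : ∀ w ∈ (V ×ˢ V).filter (fun w => w.1 ≠ w.2),
        (((range c.M).filter (fun t => Near c.M c.n t (w.1 - w.2))).card : ℝ) ≤
          3 * c.M / c.n := by
      intro w hw
      rw [mem_filter, mem_product] at hw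
      apply card_near_le c.hM c.n_pos c.n_le_M
      intro hd
      have hne : w.1 - w.2 ≠ 0 := sub_ne_zero.mpr hw.2
      have h6 : (c.M : ℤ) ≤ |w.1 - w.2| :=
        Int.le_of_dvd (abs_pos.mpr hne) ((dvd_abs _ _).mpr hd)
      obtain ⟨a, ha, b, hb, hab⟩ := mem_sub.mp (hV hw.1.1)
      obtain ⟨a', ha', b', hb', hab'⟩ := mem_sub.mp (hV hw.1.2)
      have h7 := c.sub_le (c.As_sub ha) (c.As_sub hb)
      have h8 := c.sub_le (c.As_sub ha') (c.As_sub hb')
      rw [hab] at h7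
      rw [hab'] at h8
      have h9 : |w.1 - w.2| ≤ 6 * c.B := by
        calc |w.1 - w.2| ≤ |w.1| + |w.2| := abs_sub _ _
          _ ≤ 6 * c.B := by
              have : (0 : ℤ) ≤ c.B := by positivity
              linarith
      have h10 := c.mul_lt_M (m := 1) (Nat.one_le_pow _ _ c.n_pos) h9
      push_cast at h10
      linarith
    refine (sum_le_sum h3).trans ?_
    rw [sum_const, nsmul_eq_mul]
    apply mul_le_mul_of_nonneg_right _ (by positivity)
    have : ((V ×ˢ V).filter (fun w => w.1 ≠ w.2)).card ≤ V.card * V.card := by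
      rw [← card_product]; exact card_filter_le _ _
    calc (((V ×ˢ V).filter (fun w => w.1 ≠ w.2)).card : ℝ) ≤ ((V.card * V.card : ℕ) : ℝ) := by
          exact_mod_cast this
      _ = _ := by push_cast; ring
  have hlow : (c.M : ℝ) * ((V.card : ℝ) * (ρ * (c.K / (2 * c.n))) ^ 3) ≤
      ∑ t ∈ range c.M, ∑ v ∈ V, ((c.C t ∩ S c.As v).card : ℝ) ^ 3 := by
    rw [sum_comm]
    calc (c.M : ℝ) * ((V.card : ℝ) * (ρ * (c.K / (2 * c.n))) ^ 3) =
        ∑ v ∈ V, (c.M : ℝ) * (ρ * (c.K / (2 * c.n))) ^ 3 := by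
          rw [sum_const, nsmul_eq_mul]; ring
      _ ≤ ∑ v ∈ V, ∑ t ∈ range c.M, ((c.C t ∩ S c.As v).card : ℝ) ^ 3 := by
          refine sum_le_sum fun v hv => ?_
          refine le_trans ?_ (c.third_moment (S c.As v) (c.S_sub v))
          apply mul_le_mul_of_nonneg_left _ hM.le
          apply pow_le_pow_left₀ (by positivity)
          apply mul_le_mul_of_nonneg_right (hr v hv) (by positivity)
  have hup : ∀ t ∈ range c.M, ∑ v ∈ V, ((c.C t ∩ S c.As v).card : ℝ) ^ 3 ≤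
      (c.Tr t).card + (if t ∈ bad then (V.card : ℝ) * (c.K : ℝ) ^ 3 else 0) := by
    intro t ht
    by_cases hb : t ∈ bad
    · rw [if_pos hb]
      have h1 : ∑ v ∈ V, ((c.C t ∩ S c.As v).card : ℝ) ^ 3 ≤ ∑ v ∈ V, (c.K : ℝ) ^ 3 := by
        refine sum_le_sum fun v _ => ?_
        apply pow_le_pow_left₀ (Nat.cast_nonneg _)
        rw [← c.hCK t]
        exact_mod_cast card_le_card inter_subset_left
      rw [sum_const, nsmul_eq_mul] at h1
      have : (0 : ℝ) ≤ (c.Tr t).card := Nat.cast_nonneg _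
      linarith
    · rw [if_neg hb, add_zero]
      apply c.shift_le' t V
      intro v hv v' hv' hne hnear
      apply hb
      rw [hbad, mem_filter]
      exact ⟨ht, (v, v'), mem_product.mpr ⟨hv, hv'⟩, hne, hnear⟩
  have h1 := hlow.trans (sum_le_sum hup)
  rw [sum_add_distrib] at h1
  have h2 : ∑ t ∈ range c.M, (if t ∈ bad then (V.card : ℝ) * (c.K : ℝ) ^ 3 else 0) ≤
      (V.card : ℝ) ^ 2 * (3 * c.M / c.n) * ((V.card : ℝ) * (c.K : ℝ) ^ 3) := by
    rw [← Finset.sum_filter, sum_const, nsmul_eq_mul]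
    apply mul_le_mul_of_nonneg_right _ (by positivity)
    refine le_trans ?_ hbadc
    apply Nat.cast_le.mpr
    apply card_le_card
    intro t ht
    exact (mem_filter.mp ht).2
  have h3 : (c.M : ℝ) * ((V.card : ℝ) * (ρ * (c.K / (2 * c.n))) ^ 3) ≤
      c.M * (c.n * c.D1 + 3 / c.n * (V.card : ℝ) ^ 3 * (c.K : ℝ) ^ 3) := by
    refine h1.trans ((add_le_add c.sum_Tr h2).trans (le_of_eq ?_))
    field_simp
  exact le_of_mul_le_mul_left h3 hM

end Ctx

end Pool.Agent.MP_741d1b.H87
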