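import Mathlib
import Pool.Agent.Lib.MP_741d1b_nt_h87.T3Core2

/-! The core theorem: a set of large energy cannot have a cluster for every multiplier. -/

set_option autoImplicit false

namespace Pool.Agent.MP_741d1b.H87

open Finset Classical
open scoped Pointwise

namespace Ctx

variable (c : Ctx)

theorem card_D_le (R : ℝ) (D : Finset ℤ) (hD : ∀ v ∈ D, R ≤ c.r v) :
    (D.card : ℝ) * R ≤ (c.n : ℝ) ^ 2 := by
  calc (D.card : ℝ) * R = ∑ v ∈ D, R := by rw [sum_const, nsmul_eq_mul]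
    _ ≤ ∑ v ∈ D, c.r v := sum_le_sum hD
    _ ≤ _ := c.sum_r_le D

/-- Steps A and B. -/
theorem stepAB (N q P : ℝ) (hNn : N ^ 3 = c.n) (hN : 0 < N) (hq : 1000 ≤ q) (hP : 1 ≤ P)
    (hK1 : N / q ≤ c.K) (hD1 : c.D1 ≤ q) (hE : N ^ 8 / P ≤ En c.As) :
    ∃ D : Finset ℤ, D ⊆ c.As - c.As ∧ (D.card : ℝ) ≤ N ^ 4 * q * P ∧
      (c.M : ℝ) * (N ^ 5 / (q ^ 11 * P ^ 4)) ≤
      ∑ t ∈ range c.M, ∑ a ∈ c.C t ∩ c.As, ∑ a' ∈ c.C t ∩ c.As,
        ((c.nb D a ∩ c.nb D a').card : ℝ) := by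
  have hn := c.n_pos'
  have hM := c.M_pos'
  have hq0 : 0 < q := by linarith
  have hP0 : 0 < P := by linarith
  have hK0 : (0 : ℝ) < c.K := lt_of_lt_of_le (by positivity) hK1
  have hS3 : ∀ V : Finset ℤ, ∑ v ∈ V, c.r v ^ 3 ≤ 8 * q ^ 3 * N ^ 10 := by
    intro V
    have h := c.sum_r_cube V
    rw [← sum_mul, ← hNn] at h
    have h1 : (∑ v ∈ V, c.r v ^ 3) * (c.K : ℝ) ^ 3 ≤ 8 * N ^ 12 * c.D1 * c.K := by
      have e : (∑ v ∈ V, c.r v ^ 3) * (c.K : ℝ) ^ 3 =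
          8 * N ^ 9 * ((∑ v ∈ V, c.r v ^ 3) * ((c.K : ℝ) / (2 * N ^ 3)) ^ 3) := by
        field_simp
        ring
      rw [e]
      calc 8 * N ^ 9 * ((∑ v ∈ V, c.r v ^ 3) * ((c.K : ℝ) / (2 * N ^ 3)) ^ 3) ≤
          8 * N ^ 9 * (c.K * (N ^ 3 * c.D1)) := mul_le_mul_of_nonneg_left h (by positivity)
        _ = _ := by ring
    have h2 : (∑ v ∈ V, c.r v ^ 3) * (c.K : ℝ) ^ 2 ≤ 8 * N ^ 12 * c.D1 := by
      have : (∑ v ∈ V, c.r v ^ 3) * (c.K : ℝ) ^ 2 * c.K ≤ 8 * N ^ 12 * c.D1 * c.K := by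
        calc (∑ v ∈ V, c.r v ^ 3) * (c.K : ℝ) ^ 2 * c.K =
            (∑ v ∈ V, c.r v ^ 3) * (c.K : ℝ) ^ 3 := by ring
          _ ≤ _ := h1
      exact le_of_mul_le_mul_right this hK0
    have h3 : (∑ v ∈ V, c.r v ^ 3) * (N / q) ^ 2 ≤ 8 * N ^ 12 * q := by
      calc (∑ v ∈ V, c.r v ^ 3) * (N / q) ^ 2 ≤ (∑ v ∈ V, c.r v ^ 3) * (c.K : ℝ) ^ 2 := by
            apply mul_le_mul_of_nonneg_left
            · exact pow_le_pow_left₀ (by positivity) hK1 2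
            · exact sum_nonneg fun v _ => pow_nonneg (c.r_nonneg v) 3
        _ ≤ 8 * N ^ 12 * c.D1 := h2
        _ ≤ _ := mul_le_mul_of_nonneg_left hD1 (by positivity)
    have h4 : (∑ v ∈ V, c.r v ^ 3) * (N / q) ^ 2 * (q ^ 2 / N ^ 2) ≤
        8 * N ^ 12 * q * (q ^ 2 / N ^ 2) := mul_le_mul_of_nonneg_right h3 (by positivity)
    have e1 : (∑ v ∈ V, c.r v ^ 3) * (N / q) ^ 2 * (q ^ 2 / N ^ 2) = ∑ v ∈ V, c.r v ^ 3 := by
      field_simp
    have e2 : 8 * N ^ 12 * q * (q ^ 2 / N ^ 2) = 8 * q ^ 3 * N ^ 10 := by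
      field_simp
    rw [e1, e2] at h4
    exact h4
  obtain ⟨D, hDs, hDc, hDe⟩ := c.popular (N ^ 8 / P) (8 * q ^ 3 * N ^ 10) (N ^ 2 / (q * P))
    (by positivity) hE (by positivity) (by
      rw [← hNn]
      have e : N ^ 2 / (q * P) * (N ^ 3) ^ 2 = N ^ 8 / P * (1 / q) := by field_simp
      rw [e]
      have h1 : 1 / q ≤ 1 / 2 := one_div_le_one_div_of_le (by norm_num) (by linarith)
      calc N ^ 8 / P * (1 / q) ≤ N ^ 8 / P * (1 / 2) :=
            mul_le_mul_of_nonneg_left h1 (by positivity)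
        _ = N ^ 8 / P / 2 := by ring) hS3
  refine ⟨D, hDs, ?_, ?_⟩
  · rw [← hNn] at hDc
    have e : (D.card : ℝ) * (N ^ 2 / (q * P)) = (D.card : ℝ) * N ^ 2 / (q * P) := by ring
    rw [e, div_le_iff₀ (by positivity)] at hDc
    have h1 : (D.card : ℝ) * N ^ 2 ≤ (N ^ 4 * q * P) * N ^ 2 := by
      calc (D.card : ℝ) * N ^ 2 ≤ (N ^ 3) ^ 2 * (q * P) := hDc
        _ = _ := by ring
    exact le_of_mul_le_mul_right h1 (by positivity)
  · refine le_trans ?_ (c.codeg_sum D)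
    apply mul_le_mul_of_nonneg_left _ hM.le
    set s := ∑ v ∈ D, c.r v with hs
    have hs1 : N ^ 6 / (q ^ 4 * P ^ 2) ≤ s := by
      have h1 : (N ^ 8 / P / 2) ^ 2 = N ^ 6 / (32 * q ^ 3 * P ^ 2) * (8 * q ^ 3 * N ^ 10) := by
        field_simp
        ring
      rw [h1] at hDe
      have h2 := le_of_mul_le_mul_right hDe (by positivity)
      refine le_trans ?_ h2
      apply div_le_div_of_nonneg_left (by positivity) (by positivity)
      have : 32 * (q ^ 3 * P ^ 2) ≤ q * (q ^ 3 * P ^ 2) :=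
        mul_le_mul_of_nonneg_right (by linarith) (by positivity)
      calc 32 * q ^ 3 * P ^ 2 = 32 * (q ^ 3 * P ^ 2) := by ring
        _ ≤ _ := this
        _ = _ := by ring
    rw [← hNn]
    calc N ^ 5 / (q ^ 11 * P ^ 4) ≤ N ^ 5 / (4 * q ^ 10 * P ^ 4) := by
          apply div_le_div_of_nonneg_left (by positivity) (by positivity)
          have : 4 * (q ^ 10 * P ^ 4) ≤ q * (q ^ 10 * P ^ 4) :=
            mul_le_mul_of_nonneg_right (by linarith) (by positivity)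
          calc 4 * q ^ 10 * P ^ 4 = 4 * (q ^ 10 * P ^ 4) := by ring
            _ ≤ _ := this
            _ = _ := by ring
      _ = (N / q / (2 * N ^ 3)) ^ 2 * (N ^ 6 / (q ^ 4 * P ^ 2)) ^ 2 / N ^ 3 := by
          field_simp
          ring
      _ ≤ (c.K / (2 * N ^ 3)) ^ 2 * s ^ 2 / N ^ 3 := by gcongr

/-- Step C. -/
theorem stepC (N q α : ℝ) (hNn : N ^ 3 = c.n) (hN : 0 < N) (hq : 1000 ≤ q) (hα : 1 ≤ α)
    (hαN : q ^ 2 * α ^ 2 ≤ N)
    (hK1 : N / q ≤ c.K) (hK2 : (c.K : ℝ) ≤ N) (hD1 : c.D1 ≤ q) (D : Finset ℤ)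
    (hG : (c.M : ℝ) * (N ^ 5 / α) ≤
      ∑ t ∈ range c.M, ∑ a ∈ c.C t ∩ c.As, ∑ a' ∈ c.C t ∩ c.As,
        ((c.nb D a ∩ c.nb D a').card : ℝ)) :
    ∃ P : Finset (ℤ × ℤ), (∀ z ∈ P, z.1 ∈ c.As ∧ z.2 ∈ c.As ∧
      N ^ 3 / (q * α) ≤ ((c.nb D z.1 ∩ c.nb D z.2).card : ℝ) ∧
      c.r (z.1 - z.2) ≤ N * q ^ 2 * α) ∧ N ^ 6 / (q ^ 3 * α) ≤ P.card := by
  have hn := c.n_pos'
  have hM := c.M_pos'
  have hq0 : 0 < q := by linarith
  have hα0 : 0 < α := by linarith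
  have hK0 : (0 : ℝ) < c.K := lt_of_lt_of_le (by positivity) hK1
  have hD0 := c.D1_pos
  have hαN1 : 8 * α ≤ N := by
    have h1 : (8 : ℝ) ≤ q ^ 2 := by nlinarith
    have h2 : α ≤ α ^ 2 := by nlinarith
    have : 8 * α ≤ q ^ 2 * α ^ 2 := mul_le_mul h1 h2 hα0.le (by positivity)
    linarith
  set Dp : Finset ℤ := (c.As - c.As).filter (fun v => v ≠ 0 ∧ N * q ^ 2 * α ≤ c.r v) with hDp
  have hDpc : (Dp.card : ℝ) ≤ N ^ 5 / (q ^ 2 * α) := by
    have h1 := c.card_D_le (N * q ^ 2 * α) Dp (fun v hv => (mem_filter.mp hv).2.2)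
    rw [← hNn] at h1
    rw [le_div_iff₀ (by positivity)]
    have h2 : (Dp.card : ℝ) * (q ^ 2 * α) * N ≤ N ^ 5 * N := by
      calc (Dp.card : ℝ) * (q ^ 2 * α) * N = (Dp.card : ℝ) * (N * q ^ 2 * α) := by ring
        _ ≤ (N ^ 3) ^ 2 := h1
        _ = _ := by ring
    exact le_of_mul_le_mul_right h2 hN
  set l : ℝ := 1 / (N * q * α) with hl
  have hl0 : 0 < l := by rw [hl]; positivity
  have hpp := c.popular_pairs Dp (by
      intro v hv
      exact sub_subset_sub c.As_sub c.As_sub (mem_filter.mp hv).1) (by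
      intro v hv
      exact (mem_filter.mp hv).2.1) l hl0
  obtain ⟨P, hP, hPc⟩ := c.good_pairs D Dp (N ^ 5 / α) (N ^ 3 / (q * α))
    (4 * Dp.card * c.D1 / c.n + l / 2 * (3 * c.n) + 15 / l) hG (by positivity) (by
      calc (c.K : ℝ) ^ 2 * (N ^ 3 / (q * α)) ≤ N ^ 2 * (N ^ 3 / (q * α)) := by gcongr
        _ = N ^ 5 / α * (1 / q) := by field_simp
        _ ≤ N ^ 5 / α * (1 / 8) := by
            apply mul_le_mul_of_nonneg_left _ (by positivity)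
            exact one_div_le_one_div_of_le (by norm_num) (by linarith)
        _ = N ^ 5 / α / 8 := by ring) (by
      rw [← hNn]
      calc (c.K : ℝ) * N ^ 3 ≤ N * N ^ 3 := by gcongr
        _ = N ^ 4 * 1 := by ring
        _ ≤ N ^ 4 * (N / (8 * α)) := by
            apply mul_le_mul_of_nonneg_left _ (by positivity)
            rw [le_div_iff₀ (by positivity)]
            linarith
        _ = N ^ 5 / α / 8 := by field_simp) hpp (by
      rw [← hNn]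
      have e : N ^ 3 * (4 * Dp.card * c.D1 / N ^ 3 + l / 2 * (3 * N ^ 3) + 15 / l) =
          4 * Dp.card * c.D1 + 3 / 2 * N ^ 6 * l + 15 * N ^ 3 / l := by
        field_simp
      rw [e]
      have k1 : 4 * (Dp.card : ℝ) * c.D1 ≤ N ^ 5 / α * (4 / q) := by
        calc 4 * (Dp.card : ℝ) * c.D1 ≤ 4 * (N ^ 5 / (q ^ 2 * α)) * q := by gcongr
          _ = _ := by field_simp
      have k2 : 3 / 2 * N ^ 6 * l = N ^ 5 / α * (3 / 2 / q) := by
        rw [hl]; field_simp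
      have k3 : 15 * N ^ 3 / l ≤ N ^ 5 / α * (1 / 10) := by
        rw [hl]
        have e2 : 15 * N ^ 3 / (1 / (N * q * α)) = N ^ 4 * (15 * q * α) := by
          field_simp
        rw [e2]
        have e3 : N ^ 5 / α * (1 / 10) = N ^ 4 * (N / (10 * α)) := by field_simp
        rw [e3]
        apply mul_le_mul_of_nonneg_left _ (by positivity)
        rw [le_div_iff₀ (by positivity)]
        calc 15 * q * α * (10 * α) = 150 * (q * α ^ 2) := by ring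
          _ ≤ q * (q * α ^ 2) := mul_le_mul_of_nonneg_right (by linarith) (by positivity)
          _ = q ^ 2 * α ^ 2 := by ring
          _ ≤ N := hαN
      have k4 : 4 / q ≤ 4 / 1000 := div_le_div_of_nonneg_left (by norm_num) (by norm_num) hq
      have k5 : 3 / 2 / q ≤ 3 / 2 / 1000 :=
        div_le_div_of_nonneg_left (by norm_num) (by norm_num) hq
      have hX : 0 < N ^ 5 / α := by positivity
      calc 4 * (Dp.card : ℝ) * c.D1 + 3 / 2 * N ^ 6 * l + 15 * N ^ 3 / l ≤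
          N ^ 5 / α * (4 / q) + N ^ 5 / α * (3 / 2 / q) + N ^ 5 / α * (1 / 10) := by
            rw [← k2]; linarith
        _ = N ^ 5 / α * (4 / q + 3 / 2 / q + 1 / 10) := by ring
        _ ≤ N ^ 5 / α * (1 / 4) := by
            apply mul_le_mul_of_nonneg_left _ hX.le
            linarith
        _ = N ^ 5 / α / 4 := by ring)
  refine ⟨P, ?_, ?_⟩
  · intro z hz
    obtain ⟨h1, h2, h3, h4, h5⟩ := hP z hz
    refine ⟨h1, h2, h4, ?_⟩
    by_contra hc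
    push Not at hc
    apply h5
    rw [hDp, mem_filter]
    exact ⟨sub_mem_sub h1 h2, sub_ne_zero.mpr h3, hc.le⟩
  · rw [div_le_iff₀ (by positivity)]
    have h1 : N / q * (N ^ 5 / α) ≤ 2 * P.card * q := by
      calc N / q * (N ^ 5 / α) ≤ c.K * (N ^ 5 / α) := by gcongr
        _ ≤ 2 * P.card * c.D1 := hPc
        _ ≤ 2 * P.card * q := by gcongr
    have e : N / q * (N ^ 5 / α) = N ^ 6 / (q * α) := by field_simp
    rw [e, div_le_iff₀ (by positivity)] at h1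
    calc N ^ 6 ≤ 2 * P.card * q * (q * α) := h1
      _ = P.card * (2 * (q ^ 2 * α)) := by ring
      _ ≤ P.card * (q * (q ^ 2 * α)) := by
          apply mul_le_mul_of_nonneg_left _ (Nat.cast_nonneg _)
          exact mul_le_mul_of_nonneg_right (by linarith) (by positivity)
      _ = _ := by ring

/-- The core theorem. -/
theorem core (N q P : ℝ) (hNn : N ^ 3 = c.n) (hN : 0 < N) (hq : 1000 ≤ q) (hP : 1 ≤ P)
    (hbig : q ^ 265 * P ^ 84 ≤ N) (hK1 : N / q ≤ c.K) (hK2 : (c.K : ℝ) ≤ N)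
    (hD1 : c.D1 ≤ q) : En c.As < N ^ 8 / P := by
  by_contra hcon
  push Not at hcon
  have hn := c.n_pos'
  have hM := c.M_pos'
  have hq0 : 0 < q := by linarith
  have hq1 : 1 ≤ q := by linarith
  have hP0 : 0 < P := by linarith
  have hK0 : (0 : ℝ) < c.K := lt_of_lt_of_le (by positivity) hK1
  have hD0 := c.D1_pos
  obtain ⟨α, hα⟩ : ∃ α : ℝ, α = q ^ 11 * P ^ 4 := ⟨_, rfl⟩
  obtain ⟨β, hβ⟩ : ∃ β : ℝ, β = q ^ 10 * α ^ 4 * P ^ 2 := ⟨_, rfl⟩
  obtain ⟨γ, hγ⟩ : ∃ γ : ℝ, γ = q ^ 3 * α * β := ⟨_, rfl⟩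
  have hα1 : 1 ≤ α := by
    rw [hα]
    exact one_le_mul_of_one_le_of_one_le (one_le_pow₀ hq1) (one_le_pow₀ hP)
  have hα0 : 0 < α := by linarith
  have hβ1 : 1 ≤ β := by
    rw [hβ]
    exact one_le_mul_of_one_le_of_one_le (one_le_mul_of_one_le_of_one_le (one_le_pow₀ hq1)
      (one_le_pow₀ hα1)) (one_le_pow₀ hP)
  have hβ0 : 0 < β := by linarith
  have hγ1 : 1 ≤ γ := by
    rw [hγ]
    exact one_le_mul_of_one_le_of_one_le (one_le_mul_of_one_le_of_one_le (one_le_pow₀ hq1)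
      hα1) hβ1
  have hγ0 : 0 < γ := by linarith
  have hbig2 : q ^ 7 * γ ^ 3 * β ≤ N := by
    refine le_trans (le_of_eq ?_) hbig
    rw [hγ, hβ, hα]
    ring
  have hαN : q ^ 2 * α ^ 2 ≤ N := by
    refine le_trans ?_ hbig2
    have h1 : α ≤ γ := by
      rw [hγ]
      calc α = 1 * α * 1 := by ring
        _ ≤ q ^ 3 * α * β := by
            apply mul_le_mul (mul_le_mul_of_nonneg_right (one_le_pow₀ hq1) hα0.le) hβ1
              (by norm_num) (by positivity)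
    calc q ^ 2 * α ^ 2 ≤ q ^ 7 * γ ^ 3 := by
          apply mul_le_mul (pow_le_pow_right₀ hq1 (by norm_num)) _ (by positivity) (by positivity)
          calc α ^ 2 ≤ γ ^ 2 := pow_le_pow_left₀ hα0.le h1 2
            _ ≤ γ ^ 3 := pow_le_pow_right₀ hγ1 (by norm_num)
      _ = q ^ 7 * γ ^ 3 * 1 := by ring
      _ ≤ _ := mul_le_mul_of_nonneg_left hβ1 (by positivity)
  obtain ⟨D, _, hDc, hG⟩ := c.stepAB N q P hNn hN hq hP hK1 hD1 hcon
  rw [← hα] at hG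
  obtain ⟨Ps, hPs, hPsc⟩ := c.stepC N q α hNn hN hq hα1 hαN hK1 hK2 hD1 D hG
  have hcol := c.collisions D Ps (N ^ 3 / (q * α)) (by positivity)
    (fun z hz => ⟨(hPs z hz).1, (hPs z hz).2.1, (hPs z hz).2.2.1⟩)
  set X := ∑ v ∈ c.As - c.As, qq Ps v * c.r v with hX
  have hX0 : 0 ≤ X := sum_nonneg fun v _ => mul_nonneg (qq_nonneg _ _) (c.r_nonneg v)
  have hX1 : N ^ 10 / β ≤ X := by
    have h1 : (N ^ 6 / (q ^ 3 * α) * (N ^ 3 / (q * α))) ^ 2 ≤ (N ^ 4 * q * P) ^ 2 * X := by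
      calc (N ^ 6 / (q ^ 3 * α) * (N ^ 3 / (q * α))) ^ 2 ≤
          ((Ps.card : ℝ) * (N ^ 3 / (q * α))) ^ 2 := by gcongr
        _ ≤ _ := hcol
        _ ≤ _ := by gcongr
    have h2 : (N ^ 6 / (q ^ 3 * α) * (N ^ 3 / (q * α))) ^ 2 =
        (N ^ 4 * q * P) ^ 2 * (N ^ 10 / β) := by
      rw [hβ]
      field_simp
    rw [h2] at h1
    exact le_of_mul_le_mul_left h1 (by positivity)
  have hPsle : (Ps.card : ℝ) ≤ N ^ 6 := by
    have h1 : Ps.card ≤ (c.As ×ˢ c.As).card := by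
      apply card_le_card
      intro z hz
      rw [mem_product]
      exact ⟨(hPs z hz).1, (hPs z hz).2.1⟩
    rw [card_product] at h1
    have h2 : (c.As.card : ℝ) ≤ N ^ 3 := by
      rw [hNn]; exact_mod_cast c.As_card
    calc (Ps.card : ℝ) ≤ ((c.As.card * c.As.card : ℕ) : ℝ) := by exact_mod_cast h1
      _ = (c.As.card : ℝ) * c.As.card := by push_cast; ring
      _ ≤ N ^ 3 * N ^ 3 := by gcongr
      _ = N ^ 6 := by ring
  have hV0 := c.very_popular Ps (N * q ^ 2 * α) (N ^ 3 / γ) (N ^ 10 / β) (by positivity)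
    (fun z hz => ⟨(hPs z hz).1, (hPs z hz).2.1, (hPs z hz).2.2.2⟩) hX1 (by
      calc N ^ 3 / γ * (N * q ^ 2 * α * Ps.card) ≤ N ^ 3 / γ * (N * q ^ 2 * α * N ^ 6) := by
            gcongr
        _ = N ^ 10 / β * (1 / q) := by rw [hγ]; field_simp
        _ ≤ N ^ 10 / β * (1 / 2) := by
            apply mul_le_mul_of_nonneg_left _ (by positivity)
            exact one_div_le_one_div_of_le (by norm_num) (by linarith)
        _ = N ^ 10 / β / 2 := by ring)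
  set V0 := (c.As - c.As).filter (fun v => N ^ 3 / γ ≤ c.r v) with hV0def
  have hV0c : N / (q * β) ≤ V0.card := by
    rw [← hNn] at hV0
    have e : (N ^ 3) ^ 3 = N ^ 9 := by ring
    rw [e] at hV0
    have h1 : N / (2 * β) * N ^ 9 ≤ V0.card * N ^ 9 := by
      refine le_trans (le_of_eq ?_) hV0
      field_simp
    have h2 := le_of_mul_le_mul_right h1 (by positivity)
    refine le_trans ?_ h2
    apply div_le_div_of_nonneg_left hN.le (by positivity)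
    exact mul_le_mul_of_nonneg_right (by linarith) hβ0.le
  obtain ⟨m, hm⟩ : ∃ m : ℕ, m = ⌈q ^ 5 * γ ^ 3⌉₊ := ⟨_, rfl⟩
  have hm1 : q ^ 5 * γ ^ 3 ≤ m := by rw [hm]; exact Nat.le_ceil _
  have hm2 : (m : ℝ) ≤ q ^ 6 * γ ^ 3 := by
    have h1 : (m : ℝ) < q ^ 5 * γ ^ 3 + 1 := by rw [hm]; exact Nat.ceil_lt_add_one (by positivity)
    have h2 : 1 ≤ q ^ 5 * γ ^ 3 :=
      one_le_mul_of_one_le_of_one_le (one_le_pow₀ hq1) (one_le_pow₀ hγ1)
    calc (m : ℝ) ≤ 2 * (q ^ 5 * γ ^ 3) := by linarith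
      _ ≤ q * (q ^ 5 * γ ^ 3) := mul_le_mul_of_nonneg_right (by linarith) (by positivity)
      _ = _ := by ring
  have hmV : m ≤ V0.card := by
    have h1 : (m : ℝ) ≤ V0.card := by
      refine hm2.trans (le_trans ?_ hV0c)
      rw [le_div_iff₀ (by positivity)]
      calc q ^ 6 * γ ^ 3 * (q * β) = q ^ 7 * γ ^ 3 * β := by ring
        _ ≤ N := hbig2
    exact_mod_cast h1
  obtain ⟨V, hVs, hVc⟩ := exists_subset_card_eq hmV
  have hfin := c.finish V (hVs.trans (filter_subset _ _)) (N ^ 3 / γ) (by positivity)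
    (fun v hv => (mem_filter.mp (hVs hv)).2)
  rw [hVc, ← hNn] at hfin
  have e1 : (m : ℝ) * (N ^ 3 / γ * (c.K / (2 * N ^ 3))) ^ 3 = m * (c.K : ℝ) ^ 3 / (8 * γ ^ 3) := by
    field_simp
    ring
  rw [e1] at hfin
  have hm0 : (0 : ℝ) < m := lt_of_lt_of_le (by positivity) hm1
  have f1 : N ^ 3 * c.D1 < m * (c.K : ℝ) ^ 3 / (16 * γ ^ 3) := by
    rw [lt_div_iff₀ (by positivity)]
    calc N ^ 3 * c.D1 * (16 * γ ^ 3) ≤ N ^ 3 * q * (16 * γ ^ 3) := by gcongr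
      _ = 16 * (N ^ 3 * q * γ ^ 3) := by ring
      _ < q * (N ^ 3 * q * γ ^ 3) := by
          apply mul_lt_mul_of_pos_right (by linarith) (by positivity)
      _ = q ^ 5 * γ ^ 3 * (N / q) ^ 3 := by field_simp
      _ ≤ m * (c.K : ℝ) ^ 3 := by gcongr
  have f2 : 3 / N ^ 3 * (m : ℝ) ^ 3 * (c.K : ℝ) ^ 3 ≤ m * (c.K : ℝ) ^ 3 / (16 * γ ^ 3) := by
    rw [le_div_iff₀ (by positivity)]
    have e2 : 3 / N ^ 3 * (m : ℝ) ^ 3 * (c.K : ℝ) ^ 3 * (16 * γ ^ 3) =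
        m * (c.K : ℝ) ^ 3 * (48 * (m : ℝ) ^ 2 * γ ^ 3 / N ^ 3) := by
      field_simp
      ring
    rw [e2]
    have h1 : 48 * (m : ℝ) ^ 2 * γ ^ 3 / N ^ 3 ≤ 1 := by
      rw [div_le_one (by positivity)]
      calc 48 * (m : ℝ) ^ 2 * γ ^ 3 ≤ q * (q ^ 6 * γ ^ 3) ^ 2 * γ ^ 3 := by
            gcongr
            linarith
        _ = q ^ 13 * γ ^ 9 := by ring
        _ ≤ q ^ 21 * γ ^ 9 * β ^ 3 := by
            calc q ^ 13 * γ ^ 9 = q ^ 13 * γ ^ 9 * 1 := by ring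
              _ ≤ q ^ 21 * γ ^ 9 * β ^ 3 := by
                  apply mul_le_mul _ (one_le_pow₀ hβ1) (by norm_num) (by positivity)
                  exact mul_le_mul_of_nonneg_right (pow_le_pow_right₀ hq1 (by norm_num))
                    (by positivity)
        _ = (q ^ 7 * γ ^ 3 * β) ^ 3 := by ring
        _ ≤ N ^ 3 := pow_le_pow_left₀ (by positivity) hbig2 3
    calc m * (c.K : ℝ) ^ 3 * (48 * (m : ℝ) ^ 2 * γ ^ 3 / N ^ 3) ≤ m * (c.K : ℝ) ^ 3 * 1 :=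
          mul_le_mul_of_nonneg_left h1 (by positivity)
      _ = _ := by ring
  have e3 : m * (c.K : ℝ) ^ 3 / (8 * γ ^ 3) =
      m * (c.K : ℝ) ^ 3 / (16 * γ ^ 3) + m * (c.K : ℝ) ^ 3 / (16 * γ ^ 3) := by
    field_simp
    norm_num
  linarith

end Ctx

end Pool.Agent.MP_741d1b.H87
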