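import Mathlib
import Pool.Agent.Lib.MP_741d1b_nt_h87.T3Exp2

/-! Deterministic lemmas on one cluster: a good scale, a good triple. -/

set_option autoImplicit false

namespace Pool.Agent.MP_741d1b.H87

open Finset Classical
open scoped Pointwise

/-- A large subset at a good scale. -/
theorem good_scale (q R0 : ℝ) (J : ℕ) (hR : R0 * (2 / q) ^ J < 1) (S : Finset ℤ)
    (hS : ∀ a ∈ S, ∀ b ∈ S, |((a - b : ℤ) : ℝ)| ≤ R0) (hcard : 10 ^ J < S.card) :
    ∃ j < J, ∃ S1 ⊆ S, S.card ≤ 10 ^ j * S1.card ∧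
      (∀ a ∈ S1, ∀ b ∈ S1, |((a - b : ℤ) : ℝ)| ≤ R0 * (2 / q) ^ j) ∧
      10 * ((S1 ×ˢ S1).filter (fun z => |((z.1 - z.2 : ℤ) : ℝ)| < R0 * (2 / q) ^ j / q)).card ≤
        S1.card ^ 2 := by
  by_contra hcon
  push Not at hcon
  have key : ∀ j ≤ J, ∃ S1 ⊆ S, S.card ≤ 10 ^ j * S1.card ∧
      (∀ a ∈ S1, ∀ b ∈ S1, |((a - b : ℤ) : ℝ)| ≤ R0 * (2 / q) ^ j) := by
    intro j
    induction j with
    | zero =>
      intro _
      exact ⟨S, subset_refl _, by simp, by simpa using hS⟩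
    | succ j ih =>
      intro hj
      obtain ⟨S1, hS1, hc1, hd1⟩ := ih (by omega)
      have h1 := hcon j (by omega) S1 hS1 hc1 hd1
      set ρ := R0 * (2 / q) ^ j / q with hρ
      have h2 : ((S1 ×ˢ S1).filter (fun z => |((z.1 - z.2 : ℤ) : ℝ)| < ρ)).card =
          ∑ a ∈ S1, (S1.filter (fun b => |((a - b : ℤ) : ℝ)| < ρ)).card := by
        rw [card_filter, Finset.sum_product]
        refine sum_congr rfl fun a _ => ?_
        rw [card_filter]
      rw [h2] at h1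
      have h3 : ∃ a ∈ S1, S1.card ≤ 10 * (S1.filter (fun b => |((a - b : ℤ) : ℝ)| < ρ)).card := by
        by_contra h4
        push Not at h4
        have h5 : 10 * ∑ a ∈ S1, (S1.filter (fun b => |((a - b : ℤ) : ℝ)| < ρ)).card ≤
            S1.card ^ 2 := by
          rw [mul_sum]
          calc ∑ a ∈ S1, 10 * (S1.filter (fun b => |((a - b : ℤ) : ℝ)| < ρ)).card ≤
              ∑ a ∈ S1, S1.card := sum_le_sum fun a ha => (h4 a ha).le
            _ = S1.card ^ 2 := by rw [sum_const, smul_eq_mul, sq]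
        omega
      obtain ⟨a, _, ha2⟩ := h3
      refine ⟨S1.filter (fun b => |((a - b : ℤ) : ℝ)| < ρ), (filter_subset _ _).trans hS1, ?_, ?_⟩
      · calc S.card ≤ 10 ^ j * S1.card := hc1
          _ ≤ 10 ^ j * (10 * (S1.filter (fun b => |((a - b : ℤ) : ℝ)| < ρ)).card) :=
              Nat.mul_le_mul_left _ ha2
          _ = _ := by ring
      · intro b hb d hd
        have hb2 := (mem_filter.mp hb).2
        have hd2 := (mem_filter.mp hd).2
        have e : ((b - d : ℤ) : ℝ) = ((a - d : ℤ) : ℝ) - ((a - b : ℤ) : ℝ) := by push_cast; ring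
        rw [e]
        calc |((a - d : ℤ) : ℝ) - ((a - b : ℤ) : ℝ)| ≤ |((a - d : ℤ) : ℝ)| + |((a - b : ℤ) : ℝ)| :=
              abs_sub _ _
          _ ≤ ρ + ρ := by linarith
          _ = R0 * (2 / q) ^ (j + 1) := by rw [hρ, pow_succ]; ring
  obtain ⟨S1, hS1, hc1, hd1⟩ := key J le_rfl
  have h1 : S1.card ≤ 1 := by
    rw [card_le_one]
    intro a ha b hb
    have h2 := lt_of_le_of_lt (hd1 a ha b hb) hR
    have h3 : |a - b| < 1 := by
      have : ((|a - b| : ℤ) : ℝ) < 1 := by push_cast; push_cast at h2; exact h2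
      exact_mod_cast this
    have h4 := Int.abs_lt_one_iff.mp h3
    linarith
  have : 10 ^ J * S1.card ≤ 10 ^ J * 1 := Nat.mul_le_mul_left _ h1
  omega

namespace Ctx

variable (c : Ctx)

/-- Few collinear triples. -/
theorem col_triples (t : ℕ) (S1 : Finset ℤ) (l : ℝ) (hl : 0 ≤ l)
    (hcol : ∀ a ∈ S1, ∀ b ∈ S1, a ≠ b → ((S1.filter (fun z => c.dt t a b z = 0)).card : ℝ) ≤ l) :
    (((S1 ×ˢ S1 ×ˢ S1).filter (fun z => c.dt t z.1 z.2.1 z.2.2 = 0)).card : ℝ) ≤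
      (S1.card : ℝ) ^ 2 * (l + 1) := by
  have e1 : (((S1 ×ˢ S1 ×ˢ S1).filter (fun z => c.dt t z.1 z.2.1 z.2.2 = 0)).card : ℝ) =
      ∑ a ∈ S1, ∑ b ∈ S1, ((S1.filter (fun z => c.dt t a b z = 0)).card : ℝ) := by
    rw [card_filter, Finset.sum_product]
    push_cast
    refine sum_congr rfl fun a _ => ?_
    rw [Finset.sum_product]
    refine sum_congr rfl fun b _ => ?_
    rw [card_filter]
    push_cast
    rfl
  rw [e1]
  have h1 : ∀ a ∈ S1, ∑ b ∈ S1, ((S1.filter (fun z => c.dt t a b z = 0)).card : ℝ) ≤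
      S1.card * (l + 1) := by
    intro a ha
    calc ∑ b ∈ S1, ((S1.filter (fun z => c.dt t a b z = 0)).card : ℝ) ≤
        ∑ b ∈ S1, (l + if b = a then (S1.card : ℝ) else 0) := by
          refine sum_le_sum fun b hb => ?_
          by_cases hab : b = a
          · rw [if_pos hab]
            have : ((S1.filter (fun z => c.dt t a b z = 0)).card : ℝ) ≤ S1.card := by
              exact_mod_cast card_filter_le _ _
            linarith
          · rw [if_neg hab, add_zero]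
            exact hcol a ha b hb (Ne.symm hab)
      _ = S1.card * (l + 1) := by
          rw [sum_add_distrib, sum_const, nsmul_eq_mul, Finset.sum_ite_eq' S1 a, if_pos ha]
          ring
  calc ∑ a ∈ S1, ∑ b ∈ S1, ((S1.filter (fun z => c.dt t a b z = 0)).card : ℝ) ≤
      ∑ a ∈ S1, (S1.card : ℝ) * (l + 1) := sum_le_sum h1
    _ = _ := by rw [sum_const, nsmul_eq_mul]; ring

/-- A good triple. -/
theorem good_triple (t : ℕ) (S1 : Finset ℤ) (hS1 : S1 ⊆ c.C t) (hpos : 0 < S1.card)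
    (ρ T Λ l : ℝ) (F : ℕ) (hl : 0 ≤ l)
    (hclose : 10 * ((S1 ×ˢ S1).filter (fun z => |((z.1 - z.2 : ℤ) : ℝ)| < ρ)).card ≤ S1.card ^ 2)
    (hcol : ∀ a ∈ S1, ∀ b ∈ S1, a ≠ b → ((S1.filter (fun z => c.dt t a b z = 0)).card : ℝ) ≤ l)
    (hl2 : 10 * (l + 1) ≤ S1.card)
    (hBD : 10 * ((c.BD T ρ t).card : ℝ) ≤ (S1.card : ℝ) ^ 3)
    (hBC : 10 * ((c.BC F t).card : ℝ) ≤ (S1.card : ℝ) ^ 3)
    (hBQ : 10 * ((c.BQ Λ t).card : ℝ) ≤ (S1.card : ℝ) ^ 4) :
    ∃ a ∈ S1, ∃ b ∈ S1, ∃ e ∈ S1, c.dt t a b e ≠ 0 ∧ T < |(c.dt t a b e : ℝ)| ∧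
      Int.gcd (a - b) (c.k t a - c.k t b) < F ∧
      2 * ((S1.filter (fun d => Λ * (Int.gcd (c.dt t a b e) (c.dt t a b d) : ℝ) <
        |(c.dt t a b e : ℝ)|)).card : ℝ) ≤ S1.card := by
  have hm : (0 : ℝ) < S1.card := by exact_mod_cast hpos
  by_contra hcon
  push Not at hcon
  set P3 := S1 ×ˢ S1 ×ˢ S1 with hP3
  set X1 := P3.filter (fun z => |((z.1 - z.2.1 : ℤ) : ℝ)| < ρ) with hX1
  set X2 := P3.filter (fun z => c.dt t z.1 z.2.1 z.2.2 = 0) with hX2
  set X5 := P3.filter (fun z => c.dt t z.1 z.2.1 z.2.2 ≠ 0 ∧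
    (S1.card : ℝ) < 2 * ((S1.filter (fun d => Λ * (Int.gcd (c.dt t z.1 z.2.1 z.2.2)
      (c.dt t z.1 z.2.1 d) : ℝ) < |(c.dt t z.1 z.2.1 z.2.2 : ℝ)|)).card : ℝ)) with hX5
  have hcov : P3 ⊆ X1 ∪ (X2 ∪ (c.BD T ρ t ∪ (c.BC F t ∪ X5))) := by
    rintro ⟨a, b, e⟩ hz
    have hz' := hz
    rw [hP3, mem_product, mem_product] at hz'
    obtain ⟨ha, hb, he⟩ := hz'
    simp only at ha hb he
    by_cases h1 : |((a - b : ℤ) : ℝ)| < ρ
    · apply mem_union_left
      rw [hX1, mem_filter]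
      exact ⟨hz, h1⟩
    · apply mem_union_right
      push Not at h1
      by_cases h2 : c.dt t a b e = 0
      · apply mem_union_left
        rw [hX2, mem_filter]
        exact ⟨hz, h2⟩
      · apply mem_union_right
        by_cases h3 : T < |(c.dt t a b e : ℝ)|
        · apply mem_union_right
          by_cases h4 : Int.gcd (a - b) (c.k t a - c.k t b) < F
          · apply mem_union_right
            rw [hX5, mem_filter]
            exact ⟨hz, h2, hcon a ha b hb e he h2 h3 h4⟩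
          · push Not at h4
            apply mem_union_left
            rw [BC, mem_filter, mem_product, mem_product]
            exact ⟨⟨hS1 ha, hS1 hb, hS1 he⟩, h2, h4⟩
        · push Not at h3
          apply mem_union_left
          rw [BD, mem_filter, mem_product, mem_product]
          exact ⟨⟨hS1 ha, hS1 hb, hS1 he⟩, h2, h3, h1⟩
  have hc1 : 10 * (X1.card : ℝ) ≤ (S1.card : ℝ) ^ 3 := by
    have h1 : X1.card = ((S1 ×ˢ S1).filter (fun z => |((z.1 - z.2 : ℤ) : ℝ)| < ρ)).card *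
        S1.card := by
      rw [← card_product]
      refine Finset.card_nbij' (fun z => ((z.1, z.2.1), z.2.2)) (fun z => (z.1.1, z.1.2, z.2))
        ?_ ?_ ?_ ?_
      · rintro ⟨a, b, e⟩ hz
        have hz' : ((a, b, e) : ℤ × ℤ × ℤ) ∈ X1 := hz
        rw [hX1, mem_filter, hP3, mem_product, mem_product] at hz'
        have : (((a, b), e) : (ℤ × ℤ) × ℤ) ∈
            ((S1 ×ˢ S1).filter (fun z => |((z.1 - z.2 : ℤ) : ℝ)| < ρ)) ×ˢ S1 := by
          rw [mem_product, mem_filter, mem_product]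
          exact ⟨⟨⟨hz'.1.1, hz'.1.2.1⟩, hz'.2⟩, hz'.1.2.2⟩
        exact this
      · rintro ⟨⟨a, b⟩, e⟩ hz
        have hz' : (((a, b), e) : (ℤ × ℤ) × ℤ) ∈
            ((S1 ×ˢ S1).filter (fun z => |((z.1 - z.2 : ℤ) : ℝ)| < ρ)) ×ˢ S1 := hz
        rw [mem_product, mem_filter, mem_product] at hz'
        have : ((a, b, e) : ℤ × ℤ × ℤ) ∈ X1 := by
          rw [hX1, mem_filter, hP3, mem_product, mem_product]
          exact ⟨⟨hz'.1.1.1, hz'.1.1.2, hz'.2⟩, hz'.1.2⟩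
        exact this
      · rintro ⟨a, b, e⟩ _; rfl
      · rintro ⟨⟨a, b⟩, e⟩ _; rfl
    have h2 : 10 * X1.card ≤ S1.card ^ 3 := by
      rw [h1]
      calc 10 * (((S1 ×ˢ S1).filter (fun z => |((z.1 - z.2 : ℤ) : ℝ)| < ρ)).card * S1.card) =
          (10 * ((S1 ×ˢ S1).filter (fun z => |((z.1 - z.2 : ℤ) : ℝ)| < ρ)).card) * S1.card := by
            ring
        _ ≤ S1.card ^ 2 * S1.card := Nat.mul_le_mul_right _ hclose
        _ = S1.card ^ 3 := by ring
    exact_mod_cast h2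
  have hc2 : 10 * (X2.card : ℝ) ≤ (S1.card : ℝ) ^ 3 := by
    have h1 := c.col_triples t S1 l hl hcol
    calc 10 * (X2.card : ℝ) ≤ 10 * ((S1.card : ℝ) ^ 2 * (l + 1)) :=
          mul_le_mul_of_nonneg_left h1 (by norm_num)
      _ = (S1.card : ℝ) ^ 2 * (10 * (l + 1)) := by ring
      _ ≤ (S1.card : ℝ) ^ 2 * S1.card := mul_le_mul_of_nonneg_left hl2 (by positivity)
      _ = _ := by ring
  have hc5 : 10 * (X5.card : ℝ) ≤ 2 * (S1.card : ℝ) ^ 3 := by
    -- quadruples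
    set Y := X5.sigma (fun z => S1.filter (fun d => Λ * (Int.gcd (c.dt t z.1 z.2.1 z.2.2)
      (c.dt t z.1 z.2.1 d) : ℝ) < |(c.dt t z.1 z.2.1 z.2.2 : ℝ)|)) with hY
    have h1 : (X5.card : ℝ) * S1.card ≤ 2 * Y.card := by
      rw [hY, card_sigma]
      push_cast
      rw [mul_sum, ← nsmul_eq_mul, ← sum_const]
      refine sum_le_sum fun z hz => ?_
      exact (mem_filter.mp hz).2.2.le
    have h2 : Y.card ≤ (c.BQ Λ t).card := by
      refine Finset.card_le_card_of_injOn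
        (fun y => (((y.1.1, y.1.2.1), (y.1.2.2, y.2)) : (ℤ × ℤ) × (ℤ × ℤ))) ?_ ?_
      · rintro ⟨⟨a, b, e⟩, d⟩ hy
        have hy' : (⟨(a, b, e), d⟩ : Σ _ : ℤ × ℤ × ℤ, ℤ) ∈ Y := hy
        rw [hY, mem_sigma, hX5, mem_filter, mem_filter, hP3, mem_product, mem_product] at hy'
        obtain ⟨⟨⟨ha, hb, he⟩, h3, _⟩, hd, h4⟩ := hy'
        have : (((a, b), (e, d)) : (ℤ × ℤ) × (ℤ × ℤ)) ∈ c.BQ Λ t := by
          rw [BQ, mem_filter, mem_product, mem_product, mem_product]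
          exact ⟨⟨⟨hS1 ha, hS1 hb⟩, hS1 he, hS1 hd⟩, h3, h4⟩
        exact this
      · rintro ⟨⟨a, b, e⟩, d⟩ _ ⟨⟨a', b', e'⟩, d'⟩ _ h
        simp only [Prod.mk.injEq] at h
        obtain ⟨⟨h1, h2⟩, h3, h4⟩ := h
        subst h1 h2 h3 h4
        rfl
    have h3 : (Y.card : ℝ) ≤ ((c.BQ Λ t).card : ℝ) := by exact_mod_cast h2
    have h4 : 10 * ((X5.card : ℝ) * S1.card) ≤ 2 * (S1.card : ℝ) ^ 4 := by linarith
    have h5 : 10 * (X5.card : ℝ) * S1.card ≤ 2 * (S1.card : ℝ) ^ 3 * S1.card := by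
      calc 10 * (X5.card : ℝ) * S1.card = 10 * ((X5.card : ℝ) * S1.card) := by ring
        _ ≤ 2 * (S1.card : ℝ) ^ 4 := h4
        _ = _ := by ring
    exact le_of_mul_le_mul_right h5 hm
  have hP3c : (P3.card : ℝ) = (S1.card : ℝ) ^ 3 := by
    rw [hP3, card_product, card_product]; push_cast; ring
  have hall : P3.card ≤ X1.card + (X2.card + ((c.BD T ρ t).card + ((c.BC F t).card + X5.card))) := by
    have h1 := card_le_card hcov
    have h2 := card_union_le X1 (X2 ∪ (c.BD T ρ t ∪ (c.BC F t ∪ X5)))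
    have h3 := card_union_le X2 (c.BD T ρ t ∪ (c.BC F t ∪ X5))
    have h4 := card_union_le (c.BD T ρ t) (c.BC F t ∪ X5)
    have h5 := card_union_le (c.BC F t) X5
    omega
  have hall' : (P3.card : ℝ) ≤ X1.card + (X2.card + ((c.BD T ρ t).card +
      ((c.BC F t).card + X5.card))) := by exact_mod_cast hall
  rw [hP3c] at hall'
  have : 0 < (S1.card : ℝ) ^ 3 := by positivity
  linarith

end Ctx

end Pool.Agent.MP_741d1b.H87
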