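import Mathlib
import Pool.Agent.Lib.MP_741d1b_nt_h87.T3Det

/-! Common divisors of all determinants, slices. -/

set_option autoImplicit false

namespace Pool.Agent.MP_741d1b.H87

open Finset Classical
open scoped Pointwise

theorem gcd3 (p q r : ℤ) (hne : p ≠ 0) :
    ∃ (g : ℕ) (p' q' r' : ℤ), 0 < g ∧ p = g * p' ∧ q = g * q' ∧ r = g * r' ∧
      (∃ u v w : ℤ, u * p' + v * q' + w * r' = 1) ∧
      ∀ h : ℤ, h ∣ p → h ∣ q → h ∣ r → h ∣ g := by
  set g : ℕ := Int.gcd p (Int.gcd q r) with hg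
  have hg0 : 0 < g := Int.gcd_pos_of_ne_zero_left _ hne
  have hg0' : (g : ℤ) ≠ 0 := by exact_mod_cast hg0.ne'
  have hgp : (g : ℤ) ∣ p := Int.gcd_dvd_left _ _
  have hgqr : (g : ℤ) ∣ (Int.gcd q r : ℤ) := Int.gcd_dvd_right _ _
  have hgq : (g : ℤ) ∣ q := hgqr.trans (Int.gcd_dvd_left _ _)
  have hgr : (g : ℤ) ∣ r := hgqr.trans (Int.gcd_dvd_right _ _)
  obtain ⟨p', hp'⟩ := hgp
  obtain ⟨q', hq'⟩ := hgq
  obtain ⟨r', hr'⟩ := hgr
  refine ⟨g, p', q', r', hg0, hp', hq', hr', ?_, ?_⟩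
  · have hb1 := Int.gcd_eq_gcd_ab p (Int.gcd q r)
    have hb2 := Int.gcd_eq_gcd_ab q r
    set u := Int.gcdA p (Int.gcd q r)
    set v := Int.gcdB p (Int.gcd q r)
    set u2 := Int.gcdA q r
    set v2 := Int.gcdB q r
    refine ⟨u, v * u2, v * v2, ?_⟩
    have h3 : (g : ℤ) * (u * p' + v * u2 * q' + v * v2 * r') = g * 1 := by
      calc (g : ℤ) * (u * p' + v * u2 * q' + v * v2 * r') =
          (g * p') * u + ((g * q') * u2 + (g * r') * v2) * v := by ring
        _ = p * u + (q * u2 + r * v2) * v := by rw [← hp', ← hq', ← hr']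
        _ = p * u + (Int.gcd q r : ℤ) * v := by rw [← hb2]
        _ = g := by rw [hg]; exact hb1.symm
        _ = g * 1 := by ring
    exact mul_left_cancel₀ hg0' h3
  · intro h h1 h2 h3
    have h4 : h ∣ (Int.gcd q r : ℤ) := Int.dvd_coe_gcd h2 h3
    exact Int.dvd_coe_gcd h1 h4

namespace Ctx

variable (c : Ctx)

/-- Size of determinants. -/
theorem dt_bound {m t : ℕ} {x y z : ℤ} (h1 : NI c.M m t (x - y) (c.k t x - c.k t y))
    (h2 : NI c.M m t (x - z) (c.k t x - c.k t z)) :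
    |c.dt t x y z| * m ≤ |x - y| + |x - z| := by
  unfold NI at h1 h2
  have hM : (0 : ℤ) < c.M := by exact_mod_cast c.hM.pos
  have e : (c.M : ℤ) * c.dt t x y z =
      (x - z) * ((t : ℤ) * (x - y) - (c.k t x - c.k t y) * c.M) -
      (x - y) * ((t : ℤ) * (x - z) - (c.k t x - c.k t z) * c.M) := by
    unfold dt; ring
  have h3 : (c.M : ℤ) * |c.dt t x y z| ≤
      |x - z| * |(t : ℤ) * (x - y) - (c.k t x - c.k t y) * c.M| +
      |x - y| * |(t : ℤ) * (x - z) - (c.k t x - c.k t z) * c.M| := by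
    calc (c.M : ℤ) * |c.dt t x y z| = |(c.M : ℤ) * c.dt t x y z| := by
          rw [abs_mul, abs_of_pos hM]
      _ = |(x - z) * ((t : ℤ) * (x - y) - (c.k t x - c.k t y) * c.M) -
          (x - y) * ((t : ℤ) * (x - z) - (c.k t x - c.k t z) * c.M)| := by rw [e]
      _ ≤ _ := abs_sub _ _
      _ = _ := by rw [abs_mul, abs_mul]
  have h4 : (c.M : ℤ) * (|c.dt t x y z| * m) ≤ c.M * (|x - y| + |x - z|) := by
    calc (c.M : ℤ) * (|c.dt t x y z| * m) = (c.M : ℤ) * |c.dt t x y z| * m := by ring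
      _ ≤ (|x - z| * |(t : ℤ) * (x - y) - (c.k t x - c.k t y) * c.M| +
      |x - y| * |(t : ℤ) * (x - z) - (c.k t x - c.k t z) * c.M|) * m :=
          mul_le_mul_of_nonneg_right h3 (by positivity)
      _ = |x - z| * (|(t : ℤ) * (x - y) - (c.k t x - c.k t y) * c.M| * m) +
      |x - y| * (|(t : ℤ) * (x - z) - (c.k t x - c.k t z) * c.M| * m) := by ring
      _ ≤ |x - z| * c.M + |x - y| * c.M := by
          apply add_le_add
          · exact mul_le_mul_of_nonneg_left h1 (abs_nonneg _)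
          · exact mul_le_mul_of_nonneg_left h2 (abs_nonneg _)
      _ = _ := by ring
  exact le_of_mul_le_mul_left h4 hM

/-- Pigeonhole over divisors. -/
theorem div_pigeon (t : ℕ) (S1 : Finset ℤ) (hS1 : S1 ⊆ c.C t) (Λ : ℝ)
    {a b e : ℤ} (ha : a ∈ S1) (hb : b ∈ S1) (he : e ∈ S1) (hD0 : c.dt t a b e ≠ 0)
    (hbad : 2 * ((S1.filter (fun d => Λ * (Int.gcd (c.dt t a b e) (c.dt t a b d) : ℝ) <
        |(c.dt t a b e : ℝ)|)).card : ℝ) ≤ S1.card) :
    ∃ F0 : ℕ, 0 < F0 ∧ |(c.dt t a b e : ℝ)| ≤ Λ * F0 ∧ ∃ C' ⊆ S1,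
      (∀ d ∈ C', (F0 : ℤ) ∣ c.dt t a b d) ∧ (S1.card : ℝ) ≤ 2 * (c.Δ * C'.card) := by
  have hΔ := c.hΔ1
  set good := S1.filter (fun d => ¬ Λ * (Int.gcd (c.dt t a b e) (c.dt t a b d) : ℝ) <
        |(c.dt t a b e : ℝ)|) with hgood
  have hgc : (S1.card : ℝ) ≤ 2 * good.card := by
    have h1 := card_filter_add_card_filter_not (s := S1)
      (fun d => Λ * (Int.gcd (c.dt t a b e) (c.dt t a b d) : ℝ) < |(c.dt t a b e : ℝ)|)
    have h2 : ((S1.filter (fun d => Λ * (Int.gcd (c.dt t a b e) (c.dt t a b d) : ℝ) <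
        |(c.dt t a b e : ℝ)|)).card : ℝ) + good.card = S1.card := by
      rw [hgood]; exact_mod_cast h1
    linarith
  set Dv := (c.dt t a b e).natAbs.divisors with hDv
  have hmaps : ∀ d ∈ good, Int.gcd (c.dt t a b e) (c.dt t a b d) ∈ Dv := by
    intro d _
    rw [hDv, Nat.mem_divisors]
    exact ⟨Int.gcd_dvd_natAbs_left _ _, Int.natAbs_ne_zero.mpr hD0⟩
  have hDvc : (Dv.card : ℝ) ≤ c.Δ := by
    apply c.div_le hD0
    have h1 := c.dt_bound (m := c.n) (c.ni (hS1 ha) (hS1 hb)) (c.ni (hS1 ha) (hS1 he))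
    have h2 := c.sub_le (c.hCA t (hS1 ha)) (c.hCA t (hS1 hb))
    have h3 := c.sub_le (c.hCA t (hS1 ha)) (c.hCA t (hS1 he))
    have h4 : (1 : ℤ) ≤ c.n := by exact_mod_cast c.n_pos
    have h5 : |c.dt t a b e| * 1 ≤ |c.dt t a b e| * c.n :=
      mul_le_mul_of_nonneg_left h4 (abs_nonneg _)
    have h6 : (0 : ℤ) ≤ c.B := by positivity
    linarith
  -- a popular divisor
  have hex : ∃ F0 ∈ Dv, (good.card : ℝ) ≤
      c.Δ * ((good.filter (fun d => Int.gcd (c.dt t a b e) (c.dt t a b d) = F0)).card : ℝ) := by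
    by_contra hcon
    push Not at hcon
    have hne : Dv.Nonempty := by
      rw [hDv]
      exact Nat.nonempty_divisors.mpr (Int.natAbs_ne_zero.mpr hD0)
    have h1 : (good.card : ℝ) =
        ∑ F0 ∈ Dv, ((good.filter (fun d =>
          Int.gcd (c.dt t a b e) (c.dt t a b d) = F0)).card : ℝ) := by
      exact_mod_cast card_eq_sum_card_fiberwise hmaps
    have h2 : ∑ F0 ∈ Dv, c.Δ * ((good.filter (fun d =>
          Int.gcd (c.dt t a b e) (c.dt t a b d) = F0)).card : ℝ) < ∑ F0 ∈ Dv, (good.card : ℝ) :=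
      sum_lt_sum_of_nonempty hne hcon
    rw [← mul_sum, ← h1, sum_const, nsmul_eq_mul] at h2
    have h3 : (Dv.card : ℝ) * good.card ≤ c.Δ * good.card :=
      mul_le_mul_of_nonneg_right hDvc (Nat.cast_nonneg _)
    linarith
  obtain ⟨F0, hF0, hF0c⟩ := hex
  rcases Nat.eq_zero_or_pos good.card with h0 | hpos
  · -- the set is empty
    have hS0 : (S1.card : ℝ) ≤ 0 := by rw [h0] at hgc; simpa using hgc
    have : 0 < S1.card := card_pos.mpr ⟨a, ha⟩
    have : (0 : ℝ) < S1.card := by exact_mod_cast this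
    linarith
  have hfp : 0 < (good.filter (fun d => Int.gcd (c.dt t a b e) (c.dt t a b d) = F0)).card := by
    by_contra h
    have h' : (good.filter (fun d => Int.gcd (c.dt t a b e) (c.dt t a b d) = F0)).card = 0 := by
      omega
    rw [h'] at hF0c
    have : (0 : ℝ) < good.card := by exact_mod_cast hpos
    simp only [Nat.cast_zero, mul_zero] at hF0c
    linarith
  obtain ⟨d0, hd0⟩ := card_pos.mp hfp
  rw [mem_filter, hgood, mem_filter] at hd0
  obtain ⟨⟨_, hd1⟩, hd2⟩ := hd0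
  push Not at hd1
  rw [hd2] at hd1
  refine ⟨F0, ?_, hd1, good.filter (fun d => Int.gcd (c.dt t a b e) (c.dt t a b d) = F0),
    (filter_subset _ _).trans (filter_subset _ _), ?_, ?_⟩
  · rw [← hd2]; exact Int.gcd_pos_of_ne_zero_left _ hD0
  · intro d hd
    rw [mem_filter] at hd
    rw [← hd.2]
    exact Int.gcd_dvd_right _ _
  · linarith

/-- All determinants have a common divisor. -/
theorem all_dets (t : ℕ) (C' : Finset ℤ) {a b : ℤ} (hab : a ≠ b) (F0 : ℕ) (hF0 : 0 < F0)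
    (hdiv : ∀ d ∈ C', (F0 : ℤ) ∣ c.dt t a b d) :
    ∃ G : ℕ, 0 < G ∧ F0 ≤ G * Int.gcd (a - b) (c.k t a - c.k t b) ∧
      ∀ x ∈ C', ∀ y ∈ C', ∀ z ∈ C', (G : ℤ) ∣ c.dt t x y z := by
  have hx0 : a - b ≠ 0 := sub_ne_zero.mpr hab
  have hgp : 0 < Int.gcd (a - b) (c.k t a - c.k t b) := Int.gcd_pos_of_ne_zero_left _ hx0
  obtain ⟨p, q, hco, hp, hq⟩ := Int.exists_gcd_one hgp
  set f := Int.gcd (a - b) (c.k t a - c.k t b) with hf
  obtain ⟨u, v, huv⟩ := Int.isCoprime_iff_gcd_eq_one.mpr hco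
  have hh : 0 < Nat.gcd F0 f := Nat.gcd_pos_of_pos_left _ hF0
  set h := Nat.gcd F0 f with hhdef
  obtain ⟨G, hG⟩ : h ∣ F0 := Nat.gcd_dvd_left _ _
  obtain ⟨f', hf'⟩ : h ∣ f := Nat.gcd_dvd_right _ _
  have hGpos : 0 < G := by
    rcases Nat.eq_zero_or_pos G with h0 | h0
    · rw [h0, mul_zero] at hG; omega
    · exact h0
  have hcop : Nat.Coprime G f' := by
    have h1 := Nat.coprime_div_gcd_div_gcd hh
    rw [← hhdef] at h1
    have h2 : F0 / h = G := by
      conv_lhs => rw [hG]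
      exact Nat.mul_div_cancel_left _ hh
    have h3 : f / h = f' := by
      conv_lhs => rw [hf']
      exact Nat.mul_div_cancel_left _ hh
    rwa [h2, h3] at h1
  refine ⟨G, hGpos, ?_, ?_⟩
  · rw [hG, mul_comm]
    exact Nat.mul_le_mul_left _ (Nat.le_of_dvd hgp (Nat.gcd_dvd_right _ _))
  · -- the basic divisibility
    have key : ∀ d ∈ C', (G : ℤ) ∣ p * (c.k t a - c.k t d) - (a - d) * q := by
      intro d hd
      have h1 := hdiv d hd
      have e1 : c.dt t a b d = (f : ℤ) * (p * (c.k t a - c.k t d) - (a - d) * q) := by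
        unfold dt
        rw [hp, hq]
        ring
      rw [e1, hG, hf'] at h1
      push_cast at h1
      have e2 : (h : ℤ) * f' * (p * (c.k t a - c.k t d) - (a - d) * q) =
          (h : ℤ) * (f' * (p * (c.k t a - c.k t d) - (a - d) * q)) := by ring
      rw [e2] at h1
      have hh0 : (h : ℤ) ≠ 0 := by exact_mod_cast hh.ne'
      have h2 := (mul_dvd_mul_iff_left hh0).mp h1
      have h3 : IsCoprime (G : ℤ) (f' : ℤ) := Nat.isCoprime_iff_coprime.mpr hcop
      exact h3.dvd_of_dvd_mul_left h2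
    intro x hx y hy z hz
    have h1 : (G : ℤ) ∣ p * (c.k t x - c.k t y) - (x - y) * q := by
      have := dvd_sub (key y hy) (key x hx)
      have e : p * (c.k t a - c.k t y) - (a - y) * q - (p * (c.k t a - c.k t x) - (a - x) * q) =
          p * (c.k t x - c.k t y) - (x - y) * q := by ring
      rwa [e] at this
    have h2 : (G : ℤ) ∣ p * (c.k t x - c.k t z) - (x - z) * q := by
      have := dvd_sub (key z hz) (key x hx)
      have e : p * (c.k t a - c.k t z) - (a - z) * q - (p * (c.k t a - c.k t x) - (a - x) * q) =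
          p * (c.k t x - c.k t z) - (x - z) * q := by ring
      rwa [e] at this
    have e : c.dt t x y z = (u * (x - y) + v * (c.k t x - c.k t y)) *
        (p * (c.k t x - c.k t z) - (x - z) * q) - (u * (x - z) + v * (c.k t x - c.k t z)) *
        (p * (c.k t x - c.k t y) - (x - y) * q) := by
      have e2 : c.dt t x y z = (u * p + v * q) * c.dt t x y z := by rw [huv, one_mul]
      rw [e2]
      unfold dt
      ring
    rw [e]
    exact dvd_sub (Dvd.dvd.mul_left h2 _) (Dvd.dvd.mul_left h1 _)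

end Ctx

end Pool.Agent.MP_741d1b.H87
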