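import Mathlib
import Pool.Agent.Lib.MP_741d1b_nt_h87.T3Slice

/-! Clusters without rich lines force large energy. -/

set_option autoImplicit false

namespace Pool.Agent.MP_741d1b.H87

open Finset Classical
open scoped Pointwise

namespace Ctx

variable (c : Ctx)

theorem B_pos : 1 ≤ c.B := by
  by_contra h
  have hB0 : c.B = 0 := by omega
  have h1 : c.A ⊆ {0} := by
    intro a ha
    have h2 := c.hB a ha
    rw [hB0] at h2
    simp only [Nat.cast_zero, abs_nonpos_iff] at h2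
    simp [h2]
  have h2 := card_le_card h1
  rw [c.hA, card_singleton] at h2
  have := c.hn
  omega

/-- The scales. -/
noncomputable def Rj (q : ℝ) (j : ℕ) : ℝ := 2 * c.B * (2 / q) ^ j

theorem Rj_pos {q : ℝ} (hq : 0 < q) (j : ℕ) : 0 < c.Rj q j := by
  have : (0 : ℝ) < c.B := by exact_mod_cast c.B_pos
  unfold Rj
  positivity

/-- One multiplier. -/
theorem per_t (N : ℝ) (q0 J : ℕ) (hNn : N ^ 3 = c.n) (hN : 0 < N) (hq : 1000 ≤ q0)
    (hJ : 4 * 10 ^ J ≤ q0) (hRJ : 2 * (c.B : ℝ) * (2 / (q0 : ℝ)) ^ J < 1)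
    (hbig : (q0 : ℝ) ^ 90 ≤ N) (hK1 : N / q0 ≤ c.K) (hD1 : c.D1 ≤ q0) (t : ℕ)
    (hS : (c.K : ℝ) / 4 ≤ ((c.C t ∩ c.As).card : ℝ))
    (hcol : ∀ a ∈ c.C t ∩ c.As, ∀ b ∈ c.C t ∩ c.As, a ≠ b →
      (((c.C t ∩ c.As).filter (fun z => c.dt t a b z = 0)).card : ℝ) ≤ N / (q0 : ℝ) ^ 85)
    (h1 : 10 * ∑ j ∈ range J, ((c.BD (c.Rj q0 j / (c.n * (q0 : ℝ) ^ 9)) (c.Rj q0 j / q0) t).card : ℝ) ≤
      (N / (q0 : ℝ) ^ 2) ^ 3)
    (h2 : 10 * ((c.BC (q0 ^ 8) t).card : ℝ) ≤ (N / (q0 : ℝ) ^ 2) ^ 3)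
    (h3 : 10 * ((c.BQ (N ^ 2 * (q0 : ℝ) ^ 10) t).card : ℝ) ≤ (N / (q0 : ℝ) ^ 2) ^ 4)
    (L : ℕ) (hL : 2 * N ^ 2 / (q0 : ℝ) ^ 53 ≤ L) :
    N ^ 4 / (16 * (q0 : ℝ) ^ 252) ≤ ((c.W (c.n * q0 ^ 80) L t).card : ℝ) := by
  set q : ℝ := (q0 : ℝ) with hqdef
  have hq' : (1000 : ℝ) ≤ q := by rw [hqdef]; exact_mod_cast hq
  have hq0 : 0 < q := by linarith
  have hq1 : 1 ≤ q := by linarith
  have hn := c.n_pos'
  have hΔ := c.hΔ1
  have hlog := c.log_nonneg
  have hΔq : 2 * c.Δ ≤ q := by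
    unfold D1 at hD1
    have h4 : 30 * c.Δ * 1 ≤ 30 * c.Δ * (1 + Real.log c.n) :=
      mul_le_mul_of_nonneg_left (by linarith) (by linarith)
    linarith
  have hN1 : 1 ≤ N := le_trans (one_le_pow₀ hq1) hbig
  have hNk : ∀ k ≤ 90, q ^ k ≤ N := fun k hk => (pow_le_pow_right₀ hq1 hk).trans hbig
  have hJ' : 4 * (10 : ℝ) ^ J ≤ q := by rw [hqdef]; exact_mod_cast hJ
  set S := c.C t ∩ c.As with hSdef
  have hScard : N / (4 * q) ≤ (S.card : ℝ) := by
    refine le_trans ?_ hS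
    calc N / (4 * q) = N / q / 4 := by field_simp
      _ ≤ c.K / 4 := by linarith
  have hJS : 10 ^ J < S.card := by
    have h4 : ((10 ^ J : ℕ) : ℝ) < S.card := by
      push_cast
      refine lt_of_lt_of_le ?_ hScard
      rw [lt_div_iff₀ (by positivity)]
      calc (10 : ℝ) ^ J * (4 * q) = (4 * 10 ^ J) * q := by ring
        _ ≤ q * q := mul_le_mul_of_nonneg_right hJ' hq0.le
        _ < q ^ 3 := by nlinarith
        _ ≤ N := hNk 3 (by norm_num)
    exact_mod_cast h4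
  obtain ⟨j, hj, S1, hS1, hS1c, hdiam, hclose⟩ := good_scale q (2 * c.B) J hRJ S (by
    intro a ha b hb
    have h4 := c.sub_le (c.hCA t (mem_inter.mp ha).1) (c.hCA t (mem_inter.mp hb).1)
    have h5 : ((|a - b| : ℤ) : ℝ) ≤ ((2 * c.B : ℤ) : ℝ) := by exact_mod_cast h4
    push_cast at h5 ⊢
    exact h5) hJS
  have hRjdef : 2 * (c.B : ℝ) * (2 / q) ^ j = c.Rj q j := rfl
  rw [hRjdef] at hdiam hclose
  have hRj := c.Rj_pos hq0 j
  have hm1 : N / q ^ 2 ≤ (S1.card : ℝ) := by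
    have h4 : (S.card : ℝ) ≤ 10 ^ J * S1.card := by
      have h5 : S.card ≤ 10 ^ J * S1.card := by
        refine hS1c.trans (Nat.mul_le_mul_right _ (Nat.pow_le_pow_right (by norm_num) hj.le))
      exact_mod_cast h5
    have h6 : N / (4 * q) ≤ 10 ^ J * (S1.card : ℝ) := hScard.trans h4
    rw [div_le_iff₀ (by positivity)] at h6 ⊢
    calc N ≤ 10 ^ J * (S1.card : ℝ) * (4 * q) := h6
      _ = (4 * 10 ^ J) * (S1.card * q) := by ring
      _ ≤ q * (S1.card * q) := mul_le_mul_of_nonneg_right hJ' (by positivity)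
      _ = _ := by ring
  have hmpos : 0 < N / q ^ 2 := by positivity
  have hm1pos : (0 : ℝ) < S1.card := lt_of_lt_of_le hmpos hm1
  have hS1pos : 0 < S1.card := by exact_mod_cast hm1pos
  have hS1C : S1 ⊆ c.C t := fun x hx => (mem_inter.mp (hS1 hx)).1
  have hl0 : 0 ≤ N / q ^ 85 := by positivity
  have hl1 : 1 ≤ N / q ^ 85 := by
    rw [le_div_iff₀ (by positivity), one_mul]; exact hNk 85 (by norm_num)
  have hcolS : ∀ S' ⊆ S, ∀ a ∈ S', ∀ b ∈ S', a ≠ b →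
      ((S'.filter (fun z => c.dt t a b z = 0)).card : ℝ) ≤ N / q ^ 85 := by
    intro S' hS' a ha b hb hab
    refine le_trans ?_ (hcol a (hS' ha) b (hS' hb) hab)
    exact_mod_cast card_le_card (filter_subset_filter _ hS')
  obtain ⟨a, ha, b, hb, e, he, hD0, hT, hf, hbad⟩ := c.good_triple t S1 hS1C hS1pos
    (c.Rj q j / q) (c.Rj q j / (c.n * q ^ 9)) (N ^ 2 * q ^ 10) (N / q ^ 85) (q0 ^ 8) hl0 hclose
    (hcolS S1 hS1) (by
      calc 10 * (N / q ^ 85 + 1) ≤ 10 * (N / q ^ 85 + N / q ^ 85) := by linarith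
        _ = N / q ^ 2 * (20 / q ^ 83) := by field_simp; norm_num
        _ ≤ N / q ^ 2 * 1 := by
            apply mul_le_mul_of_nonneg_left _ hmpos.le
            rw [div_le_one (by positivity)]
            calc (20 : ℝ) ≤ q ^ 1 := by linarith
              _ ≤ q ^ 83 := pow_le_pow_right₀ hq1 (by norm_num)
        _ = N / q ^ 2 := mul_one _
        _ ≤ S1.card := hm1) (by
      have h4 : ((c.BD (c.Rj q j / (c.n * q ^ 9)) (c.Rj q j / q) t).card : ℝ) ≤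
          ∑ j ∈ range J, ((c.BD (c.Rj q j / (c.n * q ^ 9)) (c.Rj q j / q) t).card : ℝ) :=
        Finset.single_le_sum (f := fun j =>
          ((c.BD (c.Rj q j / (c.n * q ^ 9)) (c.Rj q j / q) t).card : ℝ))
          (fun j _ => Nat.cast_nonneg _) (mem_range.mpr hj)
      have h5 := pow_le_pow_left₀ hmpos.le hm1 3
      linarith) (by
      have h5 := pow_le_pow_left₀ hmpos.le hm1 3
      linarith) (by
      have h5 := pow_le_pow_left₀ hmpos.le hm1 4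
      linarith)
  have hab : a ≠ b := by
    intro h; apply hD0; rw [h]; unfold dt; ring
  obtain ⟨F0, hF0, hF0b, C', hC'S1, hC'div, hC'c⟩ := c.div_pigeon t S1 hS1C (N ^ 2 * q ^ 10)
    ha hb he hD0 hbad
  obtain ⟨G, hG, hGF, hGdiv⟩ := c.all_dets t C' hab F0 hF0 hC'div
  have hC'card : N / q ^ 3 ≤ (C'.card : ℝ) := by
    have h4 : N / q ^ 2 ≤ q * C'.card := by
      calc N / q ^ 2 ≤ S1.card := hm1
        _ ≤ 2 * (c.Δ * C'.card) := hC'c
        _ = (2 * c.Δ) * C'.card := by ring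
        _ ≤ q * C'.card := mul_le_mul_of_nonneg_right hΔq (Nat.cast_nonneg _)
    rw [div_le_iff₀ (by positivity)] at h4 ⊢
    calc N ≤ q * C'.card * q ^ 2 := h4
      _ = _ := by ring
  have hG' : (0 : ℝ) < G := by exact_mod_cast hG
  have hRG : c.Rj q j ≤ c.n * N ^ 2 * q ^ 27 * G := by
    have h4 : (F0 : ℝ) ≤ G * q ^ 8 := by
      have h5 : F0 ≤ G * q0 ^ 8 := hGF.trans (Nat.mul_le_mul_left _ hf.le)
      have h6 : (F0 : ℝ) ≤ ((G * q0 ^ 8 : ℕ) : ℝ) := by exact_mod_cast h5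
      push_cast at h6
      exact h6
    have h5 : c.Rj q j / (c.n * q ^ 9) ≤ N ^ 2 * q ^ 10 * (G * q ^ 8) := by
      calc c.Rj q j / (c.n * q ^ 9) ≤ |(c.dt t a b e : ℝ)| := hT.le
        _ ≤ N ^ 2 * q ^ 10 * F0 := hF0b
        _ ≤ _ := mul_le_mul_of_nonneg_left h4 (by positivity)
    rw [div_le_iff₀ (by positivity)] at h5
    calc c.Rj q j ≤ N ^ 2 * q ^ 10 * (G * q ^ 8) * (c.n * q ^ 9) := h5
      _ = _ := by ring
  have hC'S : C' ⊆ S := hC'S1.trans hS1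
  have hslice := c.slice t C' hC'S (c.Rj q j)
    (fun x hx y hy => hdiam x (hC'S1 hx) y (hC'S1 hy)) G (q0 ^ 80) L hG
    (pow_pos (by omega) 80) hGdiv (N / q ^ 85) hl0 (hcolS C' hC'S) (by
      push_cast
      have h4 : N / q ^ 85 + 1 ≤ 2 * (N / q ^ 85) := by linarith
      have h5 : q ^ 80 + 1 ≤ 2 * q ^ 80 := by
        have := one_le_pow₀ (n := 80) hq1
        linarith
      calc 16 * (N / q ^ 85 + 1) * (q ^ 80 + 1) ≤ 16 * (2 * (N / q ^ 85)) * (2 * q ^ 80) := by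
            gcongr
        _ = N / q ^ 3 * (64 / q ^ 2) := by field_simp; norm_num
        _ ≤ N / q ^ 3 * 1 := by
            apply mul_le_mul_of_nonneg_left _ (by positivity)
            rw [div_le_one (by positivity)]
            nlinarith
        _ = N / q ^ 3 := mul_one _
        _ ≤ C'.card := hC'card) (by
      push_cast
      calc 2 * c.Rj q j ≤ 2 * (c.n * N ^ 2 * q ^ 27 * G) := by linarith
        _ = (2 * N ^ 2 / q ^ 53) * (c.n * q ^ 80 * G) := by field_simp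
        _ ≤ L * (c.n * q ^ 80 * G) := mul_le_mul_of_nonneg_right hL (by positivity))
  push_cast at hslice
  rw [← hqdef] at hslice
  set Wc := ((c.W (c.n * q0 ^ 80) L t).card : ℝ) with hWc
  have hW0 : 0 ≤ Wc := Nat.cast_nonneg _
  have h5 : q ^ 80 + 1 ≤ 2 * q ^ 80 := by
    have := one_le_pow₀ (n := 80) hq1
    linarith
  have h6 : 3 * (N / q ^ 3) ^ 4 ≤ 4 * (2 * q ^ 80) ^ 3 * Wc := by
    calc 3 * (N / q ^ 3) ^ 4 ≤ 3 * (C'.card : ℝ) ^ 4 := by
          apply mul_le_mul_of_nonneg_left _ (by norm_num)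
          exact pow_le_pow_left₀ (by positivity) hC'card 4
      _ ≤ 4 * (q ^ 80 + 1) ^ 3 * Wc := hslice
      _ ≤ _ := by
          apply mul_le_mul_of_nonneg_right _ hW0
          apply mul_le_mul_of_nonneg_left _ (by norm_num)
          exact pow_le_pow_left₀ (by positivity) h5 3
  rw [div_le_iff₀ (by positivity)]
  have e1 : 3 * (N / q ^ 3) ^ 4 = 3 * (N ^ 4 / q ^ 12) := by field_simp
  rw [e1] at h6
  have h7 : 3 * N ^ 4 ≤ 32 * q ^ 240 * Wc * q ^ 12 := by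
    have h8 : 3 * (N ^ 4 / q ^ 12) * q ^ 12 ≤ 4 * (2 * q ^ 80) ^ 3 * Wc * q ^ 12 :=
      mul_le_mul_of_nonneg_right h6 (by positivity)
    have e2 : 3 * (N ^ 4 / q ^ 12) * q ^ 12 = 3 * N ^ 4 := by field_simp
    rw [e2] at h8
    refine h8.trans (le_of_eq ?_)
    ring
  have h9 : 0 ≤ Wc * q ^ 252 := by positivity
  have e3 : 32 * q ^ 240 * Wc * q ^ 12 = 32 * (Wc * q ^ 252) := by ring
  rw [e3] at h7
  calc N ^ 4 ≤ 32 / 3 * (Wc * q ^ 252) := by linarith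
    _ ≤ 16 * (Wc * q ^ 252) := mul_le_mul_of_nonneg_right (by norm_num) h9
    _ = _ := by ring

end Ctx

end Pool.Agent.MP_741d1b.H87
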