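import Mathlib
import Pool.Agent.Lib.MP_741d1b_nt_h87.T3Case2

/-! Clusters without rich lines force large energy: conclusion. -/

set_option autoImplicit false

namespace Pool.Agent.MP_741d1b.H87

open Finset Classical
open scoped Pointwise

/-- Markov. -/
theorem markov {M : ℕ} (f : ℕ → ℝ) (hf : ∀ t, 0 ≤ f t) (b thr : ℝ) (hthr : 0 < thr)
    (hsum : ∑ t ∈ range M, f t ≤ M * b) (hb : 48 * b ≤ thr) :
    (((range M).filter (fun t => thr < f t)).card : ℝ) ≤ M / 48 := by
  have h1 : (((range M).filter (fun t => thr < f t)).card : ℝ) * thr ≤ M * b := by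
    calc (((range M).filter (fun t => thr < f t)).card : ℝ) * thr =
        ∑ t ∈ (range M).filter (fun t => thr < f t), thr := by rw [sum_const, nsmul_eq_mul]
      _ ≤ ∑ t ∈ (range M).filter (fun t => thr < f t), f t :=
          sum_le_sum fun t ht => (mem_filter.mp ht).2.le
      _ ≤ ∑ t ∈ range M, f t := Finset.sum_le_sum_of_subset_of_nonneg (filter_subset _ _)
          (fun t _ _ => hf t)
      _ ≤ _ := hsum
  have h2 : (M : ℝ) * b ≤ M / 48 * thr := by
    calc (M : ℝ) * b ≤ M * (thr / 48) := mul_le_mul_of_nonneg_left (by linarith) (Nat.cast_nonneg _)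
      _ = _ := by ring
  exact le_of_mul_le_mul_right (h1.trans h2) hthr

namespace Ctx

variable (c : Ctx)

/-- Case 2. -/
theorem slice_case (N : ℝ) (q0 J : ℕ) (hNn : N ^ 3 = c.n) (hN : 0 < N) (hq : 1000 ≤ q0)
    (hJ : 4 * 10 ^ J ≤ q0) (hRJ : 2 * (c.B : ℝ) * (2 / (q0 : ℝ)) ^ J < 1)
    (hbig : (q0 : ℝ) ^ 90 ≤ N) (hK1 : N / q0 ≤ c.K) (hD1 : c.D1 ≤ q0)
    (Θ : Finset ℕ) (hΘ : Θ ⊆ range c.M) (hΘc : (c.M : ℝ) / 8 ≤ Θ.card)
    (hS : ∀ t ∈ Θ, (c.K : ℝ) / 4 ≤ ((c.C t ∩ c.As).card : ℝ))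
    (hcol : ∀ t ∈ Θ, ∀ a ∈ c.C t ∩ c.As, ∀ b ∈ c.C t ∩ c.As, a ≠ b →
      (((c.C t ∩ c.As).filter (fun z => c.dt t a b z = 0)).card : ℝ) ≤ N / (q0 : ℝ) ^ 85) :
    N ^ 8 / (q0 : ℝ) ^ 43 ≤ En c.As := by
  obtain ⟨q, hqdef⟩ : ∃ q : ℝ, q = (q0 : ℝ) := ⟨_, rfl⟩
  rw [← hqdef] at hRJ hbig hK1 hD1 hcol ⊢
  have hq' : (1000 : ℝ) ≤ q := by rw [hqdef]; exact_mod_cast hq
  have hq0 : 0 < q := by linarith
  have hq1 : 1 ≤ q := by linarith
  have hq2 : (1000000 : ℝ) ≤ q ^ 2 := by nlinarith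
  have hn := c.n_pos'
  have hM := c.M_pos'
  have hΔ := c.hΔ1
  have hlog := c.log_nonneg
  have hlam : c.Δ * (1 + Real.log c.n) ≤ q / 30 := by
    unfold D1 at hD1
    have : 30 * c.Δ * (1 + Real.log c.n) = 30 * (c.Δ * (1 + Real.log c.n)) := by ring
    linarith
  have hlam1 : 1 + Real.log c.n ≤ q / 30 := by
    refine le_trans ?_ hlam
    calc 1 + Real.log c.n = 1 * (1 + Real.log c.n) := by ring
      _ ≤ _ := mul_le_mul_of_nonneg_right hΔ (by linarith)
  have hΔq : c.Δ ≤ q / 30 := by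
    refine le_trans ?_ hlam
    calc c.Δ = c.Δ * 1 := by ring
      _ ≤ _ := mul_le_mul_of_nonneg_left (by linarith) (by linarith)
  have hN1 : 1 ≤ N := le_trans (one_le_pow₀ hq1) hbig
  have hNk : ∀ k ≤ 90, q ^ k ≤ N := fun k hk => (pow_le_pow_right₀ hq1 hk).trans hbig
  have hJ' : 4 * (10 : ℝ) ^ J ≤ q := by rw [hqdef]; exact_mod_cast hJ
  have hJq : (J : ℝ) ≤ q / 4 := by
    have h1 : J < 10 ^ J := Nat.lt_pow_self (by norm_num)
    have h2 : (J : ℝ) < 10 ^ J := by exact_mod_cast h1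
    linarith
  have hmpos : 0 < N / q ^ 2 := by positivity
  -- the bad multipliers
  set β1 : ℕ → ℝ := fun t => 10 * ∑ j ∈ range J,
    ((c.BD (c.Rj q j / (c.n * q ^ 9)) (c.Rj q j / q) t).card : ℝ) with hβ1
  set β2 : ℕ → ℝ := fun t => 10 * ((c.BC (q0 ^ 8) t).card : ℝ) with hβ2
  set β3 : ℕ → ℝ := fun t => 10 * ((c.BQ (N ^ 2 * q ^ 10) t).card : ℝ) with hβ3
  have hb1 : (((range c.M).filter (fun t => (N / q ^ 2) ^ 3 < β1 t)).card : ℝ) ≤ c.M / 48 := by
    apply markov β1 _ (60 * J * c.n / q ^ 8) ((N / q ^ 2) ^ 3) (by positivity)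
    · simp only [hβ1]
      rw [← mul_sum, sum_comm]
      have h1 : ∀ j ∈ range J, ∑ t ∈ range c.M,
          ((c.BD (c.Rj q j / (c.n * q ^ 9)) (c.Rj q j / q) t).card : ℝ) ≤
          c.M * (6 * c.n / q ^ 8) := by
        intro j _
        have hR := c.Rj_pos hq0 j
        refine (c.sum_BD _ _ (by positivity) (by positivity)).trans (le_of_eq ?_)
        field_simp
      calc 10 * ∑ j ∈ range J, ∑ t ∈ range c.M,
          ((c.BD (c.Rj q j / (c.n * q ^ 9)) (c.Rj q j / q) t).card : ℝ) ≤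
          10 * ∑ j ∈ range J, (c.M : ℝ) * (6 * c.n / q ^ 8) :=
            mul_le_mul_of_nonneg_left (sum_le_sum h1) (by norm_num)
        _ = c.M * (60 * J * c.n / q ^ 8) := by
            rw [sum_const, card_range, nsmul_eq_mul]; ring
    · rw [← hNn]
      calc 48 * (60 * J * N ^ 3 / q ^ 8) = (N / q ^ 2) ^ 3 * (2880 * J / q ^ 2) := by
            field_simp; ring
        _ ≤ (N / q ^ 2) ^ 3 * 1 := by
            apply mul_le_mul_of_nonneg_left _ (by positivity)
            rw [div_le_one (by positivity)]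
            calc 2880 * (J : ℝ) ≤ 2880 * (q / 4) := mul_le_mul_of_nonneg_left hJq (by norm_num)
              _ = 720 * q := by ring
              _ ≤ q * q := mul_le_mul_of_nonneg_right (by linarith) hq0.le
              _ = q ^ 2 := by ring
        _ = _ := mul_one _
    · intro t
      simp only [hβ1]
      exact mul_nonneg (by norm_num) (sum_nonneg fun j _ => Nat.cast_nonneg _)
  have hb2 : (((range c.M).filter (fun t => (N / q ^ 2) ^ 3 < β2 t)).card : ℝ) ≤ c.M / 48 := by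
    apply markov β2 _ (120 * c.Δ * c.n / q ^ 8) ((N / q ^ 2) ^ 3) (by positivity)
    · simp only [hβ2]
      rw [← mul_sum]
      have h1 := c.sum_BC (q0 ^ 8) (Nat.one_le_pow _ _ (by omega))
      push_cast at h1
      rw [← hqdef] at h1
      calc 10 * ∑ t ∈ range c.M, ((c.BC (q0 ^ 8) t).card : ℝ) ≤
          10 * (c.M * (12 * c.Δ * c.n / q ^ 8)) := mul_le_mul_of_nonneg_left h1 (by norm_num)
        _ = _ := by ring
    · rw [← hNn]
      calc 48 * (120 * c.Δ * N ^ 3 / q ^ 8) = (N / q ^ 2) ^ 3 * (5760 * c.Δ / q ^ 2) := by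
            field_simp; norm_num
        _ ≤ (N / q ^ 2) ^ 3 * 1 := by
            apply mul_le_mul_of_nonneg_left _ (by positivity)
            rw [div_le_one (by positivity)]
            calc 5760 * c.Δ ≤ 5760 * (q / 30) := mul_le_mul_of_nonneg_left hΔq (by norm_num)
              _ = 192 * q := by ring
              _ ≤ q * q := mul_le_mul_of_nonneg_right (by linarith) hq0.le
              _ = q ^ 2 := by ring
        _ = _ := mul_one _
    · intro t
      simp only [hβ2]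
      positivity
  have hn24 : 24 ≤ c.n := by
    have h1 : (24 : ℝ) ≤ c.n := by
      rw [← hNn]
      calc (24 : ℝ) ≤ q ^ 1 := by linarith
        _ ≤ N := hNk 1 (by norm_num)
        _ ≤ N ^ 3 := by
            calc N = N ^ 1 := by ring
              _ ≤ N ^ 3 := pow_le_pow_right₀ hN1 (by norm_num)
    exact_mod_cast h1
  have hb3 : (((range c.M).filter (fun t => (N / q ^ 2) ^ 4 < β3 t)).card : ℝ) ≤ c.M / 48 := by
    apply markov β3 _ (10 * (12 * c.n ^ 2 / (N ^ 2 * q ^ 10) + 221184 * c.n)) ((N / q ^ 2) ^ 4)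
      (by positivity)
    · simp only [hβ3]
      rw [← mul_sum]
      have h1 := c.sum_BQ (N ^ 2 * q ^ 10) (by positivity) hn24
      calc 10 * ∑ t ∈ range c.M, ((c.BQ (N ^ 2 * q ^ 10) t).card : ℝ) ≤
          10 * (c.M * (12 * c.n ^ 2 / (N ^ 2 * q ^ 10) + 221184 * c.n)) :=
            mul_le_mul_of_nonneg_left h1 (by norm_num)
        _ = _ := by ring
    · rw [← hNn]
      have e1 : 12 * (N ^ 3) ^ 2 / (N ^ 2 * q ^ 10) = (N / q ^ 2) ^ 4 * (12 / q ^ 2) := by
        field_simp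
      have e2 : 221184 * N ^ 3 = (N / q ^ 2) ^ 4 * (221184 * q ^ 8 / N) := by
        field_simp
      have k1 : 12 / q ^ 2 ≤ 12 / 1000000 := div_le_div_of_nonneg_left (by norm_num) (by norm_num) hq2
      have k2 : 221184 * q ^ 8 / N ≤ 1 / 1000000 := by
        rw [div_le_div_iff₀ hN (by norm_num)]
        have hq4 : (1000000 : ℝ) * 1000000 ≤ q ^ 4 := by
          calc (1000000 : ℝ) * 1000000 ≤ q ^ 2 * q ^ 2 := by gcongr
            _ = q ^ 4 := by ring
        calc 221184 * q ^ 8 * 1000000 = (221184 * 1000000) * q ^ 8 := by ring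
          _ ≤ q ^ 4 * q ^ 8 := mul_le_mul_of_nonneg_right (by linarith) (by positivity)
          _ = q ^ 12 := by ring
          _ ≤ N := hNk 12 (by norm_num)
          _ = 1 * N := by ring
      rw [e1, e2]
      have hp : 0 ≤ (N / q ^ 2) ^ 4 := by positivity
      calc 48 * (10 * ((N / q ^ 2) ^ 4 * (12 / q ^ 2) + (N / q ^ 2) ^ 4 * (221184 * q ^ 8 / N))) =
          (N / q ^ 2) ^ 4 * (480 * (12 / q ^ 2 + 221184 * q ^ 8 / N)) := by ring
        _ ≤ (N / q ^ 2) ^ 4 * 1 := by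
            apply mul_le_mul_of_nonneg_left _ hp
            linarith
        _ = _ := mul_one _
    · intro t
      simp only [hβ3]
      positivity
  -- good multipliers
  set X1 := (range c.M).filter (fun t => (N / q ^ 2) ^ 3 < β1 t) with hX1
  set X2 := (range c.M).filter (fun t => (N / q ^ 2) ^ 3 < β2 t) with hX2
  set X3 := (range c.M).filter (fun t => (N / q ^ 2) ^ 4 < β3 t) with hX3
  set Θg := Θ \ (X1 ∪ (X2 ∪ X3)) with hΘg
  have hΘgc : (c.M : ℝ) / 16 ≤ Θg.card := by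
    have h1 : Θ ⊆ Θg ∪ (X1 ∪ (X2 ∪ X3)) := by
      intro t ht
      by_cases h : t ∈ X1 ∪ (X2 ∪ X3)
      · exact mem_union_right _ h
      · exact mem_union_left _ (mem_sdiff.mpr ⟨ht, h⟩)
    have h2 := card_le_card h1
    have h3 := card_union_le Θg (X1 ∪ (X2 ∪ X3))
    have h4 := card_union_le X1 (X2 ∪ X3)
    have h5 := card_union_le X2 X3
    have h6 : Θ.card ≤ Θg.card + X1.card + X2.card + X3.card := by omega
    have h7 : (Θ.card : ℝ) ≤ Θg.card + X1.card + X2.card + X3.card := by exact_mod_cast h6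
    linarith
  -- the height bound
  obtain ⟨L, hLdef⟩ : ∃ L : ℕ, L = ⌊N ^ 2 / q ^ 52⌋₊ := ⟨_, rfl⟩
  have hL1 : (L : ℝ) ≤ N ^ 2 / q ^ 52 := by rw [hLdef]; exact Nat.floor_le (by positivity)
  have hLbig : 2 ≤ N ^ 2 / q ^ 52 := by
    rw [le_div_iff₀ (by positivity)]
    calc 2 * q ^ 52 ≤ q * q ^ 52 := mul_le_mul_of_nonneg_right (by linarith) (by positivity)
      _ = q ^ 53 := by ring
      _ ≤ N := hNk 53 (by norm_num)
      _ = N ^ 1 := by ring
      _ ≤ N ^ 2 := pow_le_pow_right₀ hN1 (by norm_num)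
  have hL2 : 2 * N ^ 2 / q ^ 53 ≤ L := by
    have h1 := Nat.lt_floor_add_one (N ^ 2 / q ^ 52)
    rw [← hLdef] at h1
    have e : 2 * N ^ 2 / q ^ 53 = N ^ 2 / q ^ 52 * (2 / q) := by field_simp
    have h2 : 2 / q ≤ 2 / 1000 := div_le_div_of_nonneg_left (by norm_num) (by norm_num) hq'
    have h3 : N ^ 2 / q ^ 52 * (2 / q) ≤ N ^ 2 / q ^ 52 * (2 / 1000) :=
      mul_le_mul_of_nonneg_left h2 (by positivity)
    rw [e]
    linarith
  have hLpos : (0 : ℝ) < L := lt_of_lt_of_le (by positivity) hL2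
  have hL0 : 1 ≤ L := by
    have : 0 < L := by exact_mod_cast hLpos
    omega
  have hLN : (L : ℝ) ≤ N ^ 2 := by
    refine hL1.trans ?_
    rw [div_le_iff₀ (by positivity)]
    calc N ^ 2 = N ^ 2 * 1 := by ring
      _ ≤ N ^ 2 * q ^ 52 := mul_le_mul_of_nonneg_left (one_le_pow₀ hq1) (by positivity)
  have hLn : L ≤ c.n := by
    have : (L : ℝ) ≤ c.n := by
      rw [← hNn]
      exact hLN.trans (pow_le_pow_right₀ hN1 (by norm_num))
    exact_mod_cast this
  -- counts
  have hlow : (c.M : ℝ) / 16 * (N ^ 4 / (16 * q ^ 252)) ≤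
      ∑ t ∈ range c.M, ((c.W (c.n * q0 ^ 80) L t).card : ℝ) := by
    calc (c.M : ℝ) / 16 * (N ^ 4 / (16 * q ^ 252)) ≤ Θg.card * (N ^ 4 / (16 * q ^ 252)) :=
          mul_le_mul_of_nonneg_right hΘgc (by positivity)
      _ = ∑ t ∈ Θg, N ^ 4 / (16 * q ^ 252) := by rw [sum_const, nsmul_eq_mul]
      _ ≤ ∑ t ∈ Θg, ((c.W (c.n * q0 ^ 80) L t).card : ℝ) := by
          refine sum_le_sum fun t ht => ?_
          rw [hΘg, mem_sdiff, mem_union, mem_union] at ht
          obtain ⟨ht1, ht2⟩ := ht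
          push Not at ht2
          obtain ⟨ht2, ht3, ht4⟩ := ht2
          have htr := hΘ ht1
          have k1 : β1 t ≤ (N / q ^ 2) ^ 3 := by
            by_contra h
            push Not at h
            exact ht2 (mem_filter.mpr ⟨htr, h⟩)
          have k2 : β2 t ≤ (N / q ^ 2) ^ 3 := by
            by_contra h
            push Not at h
            exact ht3 (mem_filter.mpr ⟨htr, h⟩)
          have k3 : β3 t ≤ (N / q ^ 2) ^ 4 := by
            by_contra h
            push Not at h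
            exact ht4 (mem_filter.mpr ⟨htr, h⟩)
          have := c.per_t N q0 J hNn hN hq hJ (by rw [← hqdef]; exact hRJ)
            (by rw [← hqdef]; exact hbig) (by rw [← hqdef]; exact hK1)
            (by rw [← hqdef]; exact hD1) t (hS t ht1) (by rw [← hqdef]; exact hcol t ht1)
            (by rw [← hqdef]; exact k1) (by rw [← hqdef]; exact k2) (by rw [← hqdef]; exact k3)
            L (by rw [← hqdef]; exact hL2)
          rw [← hqdef] at this
          exact this
      _ ≤ _ := Finset.sum_le_sum_of_subset_of_nonneg (sdiff_subset.trans hΘ)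
          (fun t _ _ => Nat.cast_nonneg _)
  have hg2 : q0 ^ 80 ≤ c.n ^ 2 := by
    have h1 : ((q0 ^ 80 : ℕ) : ℝ) ≤ ((c.n ^ 2 : ℕ) : ℝ) := by
      push_cast
      rw [← hqdef, ← hNn]
      calc q ^ 80 ≤ N := hNk 80 (by norm_num)
        _ = N ^ 1 := by ring
        _ ≤ N ^ 6 := pow_le_pow_right₀ hN1 (by norm_num)
        _ = (N ^ 3) ^ 2 := by ring
    exact_mod_cast h1
  have hup := c.sum_W (m := c.n * q0 ^ 80) (L := L)
    (Nat.mul_pos c.n_pos (pow_pos (by omega) 80)) (by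
      calc c.n * q0 ^ 80 ≤ c.n * c.n ^ 2 := Nat.mul_le_mul_left _ hg2
        _ = c.n ^ 3 := by ring) (by
      calc 3 * L ≤ 3 * c.n := Nat.mul_le_mul_left _ hLn
        _ = c.n * 3 := by ring
        _ < c.n * q0 ^ 80 := by
            apply Nat.mul_lt_mul_of_pos_left _ c.n_pos
            calc 3 < q0 ^ 1 := by rw [pow_one]; omega
              _ ≤ q0 ^ 80 := Nat.pow_le_pow_right (by omega) (by norm_num))
  have hsol := sol_sum c.As c.n c.B L (c.n ^ 3 * (8 * (c.B + 1))) c.As_card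
    (fun a ha => c.hB a (c.As_sub ha)) (by
      calc 2 * c.B * L ≤ 2 * c.B * c.n := Nat.mul_le_mul_left _ hLn
        _ ≤ (8 * (c.B + 1)) * c.n ^ 3 := by
            apply Nat.mul_le_mul (by omega)
            exact Nat.le_self_pow (by norm_num) _
        _ = _ := by ring) c.Δ (by linarith) c.hΔ
  set E := En c.As with hE
  have hE0 : 0 ≤ E := En_nonneg _
  have hlogL : Real.log L ≤ Real.log c.n := Real.log_le_log hLpos (by exact_mod_cast hLn)
  have hlogL0 : 0 ≤ Real.log L := Real.log_nonneg (by exact_mod_cast hL0)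
  set lam := 1 + Real.log L with hlamdef
  have hlam0 : 0 < lam := by rw [hlamdef]; linarith
  have hlamq : lam ≤ q / 30 := by rw [hlamdef]; linarith
  have hΔlam : c.Δ * lam ≤ q / 30 := by
    refine le_trans ?_ hlam
    apply mul_le_mul_of_nonneg_left _ (by linarith)
    rw [hlamdef]; linarith
  have hall : (c.M : ℝ) / 16 * (N ^ 4 / (16 * q ^ 252)) ≤ 12 * c.M / ((c.n : ℝ) * q ^ 80) ^ 2 *
      (2 * L * (4 * L * lam * (c.n : ℝ) ^ 2 + 4 * c.Δ * lam * E)) := by
    refine hlow.trans (hup.trans ?_)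
    have e : (((c.n * q0 ^ 80 : ℕ) : ℝ)) = (c.n : ℝ) * q ^ 80 := by
      push_cast; rw [← hqdef]
    rw [e]
    exact mul_le_mul_of_nonneg_left hsol (by positivity)
  rw [← hNn] at hall
  have hX1 : 0 ≤ N ^ 4 * q / q ^ 264 := by positivity
  have hX2 : 0 ≤ E * q / (N ^ 4 * q ^ 212) := by positivity
  have hall2 : N ^ 4 / (256 * q ^ 252) ≤
      4 * (N ^ 4 * q / q ^ 264) + 4 * (E * q / (N ^ 4 * q ^ 212)) := by
    have h1 : (c.M : ℝ) * (N ^ 4 / (256 * q ^ 252)) ≤
        c.M * (4 * (N ^ 4 * q / q ^ 264) + 4 * (E * q / (N ^ 4 * q ^ 212))) := by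
      calc (c.M : ℝ) * (N ^ 4 / (256 * q ^ 252)) = (c.M : ℝ) / 16 * (N ^ 4 / (16 * q ^ 252)) := by
            field_simp; norm_num
        _ ≤ _ := hall
        _ = c.M * (96 * L * L * lam / q ^ 160 + 96 * L * (c.Δ * lam) * E / (N ^ 6 * q ^ 160)) := by
            field_simp
            ring
        _ ≤ c.M * (96 * (N ^ 2 / q ^ 52) * (N ^ 2 / q ^ 52) * (q / 30) / q ^ 160 +
            96 * (N ^ 2 / q ^ 52) * (q / 30) * E / (N ^ 6 * q ^ 160)) := by
            gcongr
        _ = c.M * (96 / 30 * (N ^ 4 * q / q ^ 264) + 96 / 30 * (E * q / (N ^ 4 * q ^ 212))) := by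
            field_simp
        _ ≤ _ := by
            apply mul_le_mul_of_nonneg_left _ hM.le
            apply add_le_add
            · exact mul_le_mul_of_nonneg_right (by norm_num) hX1
            · exact mul_le_mul_of_nonneg_right (by norm_num) hX2
    exact le_of_mul_le_mul_left h1 hM
  have h3 : 4 * (N ^ 4 * q / q ^ 264) ≤ N ^ 4 / (512 * q ^ 252) := by
    have e1 : 4 * (N ^ 4 * q / q ^ 264) = N ^ 4 / (512 * q ^ 252) * (2048 / q ^ 11) := by
      field_simp; norm_num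
    rw [e1]
    calc N ^ 4 / (512 * q ^ 252) * (2048 / q ^ 11) ≤ N ^ 4 / (512 * q ^ 252) * 1 := by
          apply mul_le_mul_of_nonneg_left _ (by positivity)
          rw [div_le_one (by positivity)]
          calc (2048 : ℝ) ≤ q ^ 2 := by linarith
            _ ≤ q ^ 11 := pow_le_pow_right₀ hq1 (by norm_num)
      _ = _ := mul_one _
  have e2 : N ^ 4 / (256 * q ^ 252) = N ^ 4 / (512 * q ^ 252) + N ^ 4 / (512 * q ^ 252) := by
    field_simp; norm_num
  have h4 : N ^ 4 / (512 * q ^ 252) ≤ 4 * (E * q / (N ^ 4 * q ^ 212)) := by linarith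
  have e3 : N ^ 4 / (512 * q ^ 252) = (N ^ 8 / (2048 * q ^ 41)) * (4 * (q / (N ^ 4 * q ^ 212))) := by
    field_simp; norm_num
  have e4 : 4 * (E * q / (N ^ 4 * q ^ 212)) = E * (4 * (q / (N ^ 4 * q ^ 212))) := by ring
  rw [e3, e4] at h4
  have h5 := le_of_mul_le_mul_right h4 (by positivity)
  refine le_trans ?_ h5
  apply div_le_div_of_nonneg_left (by positivity) (by positivity)
  calc 2048 * q ^ 41 ≤ q ^ 2 * q ^ 41 := mul_le_mul_of_nonneg_right (by linarith) (by positivity)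
    _ = q ^ 43 := by ring

end Ctx

end Pool.Agent.MP_741d1b.H87
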