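import Mathlib
import Pool.Agent.Lib.MP_741d1b_nt_h87.T3Line

/-! Clusters with many points on a line force large energy: conclusion. -/

set_option autoImplicit false

namespace Pool.Agent.MP_741d1b.H87

open Finset Classical
open scoped Pointwise

theorem card_triples_ge (L : Finset ℤ) (hL : 4 ≤ L.card) :
    (L.card : ℝ) ^ 3 / 4 ≤ (((L ×ˢ L ×ˢ L).filter
      (fun z => z.1 ≠ z.2.1 ∧ z.1 ≠ z.2.2 ∧ z.2.1 ≠ z.2.2)).card : ℝ) := by
  have h1 : (L ×ˢ L ×ˢ L) ⊆ ((L ×ˢ L ×ˢ L).filter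
      (fun z => z.1 ≠ z.2.1 ∧ z.1 ≠ z.2.2 ∧ z.2.1 ≠ z.2.2)) ∪
      (((L ×ˢ L).image (fun z => (z.1, z.1, z.2))) ∪ (((L ×ˢ L).image (fun z => (z.1, z.2, z.1))) ∪
      ((L ×ˢ L).image (fun z => (z.1, z.2, z.2))))) := by
    rintro ⟨a, b, d⟩ hz
    simp only [mem_product] at hz
    obtain ⟨ha, hb, hd⟩ := hz
    simp only [mem_union, mem_filter, mem_image, mem_product, Prod.exists, Prod.mk.injEq]
    by_cases h1 : a = b
    · right; left; exact ⟨a, d, ⟨ha, hd⟩, rfl, h1, rfl⟩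
    · by_cases h2 : a = d
      · right; right; left; exact ⟨a, b, ⟨ha, hb⟩, rfl, rfl, h2⟩
      · by_cases h3 : b = d
        · right; right; right; exact ⟨a, b, ⟨ha, hb⟩, rfl, rfl, h3⟩
        · left; exact ⟨⟨ha, hb, hd⟩, h1, h2, h3⟩
  have h2 := card_le_card h1
  have h3 := card_union_le ((L ×ˢ L ×ˢ L).filter
      (fun z => z.1 ≠ z.2.1 ∧ z.1 ≠ z.2.2 ∧ z.2.1 ≠ z.2.2))
      (((L ×ˢ L).image (fun z => (z.1, z.1, z.2))) ∪ (((L ×ˢ L).image (fun z => (z.1, z.2, z.1))) ∪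
      ((L ×ˢ L).image (fun z => (z.1, z.2, z.2)))))
  have h4 := card_union_le ((L ×ˢ L).image (fun z => (z.1, z.1, z.2)))
      (((L ×ˢ L).image (fun z => (z.1, z.2, z.1))) ∪ ((L ×ˢ L).image (fun z => (z.1, z.2, z.2))))
  have h5 := card_union_le ((L ×ˢ L).image (fun z => (z.1, z.2, z.1)))
      ((L ×ˢ L).image (fun z => (z.1, z.2, z.2)))
  have h6 : ((L ×ˢ L).image (fun z => (z.1, z.1, z.2))).card ≤ L.card * L.card := by
    rw [← card_product]; exact card_image_le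
  have h7 : ((L ×ˢ L).image (fun z => (z.1, z.2, z.1))).card ≤ L.card * L.card := by
    rw [← card_product]; exact card_image_le
  have h8 : ((L ×ˢ L).image (fun z => (z.1, z.2, z.2))).card ≤ L.card * L.card := by
    rw [← card_product]; exact card_image_le
  rw [card_product, card_product] at h2
  have h9 : L.card * (L.card * L.card) ≤ ((L ×ˢ L ×ˢ L).filter
      (fun z => z.1 ≠ z.2.1 ∧ z.1 ≠ z.2.2 ∧ z.2.1 ≠ z.2.2)).card + 3 * (L.card * L.card) := by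
    omega
  have h10 : (L.card : ℝ) * (L.card * L.card) ≤ (((L ×ˢ L ×ˢ L).filter
      (fun z => z.1 ≠ z.2.1 ∧ z.1 ≠ z.2.2 ∧ z.2.1 ≠ z.2.2)).card : ℝ) +
      3 * (L.card * L.card) := by exact_mod_cast h9
  have h11 : (4 : ℝ) ≤ L.card := by exact_mod_cast hL
  have h12 : 4 * ((L.card : ℝ) * L.card) ≤ L.card * (L.card * L.card) :=
    mul_le_mul_of_nonneg_right h11 (by positivity)
  have e : (L.card : ℝ) ^ 3 = L.card * (L.card * L.card) := by ring
  rw [e]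
  linarith

namespace Ctx

variable (c : Ctx)

/-- Case 1. -/
theorem line_case (N q Q1 : ℝ) (hNn : N ^ 3 = c.n) (hN : 0 < N) (hq : 1000 ≤ q) (hQ : 1 ≤ Q1)
    (hbig : q ^ 8 * Q1 ^ 10 ≤ N) (hD1 : c.D1 ≤ q) (Θ : Finset ℕ) (hΘ : Θ ⊆ range c.M)
    (hΘc : (c.M : ℝ) / 16 ≤ Θ.card) (L : ℕ → Finset ℤ) (hL : ∀ t ∈ Θ, c.Lin t (L t))
    (hLc : ∀ t ∈ Θ, N / Q1 ≤ (L t).card) : N ^ 8 / (q ^ 6 * Q1 ^ 8) ≤ En c.As := by
  have hq0 : 0 < q := by linarith
  have hq1 : 1 ≤ q := by linarith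
  have hq2 : (1000000 : ℝ) ≤ q ^ 2 := by nlinarith
  have hQ0 : 0 < Q1 := by linarith
  have hQ2 : Q1 ≤ Q1 ^ 2 := by nlinarith
  have hn := c.n_pos'
  have hM := c.M_pos'
  have hΔ1 := c.hΔ1
  have hlog := c.log_nonneg
  have hN1 : 1 ≤ N := by
    refine le_trans ?_ hbig
    exact one_le_mul_of_one_le_of_one_le (one_le_pow₀ hq1) (one_le_pow₀ hQ)
  -- parameters
  have hlam : c.Δ * (1 + Real.log c.n) ≤ q / 30 := by
    unfold D1 at hD1
    have : 30 * c.Δ * (1 + Real.log c.n) = 30 * (c.Δ * (1 + Real.log c.n)) := by ring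
    linarith
  have hlam1 : 1 + Real.log c.n ≤ q / 30 := by
    refine le_trans ?_ hlam
    calc 1 + Real.log c.n = 1 * (1 + Real.log c.n) := by ring
      _ ≤ _ := mul_le_mul_of_nonneg_right hΔ1 (by linarith)
  have hΔq : c.Δ ≤ q / 30 := by
    refine le_trans ?_ hlam
    calc c.Δ = c.Δ * 1 := by ring
      _ ≤ _ := mul_le_mul_of_nonneg_left (by linarith) (by linarith)
  have hqQ : q ^ 2 * Q1 ^ 2 ≤ N := by
    refine le_trans ?_ hbig
    exact mul_le_mul (pow_le_pow_right₀ hq1 (by norm_num)) (pow_le_pow_right₀ hQ (by norm_num))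
      (by positivity) (by positivity)
  obtain ⟨H, hHdef⟩ : ∃ H : ℕ, H = ⌊N * q ^ 2 * Q1 ^ 2⌋₊ := ⟨_, rfl⟩
  have hbase1 : 2 ≤ N * q ^ 2 * Q1 ^ 2 := by
    have h1 : (2 : ℝ) ≤ q ^ 2 := by linarith
    calc (2 : ℝ) = 1 * 2 * 1 := by ring
      _ ≤ N * q ^ 2 * Q1 ^ 2 := by
        apply mul_le_mul (mul_le_mul hN1 h1 (by norm_num) (by linarith)) (one_le_pow₀ hQ)
          (by norm_num) (by positivity)
  have hHle : (H : ℝ) ≤ N * q ^ 2 * Q1 ^ 2 := by rw [hHdef]; exact Nat.floor_le (by positivity)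
  have hHge : N * q ^ 2 * Q1 ^ 2 / 2 ≤ H := by
    have := Nat.lt_floor_add_one (N * q ^ 2 * Q1 ^ 2)
    rw [← hHdef] at this
    linarith
  have hH1 : 1 ≤ H := by
    have : (1 : ℝ) ≤ H := by linarith
    exact_mod_cast this
  have hHN : (H : ℝ) ≤ N ^ 2 := by
    refine hHle.trans ?_
    calc N * q ^ 2 * Q1 ^ 2 = N * (q ^ 2 * Q1 ^ 2) := by ring
      _ ≤ N * N := mul_le_mul_of_nonneg_left hqQ hN.le
      _ = N ^ 2 := by ring
  have hHn : H ≤ c.n := by
    have : (H : ℝ) ≤ c.n := by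
      rw [← hNn]
      exact hHN.trans (pow_le_pow_right₀ hN1 (by norm_num))
    exact_mod_cast this
  have hHn2 : H ≤ c.n ^ 2 := hHn.trans (Nat.le_self_pow (by norm_num) _)
  have hH0 : (0 : ℝ) < H := by exact_mod_cast hH1
  have hlogH : Real.log H ≤ Real.log c.n :=
    Real.log_le_log hH0 (by exact_mod_cast hHn)
  have hlogH0 : 0 ≤ Real.log H := Real.log_nonneg (by exact_mod_cast hH1)
  have hl4 : ∀ t ∈ Θ, 4 ≤ (L t).card := by
    intro t ht
    have h1 : (4 : ℝ) ≤ (L t).card := by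
      refine le_trans ?_ (hLc t ht)
      rw [le_div_iff₀ hQ0]
      calc 4 * Q1 ≤ q ^ 2 * Q1 ^ 2 := by
            apply mul_le_mul (by linarith) hQ2 hQ0.le (by positivity)
        _ ≤ N := hqQ
    exact_mod_cast h1
  -- dichotomy
  set long : ℕ → Prop := fun t => ∃ g G : ℤ, g ≠ 0 ∧
      |(t : ℤ) * g - G * c.M| * (c.n * H) ≤ c.M ∧ ∃ s : ℤ → ℤ, ∀ a ∈ L t, ∀ b ∈ L t,
      a - b = (s a - s b) * g with hlong
  have hsplit : (Θ.card : ℝ) = ((Θ.filter long).card : ℝ) +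
      ((Θ.filter (fun t => ¬ long t)).card : ℝ) := by
    exact_mod_cast (card_filter_add_card_filter_not long).symm
  rcases le_or_gt ((c.M : ℝ) / 32) ((Θ.filter long).card : ℝ) with hcase | hcase
  · exfalso
    have h1 := c.long_lines H hH1 hHn2 (Θ.filter long) ((filter_subset _ _).trans hΘ) L (by
      intro t ht
      rw [mem_filter] at ht
      exact ⟨(hL t ht.1).1, ht.2⟩)
    have h2 : ((Θ.filter long).card : ℝ) * ((N / Q1) ^ 2 / 2) ≤
        ∑ t ∈ Θ.filter long, (((L t).offDiag).card : ℝ) := by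
      rw [← nsmul_eq_mul, ← sum_const]
      refine sum_le_sum fun t ht => ?_
      have ht' := (mem_filter.mp ht).1
      have h3 : (((L t).offDiag).card : ℝ) = (L t).card * (L t).card - (L t).card := by
        rw [offDiag_card, Nat.cast_sub (Nat.le_mul_self _)]
        push_cast; ring
      have h4 : (4 : ℝ) ≤ (L t).card := by exact_mod_cast hl4 t ht'
      have h5 := hLc t ht'
      rw [h3]
      have h6 : (N / Q1) ^ 2 ≤ (L t).card ^ 2 := pow_le_pow_left₀ (by positivity) h5 2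
      have h7 : 4 * ((L t).card : ℝ) ≤ (L t).card * (L t).card :=
        mul_le_mul_of_nonneg_right h4 (by positivity)
      rw [sq ((L t).card : ℝ)] at h6
      linarith
    have h3 : (c.M : ℝ) / 32 * ((N / Q1) ^ 2 / 2) ≤
        (c.n : ℝ) ^ 2 * (c.Δ * (3 * c.M / (c.n * H))) :=
      (mul_le_mul_of_nonneg_right hcase (by positivity)).trans (h2.trans h1)
    have e1 : (c.M : ℝ) / 32 * ((N / Q1) ^ 2 / 2) = c.M * ((N / Q1) ^ 2 / 64) := by ring
    have e2 : (c.n : ℝ) ^ 2 * (c.Δ * (3 * c.M / (c.n * H))) = c.M * (3 * c.n * c.Δ / H) := by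
      field_simp
    rw [e1, e2] at h3
    have h4 := le_of_mul_le_mul_left h3 hM
    rw [le_div_iff₀ hH0, ← hNn] at h4
    have h5 : (N / Q1) ^ 2 / 64 * (N * q ^ 2 * Q1 ^ 2 / 2) ≤ 3 * N ^ 3 * (q / 30) := by
      calc (N / Q1) ^ 2 / 64 * (N * q ^ 2 * Q1 ^ 2 / 2) ≤ (N / Q1) ^ 2 / 64 * H :=
            mul_le_mul_of_nonneg_left hHge (by positivity)
        _ ≤ 3 * N ^ 3 * c.Δ := h4
        _ ≤ _ := mul_le_mul_of_nonneg_left hΔq (by positivity)
    have e3 : (N / Q1) ^ 2 / 64 * (N * q ^ 2 * Q1 ^ 2 / 2) = N ^ 3 * (q ^ 2 / 128) := by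
      field_simp
      ring
    have e4 : 3 * N ^ 3 * (q / 30) = N ^ 3 * (q / 10) := by ring
    rw [e3, e4] at h5
    have h6 := le_of_mul_le_mul_left h5 (by positivity)
    have h7 : 1000 * q ≤ q ^ 2 := by
      rw [sq]; exact mul_le_mul_of_nonneg_right hq hq0.le
    linarith
  · have hcase2 : (c.M : ℝ) / 32 ≤ ((Θ.filter (fun t => ¬ long t)).card : ℝ) := by linarith
    have h1 := c.short_lines H hHn2 (Θ.filter (fun t => ¬ long t))
      ((filter_subset _ _).trans hΘ) L (by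
      intro t ht
      rw [mem_filter] at ht
      obtain ⟨hLs, g, G, hg, s, hs⟩ := hL t ht.1
      refine ⟨hLs, g, G, hg, s, hs, ?_⟩
      intro a ha b hb
      by_contra hcon
      push Not at hcon
      apply ht.2
      refine ⟨g, G, hg, ?_, s, fun a ha b hb => (hs a ha b hb).1⟩
      have h2 := c.line_ni hLs hs ha hb
      refine le_trans ?_ h2
      apply mul_le_mul_of_nonneg_left _ (abs_nonneg _)
      apply mul_le_mul_of_nonneg_left _ (by positivity)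
      exact_mod_cast hcon.le)
    have h2 : ((Θ.filter (fun t => ¬ long t)).card : ℝ) * ((N / Q1) ^ 3 / 4) ≤
        ∑ t ∈ Θ.filter (fun t => ¬ long t), (((L t ×ˢ L t ×ˢ L t).filter
      (fun z => z.1 ≠ z.2.1 ∧ z.1 ≠ z.2.2 ∧ z.2.1 ≠ z.2.2)).card : ℝ) := by
      rw [← nsmul_eq_mul, ← sum_const]
      refine sum_le_sum fun t ht => ?_
      have ht' := (mem_filter.mp ht).1
      refine le_trans ?_ (card_triples_ge (L t) (hl4 t ht'))
      have := pow_le_pow_left₀ (by positivity) (hLc t ht') 3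
      linarith
    set W := Wsum c.As H with hW
    have h3 : (c.M : ℝ) / 32 * ((N / Q1) ^ 3 / 4) ≤ 3 * c.M / c.n * W :=
      (mul_le_mul_of_nonneg_right hcase2 (by positivity)).trans (h2.trans h1)
    have e1 : (c.M : ℝ) / 32 * ((N / Q1) ^ 3 / 4) = c.M * ((N / Q1) ^ 3 / 128) := by ring
    have e2 : 3 * (c.M : ℝ) / c.n * W = c.M * (3 * W / c.n) := by field_simp
    rw [e1, e2] at h3
    have h4 := le_of_mul_le_mul_left h3 hM
    rw [le_div_iff₀ hn, ← hNn] at h4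
    have h5 : N ^ 6 / (384 * Q1 ^ 3) ≤ W := by
      have e3 : (N / Q1) ^ 3 / 128 * N ^ 3 = 3 * (N ^ 6 / (384 * Q1 ^ 3)) := by
        field_simp
        ring
      rw [e3] at h4
      linarith
    have h6 := Wsum_sq c.As c.n c.B H (c.n ^ 3 * (8 * (c.B + 1))) c.As_card
      (fun a ha => c.hB a (c.As_sub ha)) (by
        calc 2 * c.B * H ≤ 2 * c.B * c.n ^ 2 := Nat.mul_le_mul_left _ hHn2
          _ ≤ (8 * (c.B + 1)) * c.n ^ 3 := by
              apply Nat.mul_le_mul (by omega)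
              exact Nat.pow_le_pow_right c.n_pos (by norm_num)
          _ = _ := by ring) c.Δ (by linarith) c.hΔ
    rw [← hW, ← hNn] at h6
    set E := En c.As with hE
    have hE0 : 0 ≤ E := En_nonneg _
    set lam := 1 + Real.log H with hlamdef
    have hlam0 : 0 < lam := by rw [hlamdef]; linarith
    have hlamq : lam ≤ q / 30 := by rw [hlamdef]; linarith
    have hΔlam : c.Δ * lam ≤ q / 30 := by
      refine le_trans ?_ hlam
      apply mul_le_mul_of_nonneg_left _ (by linarith)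
      rw [hlamdef]; linarith
    have h7 : 4 * H * lam * (N ^ 3 * (4 * H * lam * (N ^ 3) ^ 2 + 4 * c.Δ * lam * E)) ≤
        N ^ 11 * q ^ 6 * Q1 ^ 4 + N ^ 4 * q ^ 4 * Q1 ^ 2 * E := by
      have k1 : 4 * H * lam * (N ^ 3 * (4 * H * lam * (N ^ 3) ^ 2)) ≤ N ^ 11 * q ^ 6 * Q1 ^ 4 := by
        calc 4 * H * lam * (N ^ 3 * (4 * H * lam * (N ^ 3) ^ 2)) =
            16 * (H * lam) ^ 2 * N ^ 9 := by ring
          _ ≤ 16 * (N * q ^ 2 * Q1 ^ 2 * (q / 30)) ^ 2 * N ^ 9 := by gcongr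
          _ = (16 / 900) * (N ^ 11 * q ^ 6 * Q1 ^ 4) := by ring
          _ ≤ 1 * (N ^ 11 * q ^ 6 * Q1 ^ 4) :=
              mul_le_mul_of_nonneg_right (by norm_num) (by positivity)
          _ = _ := one_mul _
      have k2 : 4 * H * lam * (N ^ 3 * (4 * c.Δ * lam * E)) ≤ N ^ 4 * q ^ 4 * Q1 ^ 2 * E := by
        calc 4 * H * lam * (N ^ 3 * (4 * c.Δ * lam * E)) =
            16 * H * N ^ 3 * (lam * (c.Δ * lam)) * E := by ring
          _ ≤ 16 * (N * q ^ 2 * Q1 ^ 2) * N ^ 3 * (q / 30 * (q / 30)) * E := by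
              gcongr
          _ = (16 / 900) * (N ^ 4 * q ^ 4 * Q1 ^ 2 * E) := by ring
          _ ≤ 1 * (N ^ 4 * q ^ 4 * Q1 ^ 2 * E) :=
              mul_le_mul_of_nonneg_right (by norm_num) (by positivity)
          _ = _ := one_mul _
      calc _ = 4 * H * lam * (N ^ 3 * (4 * H * lam * (N ^ 3) ^ 2)) +
            4 * H * lam * (N ^ 3 * (4 * c.Δ * lam * E)) := by ring
        _ ≤ _ := add_le_add k1 k2
    have h8 : (N ^ 6 / (384 * Q1 ^ 3)) ^ 2 ≤ N ^ 11 * q ^ 6 * Q1 ^ 4 +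
        N ^ 4 * q ^ 4 * Q1 ^ 2 * E :=
      (pow_le_pow_left₀ (by positivity) h5 2).trans (h6.trans h7)
    have h9 : N ^ 11 * q ^ 6 * Q1 ^ 4 ≤ (N ^ 6 / (384 * Q1 ^ 3)) ^ 2 / 2 := by
      have e3 : (N ^ 6 / (384 * Q1 ^ 3)) ^ 2 / 2 = N ^ 11 * (N / (294912 * Q1 ^ 6)) := by
        field_simp
        norm_num
      rw [e3, mul_assoc]
      apply mul_le_mul_of_nonneg_left _ (by positivity)
      rw [le_div_iff₀ (by positivity)]
      calc q ^ 6 * Q1 ^ 4 * (294912 * Q1 ^ 6) = 294912 * (q ^ 6 * Q1 ^ 10) := by ring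
        _ ≤ q ^ 2 * (q ^ 6 * Q1 ^ 10) := by
            apply mul_le_mul_of_nonneg_right _ (by positivity)
            linarith
        _ = q ^ 8 * Q1 ^ 10 := by ring
        _ ≤ N := hbig
    have h10 : (N ^ 6 / (384 * Q1 ^ 3)) ^ 2 / 2 ≤ N ^ 4 * q ^ 4 * Q1 ^ 2 * E := by linarith
    rw [div_le_iff₀ (by positivity)]
    have e4 : (N ^ 6 / (384 * Q1 ^ 3)) ^ 2 / 2 = N ^ 4 * (N ^ 8 / (294912 * Q1 ^ 6)) := by
      field_simp
      norm_num
    have e5 : N ^ 4 * q ^ 4 * Q1 ^ 2 * E = N ^ 4 * (q ^ 4 * Q1 ^ 2 * E) := by ring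
    rw [e4, e5] at h10
    have h11 := le_of_mul_le_mul_left h10 (by positivity)
    rw [div_le_iff₀ (by positivity)] at h11
    calc N ^ 8 ≤ q ^ 4 * Q1 ^ 2 * E * (294912 * Q1 ^ 6) := h11
      _ = 294912 * (q ^ 4 * Q1 ^ 8 * E) := by ring
      _ ≤ q ^ 2 * (q ^ 4 * Q1 ^ 8 * E) := by
          apply mul_le_mul_of_nonneg_right _ (by positivity)
          linarith
      _ = _ := by ring

end Ctx

end Pool.Agent.MP_741d1b.H87
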