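import Mathlib
import Pool.Agent.Lib.MP_741d1b_nt_h87.T3Case2b
import Pool.Agent.Lib.MP_741d1b_nt_h87.T3Core3
import Pool.Agent.Lib.MP_741d1b_nt_h87.T3Line2

/-! No context with all clusters of size close to the cube root. -/

set_option autoImplicit false

namespace Pool.Agent.MP_741d1b.H87

open Finset Classical
open scoped Pointwise

namespace Ctx

variable (c : Ctx)

/-- Most clusters contain many typical elements. -/
theorem typical_clusters (hK : 0 < c.K) :
    (c.M : ℝ) / 4 ≤ (((range c.M).filter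
      (fun t => (c.K : ℝ) / 4 ≤ ((c.C t ∩ c.As).card : ℝ))).card : ℝ) := by
  have hn := c.n_pos'
  have hM := c.M_pos'
  have hK' : (0 : ℝ) < c.K := by exact_mod_cast hK
  have h1 : ∑ t ∈ range c.M, ((c.C t ∩ c.A).card : ℝ) = c.M * c.K := by
    have : ∀ t ∈ range c.M, ((c.C t ∩ c.A).card : ℝ) = c.K := by
      intro t _
      rw [inter_eq_left.mpr (c.hCA t), c.hCK t]
    rw [sum_congr rfl this, sum_const, card_range, nsmul_eq_mul]
  rw [c.sum_inter] at h1
  have h2 : ∑ a ∈ c.A, (c.cnt a : ℝ) = ∑ a ∈ c.As, (c.cnt a : ℝ) +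
      ∑ a ∈ c.A.filter (fun a => ¬ c.M * c.K ≤ 2 * c.n * c.cnt a), (c.cnt a : ℝ) := by
    rw [As, Finset.sum_filter_add_sum_filter_not]
  have h3 : ∑ a ∈ c.A.filter (fun a => ¬ c.M * c.K ≤ 2 * c.n * c.cnt a), (c.cnt a : ℝ) ≤
      c.M * c.K / 2 := by
    calc ∑ a ∈ c.A.filter (fun a => ¬ c.M * c.K ≤ 2 * c.n * c.cnt a), (c.cnt a : ℝ) ≤
        ∑ a ∈ c.A.filter (fun a => ¬ c.M * c.K ≤ 2 * c.n * c.cnt a),
          (c.M : ℝ) * c.K / (2 * c.n) := by
          refine sum_le_sum fun a ha => ?_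
          have h4 := (mem_filter.mp ha).2
          push Not at h4
          rw [le_div_iff₀ (by positivity)]
          have h5 : ((2 * c.n * c.cnt a : ℕ) : ℝ) ≤ ((c.M * c.K : ℕ) : ℝ) := by
            exact_mod_cast h4.le
          push_cast at h5
          linarith
      _ = ((c.A.filter (fun a => ¬ c.M * c.K ≤ 2 * c.n * c.cnt a)).card : ℝ) *
          ((c.M : ℝ) * c.K / (2 * c.n)) := by rw [sum_const, nsmul_eq_mul]
      _ ≤ (c.n : ℝ) * ((c.M : ℝ) * c.K / (2 * c.n)) := by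
          apply mul_le_mul_of_nonneg_right _ (by positivity)
          rw [← c.hA]
          exact_mod_cast card_filter_le _ _
      _ = c.M * c.K / 2 := by field_simp
  have h6 : (c.M : ℝ) * c.K / 2 ≤ ∑ t ∈ range c.M, ((c.C t ∩ c.As).card : ℝ) := by
    rw [c.sum_inter]
    linarith
  set Θ1 := (range c.M).filter (fun t => (c.K : ℝ) / 4 ≤ ((c.C t ∩ c.As).card : ℝ)) with hΘ1
  have h7 : ∑ t ∈ range c.M, ((c.C t ∩ c.As).card : ℝ) ≤ Θ1.card * c.K + c.M * (c.K / 4) := by
    calc ∑ t ∈ range c.M, ((c.C t ∩ c.As).card : ℝ) ≤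
        ∑ t ∈ range c.M, ((if t ∈ Θ1 then (c.K : ℝ) else 0) + c.K / 4) := by
          refine sum_le_sum fun t ht => ?_
          by_cases h : t ∈ Θ1
          · rw [if_pos h]
            have h8 : ((c.C t ∩ c.As).card : ℝ) ≤ c.K := by
              rw [← c.hCK t]
              exact_mod_cast card_le_card inter_subset_left
            linarith
          · rw [if_neg h, zero_add]
            by_contra h8
            push Not at h8
            exact h (mem_filter.mpr ⟨ht, h8.le⟩)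
      _ = Θ1.card * c.K + c.M * (c.K / 4) := by
          rw [sum_add_distrib, ← Finset.sum_filter, sum_const, sum_const, card_range,
            nsmul_eq_mul, nsmul_eq_mul, Finset.filter_mem_eq_inter,
            inter_eq_right.mpr (filter_subset _ _)]
  have h9 : (c.M : ℝ) / 4 * c.K ≤ Θ1.card * c.K := by linarith
  exact le_of_mul_le_mul_right h9 hK'

/-- The contradiction. -/
theorem no_clusters (N : ℝ) (q0 J : ℕ) (hNn : N ^ 3 = c.n) (hN : 0 < N) (hq : 1000 ≤ q0)
    (hJ : 4 * 10 ^ J ≤ q0) (hRJ : 2 * (c.B : ℝ) * (2 / (q0 : ℝ)) ^ J < 1)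
    (hbig : (q0 : ℝ) ^ 57889 ≤ N) (hK1 : N / q0 ≤ c.K) (hK2 : (c.K : ℝ) ≤ N)
    (hD1 : c.D1 ≤ q0) : False := by
  have hq' : (1000 : ℝ) ≤ q0 := by exact_mod_cast hq
  have hq0 : (0 : ℝ) < q0 := by linarith
  have hq1 : (1 : ℝ) ≤ q0 := by linarith
  have hK0 : (0 : ℝ) < c.K := lt_of_lt_of_le (by positivity) hK1
  have hK : 0 < c.K := by exact_mod_cast hK0
  have hM := c.M_pos'
  have hcore := c.core N q0 ((q0 : ℝ) ^ 686) hNn hN hq' (one_le_pow₀ hq1) (by
    rw [← pow_mul, ← pow_add]; exact hbig) hK1 hK2 hD1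
  set Θ1 := (range c.M).filter (fun t => (c.K : ℝ) / 4 ≤ ((c.C t ∩ c.As).card : ℝ)) with hΘ1
  have hΘ1c := c.typical_clusters hK
  rw [← hΘ1] at hΘ1c
  set rich : ℕ → Prop := fun t => ∃ a ∈ c.C t ∩ c.As, ∃ b ∈ c.C t ∩ c.As, a ≠ b ∧
    N / (q0 : ℝ) ^ 85 < (((c.C t ∩ c.As).filter (fun z => c.dt t a b z = 0)).card : ℝ) with hrich
  have hsplit : (Θ1.card : ℝ) = ((Θ1.filter rich).card : ℝ) +
      ((Θ1.filter (fun t => ¬ rich t)).card : ℝ) := by
    exact_mod_cast (card_filter_add_card_filter_not rich).symm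
  rcases le_or_gt ((c.M : ℝ) / 16) ((Θ1.filter rich).card : ℝ) with hcase | hcase
  · -- rich lines
    have hex : ∀ t : ℕ, ∃ L : Finset ℤ, t ∈ Θ1.filter rich →
        c.Lin t L ∧ N / (q0 : ℝ) ^ 85 ≤ L.card := by
      intro t
      by_cases ht : t ∈ Θ1.filter rich
      · obtain ⟨a, _, b, _, hab, hL⟩ := (mem_filter.mp ht).2
        exact ⟨_, fun _ => ⟨c.line_param t a b hab, hL.le⟩⟩
      · exact ⟨∅, fun h => absurd h ht⟩
    choose L hL using hex
    have h1 := c.line_case N q0 ((q0 : ℝ) ^ 85) hNn hN hq' (one_le_pow₀ hq1) (by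
      rw [← pow_mul, ← pow_add]
      exact (pow_le_pow_right₀ hq1 (by norm_num)).trans hbig) hD1 (Θ1.filter rich)
      ((filter_subset _ _).trans (filter_subset _ _)) hcase L (fun t ht => (hL t ht).1)
      (fun t ht => (hL t ht).2)
    rw [← pow_mul, ← pow_add] at h1
    have h2 := lt_of_le_of_lt h1 hcore
    norm_num at h2
  · have hcase2 : (c.M : ℝ) / 8 ≤ ((Θ1.filter (fun t => ¬ rich t)).card : ℝ) := by linarith
    have h1 := c.slice_case N q0 J hNn hN hq hJ hRJ
      ((pow_le_pow_right₀ hq1 (by norm_num)).trans hbig) hK1 hD1 (Θ1.filter (fun t => ¬ rich t))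
      ((filter_subset _ _).trans (filter_subset _ _)) hcase2
      (fun t ht => (mem_filter.mp (mem_filter.mp ht).1).2) (by
        intro t ht a ha b hb hab
        by_contra h
        push Not at h
        exact (mem_filter.mp ht).2 ⟨a, ha, b, hb, hab, h⟩)
    have h2 := lt_of_le_of_lt h1 hcore
    have h3 : N ^ 8 / (q0 : ℝ) ^ 686 ≤ N ^ 8 / (q0 : ℝ) ^ 43 := by
      apply div_le_div_of_nonneg_left (by positivity) (by positivity)
      exact pow_le_pow_right₀ hq1 (by norm_num)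
    linarith

end Ctx

end Pool.Agent.MP_741d1b.H87
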