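import Mathlib
import Pool.Agent.Lib.MP_741d1b_nt_h87.T3None
import Pool.Agent.Lib.MP_456481_pr.Divisor

/-! The exponent `1/3` can be improved for all polynomially bounded sets. -/

set_option autoImplicit false

namespace Pool.Agent.MP_741d1b.H87

open Finset Classical
open scoped Pointwise

theorem ev_rpow (γ : ℝ) (hγ : 0 < γ) (b : ℝ) :
    ∃ N : ℕ, ∀ n : ℕ, N ≤ n → b ≤ (n : ℝ) ^ γ := by
  have h := (tendsto_rpow_atTop hγ).comp (tendsto_natCast_atTop_atTop (R := ℝ))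
  have h2 := h.eventually_ge_atTop b
  rw [Filter.eventually_atTop] at h2
  exact h2

/-- Main theorem for polynomially bounded sets. -/
theorem polynomially_bounded (C : ℝ) :
    ∃ N0 : ℕ, ∀ n : ℕ, N0 ≤ n → ∀ A : Finset ℤ, A.card = n →
      (∀ a ∈ A, |(a : ℝ)| ≤ (n : ℝ) ^ C) →
      ∃ θ : ℝ, ∀ x : ℝ,
        (({a : ℤ | a ∈ A ∧ ∃ k : ℤ, x ≤ θ * (a : ℝ) - (k : ℝ) ∧
            θ * (a : ℝ) - (k : ℝ) ≤ x + 1 / (n : ℝ)}.ncard : ℕ) : ℝ) ≤
          (n : ℝ) ^ ((1 : ℝ) / 3 - 1 / 200000) := by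
  obtain ⟨C1, hC1⟩ : ∃ C1 : ℝ, C1 = max C 1 := ⟨_, rfl⟩
  have hC1a : C ≤ C1 := by rw [hC1]; exact le_max_left _ _
  have hC1b : 1 ≤ C1 := by rw [hC1]; exact le_max_right _ _
  obtain ⟨ε, hε⟩ : ∃ ε : ℝ, ε = 1 / (1000000 * (C1 + 4)) := ⟨_, rfl⟩
  have hε0 : 0 < ε := by rw [hε]; positivity
  obtain ⟨Cε, hCε1, hCε⟩ := Pool.Agent.Lib.MP_456481_pr.divisor_bound ε hε0
  obtain ⟨J, hJdef⟩ : ∃ J : ℕ, J = ⌈360000 * (C1 + 2)⌉₊ := ⟨_, rfl⟩
  have hJge : 360000 * (C1 + 2) ≤ (J : ℝ) := by rw [hJdef]; exact Nat.le_ceil _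
  obtain ⟨N1, hN1⟩ := ev_rpow (1 / 173667 - 1 / 180000) (by norm_num) 2
  obtain ⟨N2, hN2⟩ := ev_rpow (1 / 200000) (by norm_num) 2
  obtain ⟨N3, hN3⟩ := ev_rpow (1 / 180000 - 1 / 500000) (by norm_num) (22 + 30 * Cε * 1000001)
  obtain ⟨N4, hN4⟩ := ev_rpow (1 / 360000) (by norm_num) 2
  obtain ⟨N5, hN5⟩ := ev_rpow (1 / 180000) (by norm_num) (1000 + 4 * 10 ^ J)
  refine ⟨N1 + N2 + N3 + N4 + N5 + 24, ?_⟩
  intro n hn A hA hbd
  have e1 := hN1 n (by omega)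
  have e2 := hN2 n (by omega)
  have e3 := hN3 n (by omega)
  have e4 := hN4 n (by omega)
  have e5 := hN5 n (by omega)
  have hn24 : 24 ≤ n := by omega
  have hn24' : (24 : ℝ) ≤ n := by exact_mod_cast hn24
  have hn1 : (1 : ℝ) ≤ n := by linarith
  have hn0 : (0 : ℝ) < n := by linarith
  by_contra hcon
  push Not at hcon
  -- parameters
  obtain ⟨N, hN⟩ : ∃ N : ℝ, N = (n : ℝ) ^ ((1 : ℝ) / 3) := ⟨_, rfl⟩
  have hN0 : 0 < N := by rw [hN]; positivity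
  have hNn : N ^ 3 = n := by
    rw [hN, ← Real.rpow_natCast, ← Real.rpow_mul hn0.le]
    norm_num
  obtain ⟨q0, hq0⟩ : ∃ q0 : ℕ, q0 = ⌊(n : ℝ) ^ ((1 : ℝ) / 173667)⌋₊ := ⟨_, rfl⟩
  have hq0le : (q0 : ℝ) ≤ (n : ℝ) ^ ((1 : ℝ) / 173667) := by
    rw [hq0]; exact Nat.floor_le (by positivity)
  have hq0ge : (n : ℝ) ^ ((1 : ℝ) / 180000) ≤ q0 := by
    have h1 := Nat.lt_floor_add_one ((n : ℝ) ^ ((1 : ℝ) / 173667))
    rw [← hq0] at h1
    have h2 : (n : ℝ) ^ ((1 : ℝ) / 173667) =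
        (n : ℝ) ^ ((1 : ℝ) / 180000) * (n : ℝ) ^ ((1 : ℝ) / 173667 - 1 / 180000) := by
      rw [← Real.rpow_add hn0]; congr 1; ring
    have h3 : 1 ≤ (n : ℝ) ^ ((1 : ℝ) / 180000) := Real.one_le_rpow hn1 (by norm_num)
    have h4 : (n : ℝ) ^ ((1 : ℝ) / 180000) * 2 ≤ (n : ℝ) ^ ((1 : ℝ) / 173667) := by
      rw [h2]
      exact mul_le_mul_of_nonneg_left e1 (by linarith)
    linarith
  have hq1000 : 1000 ≤ q0 := by
    have h1 : (1000 : ℝ) ≤ q0 := by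
      have : (0 : ℝ) ≤ 4 * 10 ^ J := by positivity
      linarith
    exact_mod_cast h1
  have hq0pos : (0 : ℝ) < q0 := by
    have : (0 : ℕ) < q0 := by omega
    exact_mod_cast this
  have hJq : 4 * 10 ^ J ≤ q0 := by
    have h1 : ((4 * 10 ^ J : ℕ) : ℝ) ≤ q0 := by push_cast; linarith
    exact_mod_cast h1
  have hbig : (q0 : ℝ) ^ 57889 ≤ N := by
    calc (q0 : ℝ) ^ 57889 ≤ ((n : ℝ) ^ ((1 : ℝ) / 173667)) ^ 57889 :=
          pow_le_pow_left₀ hq0pos.le hq0le _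
      _ = N := by
          rw [hN, ← Real.rpow_natCast, ← Real.rpow_mul hn0.le]
          norm_num
  obtain ⟨y, hy⟩ : ∃ y : ℝ, y = (n : ℝ) ^ ((1 : ℝ) / 3 - 1 / 200000) := ⟨_, rfl⟩
  rw [← hy] at hcon
  have hy1 : 1 ≤ y := by rw [hy]; exact Real.one_le_rpow hn1 (by norm_num)
  obtain ⟨K, hK⟩ : ∃ K : ℕ, K = ⌊y⌋₊ + 1 := ⟨_, rfl⟩
  have hKge : y ≤ K := by
    rw [hK]; push_cast
    exact (Nat.lt_floor_add_one y).le
  have hKle : (K : ℝ) ≤ y + 1 := by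
    rw [hK]; push_cast
    have := Nat.floor_le (show 0 ≤ y by linarith)
    linarith
  have hK2 : (K : ℝ) ≤ N := by
    refine hKle.trans ?_
    have h1 : N = y * (n : ℝ) ^ ((1 : ℝ) / 200000) := by
      rw [hN, hy, ← Real.rpow_add hn0]; congr 1; ring
    have h2 : y * 2 ≤ N := by
      rw [h1]; exact mul_le_mul_of_nonneg_left e2 (by linarith)
    linarith
  have hK1 : N / q0 ≤ K := by
    refine le_trans ?_ hKge
    rw [div_le_iff₀ hq0pos]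
    calc N = y * (n : ℝ) ^ ((1 : ℝ) / 200000) := by
          rw [hN, hy, ← Real.rpow_add hn0]; congr 1; ring
      _ ≤ y * (n : ℝ) ^ ((1 : ℝ) / 180000) := by
          apply mul_le_mul_of_nonneg_left _ (by linarith)
          exact Real.rpow_le_rpow_of_exponent_le hn1 (by norm_num)
      _ ≤ y * q0 := mul_le_mul_of_nonneg_left hq0ge (by linarith)
  -- the bound for the elements
  obtain ⟨B, hB⟩ : ∃ B : ℕ, B = ⌈(n : ℝ) ^ C1⌉₊ := ⟨_, rfl⟩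
  have hnC : (1 : ℝ) ≤ (n : ℝ) ^ C1 := Real.one_le_rpow hn1 (by linarith)
  have hBle : (B : ℝ) ≤ 2 * (n : ℝ) ^ C1 := by
    have h1 : (B : ℝ) < (n : ℝ) ^ C1 + 1 := by
      rw [hB]; exact Nat.ceil_lt_add_one (by positivity)
    linarith
  have hAB : ∀ a ∈ A, |a| ≤ B := by
    intro a ha
    have h1 : |(a : ℝ)| ≤ (n : ℝ) ^ C1 :=
      (hbd a ha).trans (Real.rpow_le_rpow_of_exponent_le hn1 hC1a)
    have h2 : (n : ℝ) ^ C1 ≤ B := by rw [hB]; exact Nat.le_ceil _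
    have h3 : ((|a| : ℤ) : ℝ) ≤ ((B : ℤ) : ℝ) := by
      push_cast
      linarith
    exact_mod_cast h3
  have hRJ : 2 * (B : ℝ) * (2 / (q0 : ℝ)) ^ J < 1 := by
    have h1 : (n : ℝ) ^ ((1 : ℝ) / 360000) ≤ q0 / 2 := by
      have h2 : (n : ℝ) ^ ((1 : ℝ) / 180000) =
          (n : ℝ) ^ ((1 : ℝ) / 360000) * (n : ℝ) ^ ((1 : ℝ) / 360000) := by
        rw [← Real.rpow_add hn0]; congr 1; ring
      have h3 : 0 ≤ (n : ℝ) ^ ((1 : ℝ) / 360000) := by positivity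
      have h4 : (n : ℝ) ^ ((1 : ℝ) / 360000) * 2 ≤
          (n : ℝ) ^ ((1 : ℝ) / 360000) * (n : ℝ) ^ ((1 : ℝ) / 360000) :=
        mul_le_mul_of_nonneg_left e4 h3
      linarith
    have h5 : (n : ℝ) ^ (C1 + 2) ≤ (q0 / 2 : ℝ) ^ J := by
      calc (n : ℝ) ^ (C1 + 2) ≤ (n : ℝ) ^ ((1 : ℝ) / 360000 * J) := by
            apply Real.rpow_le_rpow_of_exponent_le hn1
            linarith
        _ = ((n : ℝ) ^ ((1 : ℝ) / 360000)) ^ J := by
            rw [Real.rpow_mul hn0.le, Real.rpow_natCast]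
        _ ≤ _ := pow_le_pow_left₀ (by positivity) h1 J
    have h6 : 2 * (B : ℝ) < (n : ℝ) ^ (C1 + 2) := by
      have h7 : (n : ℝ) ^ (C1 + 2) = (n : ℝ) ^ C1 * (n : ℝ) ^ (2 : ℕ) := by
        rw [Real.rpow_add hn0]; norm_cast
      rw [h7]
      have h8 : (4 : ℝ) < (n : ℝ) ^ (2 : ℕ) := by nlinarith
      have h9 : (n : ℝ) ^ C1 * 4 < (n : ℝ) ^ C1 * (n : ℝ) ^ (2 : ℕ) :=
        mul_lt_mul_of_pos_left h8 (by linarith)
      linarith
    have h10 : (2 / (q0 : ℝ)) ^ J = 1 / (q0 / 2 : ℝ) ^ J := by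
      rw [← one_div_pow]
      congr 1
      field_simp
    rw [h10, mul_one_div, div_lt_one (by positivity)]
    linarith
  -- the divisor bound
  obtain ⟨Δ, hΔ⟩ : ∃ Δ : ℝ, Δ = Cε * (n : ℝ) ^ ((1 : ℝ) / 1000000) := ⟨_, rfl⟩
  have hΔ1 : 1 ≤ Δ := by
    rw [hΔ]
    exact one_le_mul_of_one_le_of_one_le hCε1 (Real.one_le_rpow hn1 (by norm_num))
  have hΔdiv : ∀ u : ℕ, 0 < u → u ≤ n ^ 3 * (8 * (B + 1)) → (u.divisors.card : ℝ) ≤ Δ := by
    intro u hu0 hu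
    refine (hCε u hu0.ne').trans ?_
    rw [hΔ]
    apply mul_le_mul_of_nonneg_left _ (by linarith)
    have h1 : (u : ℝ) ≤ (n : ℝ) ^ (C1 + 4) := by
      have h2 : (u : ℝ) ≤ ((n ^ 3 * (8 * (B + 1)) : ℕ) : ℝ) := by exact_mod_cast hu
      push_cast at h2
      have h3 : (n : ℝ) ^ 3 * (8 * (B + 1)) ≤ (n : ℝ) ^ 3 * (24 * (n : ℝ) ^ C1) := by
        apply mul_le_mul_of_nonneg_left _ (by positivity)
        linarith
      have h4 : (n : ℝ) ^ (C1 + 4) = (n : ℝ) ^ C1 * (n : ℝ) ^ (4 : ℕ) := by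
        rw [Real.rpow_add hn0]; norm_cast
      rw [h4]
      refine h2.trans (h3.trans ?_)
      calc (n : ℝ) ^ 3 * (24 * (n : ℝ) ^ C1) = 24 * ((n : ℝ) ^ C1 * (n : ℝ) ^ 3) := by ring
        _ ≤ n * ((n : ℝ) ^ C1 * (n : ℝ) ^ 3) := mul_le_mul_of_nonneg_right hn24' (by positivity)
        _ = _ := by ring
    calc (u : ℝ) ^ ε ≤ ((n : ℝ) ^ (C1 + 4)) ^ ε := Real.rpow_le_rpow (Nat.cast_nonneg _) h1 hε0.le
      _ = (n : ℝ) ^ ((1 : ℝ) / 1000000) := by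
          rw [← Real.rpow_mul hn0.le]
          congr 1
          rw [hε]
          have : C1 + 4 ≠ 0 := by linarith
          field_simp
  -- the prime
  obtain ⟨M, hMlt, hMp⟩ := Nat.exists_infinite_primes (n ^ 3 * (8 * (B + 1)) + 1)
  have hM0 : (0 : ℝ) < M := by exact_mod_cast hMp.pos
  -- clusters
  have hcl : ∀ t : ℕ, ∃ (Ct : Finset ℤ) (kt : ℤ → ℤ) (Xt : ℝ), Ct ⊆ A ∧ Ct.card = K ∧
      (∀ a ∈ Ct, Xt ≤ (t : ℝ) * a - (kt a : ℝ) * M) ∧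
      (∀ a ∈ Ct, (t : ℝ) * a - (kt a : ℝ) * M ≤ Xt + (M : ℝ) / n) := by
    intro t
    obtain ⟨x, hx⟩ := hcon ((t : ℝ) / M)
    set P : ℤ → Prop := fun a => ∃ k : ℤ, x ≤ (t : ℝ) / M * (a : ℝ) - (k : ℝ) ∧
            (t : ℝ) / M * (a : ℝ) - (k : ℝ) ≤ x + 1 / (n : ℝ) with hP
    have hset : {a : ℤ | a ∈ A ∧ P a} = ((A.filter P : Finset ℤ) : Set ℤ) := by
      ext a
      simp
    rw [hset, Set.ncard_coe_finset] at hx
    have hKc : K ≤ (A.filter P).card := by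
      rw [hK]
      have : ⌊y⌋₊ < (A.filter P).card := (Nat.floor_lt (by linarith)).mpr hx
      omega
    obtain ⟨Ct, hCt, hCtK⟩ := exists_subset_card_eq hKc
    have hkt : ∀ a : ℤ, ∃ k : ℤ, a ∈ Ct → x ≤ (t : ℝ) / M * (a : ℝ) - (k : ℝ) ∧
            (t : ℝ) / M * (a : ℝ) - (k : ℝ) ≤ x + 1 / (n : ℝ) := by
      intro a
      by_cases ha : a ∈ Ct
      · obtain ⟨k, hk⟩ := (mem_filter.mp (hCt ha)).2
        exact ⟨k, fun _ => hk⟩
      · exact ⟨0, fun h => absurd h ha⟩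
    choose kt hkt using hkt
    refine ⟨Ct, kt, x * M, hCt.trans (filter_subset _ _), hCtK, ?_, ?_⟩
    · intro a ha
      have h1 := (hkt a ha).1
      have h2 := mul_le_mul_of_nonneg_right h1 hM0.le
      refine h2.trans (le_of_eq ?_)
      field_simp
    · intro a ha
      have h1 := (hkt a ha).2
      have h2 := mul_le_mul_of_nonneg_right h1 hM0.le
      have e : ((t : ℝ) / M * (a : ℝ) - (kt a : ℝ)) * M = (t : ℝ) * a - (kt a : ℝ) * M := by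
        field_simp
      rw [e] at h2
      refine h2.trans (le_of_eq ?_)
      ring
  choose Ct kt Xt hCt using hcl
  set c : Ctx :=
    { n := n, M := M, A := A, K := K, B := B, C := Ct, k := kt, X := Xt, Δ := Δ,
      hM := hMp, hn := by omega, hA := hA, hCA := fun t => (hCt t).1,
      hCK := fun t => (hCt t).2.1, hlo := fun t => (hCt t).2.2.1,
      hhi := fun t => (hCt t).2.2.2, hB := hAB, hBM := hMlt, hΔ1 := hΔ1, hΔ := hΔdiv } with hc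
  -- the loss factor
  have hD1 : c.D1 ≤ q0 := by
    refine le_trans ?_ hq0ge
    have h1 : c.D1 = 22 + 30 * Δ * (1 + Real.log n) := rfl
    rw [h1]
    have h2 : Real.log n ≤ (n : ℝ) ^ ((1 : ℝ) / 1000000) / (1 / 1000000) :=
      Real.log_le_rpow_div hn0.le (by norm_num)
    set z := (n : ℝ) ^ ((1 : ℝ) / 1000000) with hz
    have hz1 : 1 ≤ z := Real.one_le_rpow hn1 (by norm_num)
    have h3 : 1 + Real.log n ≤ 1000001 * z := by linarith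
    have h4 : z * z = (n : ℝ) ^ ((1 : ℝ) / 500000) := by
      rw [hz, ← Real.rpow_add hn0]; congr 1; norm_num
    calc 22 + 30 * Δ * (1 + Real.log n) ≤ 22 + 30 * Δ * (1000001 * z) := by
          have : 0 ≤ 30 * Δ := by linarith
          have := mul_le_mul_of_nonneg_left h3 this
          linarith
      _ = 22 + 30 * Cε * 1000001 * (z * z) := by rw [hΔ]; ring
      _ ≤ 22 * (z * z) + 30 * Cε * 1000001 * (z * z) := by nlinarith
      _ = (22 + 30 * Cε * 1000001) * (z * z) := by ring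
      _ ≤ (n : ℝ) ^ ((1 : ℝ) / 180000 - 1 / 500000) * (z * z) :=
          mul_le_mul_of_nonneg_right e3 (by positivity)
      _ = (n : ℝ) ^ ((1 : ℝ) / 180000) := by
          rw [h4, ← Real.rpow_add hn0]; congr 1; ring
  exact c.no_clusters N q0 J hNn hN0 hq1000 hJq hRJ hbig hK1 hK2 hD1

end Pool.Agent.MP_741d1b.H87
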