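import Mathlib
import Pool.Agent.Lib.MP_741d1b_nt_h87.Expect

/-! Sets covered by few sets with a small difference set have a dilate modulo one without
clusters. -/

set_option autoImplicit false

namespace Pool.Agent.MP_741d1b.H87

open Finset Classical
open scoped Pointwise

/-- Points in a common arc of length `1 / n` have near differences. -/
theorem near_of_arc {M n t : ℕ} (hM : 0 < M) (hn : 0 < n) {a b k l : ℤ} {x : ℝ}
    (ha : x ≤ (t : ℝ) / M * a - k ∧ (t : ℝ) / M * a - k ≤ x + 1 / n)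
    (hb : x ≤ (t : ℝ) / M * b - l ∧ (t : ℝ) / M * b - l ≤ x + 1 / n) :
    Near M n t (a - b) := by
  have hM' : (0 : ℝ) < M := by exact_mod_cast hM
  have hn' : (0 : ℝ) < n := by exact_mod_cast hn
  refine ⟨k - l, ?_⟩
  have h1 : |(t : ℝ) / M * (a - b) - (k - l)| ≤ 1 / n := by
    rw [abs_le]
    constructor <;> linarith [ha.1, ha.2, hb.1, hb.2]
  have h2 : |(t : ℝ) * (a - b) - (k - l) * M| = |(t : ℝ) / M * (a - b) - (k - l)| * M := by
    rw [← abs_of_pos hM', ← abs_mul, abs_of_pos hM']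
    congr 1
    field_simp
  have h3 : |(t : ℝ) * (a - b) - (k - l) * M| * n ≤ M := by
    rw [h2]
    calc |(t : ℝ) / M * (a - b) - (k - l)| * M * n ≤ 1 / n * M * n := by gcongr
      _ = M := by field_simp
  have h4 : ((|(t : ℤ) * (a - b) - (k - l) * M| * n : ℤ) : ℝ) ≤ ((M : ℤ) : ℝ) := by
    push_cast
    exact h3
  exact_mod_cast h4

/-- The quantitative form for one multiplier. -/
theorem good_multiplier (n : ℕ) (hn : 1 ≤ n) (A D : Finset ℤ) (hA : A.card = n)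
    (hDA : D ⊆ A - A) (hD0 : ∀ x ∈ D, x ≠ 0) (m : ℝ) (hm : 0 < m)
    (hΓ : 15 / n * ∑ x ∈ D, ∑ y ∈ D, (if hgt x y ≤ n then 1 / (hgt x y : ℝ) else 0) ≤ m) :
    ∃ M t : ℕ, 0 < M ∧ ∀ C : Finset ℤ, C ⊆ A → (∀ a ∈ C, ∀ b ∈ C, a ≠ b → a - b ∈ D) →
      (∀ a ∈ C, ∀ b ∈ C, a ≠ b → Near M n t (a - b)) →
      (C.card : ℝ) ^ 2 ≤ 1 + 24 * m + 99 * Real.sqrt n := by
  have hn0 : 0 < n := hn
  have hn' : (0 : ℝ) < n := by exact_mod_cast hn0
  obtain ⟨M, hML, hM⟩ := Nat.exists_infinite_primes (n * (2 * (∑ a ∈ A, a.natAbs) + 1) + 1)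
  have hnM : n ≤ M := by
    have h0 : n * 1 ≤ n * (2 * (∑ a ∈ A, a.natAbs) + 1) := Nat.mul_le_mul_left _ (by omega)
    omega
  have hbd : ∀ a ∈ A, ∀ c ∈ A, (n : ℤ) * |a - c| < M := by
    intro a ha c hc
    have h1 : a.natAbs ≤ ∑ a ∈ A, a.natAbs :=
      Finset.single_le_sum (f := fun a : ℤ => a.natAbs) (fun _ _ => Nat.zero_le _) ha
    have h2 : c.natAbs ≤ ∑ a ∈ A, a.natAbs :=
      Finset.single_le_sum (f := fun a : ℤ => a.natAbs) (fun _ _ => Nat.zero_le _) hc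
    have h3 : (a - c).natAbs ≤ 2 * ∑ a ∈ A, a.natAbs := by
      have := Int.natAbs_sub_le a c
      omega
    have h4 : n * (a - c).natAbs < M := by
      calc n * (a - c).natAbs ≤ n * (2 * ∑ a ∈ A, a.natAbs) := Nat.mul_le_mul_left _ h3
        _ < M := by nlinarith
    have h5 : (n : ℤ) * ((a - c).natAbs : ℤ) < M := by exact_mod_cast h4
    rwa [Int.natCast_natAbs] at h5
  have hDM : ∀ x ∈ D, (n : ℤ) * |x| < M := by
    intro x hx
    obtain ⟨a, ha, c, hc, rfl⟩ := mem_sub.mp (hDA hx)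
    exact hbd a ha c hc
  obtain ⟨t, h1, h2, h3⟩ := exists_good (M := M) hM.pos
    (fun t => f1 A D (Near M n t)) (fun t => f2 D n (Near M n t)) (fun t => f3 A D n (Near M n t))
    (fun t => by
      unfold f1
      refine sum_nonneg fun x _ => ?_
      split_ifs
      · exact Nat.cast_nonneg _
      · exact le_refl _)
    (fun t => by
      unfold f2
      refine sum_nonneg fun x _ => sum_nonneg fun y _ => ?_
      split_ifs <;> norm_num)
    (fun t => by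
      unfold f3
      exact sum_nonneg fun x _ => div_nonneg (Q_nonneg _ _ _ _) (Nat.cast_nonneg _))
    (3 * n) m 15 (by positivity) hm (by norm_num)
    (exp_f1 A D hM hn0 hnM hA hD0 hDM)
    ((exp_f2 D hM hn0 hD0 hDM).trans (mul_le_mul_of_nonneg_left hΓ (Nat.cast_nonneg _)))
    (exp_f3 A D hM hn0 hA hD0 hDM hbd)
  refine ⟨M, t, hM.pos, ?_⟩
  intro C hCA hCD hN
  have hs : 0 < Real.sqrt n := Real.sqrt_pos.mpr hn'
  have h4 := cluster_sq_le A D C hCA hD0 (Near M n t) hCD hN n hn (1 / Real.sqrt n) (by positivity)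
  have hss : Real.sqrt n * Real.sqrt n = n := Real.mul_self_sqrt hn'.le
  have e1 : 1 / Real.sqrt n / 2 * f1 A D (Near M n t) ≤ 9 / 2 * Real.sqrt n := by
    calc 1 / Real.sqrt n / 2 * f1 A D (Near M n t) ≤ 1 / Real.sqrt n / 2 * (3 * (3 * n)) := by
          gcongr
      _ = 9 / 2 * (n / Real.sqrt n) := by ring
      _ = 9 / 2 * Real.sqrt n := by rw [Real.div_sqrt]
  have e2 : f3 A D n (Near M n t) / (1 / Real.sqrt n) ≤ 45 * Real.sqrt n := by
    rw [one_div, div_inv_eq_mul]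
    have : f3 A D n (Near M n t) ≤ 45 := by linarith
    gcongr
  have e3 : f2 D n (Near M n t) ≤ 3 * m := h2
  nlinarith [sq_nonneg ((C.card : ℝ) - 1)]

/-- Main theorem. -/
theorem small_difference_sets (τ c : ℝ) (hτ : τ / 2 < c) (hc : 1 / 4 < c) :
    ∃ η : ℝ, 0 < η ∧ ∃ N : ℕ, ∀ n : ℕ, N ≤ n → ∀ A : Finset ℤ, A.card = n →
      ∀ F : Finset (Finset ℤ), (F.card : ℝ) ≤ (n : ℝ) ^ η → (∀ a ∈ A, ∃ B ∈ F, a ∈ B) →
      (∀ B ∈ F, ((B - B).card : ℝ) ≤ (n : ℝ) ^ (1 + τ)) →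
      ∃ θ : ℝ, ∀ x : ℝ,
        (({a : ℤ | a ∈ A ∧ ∃ k : ℤ, x ≤ θ * (a : ℝ) - (k : ℝ) ∧
            θ * (a : ℝ) - (k : ℝ) ≤ x + 1 / (n : ℝ)}.ncard : ℕ) : ℝ) ≤ (n : ℝ) ^ c := by
  set γ : ℝ := max (τ / 2) (1 / 4) with hγ
  have hγc : γ < c := max_lt hτ hc
  set δ : ℝ := c - γ with hδ
  have hδ0 : 0 < δ := by rw [hδ]; linarith
  obtain ⟨C, hC1, hgcd⟩ := gcd_sum_int (δ / 4) (by positivity)
  refine ⟨δ / 4, by positivity, ?_⟩
  obtain ⟨N, hN⟩ : ∃ N : ℕ, 460 * C + 1 ≤ (N : ℝ) ^ δ := by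
    have := (tendsto_rpow_atTop hδ0).comp (tendsto_natCast_atTop_atTop (R := ℝ))
    obtain ⟨N, hN⟩ := (this.eventually_ge_atTop (460 * C + 1)).exists
    exact ⟨N, hN⟩
  refine ⟨max N 1, ?_⟩
  intro n hn A hA F hF hcov hdiff
  have hn1 : 1 ≤ n := (le_max_right _ _).trans hn
  have hnN : N ≤ n := (le_max_left _ _).trans hn
  have hn1' : (1 : ℝ) ≤ n := by exact_mod_cast hn1
  have hn0 : (0 : ℝ) < n := by linarith
  have hNn : 460 * C + 1 ≤ (n : ℝ) ^ δ :=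
    hN.trans (Real.rpow_le_rpow (Nat.cast_nonneg _) (by exact_mod_cast hnN) hδ0.le)
  -- the set of differences
  set D : Finset ℤ := (F.biUnion (fun B => (A ∩ B) - (A ∩ B))).filter (fun x => x ≠ 0) with hD
  have hD0 : ∀ x ∈ D, x ≠ 0 := fun x hx => (mem_filter.mp hx).2
  have hDA : D ⊆ A - A := by
    intro x hx
    obtain ⟨B, _, hx⟩ := mem_biUnion.mp (mem_filter.mp hx).1
    exact sub_subset_sub inter_subset_left inter_subset_left hx
  have hDcard : (D.card : ℝ) ≤ (n : ℝ) ^ (1 + τ + δ / 4) := by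
    have h1 : D.card ≤ ∑ B ∈ F, (B - B).card := by
      refine (card_filter_le _ _).trans (card_biUnion_le.trans ?_)
      exact sum_le_sum fun B _ =>
        card_le_card (sub_subset_sub inter_subset_right inter_subset_right)
    calc (D.card : ℝ) ≤ ∑ B ∈ F, ((B - B).card : ℝ) := by exact_mod_cast h1
      _ ≤ ∑ B ∈ F, (n : ℝ) ^ (1 + τ) := sum_le_sum hdiff
      _ = (F.card : ℝ) * (n : ℝ) ^ (1 + τ) := by rw [sum_const, nsmul_eq_mul]
      _ ≤ (n : ℝ) ^ (δ / 4) * (n : ℝ) ^ (1 + τ) := by gcongr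
      _ = (n : ℝ) ^ (1 + τ + δ / 4) := by rw [← Real.rpow_add hn0]; congr 1; ring
  have hDcard2 : D.card ≤ n ^ 2 := by
    calc D.card ≤ (A - A).card := card_le_card hDA
      _ ≤ A.card * A.card := card_sub_le
      _ = n ^ 2 := by rw [hA, sq]
  have hΓ := hgcd n hn1 D hD0 hDcard2
  set m : ℝ := 15 * C * (n : ℝ) ^ (τ + δ / 2) with hm
  have hm0 : 0 < m := by positivity
  have hΓm : 15 / n * ∑ x ∈ D, ∑ y ∈ D, (if hgt x y ≤ n then 1 / (hgt x y : ℝ) else 0) ≤ m := by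
    calc 15 / n * ∑ x ∈ D, ∑ y ∈ D, (if hgt x y ≤ n then 1 / (hgt x y : ℝ) else 0)
        ≤ 15 / n * (C * (n : ℝ) ^ (1 + τ + δ / 4) * (n : ℝ) ^ (δ / 4)) := by
          apply mul_le_mul_of_nonneg_left _ (by positivity)
          refine hΓ.trans ?_
          gcongr
      _ = m := by
          have : (n : ℝ) ^ (1 + τ + δ / 4) * (n : ℝ) ^ (δ / 4) = n * (n : ℝ) ^ (τ + δ / 2) := by
            rw [← Real.rpow_add hn0]
            nth_rewrite 2 [← Real.rpow_one (n : ℝ)]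
            rw [← Real.rpow_add hn0]
            congr 1; ring
          rw [hm, mul_assoc C, this]
          field_simp
  obtain ⟨M, t, hM, hgood⟩ := good_multiplier n hn1 A D hA hDA hD0 m hm0 hΓm
  refine ⟨(t : ℝ) / M, ?_⟩
  intro x
  set P : ℤ → Prop := fun a => ∃ k : ℤ, x ≤ (t : ℝ) / M * (a : ℝ) - (k : ℝ) ∧
            (t : ℝ) / M * (a : ℝ) - (k : ℝ) ≤ x + 1 / (n : ℝ) with hP
  -- each piece
  have hpiece : ∀ B ∈ F, (((A ∩ B).filter P).card : ℝ) ≤ Real.sqrt (460 * C + 1) *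
      (n : ℝ) ^ (γ + δ / 4) := by
    intro B hB
    have h1 := hgood ((A ∩ B).filter P) (by
      intro a ha
      exact (mem_inter.mp (mem_filter.mp ha).1).1) (by
      intro a ha b hb hab
      rw [hD, mem_filter]
      refine ⟨mem_biUnion.mpr ⟨B, hB, ?_⟩, sub_ne_zero.mpr hab⟩
      exact sub_mem_sub (mem_filter.mp ha).1 (mem_filter.mp hb).1) (by
      intro a ha b hb _
      obtain ⟨k, hk⟩ := (mem_filter.mp ha).2
      obtain ⟨l, hl⟩ := (mem_filter.mp hb).2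
      exact near_of_arc hM hn1 hk hl)
    have h2 : 1 + 24 * m + 99 * Real.sqrt n ≤ (460 * C + 1) * (n : ℝ) ^ (2 * γ + δ / 2) := by
      have a1 : (n : ℝ) ^ (τ + δ / 2) ≤ (n : ℝ) ^ (2 * γ + δ / 2) := by
        apply Real.rpow_le_rpow_of_exponent_le hn1'
        have : τ / 2 ≤ γ := le_max_left _ _
        linarith
      have a2 : Real.sqrt n ≤ (n : ℝ) ^ (2 * γ + δ / 2) := by
        rw [Real.sqrt_eq_rpow]
        apply Real.rpow_le_rpow_of_exponent_le hn1'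
        have : 1 / 4 ≤ γ := le_max_right _ _
        linarith
      have a3 : 1 ≤ (n : ℝ) ^ (2 * γ + δ / 2) := by
        apply Real.one_le_rpow hn1'
        have : 1 / 4 ≤ γ := le_max_right _ _
        linarith
      have a4 : C * (n : ℝ) ^ (τ + δ / 2) ≤ C * (n : ℝ) ^ (2 * γ + δ / 2) := by gcongr
      have a5 : (n : ℝ) ^ (2 * γ + δ / 2) ≤ C * (n : ℝ) ^ (2 * γ + δ / 2) := by nlinarith
      rw [hm]
      nlinarith
    have h3 : (((A ∩ B).filter P).card : ℝ) ≤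
        Real.sqrt ((460 * C + 1) * (n : ℝ) ^ (2 * γ + δ / 2)) := by
      apply Real.le_sqrt_of_sq_le
      exact h1.trans h2
    refine h3.trans (le_of_eq ?_)
    rw [Real.sqrt_mul (by positivity)]
    congr 1
    rw [Real.sqrt_eq_rpow, ← Real.rpow_mul hn0.le]
    congr 1; ring
  have hset : {a : ℤ | a ∈ A ∧ P a} ⊆ ((F.biUnion (fun B => (A ∩ B).filter P) : Finset ℤ) : Set ℤ) := by
    intro a ha
    obtain ⟨ha1, ha2⟩ := ha
    obtain ⟨B, hB, haB⟩ := hcov a ha1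
    simp only [mem_coe, mem_biUnion]
    exact ⟨B, hB, mem_filter.mpr ⟨mem_inter.mpr ⟨ha1, haB⟩, ha2⟩⟩
  have hcard : {a : ℤ | a ∈ A ∧ P a}.ncard ≤ ∑ B ∈ F, ((A ∩ B).filter P).card := by
    calc {a : ℤ | a ∈ A ∧ P a}.ncard
        ≤ ((F.biUnion (fun B => (A ∩ B).filter P) : Finset ℤ) : Set ℤ).ncard :=
          Set.ncard_le_ncard hset (Finset.finite_toSet _)
      _ = (F.biUnion (fun B => (A ∩ B).filter P)).card := Set.ncard_coe_finset _
      _ ≤ ∑ B ∈ F, ((A ∩ B).filter P).card := card_biUnion_le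
  calc (({a : ℤ | a ∈ A ∧ P a}.ncard : ℕ) : ℝ) ≤ ∑ B ∈ F, (((A ∩ B).filter P).card : ℝ) := by
        exact_mod_cast hcard
    _ ≤ ∑ B ∈ F, Real.sqrt (460 * C + 1) * (n : ℝ) ^ (γ + δ / 4) := sum_le_sum hpiece
    _ = (F.card : ℝ) * (Real.sqrt (460 * C + 1) * (n : ℝ) ^ (γ + δ / 4)) := by
        rw [sum_const, nsmul_eq_mul]
    _ ≤ (n : ℝ) ^ (δ / 4) * ((n : ℝ) ^ (δ / 2) * (n : ℝ) ^ (γ + δ / 4)) := by
        have : Real.sqrt (460 * C + 1) ≤ (n : ℝ) ^ (δ / 2) := by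
          rw [Real.sqrt_le_left (by positivity), ← Real.rpow_natCast, ← Real.rpow_mul hn0.le]
          push_cast
          rw [show δ / 2 * 2 = δ by ring]
          exact hNn
        gcongr
    _ = (n : ℝ) ^ c := by
        rw [← Real.rpow_add hn0, ← Real.rpow_add hn0]
        congr 1
        rw [hδ]; ring

end Pool.Agent.MP_741d1b.H87
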